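import Mathlib
import Pool.Agent.Results.MP_e3a8c8_an.ShimorinCertificates

/-!
The converse direction for Shimorin certificates: a pair of kernels having the one-point extension
property (in particular: a pair with a Shimorin certificate) is a complete Pick pair. Together with
the existence of certificates this shows that complete Pick pairs are stable under multiplication
of the second kernel.
-/

set_option autoImplicit false

namespace Pool.Agent.V11131.CPMul

open scoped InnerProductSpace ComplexOrder ComplexConjugate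
open Matrix Pool.Agent.H770R3.Shim
open Pool.Agent.Results.MP_e3a8c8_an.ShimorinCertificates

universe u
variable {X : Type u} {N : ℕ}

lemma Q_sub (a b : Matrix X X ℂ) (F : Finset X) (h : X → E N) :
    Q (a - b) F h = Q a F h - Q b F h := by
  unfold Q
  rw [← Complex.sub_re, ← Finset.sum_sub_distrib]
  congr 1
  refine Finset.sum_congr rfl fun i _ => ?_
  rw [← Finset.sum_sub_distrib]
  refine Finset.sum_congr rfl fun j _ => ?_
  rw [Matrix.sub_apply, sub_mul]

/-- a positive kernel acts on forms by Schur multiplication as a sum of diagonal congruences -/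
lemma Q_hadamard {p : Matrix X X ℂ} (hp : p.PosSemidef) (F : Finset X) :
    ∃ b : F → X → ℂ, ∀ (g : Matrix X X ℂ) (h : X → E N),
      Q (p ⊙ g) F h = ∑ m : F, Q g F (fun i => b m i • h i) := by
  classical
  obtain ⟨B, hB⟩ := exists_factor (hp.submatrix (fun i : F => (i : X)))
  have hB' : ∀ i (hi : i ∈ F) j (hj : j ∈ F), p i j = ∑ m : F, conj (B m ⟨i, hi⟩) * B m ⟨j, hj⟩ := by
    intro i hi j hj
    have h1 := congrFun (congrFun hB ⟨i, hi⟩) ⟨j, hj⟩
    simpa [Matrix.mul_apply] using h1
  refine ⟨fun m i => if hi : i ∈ F then B m ⟨i, hi⟩ else 0, fun g h => ?_⟩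
  unfold Q
  rw [← Complex.re_sum (Finset.univ : Finset F)
    (fun m => ∑ i ∈ F, ∑ j ∈ F, g i j *
      ⟪(if hi : i ∈ F then B m ⟨i, hi⟩ else 0) • h i,
        (if hj : j ∈ F then B m ⟨j, hj⟩ else 0) • h j⟫_ℂ)]
  congr 1
  conv_rhs => rw [Finset.sum_comm]
  refine Finset.sum_congr rfl fun i hi => ?_
  conv_rhs => rw [Finset.sum_comm]
  refine Finset.sum_congr rfl fun j hj => ?_
  simp only [dif_pos hi, dif_pos hj, inner_smul_left, inner_smul_right, Matrix.hadamard_apply]
  rw [hB' i hi j hj, Finset.sum_mul, Finset.sum_mul]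
  refine Finset.sum_congr rfl fun m _ => ?_
  ring

/-- a certificate at `z` gives the one-point extension inequality at `z` -/
lemma onePoint_of_cert {k l p : Matrix X X ℂ} {z : X} (hp : p.PosSemidef)
    (h1 : (red l z - p ⊙ l).PosSemidef) (h2 : (p ⊙ k - red k z).PosSemidef)
    (F : Finset X) (S : X → E N →ₗ[ℂ] E N)
    (hS : ∀ h : X → E N, Q k F (fun i => S i (h i)) ≤ Q l F h) (h : X → E N) :
    Q (red k z) F (fun i => S i (h i)) ≤ Q (red l z) F h := by
  obtain ⟨b, hb⟩ := Q_hadamard (N := N) hp F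
  have e1 := Q_nonneg h1 F h
  have e2 := Q_nonneg h2 F (fun i => S i (h i))
  rw [Q_sub, hb] at e1 e2
  have e3 : ∑ m : F, Q k F (fun i => b m i • S i (h i)) ≤ ∑ m : F, Q l F (fun i => b m i • h i) := by
    refine Finset.sum_le_sum fun m _ => ?_
    have := hS (fun i => b m i • h i)
    simpa only [map_smul] using this
  linarith

/-- restricting the set -/
lemma Q_subset (g : Matrix X X ℂ) {F G : Finset X} (hFG : F ⊆ G) {h : X → E N}
    (h0 : ∀ i, i ∉ F → h i = 0) : Q g F h = Q g G h := by
  unfold Q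
  congr 1
  rw [← Finset.sum_subset hFG]
  · refine Finset.sum_congr rfl fun i _ => ?_
    rw [← Finset.sum_subset hFG]
    intro j _ hj
    rw [h0 j hj, inner_zero_right, mul_zero]
  · intro i _ hi
    exact Finset.sum_eq_zero fun j _ => by rw [h0 i hi, inner_zero_left, mul_zero]

lemma ineq_subset {k l : Matrix X X ℂ} {F G : Finset X} (hFG : F ⊆ G) {S : X → E N →ₗ[ℂ] E N}
    (hS : ∀ h : X → E N, Q k G (fun i => S i (h i)) ≤ Q l G h) (h : X → E N) :
    Q k F (fun i => S i (h i)) ≤ Q l F h := by
  classical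
  set h' : X → E N := fun i => if i ∈ F then h i else 0 with hh'
  have e1 : Q k F (fun i => S i (h i)) = Q k F (fun i => S i (h' i)) :=
    Q_congr _ fun i hi => by simp [h', hi]
  have e2 : Q l F h = Q l F h' := Q_congr _ fun i hi => by simp [h', hi]
  rw [e1, e2, Q_subset k hFG (h := fun i => S i (h' i)) (fun i hi => by simp [h', hi]),
    Q_subset l hFG (h := h') (fun i hi => by simp [h', hi])]
  exact hS h'

/-- finite extension -/
lemma fin_ext {k l : Matrix X X ℂ} (hk : k.PosSemidef) (hl : l.PosSemidef)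
    (hOP : OnePoint N k l) (F D : Finset X) (T : X → E N →ₗ[ℂ] E N)
    (hT : ∀ h : X → E N, Q k F (fun i => T i (h i)) ≤ Q l F h) (hFD : F ⊆ D) :
    ∃ S : X → E N →ₗ[ℂ] E N, (∀ i ∈ F, S i = T i) ∧
      ∀ h : X → E N, Q k D (fun i => S i (h i)) ≤ Q l D h := by
  classical
  obtain ⟨S, hS1, hS2⟩ := tnp hk hl hOP D.card D rfl
    (fun i => if i ∈ F then ⊤ else ⊥) T (by
      intro h hh
      set h' : X → E N := fun i => if i ∈ F then h i else 0 with hh'
      have hz : ∀ i ∈ D, h i = h' i := by
        intro i hi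
        by_cases hiF : i ∈ F
        · simp [h', hiF]
        · have := hh i hi
          rw [if_neg hiF] at this
          simp [h', hiF, (Submodule.mem_bot ℂ).mp this]
      have e1 : Q k D (fun i => T i (h i)) = Q k D (fun i => T i (h' i)) :=
        Q_congr _ fun i hi => by rw [hz i hi]
      have e2 : Q l D h = Q l D h' := Q_congr _ fun i hi => hz i hi
      rw [e1, e2, ← Q_subset k hFD (h := fun i => T i (h' i)) (fun i hi => by simp [h', hi]),
        ← Q_subset l hFD (h := h') (fun i hi => by simp [h', hi])]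
      exact hT h')
  refine ⟨S, fun i hi => ?_, hS2⟩
  apply LinearMap.ext
  intro v
  exact hS1 i (hFD hi) v (by rw [if_pos hi]; trivial)

/-- one-point extension property implies complete Pick pair -/
theorem cp_of_onePoint {k l : Kernel X} (hk : ∀ x, k.fn x x ≠ 0)
    (hOP : ∀ N, OnePoint N k.fn l.fn) : IsCPPair k l := by
  classical
  intro N hN F hF W hP
  have hQ := (pick_iff F W).mp hP
  let R : X → ℝ := fun x => Real.sqrt ((l.fn x x).re / (k.fn x x).re)
  let K : X → Set (Matrix (Fin N) (Fin N) ℂ) := fun x =>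
    Set.pi Set.univ fun _ => Set.pi Set.univ fun _ => Metric.closedBall 0 (R x)
  have hK : ∀ x, IsCompact (K x) := fun x =>
    isCompact_univ_pi fun _ => isCompact_univ_pi fun _ => isCompact_closedBall 0 (R x)
  have hKp : IsCompact (Set.pi Set.univ K) := isCompact_univ_pi hK
  let C : Finset X → Set (X → Matrix (Fin N) (Fin N) ℂ) := fun D =>
    Set.pi Set.univ K ∩ ({Φ | ∀ x ∈ F, Φ x = W x} ∩
      {Φ | ∀ h : X → E N, Q k.fn (F ∪ D) (fun i => adjMap Φ i (h i)) ≤ Q l.fn (F ∪ D) h})
  have hadj : ∀ (x : X) (v : E N), Continuous fun Φ : X → Matrix (Fin N) (Fin N) ℂ =>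
      adjMap Φ x v := by
    intro x v
    have h1 : Continuous fun Φ : X → Matrix (Fin N) (Fin N) ℂ => (Φ x)ᴴ :=
      (continuous_apply x).matrix_conjTranspose
    have h2 : Continuous fun A : Matrix (Fin N) (Fin N) ℂ => Matrix.toEuclideanLin A v := by
      let L : Matrix (Fin N) (Fin N) ℂ →ₗ[ℂ] E N :=
        { toFun := fun A => Matrix.toEuclideanLin A v
          map_add' := fun A B => by simp
          map_smul' := fun c A => by simp }
      exact L.continuous_of_finiteDimensional
    exact h2.comp h1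
  have hcl1 : IsClosed {Φ : X → Matrix (Fin N) (Fin N) ℂ | ∀ x ∈ F, Φ x = W x} := by
    simp only [Set.ofPred_forall]
    exact isClosed_biInter fun x _ => isClosed_eq (continuous_apply x) continuous_const
  have hcl2 : ∀ D : Finset X, IsClosed {Φ : X → Matrix (Fin N) (Fin N) ℂ |
      ∀ h : X → E N, Q k.fn (F ∪ D) (fun i => adjMap Φ i (h i)) ≤ Q l.fn (F ∪ D) h} := by
    intro D
    simp only [Set.ofPred_forall]
    refine isClosed_iInter fun h => isClosed_le ?_ continuous_const
    unfold Q
    refine Complex.continuous_re.comp ?_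
    refine continuous_finsetSum _ fun i _ => continuous_finsetSum _ fun j _ => ?_
    exact continuous_const.mul ((hadj i (h i)).inner (hadj j (h j)))
  have hKcl : IsClosed (Set.pi Set.univ K) := hKp.isClosed
  have hCcl : ∀ D, IsClosed (C D) := fun D => hKcl.inter (hcl1.inter (hcl2 D))
  have hCc : ∀ D, IsCompact (C D) := fun D => hKp.inter_right (hcl1.inter (hcl2 D))
  have hCne : ∀ D, (C D).Nonempty := by
    intro D
    obtain ⟨S, hS1, hS2⟩ := fin_ext (N := N) k.psd l.psd (hOP N) F (F ∪ D) (adjMap W) hQ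
      Finset.subset_union_left
    let Φ : X → Matrix (Fin N) (Fin N) ℂ := fun x =>
      if x ∈ F ∪ D then (Matrix.toEuclideanLin.symm (S x))ᴴ else 0
    have hΦ : ∀ x ∈ F ∪ D, adjMap Φ x = S x := by
      intro x hx
      simp only [adjMap, Φ, if_pos hx, Matrix.conjTranspose_conjTranspose,
        LinearEquiv.apply_symm_apply]
    have hΦQ : ∀ h : X → E N, Q k.fn (F ∪ D) (fun i => adjMap Φ i (h i)) ≤ Q l.fn (F ∪ D) h := by
      intro h
      have : Q k.fn (F ∪ D) (fun i => adjMap Φ i (h i)) = Q k.fn (F ∪ D) (fun i => S i (h i)) :=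
        Q_congr _ fun i hi => by rw [hΦ i hi]
      rw [this]
      exact hS2 h
    refine ⟨Φ, ?_, ?_, hΦQ⟩
    · intro x _
      by_cases hx : x ∈ F ∪ D
      · intro a _ b _
        rw [mem_closedBall_zero_iff]
        have h1 := ineq_subset (k := k.fn) (l := l.fn) (S := adjMap Φ)
          (Finset.singleton_subset_iff.mpr hx) hΦQ (fun _ => bv a)
        have h2 : ∀ (g : Matrix X X ℂ) (h : X → E N), g x x = ((g x x).re : ℂ) →
            Q g {x} h = (g x x).re * ‖h x‖ ^ 2 := by
          intro g h hg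
          unfold Q
          rw [Finset.sum_singleton, Finset.sum_singleton, hg, Complex.re_ofReal_mul,
            inner_self_eq_norm_sq_to_K]
          simp [← Complex.ofReal_pow]
        rw [h2 _ _ (psd_diag_eq k.psd x), h2 _ _ (psd_diag_eq l.psd x)] at h1
        have h3 : ‖(bv a : E N)‖ = 1 := by simp [bv]
        rw [h3, one_pow, mul_one] at h1
        have hkpos : 0 < (k.fn x x).re := by
          refine lt_of_le_of_ne (psd_diag_re k.psd x) fun h0 => hk x ?_
          rw [psd_diag_eq k.psd x, ← h0]; simp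
        have h4 : ‖adjMap Φ x (bv a)‖ ^ 2 ≤ (l.fn x x).re / (k.fn x x).re := by
          rw [le_div_iff₀ hkpos]; linarith
        have h5 : ‖Φ x a b‖ ^ 2 ≤ ‖adjMap Φ x (bv a)‖ ^ 2 := by
          rw [EuclideanSpace.norm_sq_eq]
          have h6 : ‖(adjMap Φ x (bv a)) b‖ ^ 2 = ‖Φ x a b‖ ^ 2 := by
            simp [adjMap, Matrix.toLpLin_apply, bv]
          rw [← h6]
          exact Finset.single_le_sum (f := fun i => ‖(adjMap Φ x (bv a)) i‖ ^ 2)
            (fun i _ => sq_nonneg _) (Finset.mem_univ b)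
        exact Real.le_sqrt_of_sq_le (h5.trans h4)
      · intro a _ b _
        simp only [Φ, if_neg hx]
        rw [mem_closedBall_zero_iff]
        simp only [Matrix.zero_apply, norm_zero]
        exact Real.sqrt_nonneg _
    · intro x hx
      have h1 := hS1 x hx
      simp only [Φ, if_pos (Finset.mem_union_left D hx), h1, adjMap,
        LinearEquiv.symm_apply_apply, Matrix.conjTranspose_conjTranspose]
  have hdir : Directed (· ⊇ ·) C := by
    intro D D'
    refine ⟨D ∪ D', ?_, ?_⟩
    · rintro Φ ⟨h1, h2, h3⟩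
      exact ⟨h1, h2, ineq_subset (Finset.union_subset_union_right Finset.subset_union_left) h3⟩
    · rintro Φ ⟨h1, h2, h3⟩
      exact ⟨h1, h2, ineq_subset (Finset.union_subset_union_right Finset.subset_union_right) h3⟩
  obtain ⟨Φ, hΦ⟩ := IsCompact.nonempty_iInter_of_directed_nonempty_isCompact_isClosed C hdir
    hCne hCc hCcl
  rw [Set.mem_iInter] at hΦ
  refine ⟨Φ, multiplier_of_Q fun D h => ?_, (hΦ ∅).2.1⟩
  exact ineq_subset Finset.subset_union_right (hΦ D).2.2 h

lemma psd_red {g : Matrix X X ℂ} (hg : g.PosSemidef) (z : X) : (red g z).PosSemidef := by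
  classical
  refine psd_of_sum (fun x y => red_herm hg z x y) fun F c => ?_
  have h2 : ∀ (D : Finset X), z ∉ D → 0 ≤ Q (red g z) D (fun i => (c i • bv 0 : E 1)) := by
    intro D hz
    set h' : X → E 1 := Function.update (fun i => (c i • bv 0 : E 1)) z
      (-∑ j ∈ D, (g z j / g z z) • (c j • bv 0 : E 1)) with hh'
    have hne : ∀ i ∈ D, i ≠ z := fun i hi e => hz (e ▸ hi)
    have e0 := Q_nonneg hg (insert z D) h'
    rw [Q_insert hg hz] at e0
    have e1 : Q (red g z) D h' = Q (red g z) D (fun i => (c i • bv 0 : E 1)) :=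
      Q_congr _ fun i hi => by simp only [h', Function.update_of_ne (hne i hi)]
    have e3 : h' z + ∑ j ∈ D, (g z j / g z z) • h' j = 0 := by
      have : ∑ j ∈ D, (g z j / g z z) • h' j = ∑ j ∈ D, (g z j / g z z) • (c j • bv 0 : E 1) :=
        Finset.sum_congr rfl fun j hj => by simp only [h', Function.update_of_ne (hne j hj)]
      rw [this]
      simp [h']
    rw [e1, e3, norm_zero] at e0
    simpa using e0
  have h1 : (∑ i ∈ F, ∑ j ∈ F, conj (c i) * red g z i j * c j).re
      = Q (red g z) F (fun i => (c i • bv 0 : E 1)) := by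
    unfold Q
    congr 1
    refine Finset.sum_congr rfl fun i _ => Finset.sum_congr rfl fun j _ => ?_
    rw [inner_smul_left, inner_smul_right, inner_self_eq_norm_sq_to_K]
    simp [bv]
    ring
  rw [h1]
  by_cases hz : z ∈ F
  · have h3 : Q (red g z) F (fun i => (c i • bv 0 : E 1))
        = Q (red g z) (F.erase z) (fun i => (c i • bv 0 : E 1)) := by
      conv_lhs => rw [← Finset.insert_erase hz]
      unfold Q
      congr 1
      rw [Finset.sum_insert (Finset.notMem_erase z F)]
      rw [Finset.sum_eq_zero (fun j _ => by rw [red_zero_row hg z j, zero_mul]), zero_add]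
      refine Finset.sum_congr rfl fun i _ => ?_
      rw [Finset.sum_insert (Finset.notMem_erase z F), red_zero_col hg z i, zero_mul, zero_add]
    rw [h3]
    exact h2 _ (Finset.notMem_erase z F)
  · exact h2 F hz

lemma psd_rank_one (v : X → ℂ) {r : ℝ} (hr : 0 ≤ r) :
    (Matrix.of fun x y => v x * conj (v y) * (r : ℂ) : Matrix X X ℂ).PosSemidef := by
  refine psd_of_sum (fun x y => ?_) fun F c => ?_
  · simp only [Matrix.of_apply, map_mul, Complex.conj_conj, Complex.conj_ofReal]
    ring
  · have h1 : ∑ i ∈ F, ∑ j ∈ F, conj (c i) * (Matrix.of fun x y => v x * conj (v y) * (r : ℂ) :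
        Matrix X X ℂ) i j * c j
        = (r : ℂ) * ((∑ i ∈ F, conj (c i) * v i) * conj (∑ i ∈ F, conj (c i) * v i)) := by
      rw [map_sum, Finset.sum_mul_sum, Finset.mul_sum]
      refine Finset.sum_congr rfl fun i _ => ?_
      rw [Finset.mul_sum]
      refine Finset.sum_congr rfl fun j _ => ?_
      simp only [Matrix.of_apply, map_mul, Complex.conj_conj]
      ring
    rw [h1, Complex.mul_conj, Complex.re_ofReal_mul, Complex.ofReal_re]
    exact mul_nonneg hr (Complex.normSq_nonneg _)

/-- the one-point property is stable under multiplication of the second kernel -/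
lemma onePoint_mul {k l : Kernel X} (hl : ∀ x, l.fn x x ≠ 0)
    (hcp : IsCPPair k l) (h : Kernel X) (hh : ∀ x, h.fn x x ≠ 0) (N : ℕ) :
    OnePoint N k.fn (l.fn ⊙ h.fn) := by
  obtain ⟨p, hp⟩ := certificate_of_cp k l (fun x hx => absurd hx (hl x)) hcp
  intro F z hz S hS
  obtain ⟨h1, h2⟩ := hp z
  refine onePoint_of_cert (p := (p z).fn) (p z).psd ?_ h2 F S hS
  have hlz : l.fn z z = ((l.fn z z).re : ℂ) := psd_diag_eq l.psd z
  have hr : 0 ≤ ((l.fn z z).re)⁻¹ := inv_nonneg.mpr (psd_diag_re l.psd z)
  have e1 := h1.hadamard h.psd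
  have e2 := (psd_rank_one (fun x => l.fn x z) hr).hadamard (psd_red h.psd z)
  have e3 : red (l.fn ⊙ h.fn) z - (p z).fn ⊙ (l.fn ⊙ h.fn)
      = (reduced l z - (p z).fn ⊙ l.fn) ⊙ h.fn
        + (Matrix.of fun x y => l.fn x z * conj (l.fn y z) * (((l.fn z z).re)⁻¹ : ℝ) : Matrix X X ℂ)
          ⊙ red h.fn z := by
    ext x y
    simp only [Matrix.sub_apply, Matrix.add_apply, Matrix.hadamard_apply, red, reduced,
      Matrix.of_apply, psd_herm l.psd, Complex.ofReal_inv, ← hlz]
    have a1 := hl z
    have a2 := hh z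
    field_simp
    ring
  rw [e3]
  exact e1.add e2

end Pool.Agent.V11131.CPMul
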