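import Mathlib

set_option autoImplicit false

/-! Graphs given by a parent function with levels. -/

namespace Pool.Agent.V11131.ParTree

open Finset

variable {V : Type}

/-- The graph of a parent function. -/
def ofPar (par : V → Option V) (lvl : V → ℕ) (h : ∀ x y, par x = some y → lvl x = lvl y + 1) :
    SimpleGraph V where
  Adj x y := par x = some y ∨ par y = some x
  symm := ⟨fun _ _ hxy => hxy.symm⟩
  loopless := ⟨fun x hx => by
    rcases hx with hx | hx <;> have := h x x hx <;> omega⟩

variable {par : V → Option V} {lvl : V → ℕ} {h : ∀ x y, par x = some y → lvl x = lvl y + 1}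

theorem ofPar_adj {x y : V} : (ofPar par lvl h).Adj x y ↔ par x = some y ∨ par y = some x :=
  Iff.rfl

include h in
theorem not_both {x y : V} (h1 : par x = some y) (h2 : par y = some x) : False := by
  have a := h x y h1
  have b := h y x h2
  omega

/-- A sum over the neighbours splits into the parent and the children. -/
theorem sum_adj [Fintype V] [DecidableEq V] (x : V) (g : V → ℝ)
    [DecidableRel (ofPar par lvl h).Adj] :
    (∑ z, if (ofPar par lvl h).Adj x z then g z else 0) =
      (par x).elim 0 g + ∑ z, if par z = some x then g z else 0 := by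
  have h1 : ∀ z, (if (ofPar par lvl h).Adj x z then g z else 0) =
      (if par x = some z then g z else 0) + (if par z = some x then g z else 0) := by
    intro z
    by_cases h1 : par x = some z
    · have h2 : ¬ par z = some x := fun h2 => not_both (h := h) h1 h2
      have h3 : (ofPar par lvl h).Adj x z := Or.inl h1
      rw [if_pos h1, if_neg h2, if_pos h3, add_zero]
    · by_cases h2 : par z = some x
      · have h3 : (ofPar par lvl h).Adj x z := Or.inr h2
        rw [if_neg h1, if_pos h2, if_pos h3, zero_add]
      · have h3 : ¬ (ofPar par lvl h).Adj x z := fun h3 => h3.elim h1 h2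
        rw [if_neg h1, if_neg h2, if_neg h3, zero_add]
  rw [Finset.sum_congr rfl fun z _ => h1 z, Finset.sum_add_distrib]
  congr 1
  cases hp : par x with
  | none => simp
  | some p => simp [Option.some_inj]

/-- The graph of a parent function with a unique root is connected. -/
theorem connected (r : V) (hr : ∀ x, x ≠ r → par x ≠ none) :
    (ofPar par lvl h).Connected := by
  have key : ∀ n : ℕ, ∀ x, lvl x = n → (ofPar par lvl h).Reachable x r := by
    intro n
    induction n using Nat.strong_induction_on with
    | _ n ih =>
      intro x hx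
      by_cases hxr : x = r
      · rw [hxr]
      · obtain ⟨y, hy⟩ := Option.ne_none_iff_exists'.1 (hr x hxr)
        have hl := h x y hy
        have h1 : (ofPar par lvl h).Adj x y := Or.inl hy
        exact h1.reachable.trans (ih (lvl y) (by omega) y rfl)
  haveI : Nonempty V := ⟨r⟩
  exact ⟨fun u v => (key _ u rfl).trans (key _ v rfl).symm⟩

/-- The graph of a parent function with a unique root is a tree. -/
theorem isTree [Finite V] (r : V) (hr : ∀ x, x ≠ r → par x ≠ none) (hr' : par r = none) :
    (ofPar par lvl h).IsTree := by
  classical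
  haveI := Fintype.ofFinite V
  rw [SimpleGraph.isTree_iff_connected_and_card]
  refine ⟨connected r hr, ?_⟩
  let E : V → Sym2 V := fun x => s(x, (par x).getD r)
  have himg : (ofPar par lvl h).edgeFinset = (univ.erase r).image E := by
    ext e
    rw [SimpleGraph.mem_edgeFinset, Finset.mem_image]
    induction e with
    | h x y =>
      rw [SimpleGraph.mem_edgeSet, ofPar_adj]
      constructor
      · rintro (h1 | h1)
        · refine ⟨x, Finset.mem_erase.2 ⟨?_, Finset.mem_univ _⟩, ?_⟩
          · rintro rfl
            rw [hr'] at h1
            exact absurd h1 (by simp)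
          · simp [E, h1]
        · refine ⟨y, Finset.mem_erase.2 ⟨?_, Finset.mem_univ _⟩, ?_⟩
          · rintro rfl
            rw [hr'] at h1
            exact absurd h1 (by simp)
          · simp [E, h1, Sym2.eq_swap]
      · rintro ⟨z, hz, hzE⟩
        obtain ⟨p, hp⟩ := Option.ne_none_iff_exists'.1 (hr z (Finset.ne_of_mem_erase hz))
        simp only [E, hp, Option.getD_some] at hzE
        rcases Sym2.eq_iff.1 hzE with ⟨h1, h2⟩ | ⟨h1, h2⟩
        · left; rw [← h1, ← h2]; exact hp
        · right; rw [← h1, ← h2]; exact hp
  have hinj : Set.InjOn E (univ.erase r : Finset V) := by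
    intro x hx y hy hxy
    have hx' : x ≠ r := Finset.ne_of_mem_erase (Finset.mem_coe.1 hx)
    have hy' : y ≠ r := Finset.ne_of_mem_erase (Finset.mem_coe.1 hy)
    obtain ⟨p, hp⟩ := Option.ne_none_iff_exists'.1 (hr x hx')
    obtain ⟨q, hq⟩ := Option.ne_none_iff_exists'.1 (hr y hy')
    simp only [E, hp, hq, Option.getD_some] at hxy
    rcases Sym2.eq_iff.1 hxy with ⟨h1, h2⟩ | ⟨h1, h2⟩
    · exact h1
    · exfalso
      rw [← h1] at hq
      rw [h2] at hp
      exact not_both (h := h) hp hq
  rw [Nat.card_eq_fintype_card, Nat.card_eq_fintype_card, ← SimpleGraph.edgeFinset_card, himg,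
    Finset.card_image_of_injOn hinj, Finset.card_erase_of_mem (Finset.mem_univ _),
    Finset.card_univ]
  have : 0 < Fintype.card V := Fintype.card_pos_iff.2 ⟨r⟩
  omega

end Pool.Agent.V11131.ParTree
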