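import Mathlib

set_option autoImplicit false

/-! Certificates for the largest eigenvalue of a symmetric matrix with nonnegative
off-diagonal entries. -/

namespace Pool.Agent.V11131.PosCert

open Finset Matrix

variable {ι : Type} [Fintype ι]

theorem eig_le_aux (M : Matrix ι ι ℝ) (hoff : ∀ i j, i ≠ j → 0 ≤ M i j)
    (h : ι → ℝ) (hpos : ∀ i, 0 < h i) (μ : ℝ) (hle : ∀ i, (M *ᵥ h) i ≤ μ * h i) {l : ℝ}
    {f : ι → ℝ} (hev : M *ᵥ f = l • f) (i : ι) (hi : 0 < f i)
    (hmax : ∀ j, f j ≤ (f i / h i) * h j) : l ≤ μ := by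
  classical
  set c := f i / h i with hc
  have hcpos : 0 < c := div_pos hi (hpos i)
  have hci : c * h i = f i := div_mul_cancel₀ _ (hpos i).ne'
  have h1 : l * f i = ∑ j, M i j * f j := by
    have := congrFun hev i
    rw [Pi.smul_apply, smul_eq_mul] at this
    rw [← this]
    rfl
  have h2 : ∑ j, M i j * f j ≤ ∑ j, M i j * (c * h j) := by
    apply Finset.sum_le_sum
    intro j _
    by_cases hij : i = j
    · subst hij
      rw [hci]
    · exact mul_le_mul_of_nonneg_left (hmax j) (hoff i j hij)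
  have h3 : ∑ j, M i j * (c * h j) = c * (M *ᵥ h) i := by
    rw [Matrix.mulVec, dotProduct, Finset.mul_sum]
    apply Finset.sum_congr rfl
    intro j _
    ring
  have h4 : c * (M *ᵥ h) i ≤ c * (μ * h i) := mul_le_mul_of_nonneg_left (hle i) hcpos.le
  have h5 : c * (μ * h i) = μ * f i := by rw [← hci]; ring
  have h6 : l * f i ≤ μ * f i := by linarith
  exact le_of_mul_le_mul_right h6 hi

/-- A positive supersolution bounds every eigenvalue. -/
theorem eig_le (M : Matrix ι ι ℝ) (hoff : ∀ i j, i ≠ j → 0 ≤ M i j)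
    (h : ι → ℝ) (hpos : ∀ i, 0 < h i) (μ : ℝ) (hle : ∀ i, (M *ᵥ h) i ≤ μ * h i) {l : ℝ}
    {f : ι → ℝ} (hf : f ≠ 0) (hev : M *ᵥ f = l • f) : l ≤ μ := by
  classical
  obtain ⟨i0, hi0⟩ := Function.ne_iff.1 hf
  have : Nonempty ι := ⟨i0⟩
  obtain ⟨i, -, hi⟩ := Finset.exists_max_image (univ : Finset ι) (fun j => |f j| / h j)
    ⟨i0, Finset.mem_univ _⟩
  have hmax : ∀ j, |f j| ≤ (|f i| / h i) * h j := by
    intro j
    have := hi j (Finset.mem_univ _)
    rwa [div_le_iff₀ (hpos j)] at this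
  have hfi : f i ≠ 0 := by
    intro h0
    have := hmax i0
    rw [h0, abs_zero, zero_div, zero_mul] at this
    exact hi0 (abs_nonpos_iff.1 this)
  rcases lt_or_gt_of_ne hfi with hneg | hp
  · have hev' : M *ᵥ (-f) = l • (-f) := by
      rw [Matrix.mulVec_neg, hev, smul_neg]
    refine eig_le_aux M hoff h hpos μ hle hev' i (by simpa using hneg) ?_
    intro j
    have h1 := hmax j
    rw [abs_of_neg hneg] at h1
    exact (neg_le_abs (f j)).trans h1
  · refine eig_le_aux M hoff h hpos μ hle hev i hp ?_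
    intro j
    have h1 := hmax j
    rw [abs_of_pos hp] at h1
    exact (le_abs_self (f j)).trans h1

/-- A nonnegative nonzero subsolution gives an eigenvalue from below. -/
theorem exists_eig_ge (M : Matrix ι ι ℝ) (hM : ∀ i j, M i j = M j i)
    (h : ι → ℝ) (hpos : ∀ i, 0 ≤ h i) (hne : h ≠ 0) (μ : ℝ)
    (hge : ∀ i, μ * h i ≤ (M *ᵥ h) i) :
    ∃ (l : ℝ) (f : ι → ℝ), f ≠ 0 ∧ M *ᵥ f = l • f ∧ μ ≤ l := by
  classical
  set B : Matrix ι ι ℝ := μ • (1 : Matrix ι ι ℝ) - M with hB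
  have hBh : B.IsHermitian := by
    apply Matrix.IsHermitian.ext
    intro i j
    simp only [hB, Matrix.sub_apply, Matrix.smul_apply, smul_eq_mul, star_trivial]
    rw [hM i j]
    by_cases hij : i = j
    · subst hij; rfl
    · rw [Matrix.one_apply_ne hij, Matrix.one_apply_ne (Ne.symm hij)]
  have hnot : ¬ B.PosDef := by
    intro hpd
    have h1 := hpd.dotProduct_mulVec_pos hne
    have h2 : star h ⬝ᵥ (B *ᵥ h) ≤ 0 := by
      rw [star_trivial, dotProduct]
      apply Finset.sum_nonpos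
      intro i _
      apply mul_nonpos_of_nonneg_of_nonpos (hpos i)
      have h3 : (B *ᵥ h) i = μ * h i - (M *ᵥ h) i := by
        rw [hB, Matrix.sub_mulVec, Matrix.smul_mulVec, Matrix.one_mulVec]
        rfl
      rw [h3]
      linarith [hge i]
    linarith
  rw [hBh.posDef_iff_eigenvalues_pos] at hnot
  push Not at hnot
  obtain ⟨i, hi⟩ := hnot
  have hev := hBh.mulVec_eigenvectorBasis i
  set w : ι → ℝ := ⇑(hBh.eigenvectorBasis i) with hw
  refine ⟨μ - hBh.eigenvalues i, w, ?_, ?_, by linarith⟩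
  · rw [hw]
    exact (WithLp.ofLp_eq_zero 2).ne.2 <| hBh.eigenvectorBasis.orthonormal.ne_zero i
  · have hBw : B *ᵥ w = μ • w - M *ᵥ w := by
      rw [hB, Matrix.sub_mulVec, Matrix.smul_mulVec, Matrix.one_mulVec]
    have : M *ᵥ w = μ • w - hBh.eigenvalues i • w := by
      rw [← hev, hBw]
      abel
    rw [this, sub_smul]

/-- The set of eigenvalues is bounded above. -/
theorem bddAbove (M : Matrix ι ι ℝ) :
    BddAbove {l : ℝ | ∃ f : ι → ℝ, f ≠ 0 ∧ M *ᵥ f = l • f} := by
  refine ⟨∑ i, ∑ j, |M i j|, ?_⟩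
  rintro l ⟨f, hf, hev⟩
  obtain ⟨i0, hi0⟩ := Function.ne_iff.1 hf
  obtain ⟨i, -, hi⟩ := Finset.exists_max_image (univ : Finset ι) (fun j => |f j|)
    ⟨i0, Finset.mem_univ _⟩
  have hfi : 0 < |f i| := by
    have h1 := hi i0 (Finset.mem_univ _)
    exact lt_of_lt_of_le (abs_pos.2 hi0) h1
  have h1 : l * f i = ∑ j, M i j * f j := by
    have := congrFun hev i
    rw [Pi.smul_apply, smul_eq_mul] at this
    rw [← this]
    rfl
  have h2 : |l| * |f i| ≤ (∑ j, |M i j|) * |f i| := by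
    rw [← abs_mul, h1, Finset.sum_mul]
    refine (Finset.abs_sum_le_sum_abs _ _).trans ?_
    apply Finset.sum_le_sum
    intro j _
    rw [abs_mul]
    exact mul_le_mul_of_nonneg_left (hi j (Finset.mem_univ _)) (abs_nonneg _)
  have h3 : |l| ≤ ∑ j, |M i j| := le_of_mul_le_mul_right h2 hfi
  have h4 : ∑ j, |M i j| ≤ ∑ i, ∑ j, |M i j| :=
    Finset.single_le_sum (f := fun i => ∑ j, |M i j|)
      (fun i _ => Finset.sum_nonneg fun j _ => abs_nonneg _) (Finset.mem_univ i)
  exact (le_abs_self l).trans (h3.trans h4)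

end Pool.Agent.V11131.PosCert
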