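import Mathlib

set_option autoImplicit false

/-! Enumeration of small trees up to isomorphism by certified leaf attachment. -/

namespace Pool.Agent.V11131.TreeEnum

/-- Parent of the vertex `i` in the tree coded by a list (newest vertex first). -/
def parOf : List ℕ → ℕ → ℕ
  | [], _ => 0
  | k :: l, i => if i = l.length + 1 then k else parOf l i

/-- Adjacency in the coded graph. -/
def adjN (l : List ℕ) (i j : ℕ) : Bool :=
  (decide (j < i) && (parOf l i == j)) || (decide (i < j) && (parOf l j == i))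

theorem adjN_symm (l : List ℕ) (i j : ℕ) : adjN l i j = adjN l j i := Bool.or_comm _ _

/-- The graph coded by a list. -/
def GA (l : List ℕ) : SimpleGraph (Fin (l.length + 1)) where
  Adj i j := adjN l i.val j.val = true
  symm := ⟨fun i j h => by rw [adjN_symm]; exact h⟩
  loopless := ⟨fun i h => by simp [adjN] at h⟩

instance (l : List ℕ) : DecidableRel (GA l).Adj :=
  fun i j => inferInstanceAs (Decidable (adjN l i.val j.val = true))

theorem GA_adj {l : List ℕ} {i j : Fin (l.length + 1)} :
    (GA l).Adj i j ↔ adjN l i.val j.val = true := Iff.rfl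

theorem parOf_cons_of_le (k : ℕ) (l : List ℕ) (i : ℕ) (hi : i ≤ l.length) :
    parOf (k :: l) i = parOf l i := by
  simp only [parOf]
  rw [if_neg (by omega)]

theorem parOf_cons_last (k : ℕ) (l : List ℕ) : parOf (k :: l) (l.length + 1) = k := by
  simp [parOf]

theorem adjN_cons (k : ℕ) (l : List ℕ) (i j : ℕ) (hi : i ≤ l.length) (hj : j ≤ l.length) :
    adjN (k :: l) i j = adjN l i j := by
  unfold adjN
  rw [parOf_cons_of_le k l i hi, parOf_cons_of_le k l j hj]

theorem adjN_last (k : ℕ) (l : List ℕ) (j : ℕ) (hj : j ≤ l.length) :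
    adjN (k :: l) (l.length + 1) j = (k == j) := by
  unfold adjN
  rw [parOf_cons_last]
  have h1 : j < l.length + 1 := by omega
  have h2 : ¬ l.length + 1 < j := by omega
  simp [h1, h2]

/-- Certificate check for an isomorphism of coded graphs. -/
def checkIso (l₁ l₂ σ : List ℕ) : Bool :=
  (l₁.length == l₂.length) &&
  (List.range (l₁.length + 1)).all (fun i => decide (σ.getD i 0 ≤ l₂.length) &&
    (List.range (l₁.length + 1)).all (fun j =>
      (adjN l₁ i j == adjN l₂ (σ.getD i 0) (σ.getD j 0)) &&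
      (decide (i = j) || decide (σ.getD i 0 ≠ σ.getD j 0))))

theorem iso_of_check {l₁ l₂ σ : List ℕ} (h : checkIso l₁ l₂ σ = true) :
    Nonempty (GA l₁ ≃g GA l₂) := by
  unfold checkIso at h
  simp only [Bool.and_eq_true, beq_iff_eq, List.all_eq_true, List.mem_range, decide_eq_true_eq,
    Bool.or_eq_true] at h
  obtain ⟨hlen, h⟩ := h
  let f : Fin (l₁.length + 1) → Fin (l₂.length + 1) := fun i =>
    ⟨σ.getD i.val 0, Nat.lt_succ_of_le (h i.val i.isLt).1⟩
  have hinj : Function.Injective f := by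
    intro i j hij
    have h1 := ((h i.val i.isLt).2 j.val j.isLt).2
    rcases h1 with h1 | h1
    · exact Fin.ext h1
    · exact absurd (congrArg Fin.val hij) h1
  have hbij : Function.Bijective f := by
    rw [Fintype.bijective_iff_injective_and_card]
    exact ⟨hinj, by simp [hlen]⟩
  refine ⟨⟨Equiv.ofBijective f hbij, ?_⟩⟩
  intro i j
  change adjN l₂ (σ.getD i.val 0) (σ.getD j.val 0) = true ↔ adjN l₁ i.val j.val = true
  rw [((h i.val i.isLt).2 j.val j.isLt).1]

/-- Leaf removal gives a coded graph with one more entry. -/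
theorem leaf_step {V : Type} [Fintype V] {n : ℕ} (T : SimpleGraph V) (hT : T.IsTree)
    (hcard : Fintype.card V = n + 2) {P : List ℕ → Prop}
    (ih : ∀ (W : Type) [Fintype W] (S : SimpleGraph W), S.IsTree → Fintype.card W = n + 1 →
      ∃ l : List ℕ, P l ∧ l.length = n ∧ Nonempty (S ≃g GA l)) :
    ∃ (l : List ℕ) (k : ℕ), P l ∧ l.length = n ∧ k ≤ n ∧ Nonempty (T ≃g GA (k :: l)) := by
  classical
  haveI : Nontrivial V := Fintype.one_lt_card_iff_nontrivial.1 (by omega)
  obtain ⟨v, hv⟩ := hT.exists_vert_degree_one_of_nontrivial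
  obtain ⟨w, hw, hwu⟩ := SimpleGraph.degree_eq_one_iff_existsUnique_adj.1 hv
  have hconn : (T.induce ({v}ᶜ : Set V)).Connected :=
    hT.connected.induce_compl_singleton_of_degree_eq_one hv
  have htree : (T.induce ({v}ᶜ : Set V)).IsTree := ⟨hconn, hT.isAcyclic.induce _⟩
  have hc : Fintype.card ({v}ᶜ : Set V) = n + 1 := by
    rw [Fintype.card_compl_set, hcard]
    simp
  obtain ⟨l, hP, hl, ⟨φ⟩⟩ := ih _ (T.induce ({v}ᶜ : Set V)) htree hc
  have hwv : w ≠ v := hw.ne'
  have hwm : w ∈ ({v}ᶜ : Set V) := hwv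
  refine ⟨l, (φ ⟨w, hwm⟩).val, hP, hl, by have := (φ ⟨w, hwm⟩).isLt; omega, ?_⟩
  let f : V → Fin (l.length + 1 + 1) := fun x =>
    if h : x = v then Fin.last _ else (φ ⟨x, h⟩).castSucc
  have hfv : f v = Fin.last _ := by simp [f]
  have hfx : ∀ x (h : x ≠ v), f x = (φ ⟨x, h⟩).castSucc := by
    intro x h
    simp [f, h]
  have hinj : Function.Injective f := by
    intro x y hxy
    by_cases hx : x = v
    · by_cases hy : y = v
      · rw [hx, hy]
      · exfalso
        rw [hx, hfv, hfx y hy] at hxy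
        exact (Fin.castSucc_lt_last _).ne hxy.symm
    · by_cases hy : y = v
      · exfalso
        rw [hy, hfv, hfx x hx] at hxy
        exact (Fin.castSucc_lt_last _).ne hxy
      · rw [hfx x hx, hfx y hy] at hxy
        have h1 := φ.injective (Fin.castSucc_injective _ hxy)
        exact congrArg Subtype.val h1
  have hbij : Function.Bijective f := by
    rw [Fintype.bijective_iff_injective_and_card]
    refine ⟨hinj, ?_⟩
    rw [hcard, Fintype.card_fin, hl]
  refine ⟨⟨Equiv.ofBijective f hbij, ?_⟩⟩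
  intro x y
  change adjN ((φ ⟨w, hwm⟩).val :: l) (f x).val (f y).val = true ↔ T.Adj x y
  by_cases hx : x = v
  · by_cases hy : y = v
    · rw [hx, hy, hfv]
      simp [adjN]
    · rw [hx, hfv, hfx y hy, Fin.val_last, Fin.val_castSucc,
        adjN_last _ _ _ (Nat.lt_succ_iff.1 (φ ⟨y, hy⟩).isLt), beq_iff_eq]
      constructor
      · intro h
        have h1 : φ ⟨w, hwm⟩ = φ ⟨y, hy⟩ := Fin.ext h
        have h2 := congrArg Subtype.val (φ.injective h1)
        simp only at h2
        rw [← h2]
        exact hw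
      · intro h
        have h2 : y = w := hwu y h
        subst h2
        rfl
  · by_cases hy : y = v
    · rw [hy, hfv, hfx x hx, Fin.val_last, Fin.val_castSucc, adjN_symm,
        adjN_last _ _ _ (Nat.lt_succ_iff.1 (φ ⟨x, hx⟩).isLt), beq_iff_eq]
      constructor
      · intro h
        have h1 : φ ⟨w, hwm⟩ = φ ⟨x, hx⟩ := Fin.ext h
        have h2 := congrArg Subtype.val (φ.injective h1)
        simp only at h2
        rw [← h2]
        exact hw.symm
      · intro h
        have h2 : x = w := hwu x h.symm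
        subst h2
        rfl
    · rw [hfx x hx, hfx y hy, Fin.val_castSucc, Fin.val_castSucc,
        adjN_cons _ _ _ _ (Nat.lt_succ_iff.1 (φ ⟨x, hx⟩).isLt)
          (Nat.lt_succ_iff.1 (φ ⟨y, hy⟩).isLt)]
      exact φ.map_rel_iff (a := ⟨x, hx⟩) (b := ⟨y, hy⟩)

/-- All trees with `n + 1` vertices are isomorphic to a member of the list. -/
def Covers (n : ℕ) (L : List (List ℕ)) : Prop :=
  ∀ (V : Type) [Fintype V] (T : SimpleGraph V), T.IsTree → Fintype.card V = n + 1 →
    ∃ l ∈ L, l.length = n ∧ Nonempty (T ≃g GA l)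

theorem covers_zero : Covers 0 [[]] := by
  intro V _ T hT hcard
  refine ⟨[], by simp, rfl, ?_⟩
  have e : V ≃ Fin 1 := Fintype.equivFinOfCardEq hcard
  haveI : Subsingleton V := e.subsingleton
  refine ⟨⟨e, ?_⟩⟩
  intro a b
  have hab : a = b := Subsingleton.elim _ _
  subst hab
  simp

/-- Check of a list of certificates. -/
def checkAll (L' : List (List ℕ)) : List (List ℕ) → List (List ℕ × List ℕ) → Bool
  | [], _ => true
  | _ :: _, [] => false
  | p :: ps, c :: cs => checkIso p c.1 c.2 && L'.contains c.1 && checkAll L' ps cs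

theorem of_checkAll {L' : List (List ℕ)} : ∀ (ps : List (List ℕ)) (cs : List (List ℕ × List ℕ)),
    checkAll L' ps cs = true → ∀ p ∈ ps, ∃ l' ∈ L', Nonempty (GA p ≃g GA l')
  | [], _, _, p, hp => absurd hp (by simp)
  | _ :: _, [], h, _, _ => absurd h (by simp [checkAll])
  | q :: ps, c :: cs, h, p, hp => by
    simp only [checkAll, Bool.and_eq_true] at h
    rcases List.mem_cons.1 hp with rfl | hp
    · exact ⟨c.1, by simpa using h.1.2, iso_of_check h.1.1⟩
    · exact of_checkAll ps cs h.2 p hp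

theorem cover_step {n : ℕ} {L L' : List (List ℕ)} (hL : Covers n L)
    (cs : List (List ℕ × List ℕ))
    (hc : checkAll L' (L.flatMap fun l => (List.range (n + 1)).map fun k => k :: l) cs = true)
    (hlen : ∀ l ∈ L', l.length = n + 1) : Covers (n + 1) L' := by
  intro V _ T hT hcard
  obtain ⟨l, k, hl, hln, hk, ⟨φ⟩⟩ := leaf_step T hT hcard (P := fun l => l ∈ L)
    (fun W _ S hS hW => by
      obtain ⟨l, h1, h2, h3⟩ := hL W S hS hW
      exact ⟨l, h1, h2, h3⟩)
  have hmem : (k :: l) ∈ (L.flatMap fun l => (List.range (n + 1)).map fun k => k :: l) := by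
    rw [List.mem_flatMap]
    exact ⟨l, hl, List.mem_map.2 ⟨k, List.mem_range.2 (Nat.lt_succ_of_le hk), rfl⟩⟩
  obtain ⟨l', hl', ⟨ψ⟩⟩ := of_checkAll _ _ hc _ hmem
  exact ⟨l', hl', hlen l' hl', ⟨φ.trans ψ⟩⟩

end Pool.Agent.V11131.TreeEnum
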