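import Mathlib
import Pool.Agent.V11131.TreeEnum

set_option autoImplicit false

/-! Lists of all trees with at most 9 vertices, with isomorphism certificates. -/

namespace Pool.Agent.V11131.TreeData

open Pool.Agent.V11131.TreeEnum

/-- Trees with one vertex. -/
def L0 : List (List ℕ) := [[]]

theorem covers0 : Covers 0 L0 := covers_zero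

/-- Trees with 2 vertices. -/
def L1 : List (List ℕ) := [
  [0]]

/-- Certificates. -/
def C1 : List (List ℕ × List ℕ) := [
  ([0], [0, 1])]

theorem covers1 : Covers 1 L1 :=
  cover_step covers0 C1 (by decide +kernel) (by decide)

/-- Trees with 3 vertices. -/
def L2 : List (List ℕ) := [
  [0, 0]]

/-- Certificates. -/
def C2 : List (List ℕ × List ℕ) := [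
  ([0, 0], [0, 1, 2]),
  ([0, 0], [1, 0, 2])]

theorem covers2 : Covers 2 L2 :=
  cover_step covers1 C2 (by decide +kernel) (by decide)

/-- Trees with 4 vertices. -/
def L3 : List (List ℕ) := [
  [0, 0, 0],
  [1, 0, 0]]

/-- Certificates. -/
def C3 : List (List ℕ × List ℕ) := [
  ([0, 0, 0], [0, 1, 2, 3]),
  ([1, 0, 0], [0, 1, 2, 3]),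
  ([1, 0, 0], [0, 2, 1, 3])]

theorem covers3 : Covers 3 L3 :=
  cover_step covers2 C3 (by decide +kernel) (by decide)

/-- Trees with 5 vertices. -/
def L4 : List (List ℕ) := [
  [0, 0, 0, 0],
  [1, 0, 0, 0],
  [2, 1, 0, 0]]

/-- Certificates. -/
def C4 : List (List ℕ × List ℕ) := [
  ([0, 0, 0, 0], [0, 1, 2, 3, 4]),
  ([1, 0, 0, 0], [0, 1, 2, 3, 4]),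
  ([1, 0, 0, 0], [0, 2, 1, 3, 4]),
  ([1, 0, 0, 0], [0, 2, 3, 1, 4]),
  ([1, 0, 0, 0], [0, 1, 2, 4, 3]),
  ([1, 0, 0, 0], [1, 0, 4, 2, 3]),
  ([2, 1, 0, 0], [0, 1, 2, 3, 4]),
  ([2, 1, 0, 0], [1, 0, 3, 2, 4])]

theorem covers4 : Covers 4 L4 :=
  cover_step covers3 C4 (by decide +kernel) (by decide)

/-- Trees with 6 vertices. -/
def L5 : List (List ℕ) := [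
  [0, 0, 0, 0, 0],
  [1, 0, 0, 0, 0],
  [1, 1, 0, 0, 0],
  [2, 1, 0, 0, 0],
  [4, 1, 0, 0, 0],
  [3, 2, 1, 0, 0]]

/-- Certificates. -/
def C5 : List (List ℕ × List ℕ) := [
  ([0, 0, 0, 0, 0], [0, 1, 2, 3, 4, 5]),
  ([1, 0, 0, 0, 0], [0, 1, 2, 3, 4, 5]),
  ([1, 0, 0, 0, 0], [0, 2, 1, 3, 4, 5]),
  ([1, 0, 0, 0, 0], [0, 2, 3, 1, 4, 5]),
  ([1, 0, 0, 0, 0], [0, 2, 3, 4, 1, 5]),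
  ([1, 0, 0, 0, 0], [0, 1, 2, 3, 5, 4]),
  ([1, 1, 0, 0, 0], [0, 1, 2, 3, 4, 5]),
  ([2, 1, 0, 0, 0], [0, 1, 2, 3, 4, 5]),
  ([2, 1, 0, 0, 0], [0, 1, 3, 2, 4, 5]),
  ([4, 1, 0, 0, 0], [0, 1, 2, 3, 4, 5]),
  ([2, 1, 0, 0, 0], [0, 1, 2, 4, 5, 3]),
  ([4, 1, 0, 0, 0], [1, 0, 4, 2, 5, 3]),
  ([4, 1, 0, 0, 0], [1, 4, 0, 5, 2, 3]),
  ([3, 2, 1, 0, 0], [0, 1, 2, 3, 4, 5]),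
  ([3, 2, 1, 0, 0], [0, 2, 1, 4, 3, 5])]

theorem covers5 : Covers 5 L5 :=
  cover_step covers4 C5 (by decide +kernel) (by decide)

/-- Trees with 7 vertices. -/
def L6 : List (List ℕ) := [
  [0, 0, 0, 0, 0, 0],
  [1, 0, 0, 0, 0, 0],
  [1, 1, 0, 0, 0, 0],
  [2, 1, 0, 0, 0, 0],
  [5, 1, 0, 0, 0, 0],
  [2, 1, 1, 0, 0, 0],
  [3, 2, 1, 0, 0, 0],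
  [4, 2, 1, 0, 0, 0],
  [4, 4, 1, 0, 0, 0],
  [5, 4, 1, 0, 0, 0],
  [4, 3, 2, 1, 0, 0]]

/-- Certificates. -/
def C6 : List (List ℕ × List ℕ) := [
  ([0, 0, 0, 0, 0, 0], [0, 1, 2, 3, 4, 5, 6]),
  ([1, 0, 0, 0, 0, 0], [0, 1, 2, 3, 4, 5, 6]),
  ([1, 0, 0, 0, 0, 0], [0, 2, 1, 3, 4, 5, 6]),
  ([1, 0, 0, 0, 0, 0], [0, 2, 3, 1, 4, 5, 6]),
  ([1, 0, 0, 0, 0, 0], [0, 2, 3, 4, 1, 5, 6]),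
  ([1, 0, 0, 0, 0, 0], [0, 2, 3, 4, 5, 1, 6]),
  ([1, 0, 0, 0, 0, 0], [0, 1, 2, 3, 4, 6, 5]),
  ([1, 1, 0, 0, 0, 0], [0, 1, 2, 3, 4, 5, 6]),
  ([2, 1, 0, 0, 0, 0], [0, 1, 2, 3, 4, 5, 6]),
  ([2, 1, 0, 0, 0, 0], [0, 1, 3, 2, 4, 5, 6]),
  ([2, 1, 0, 0, 0, 0], [0, 1, 3, 4, 2, 5, 6]),
  ([5, 1, 0, 0, 0, 0], [0, 1, 2, 3, 4, 5, 6]),
  ([1, 1, 0, 0, 0, 0], [0, 1, 2, 3, 5, 6, 4]),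
  ([1, 1, 0, 0, 0, 0], [1, 0, 5, 6, 2, 3, 4]),
  ([2, 1, 1, 0, 0, 0], [0, 1, 2, 3, 4, 5, 6]),
  ([2, 1, 1, 0, 0, 0], [0, 1, 3, 2, 4, 5, 6]),
  ([2, 1, 1, 0, 0, 0], [1, 0, 4, 5, 2, 3, 6]),
  ([2, 1, 1, 0, 0, 0], [1, 0, 4, 5, 3, 2, 6]),
  ([2, 1, 0, 0, 0, 0], [0, 1, 2, 3, 5, 6, 4]),
  ([2, 1, 1, 0, 0, 0], [0, 1, 2, 3, 4, 6, 5]),
  ([2, 1, 1, 0, 0, 0], [0, 2, 1, 3, 6, 4, 5]),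
  ([3, 2, 1, 0, 0, 0], [0, 1, 2, 3, 4, 5, 6]),
  ([4, 2, 1, 0, 0, 0], [0, 1, 2, 3, 4, 5, 6]),
  ([4, 2, 1, 0, 0, 0], [0, 2, 1, 3, 5, 4, 6]),
  ([5, 1, 0, 0, 0, 0], [0, 1, 2, 3, 5, 6, 4]),
  ([2, 1, 1, 0, 0, 0], [1, 0, 4, 5, 2, 6, 3]),
  ([4, 2, 1, 0, 0, 0], [0, 1, 2, 3, 4, 6, 5]),
  ([4, 2, 1, 0, 0, 0], [0, 1, 3, 2, 4, 6, 5]),
  ([4, 4, 1, 0, 0, 0], [0, 1, 2, 3, 4, 5, 6]),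
  ([5, 4, 1, 0, 0, 0], [0, 1, 2, 3, 4, 5, 6]),
  ([4, 2, 1, 0, 0, 0], [0, 1, 2, 4, 5, 6, 3]),
  ([4, 2, 1, 0, 0, 0], [1, 0, 4, 2, 6, 5, 3]),
  ([5, 4, 1, 0, 0, 0], [1, 4, 0, 5, 2, 6, 3]),
  ([5, 4, 1, 0, 0, 0], [4, 1, 5, 0, 6, 2, 3]),
  ([4, 3, 2, 1, 0, 0], [0, 1, 2, 3, 4, 5, 6]),
  ([4, 3, 2, 1, 0, 0], [1, 0, 3, 2, 5, 4, 6])]

theorem covers6 : Covers 6 L6 :=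
  cover_step covers5 C6 (by decide +kernel) (by decide)

/-- Trees with 8 vertices. -/
def L7 : List (List ℕ) := [
  [0, 0, 0, 0, 0, 0, 0],
  [1, 0, 0, 0, 0, 0, 0],
  [1, 1, 0, 0, 0, 0, 0],
  [2, 1, 0, 0, 0, 0, 0],
  [6, 1, 0, 0, 0, 0, 0],
  [1, 1, 1, 0, 0, 0, 0],
  [2, 1, 1, 0, 0, 0, 0],
  [5, 1, 1, 0, 0, 0, 0],
  [3, 2, 1, 0, 0, 0, 0],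
  [5, 2, 1, 0, 0, 0, 0],
  [5, 5, 1, 0, 0, 0, 0],
  [6, 5, 1, 0, 0, 0, 0],
  [2, 2, 1, 1, 0, 0, 0],
  [3, 2, 1, 1, 0, 0, 0],
  [4, 2, 1, 1, 0, 0, 0],
  [6, 2, 1, 1, 0, 0, 0],
  [4, 3, 2, 1, 0, 0, 0],
  [4, 4, 2, 1, 0, 0, 0],
  [5, 4, 2, 1, 0, 0, 0],
  [6, 4, 2, 1, 0, 0, 0],
  [5, 5, 4, 1, 0, 0, 0],
  [6, 5, 4, 1, 0, 0, 0],
  [5, 4, 3, 2, 1, 0, 0]]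

/-- Certificates. -/
def C7 : List (List ℕ × List ℕ) := [
  ([0, 0, 0, 0, 0, 0, 0], [0, 1, 2, 3, 4, 5, 6, 7]),
  ([1, 0, 0, 0, 0, 0, 0], [0, 1, 2, 3, 4, 5, 6, 7]),
  ([1, 0, 0, 0, 0, 0, 0], [0, 2, 1, 3, 4, 5, 6, 7]),
  ([1, 0, 0, 0, 0, 0, 0], [0, 2, 3, 1, 4, 5, 6, 7]),
  ([1, 0, 0, 0, 0, 0, 0], [0, 2, 3, 4, 1, 5, 6, 7]),
  ([1, 0, 0, 0, 0, 0, 0], [0, 2, 3, 4, 5, 1, 6, 7]),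
  ([1, 0, 0, 0, 0, 0, 0], [0, 2, 3, 4, 5, 6, 1, 7]),
  ([1, 0, 0, 0, 0, 0, 0], [0, 1, 2, 3, 4, 5, 7, 6]),
  ([1, 1, 0, 0, 0, 0, 0], [0, 1, 2, 3, 4, 5, 6, 7]),
  ([2, 1, 0, 0, 0, 0, 0], [0, 1, 2, 3, 4, 5, 6, 7]),
  ([2, 1, 0, 0, 0, 0, 0], [0, 1, 3, 2, 4, 5, 6, 7]),
  ([2, 1, 0, 0, 0, 0, 0], [0, 1, 3, 4, 2, 5, 6, 7]),
  ([2, 1, 0, 0, 0, 0, 0], [0, 1, 3, 4, 5, 2, 6, 7]),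
  ([6, 1, 0, 0, 0, 0, 0], [0, 1, 2, 3, 4, 5, 6, 7]),
  ([1, 1, 0, 0, 0, 0, 0], [0, 1, 2, 3, 4, 6, 7, 5]),
  ([1, 1, 1, 0, 0, 0, 0], [0, 1, 2, 3, 4, 5, 6, 7]),
  ([2, 1, 1, 0, 0, 0, 0], [0, 1, 2, 3, 4, 5, 6, 7]),
  ([2, 1, 1, 0, 0, 0, 0], [0, 1, 3, 2, 4, 5, 6, 7]),
  ([2, 1, 1, 0, 0, 0, 0], [0, 1, 3, 4, 2, 5, 6, 7]),
  ([5, 1, 1, 0, 0, 0, 0], [0, 1, 2, 3, 4, 5, 6, 7]),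
  ([5, 1, 1, 0, 0, 0, 0], [0, 1, 2, 3, 4, 6, 5, 7]),
  ([2, 1, 0, 0, 0, 0, 0], [0, 1, 2, 3, 4, 6, 7, 5]),
  ([2, 1, 1, 0, 0, 0, 0], [0, 1, 2, 3, 4, 5, 7, 6]),
  ([2, 1, 1, 0, 0, 0, 0], [0, 2, 1, 3, 4, 7, 5, 6]),
  ([3, 2, 1, 0, 0, 0, 0], [0, 1, 2, 3, 4, 5, 6, 7]),
  ([3, 2, 1, 0, 0, 0, 0], [0, 1, 2, 4, 3, 5, 6, 7]),
  ([5, 2, 1, 0, 0, 0, 0], [0, 1, 2, 3, 4, 5, 6, 7]),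
  ([5, 2, 1, 0, 0, 0, 0], [0, 2, 1, 3, 4, 6, 5, 7]),
  ([6, 1, 0, 0, 0, 0, 0], [0, 1, 2, 3, 4, 6, 7, 5]),
  ([5, 1, 1, 0, 0, 0, 0], [0, 1, 2, 3, 4, 5, 7, 6]),
  ([5, 2, 1, 0, 0, 0, 0], [0, 1, 2, 3, 4, 5, 7, 6]),
  ([5, 2, 1, 0, 0, 0, 0], [0, 1, 3, 2, 4, 5, 7, 6]),
  ([5, 2, 1, 0, 0, 0, 0], [0, 1, 3, 4, 2, 5, 7, 6]),
  ([5, 5, 1, 0, 0, 0, 0], [0, 1, 2, 3, 4, 5, 6, 7]),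
  ([6, 5, 1, 0, 0, 0, 0], [0, 1, 2, 3, 4, 5, 6, 7]),
  ([2, 1, 1, 0, 0, 0, 0], [0, 1, 2, 3, 5, 6, 7, 4]),
  ([5, 1, 1, 0, 0, 0, 0], [1, 0, 5, 6, 2, 3, 7, 4]),
  ([2, 2, 1, 1, 0, 0, 0], [0, 1, 2, 3, 4, 5, 6, 7]),
  ([3, 2, 1, 1, 0, 0, 0], [0, 1, 2, 3, 4, 5, 6, 7]),
  ([4, 2, 1, 1, 0, 0, 0], [0, 1, 2, 3, 4, 5, 6, 7]),
  ([4, 2, 1, 1, 0, 0, 0], [0, 1, 2, 3, 5, 4, 6, 7]),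
  ([6, 2, 1, 1, 0, 0, 0], [0, 1, 2, 3, 4, 5, 6, 7]),
  ([3, 2, 1, 0, 0, 0, 0], [0, 1, 2, 3, 5, 6, 7, 4]),
  ([3, 2, 1, 1, 0, 0, 0], [0, 1, 2, 3, 4, 6, 7, 5]),
  ([3, 2, 1, 1, 0, 0, 0], [0, 2, 1, 3, 6, 4, 7, 5]),
  ([3, 2, 1, 1, 0, 0, 0], [0, 2, 3, 1, 6, 7, 4, 5]),
  ([4, 3, 2, 1, 0, 0, 0], [0, 1, 2, 3, 4, 5, 6, 7]),
  ([4, 3, 2, 1, 0, 0, 0], [0, 2, 1, 3, 5, 4, 6, 7]),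
  ([4, 3, 2, 1, 0, 0, 0], [0, 2, 3, 1, 5, 6, 4, 7]),
  ([5, 2, 1, 0, 0, 0, 0], [0, 1, 2, 3, 5, 6, 7, 4]),
  ([4, 2, 1, 1, 0, 0, 0], [0, 1, 2, 3, 4, 6, 7, 5]),
  ([6, 2, 1, 1, 0, 0, 0], [0, 2, 1, 3, 6, 4, 7, 5]),
  ([4, 3, 2, 1, 0, 0, 0], [0, 1, 2, 3, 4, 5, 7, 6]),
  ([4, 4, 2, 1, 0, 0, 0], [0, 1, 2, 3, 4, 5, 6, 7]),
  ([5, 4, 2, 1, 0, 0, 0], [0, 1, 2, 3, 4, 5, 6, 7]),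
  ([6, 4, 2, 1, 0, 0, 0], [0, 1, 2, 3, 4, 5, 6, 7]),
  ([5, 5, 1, 0, 0, 0, 0], [0, 1, 2, 3, 5, 6, 7, 4]),
  ([2, 2, 1, 1, 0, 0, 0], [1, 0, 4, 5, 2, 6, 7, 3]),
  ([4, 4, 2, 1, 0, 0, 0], [0, 1, 2, 3, 4, 6, 7, 5]),
  ([4, 4, 2, 1, 0, 0, 0], [0, 1, 3, 2, 4, 6, 7, 5]),
  ([5, 5, 1, 0, 0, 0, 0], [5, 1, 6, 7, 0, 2, 3, 4]),
  ([4, 4, 2, 1, 0, 0, 0], [4, 1, 6, 7, 0, 2, 3, 5]),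
  ([4, 4, 2, 1, 0, 0, 0], [4, 1, 6, 7, 0, 3, 2, 5]),
  ([6, 5, 1, 0, 0, 0, 0], [0, 1, 2, 3, 5, 6, 7, 4]),
  ([6, 2, 1, 1, 0, 0, 0], [1, 0, 4, 5, 2, 6, 7, 3]),
  ([6, 4, 2, 1, 0, 0, 0], [0, 1, 2, 3, 4, 6, 7, 5]),
  ([6, 4, 2, 1, 0, 0, 0], [0, 1, 3, 2, 4, 6, 7, 5]),
  ([4, 4, 2, 1, 0, 0, 0], [4, 1, 6, 7, 0, 2, 5, 3]),
  ([5, 5, 4, 1, 0, 0, 0], [0, 1, 2, 3, 4, 5, 6, 7]),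
  ([6, 5, 4, 1, 0, 0, 0], [0, 1, 2, 3, 4, 5, 6, 7]),
  ([5, 4, 2, 1, 0, 0, 0], [0, 1, 2, 4, 5, 6, 7, 3]),
  ([6, 4, 2, 1, 0, 0, 0], [1, 0, 4, 2, 6, 5, 7, 3]),
  ([6, 4, 2, 1, 0, 0, 0], [1, 4, 0, 6, 2, 7, 5, 3]),
  ([6, 5, 4, 1, 0, 0, 0], [4, 1, 5, 0, 6, 2, 7, 3]),
  ([6, 5, 4, 1, 0, 0, 0], [4, 5, 1, 6, 0, 7, 2, 3]),
  ([5, 4, 3, 2, 1, 0, 0], [0, 1, 2, 3, 4, 5, 6, 7]),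
  ([5, 4, 3, 2, 1, 0, 0], [0, 2, 1, 4, 3, 6, 5, 7])]

theorem covers7 : Covers 7 L7 :=
  cover_step covers6 C7 (by decide +kernel) (by decide)

/-- Trees with 9 vertices. -/
def L8 : List (List ℕ) := [
  [0, 0, 0, 0, 0, 0, 0, 0],
  [1, 0, 0, 0, 0, 0, 0, 0],
  [1, 1, 0, 0, 0, 0, 0, 0],
  [2, 1, 0, 0, 0, 0, 0, 0],
  [7, 1, 0, 0, 0, 0, 0, 0],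
  [1, 1, 1, 0, 0, 0, 0, 0],
  [2, 1, 1, 0, 0, 0, 0, 0],
  [6, 1, 1, 0, 0, 0, 0, 0],
  [3, 2, 1, 0, 0, 0, 0, 0],
  [6, 2, 1, 0, 0, 0, 0, 0],
  [6, 6, 1, 0, 0, 0, 0, 0],
  [7, 6, 1, 0, 0, 0, 0, 0],
  [2, 1, 1, 1, 0, 0, 0, 0],
  [2, 2, 1, 1, 0, 0, 0, 0],
  [3, 2, 1, 1, 0, 0, 0, 0],
  [5, 2, 1, 1, 0, 0, 0, 0],
  [7, 2, 1, 1, 0, 0, 0, 0],
  [5, 5, 1, 1, 0, 0, 0, 0],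
  [6, 5, 1, 1, 0, 0, 0, 0],
  [7, 5, 1, 1, 0, 0, 0, 0],
  [4, 3, 2, 1, 0, 0, 0, 0],
  [5, 3, 2, 1, 0, 0, 0, 0],
  [5, 5, 2, 1, 0, 0, 0, 0],
  [6, 5, 2, 1, 0, 0, 0, 0],
  [7, 5, 2, 1, 0, 0, 0, 0],
  [5, 5, 5, 1, 0, 0, 0, 0],
  [6, 5, 5, 1, 0, 0, 0, 0],
  [6, 6, 5, 1, 0, 0, 0, 0],
  [7, 6, 5, 1, 0, 0, 0, 0],
  [3, 2, 2, 1, 1, 0, 0, 0],
  [4, 2, 2, 1, 1, 0, 0, 0],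
  [4, 3, 2, 1, 1, 0, 0, 0],
  [6, 3, 2, 1, 1, 0, 0, 0],
  [6, 4, 2, 1, 1, 0, 0, 0],
  [6, 6, 2, 1, 1, 0, 0, 0],
  [7, 6, 2, 1, 1, 0, 0, 0],
  [4, 4, 3, 2, 1, 0, 0, 0],
  [5, 4, 3, 2, 1, 0, 0, 0],
  [7, 4, 3, 2, 1, 0, 0, 0],
  [5, 4, 4, 2, 1, 0, 0, 0],
  [6, 4, 4, 2, 1, 0, 0, 0],
  [6, 5, 4, 2, 1, 0, 0, 0],
  [6, 6, 4, 2, 1, 0, 0, 0],
  [7, 6, 4, 2, 1, 0, 0, 0],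
  [6, 6, 5, 4, 1, 0, 0, 0],
  [7, 6, 5, 4, 1, 0, 0, 0],
  [6, 5, 4, 3, 2, 1, 0, 0]]

/-- Certificates. -/
def C8 : List (List ℕ × List ℕ) := [
  ([0, 0, 0, 0, 0, 0, 0, 0], [0, 1, 2, 3, 4, 5, 6, 7, 8]),
  ([1, 0, 0, 0, 0, 0, 0, 0], [0, 1, 2, 3, 4, 5, 6, 7, 8]),
  ([1, 0, 0, 0, 0, 0, 0, 0], [0, 2, 1, 3, 4, 5, 6, 7, 8]),
  ([1, 0, 0, 0, 0, 0, 0, 0], [0, 2, 3, 1, 4, 5, 6, 7, 8]),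
  ([1, 0, 0, 0, 0, 0, 0, 0], [0, 2, 3, 4, 1, 5, 6, 7, 8]),
  ([1, 0, 0, 0, 0, 0, 0, 0], [0, 2, 3, 4, 5, 1, 6, 7, 8]),
  ([1, 0, 0, 0, 0, 0, 0, 0], [0, 2, 3, 4, 5, 6, 1, 7, 8]),
  ([1, 0, 0, 0, 0, 0, 0, 0], [0, 2, 3, 4, 5, 6, 7, 1, 8]),
  ([1, 0, 0, 0, 0, 0, 0, 0], [0, 1, 2, 3, 4, 5, 6, 8, 7]),
  ([1, 1, 0, 0, 0, 0, 0, 0], [0, 1, 2, 3, 4, 5, 6, 7, 8]),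
  ([2, 1, 0, 0, 0, 0, 0, 0], [0, 1, 2, 3, 4, 5, 6, 7, 8]),
  ([2, 1, 0, 0, 0, 0, 0, 0], [0, 1, 3, 2, 4, 5, 6, 7, 8]),
  ([2, 1, 0, 0, 0, 0, 0, 0], [0, 1, 3, 4, 2, 5, 6, 7, 8]),
  ([2, 1, 0, 0, 0, 0, 0, 0], [0, 1, 3, 4, 5, 2, 6, 7, 8]),
  ([2, 1, 0, 0, 0, 0, 0, 0], [0, 1, 3, 4, 5, 6, 2, 7, 8]),
  ([7, 1, 0, 0, 0, 0, 0, 0], [0, 1, 2, 3, 4, 5, 6, 7, 8]),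
  ([1, 1, 0, 0, 0, 0, 0, 0], [0, 1, 2, 3, 4, 5, 7, 8, 6]),
  ([1, 1, 1, 0, 0, 0, 0, 0], [0, 1, 2, 3, 4, 5, 6, 7, 8]),
  ([2, 1, 1, 0, 0, 0, 0, 0], [0, 1, 2, 3, 4, 5, 6, 7, 8]),
  ([2, 1, 1, 0, 0, 0, 0, 0], [0, 1, 3, 2, 4, 5, 6, 7, 8]),
  ([2, 1, 1, 0, 0, 0, 0, 0], [0, 1, 3, 4, 2, 5, 6, 7, 8]),
  ([2, 1, 1, 0, 0, 0, 0, 0], [0, 1, 3, 4, 5, 2, 6, 7, 8]),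
  ([6, 1, 1, 0, 0, 0, 0, 0], [0, 1, 2, 3, 4, 5, 6, 7, 8]),
  ([6, 1, 1, 0, 0, 0, 0, 0], [0, 1, 2, 3, 4, 5, 7, 6, 8]),
  ([2, 1, 0, 0, 0, 0, 0, 0], [0, 1, 2, 3, 4, 5, 7, 8, 6]),
  ([2, 1, 1, 0, 0, 0, 0, 0], [0, 1, 2, 3, 4, 5, 6, 8, 7]),
  ([2, 1, 1, 0, 0, 0, 0, 0], [0, 2, 1, 3, 4, 5, 8, 6, 7]),
  ([3, 2, 1, 0, 0, 0, 0, 0], [0, 1, 2, 3, 4, 5, 6, 7, 8]),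
  ([3, 2, 1, 0, 0, 0, 0, 0], [0, 1, 2, 4, 3, 5, 6, 7, 8]),
  ([3, 2, 1, 0, 0, 0, 0, 0], [0, 1, 2, 4, 5, 3, 6, 7, 8]),
  ([6, 2, 1, 0, 0, 0, 0, 0], [0, 1, 2, 3, 4, 5, 6, 7, 8]),
  ([6, 2, 1, 0, 0, 0, 0, 0], [0, 2, 1, 3, 4, 5, 7, 6, 8]),
  ([7, 1, 0, 0, 0, 0, 0, 0], [0, 1, 2, 3, 4, 5, 7, 8, 6]),
  ([6, 1, 1, 0, 0, 0, 0, 0], [0, 1, 2, 3, 4, 5, 6, 8, 7]),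
  ([6, 2, 1, 0, 0, 0, 0, 0], [0, 1, 2, 3, 4, 5, 6, 8, 7]),
  ([6, 2, 1, 0, 0, 0, 0, 0], [0, 1, 3, 2, 4, 5, 6, 8, 7]),
  ([6, 2, 1, 0, 0, 0, 0, 0], [0, 1, 3, 4, 2, 5, 6, 8, 7]),
  ([6, 2, 1, 0, 0, 0, 0, 0], [0, 1, 3, 4, 5, 2, 6, 8, 7]),
  ([6, 6, 1, 0, 0, 0, 0, 0], [0, 1, 2, 3, 4, 5, 6, 7, 8]),
  ([7, 6, 1, 0, 0, 0, 0, 0], [0, 1, 2, 3, 4, 5, 6, 7, 8]),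
  ([1, 1, 1, 0, 0, 0, 0, 0], [0, 1, 2, 3, 4, 6, 7, 8, 5]),
  ([1, 1, 1, 0, 0, 0, 0, 0], [1, 0, 6, 7, 8, 2, 3, 4, 5]),
  ([2, 1, 1, 1, 0, 0, 0, 0], [0, 1, 2, 3, 4, 5, 6, 7, 8]),
  ([2, 1, 1, 1, 0, 0, 0, 0], [0, 1, 3, 2, 4, 5, 6, 7, 8]),
  ([2, 1, 1, 1, 0, 0, 0, 0], [0, 1, 3, 4, 2, 5, 6, 7, 8]),
  ([2, 1, 1, 1, 0, 0, 0, 0], [1, 0, 5, 6, 7, 2, 3, 4, 8]),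
  ([2, 1, 1, 1, 0, 0, 0, 0], [1, 0, 5, 6, 7, 3, 2, 4, 8]),
  ([2, 1, 1, 1, 0, 0, 0, 0], [1, 0, 5, 6, 7, 3, 4, 2, 8]),
  ([2, 1, 1, 0, 0, 0, 0, 0], [0, 1, 2, 3, 4, 6, 7, 8, 5]),
  ([2, 1, 1, 1, 0, 0, 0, 0], [0, 1, 2, 3, 4, 5, 6, 8, 7]),
  ([2, 2, 1, 1, 0, 0, 0, 0], [0, 1, 2, 3, 4, 5, 6, 7, 8]),
  ([3, 2, 1, 1, 0, 0, 0, 0], [0, 1, 2, 3, 4, 5, 6, 7, 8]),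
  ([3, 2, 1, 1, 0, 0, 0, 0], [0, 1, 2, 4, 3, 5, 6, 7, 8]),
  ([5, 2, 1, 1, 0, 0, 0, 0], [0, 1, 2, 3, 4, 5, 6, 7, 8]),
  ([5, 2, 1, 1, 0, 0, 0, 0], [0, 1, 2, 3, 4, 6, 5, 7, 8]),
  ([7, 2, 1, 1, 0, 0, 0, 0], [0, 1, 2, 3, 4, 5, 6, 7, 8]),
  ([6, 1, 1, 0, 0, 0, 0, 0], [0, 1, 2, 3, 4, 6, 7, 8, 5]),
  ([2, 1, 1, 1, 0, 0, 0, 0], [1, 0, 5, 6, 7, 2, 3, 8, 4]),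
  ([5, 2, 1, 1, 0, 0, 0, 0], [0, 1, 2, 3, 4, 5, 6, 8, 7]),
  ([5, 2, 1, 1, 0, 0, 0, 0], [0, 1, 3, 2, 4, 5, 6, 8, 7]),
  ([5, 2, 1, 1, 0, 0, 0, 0], [0, 1, 3, 4, 2, 5, 6, 8, 7]),
  ([5, 5, 1, 1, 0, 0, 0, 0], [0, 1, 2, 3, 4, 5, 6, 7, 8]),
  ([6, 5, 1, 1, 0, 0, 0, 0], [0, 1, 2, 3, 4, 5, 6, 7, 8]),
  ([7, 5, 1, 1, 0, 0, 0, 0], [0, 1, 2, 3, 4, 5, 6, 7, 8]),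
  ([3, 2, 1, 0, 0, 0, 0, 0], [0, 1, 2, 3, 4, 6, 7, 8, 5]),
  ([3, 2, 1, 1, 0, 0, 0, 0], [0, 1, 2, 3, 4, 5, 7, 8, 6]),
  ([3, 2, 1, 1, 0, 0, 0, 0], [0, 2, 1, 3, 4, 7, 5, 8, 6]),
  ([3, 2, 1, 1, 0, 0, 0, 0], [0, 2, 3, 1, 4, 7, 8, 5, 6]),
  ([4, 3, 2, 1, 0, 0, 0, 0], [0, 1, 2, 3, 4, 5, 6, 7, 8]),
  ([5, 3, 2, 1, 0, 0, 0, 0], [0, 1, 2, 3, 4, 5, 6, 7, 8]),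
  ([5, 3, 2, 1, 0, 0, 0, 0], [0, 2, 1, 3, 4, 6, 5, 7, 8]),
  ([5, 3, 2, 1, 0, 0, 0, 0], [0, 2, 3, 1, 4, 6, 7, 5, 8]),
  ([6, 2, 1, 0, 0, 0, 0, 0], [0, 1, 2, 3, 4, 6, 7, 8, 5]),
  ([5, 2, 1, 1, 0, 0, 0, 0], [0, 1, 2, 3, 4, 5, 7, 8, 6]),
  ([7, 2, 1, 1, 0, 0, 0, 0], [0, 2, 1, 3, 4, 7, 5, 8, 6]),
  ([5, 3, 2, 1, 0, 0, 0, 0], [0, 1, 2, 3, 4, 5, 6, 8, 7]),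
  ([5, 3, 2, 1, 0, 0, 0, 0], [0, 1, 2, 4, 3, 5, 6, 8, 7]),
  ([5, 5, 2, 1, 0, 0, 0, 0], [0, 1, 2, 3, 4, 5, 6, 7, 8]),
  ([6, 5, 2, 1, 0, 0, 0, 0], [0, 1, 2, 3, 4, 5, 6, 7, 8]),
  ([7, 5, 2, 1, 0, 0, 0, 0], [0, 1, 2, 3, 4, 5, 6, 7, 8]),
  ([6, 6, 1, 0, 0, 0, 0, 0], [0, 1, 2, 3, 4, 6, 7, 8, 5]),
  ([5, 5, 1, 1, 0, 0, 0, 0], [0, 1, 2, 3, 4, 5, 7, 8, 6]),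
  ([5, 5, 2, 1, 0, 0, 0, 0], [0, 1, 2, 3, 4, 5, 7, 8, 6]),
  ([5, 5, 2, 1, 0, 0, 0, 0], [0, 1, 3, 2, 4, 5, 7, 8, 6]),
  ([5, 5, 2, 1, 0, 0, 0, 0], [0, 1, 3, 4, 2, 5, 7, 8, 6]),
  ([5, 5, 5, 1, 0, 0, 0, 0], [0, 1, 2, 3, 4, 5, 6, 7, 8]),
  ([6, 5, 5, 1, 0, 0, 0, 0], [0, 1, 2, 3, 4, 5, 6, 7, 8]),
  ([6, 5, 5, 1, 0, 0, 0, 0], [0, 1, 2, 3, 4, 5, 7, 6, 8]),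
  ([7, 6, 1, 0, 0, 0, 0, 0], [0, 1, 2, 3, 4, 6, 7, 8, 5]),
  ([7, 5, 1, 1, 0, 0, 0, 0], [0, 1, 2, 3, 4, 5, 7, 8, 6]),
  ([7, 5, 2, 1, 0, 0, 0, 0], [0, 1, 2, 3, 4, 5, 7, 8, 6]),
  ([7, 5, 2, 1, 0, 0, 0, 0], [0, 1, 3, 2, 4, 5, 7, 8, 6]),
  ([7, 5, 2, 1, 0, 0, 0, 0], [0, 1, 3, 4, 2, 5, 7, 8, 6]),
  ([6, 5, 5, 1, 0, 0, 0, 0], [0, 1, 2, 3, 4, 5, 6, 8, 7]),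
  ([6, 6, 5, 1, 0, 0, 0, 0], [0, 1, 2, 3, 4, 5, 6, 7, 8]),
  ([7, 6, 5, 1, 0, 0, 0, 0], [0, 1, 2, 3, 4, 5, 6, 7, 8]),
  ([2, 2, 1, 1, 0, 0, 0, 0], [0, 1, 2, 3, 5, 6, 7, 8, 4]),
  ([5, 5, 1, 1, 0, 0, 0, 0], [1, 0, 5, 6, 2, 3, 7, 8, 4]),
  ([5, 5, 1, 1, 0, 0, 0, 0], [1, 5, 0, 6, 7, 8, 2, 3, 4]),
  ([3, 2, 2, 1, 1, 0, 0, 0], [0, 1, 2, 3, 4, 5, 6, 7, 8]),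
  ([4, 2, 2, 1, 1, 0, 0, 0], [0, 1, 2, 3, 4, 5, 6, 7, 8]),
  ([4, 2, 2, 1, 1, 0, 0, 0], [0, 1, 2, 3, 5, 4, 6, 7, 8]),
  ([4, 2, 2, 1, 1, 0, 0, 0], [0, 2, 1, 3, 6, 7, 4, 5, 8]),
  ([4, 2, 2, 1, 1, 0, 0, 0], [0, 2, 1, 3, 6, 7, 5, 4, 8]),
  ([3, 2, 1, 1, 0, 0, 0, 0], [0, 1, 2, 3, 5, 6, 7, 8, 4]),
  ([6, 5, 1, 1, 0, 0, 0, 0], [1, 0, 5, 6, 2, 3, 7, 8, 4]),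
  ([3, 2, 2, 1, 1, 0, 0, 0], [0, 1, 2, 3, 4, 5, 6, 8, 7]),
  ([3, 2, 2, 1, 1, 0, 0, 0], [0, 1, 3, 2, 4, 5, 8, 6, 7]),
  ([4, 3, 2, 1, 1, 0, 0, 0], [0, 1, 2, 3, 4, 5, 6, 7, 8]),
  ([4, 3, 2, 1, 1, 0, 0, 0], [0, 1, 2, 3, 5, 4, 6, 7, 8]),
  ([6, 3, 2, 1, 1, 0, 0, 0], [0, 1, 2, 3, 4, 5, 6, 7, 8]),
  ([6, 3, 2, 1, 1, 0, 0, 0], [0, 1, 3, 2, 4, 5, 7, 6, 8]),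
  ([5, 2, 1, 1, 0, 0, 0, 0], [0, 1, 2, 3, 5, 6, 7, 8, 4]),
  ([5, 2, 1, 1, 0, 0, 0, 0], [1, 0, 5, 6, 2, 3, 8, 7, 4]),
  ([4, 2, 2, 1, 1, 0, 0, 0], [0, 1, 2, 3, 4, 5, 6, 8, 7]),
  ([4, 3, 2, 1, 1, 0, 0, 0], [0, 1, 2, 3, 4, 5, 6, 8, 7]),
  ([4, 2, 2, 1, 1, 0, 0, 0], [1, 0, 4, 5, 2, 3, 8, 6, 7]),
  ([4, 3, 2, 1, 1, 0, 0, 0], [1, 0, 4, 5, 2, 3, 8, 6, 7]),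
  ([6, 4, 2, 1, 1, 0, 0, 0], [0, 1, 2, 3, 4, 5, 6, 7, 8]),
  ([6, 4, 2, 1, 1, 0, 0, 0], [1, 0, 4, 5, 2, 3, 7, 6, 8]),
  ([7, 2, 1, 1, 0, 0, 0, 0], [0, 1, 2, 3, 5, 6, 7, 8, 4]),
  ([7, 5, 1, 1, 0, 0, 0, 0], [1, 0, 5, 6, 2, 3, 7, 8, 4]),
  ([4, 2, 2, 1, 1, 0, 0, 0], [0, 2, 1, 3, 6, 7, 4, 8, 5]),
  ([6, 3, 2, 1, 1, 0, 0, 0], [0, 1, 2, 3, 4, 5, 6, 8, 7]),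
  ([6, 4, 2, 1, 1, 0, 0, 0], [0, 1, 2, 3, 4, 5, 6, 8, 7]),
  ([6, 4, 2, 1, 1, 0, 0, 0], [0, 1, 2, 3, 5, 4, 6, 8, 7]),
  ([6, 6, 2, 1, 1, 0, 0, 0], [0, 1, 2, 3, 4, 5, 6, 7, 8]),
  ([7, 6, 2, 1, 1, 0, 0, 0], [0, 1, 2, 3, 4, 5, 6, 7, 8]),
  ([5, 3, 2, 1, 0, 0, 0, 0], [0, 1, 2, 3, 5, 6, 7, 8, 4]),
  ([4, 3, 2, 1, 1, 0, 0, 0], [0, 1, 2, 3, 4, 6, 7, 8, 5]),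
  ([6, 3, 2, 1, 1, 0, 0, 0], [0, 2, 1, 3, 6, 4, 7, 8, 5]),
  ([6, 3, 2, 1, 1, 0, 0, 0], [0, 2, 3, 1, 6, 7, 4, 8, 5]),
  ([4, 4, 3, 2, 1, 0, 0, 0], [0, 1, 2, 3, 4, 5, 6, 7, 8]),
  ([5, 4, 3, 2, 1, 0, 0, 0], [0, 1, 2, 3, 4, 5, 6, 7, 8]),
  ([5, 4, 3, 2, 1, 0, 0, 0], [0, 1, 3, 2, 4, 6, 5, 7, 8]),
  ([7, 4, 3, 2, 1, 0, 0, 0], [0, 1, 2, 3, 4, 5, 6, 7, 8]),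
  ([5, 5, 2, 1, 0, 0, 0, 0], [0, 1, 2, 3, 5, 6, 7, 8, 4]),
  ([4, 2, 2, 1, 1, 0, 0, 0], [1, 0, 4, 5, 2, 8, 6, 7, 3]),
  ([6, 6, 2, 1, 1, 0, 0, 0], [0, 2, 1, 3, 6, 4, 7, 8, 5]),
  ([4, 4, 3, 2, 1, 0, 0, 0], [0, 1, 2, 3, 4, 5, 7, 8, 6]),
  ([6, 5, 5, 1, 0, 0, 0, 0], [5, 1, 6, 7, 0, 8, 2, 3, 4]),
  ([5, 4, 4, 2, 1, 0, 0, 0], [0, 1, 2, 3, 4, 5, 6, 7, 8]),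
  ([6, 4, 4, 2, 1, 0, 0, 0], [0, 1, 2, 3, 4, 5, 6, 7, 8]),
  ([6, 4, 4, 2, 1, 0, 0, 0], [0, 1, 2, 3, 4, 5, 7, 6, 8]),
  ([6, 5, 2, 1, 0, 0, 0, 0], [0, 1, 2, 3, 5, 6, 7, 8, 4]),
  ([6, 4, 2, 1, 1, 0, 0, 0], [0, 1, 2, 3, 4, 6, 7, 8, 5]),
  ([6, 4, 2, 1, 1, 0, 0, 0], [0, 2, 1, 3, 6, 4, 8, 7, 5]),
  ([5, 4, 3, 2, 1, 0, 0, 0], [0, 1, 2, 3, 4, 5, 7, 8, 6]),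
  ([5, 4, 4, 2, 1, 0, 0, 0], [0, 1, 2, 3, 4, 5, 6, 8, 7]),
  ([5, 4, 4, 2, 1, 0, 0, 0], [0, 2, 1, 3, 5, 4, 8, 6, 7]),
  ([6, 5, 4, 2, 1, 0, 0, 0], [0, 1, 2, 3, 4, 5, 6, 7, 8]),
  ([6, 5, 4, 2, 1, 0, 0, 0], [0, 2, 1, 3, 5, 4, 7, 6, 8]),
  ([7, 5, 2, 1, 0, 0, 0, 0], [0, 1, 2, 3, 5, 6, 7, 8, 4]),
  ([6, 4, 2, 1, 1, 0, 0, 0], [1, 0, 4, 5, 2, 7, 6, 8, 3]),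
  ([7, 6, 2, 1, 1, 0, 0, 0], [0, 2, 1, 3, 6, 4, 7, 8, 5]),
  ([7, 4, 3, 2, 1, 0, 0, 0], [0, 1, 2, 3, 4, 5, 7, 8, 6]),
  ([6, 4, 4, 2, 1, 0, 0, 0], [0, 1, 2, 3, 4, 5, 6, 8, 7]),
  ([6, 5, 4, 2, 1, 0, 0, 0], [0, 1, 2, 3, 4, 5, 6, 8, 7]),
  ([6, 6, 4, 2, 1, 0, 0, 0], [0, 1, 2, 3, 4, 5, 6, 7, 8]),
  ([7, 6, 4, 2, 1, 0, 0, 0], [0, 1, 2, 3, 4, 5, 6, 7, 8]),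
  ([6, 6, 5, 1, 0, 0, 0, 0], [0, 1, 2, 3, 5, 6, 7, 8, 4]),
  ([6, 6, 2, 1, 1, 0, 0, 0], [1, 0, 4, 5, 2, 6, 7, 8, 3]),
  ([6, 6, 4, 2, 1, 0, 0, 0], [0, 1, 2, 3, 4, 6, 7, 8, 5]),
  ([6, 6, 4, 2, 1, 0, 0, 0], [0, 1, 3, 2, 4, 6, 7, 8, 5]),
  ([6, 6, 2, 1, 1, 0, 0, 0], [6, 2, 7, 8, 0, 1, 4, 5, 3]),
  ([6, 6, 5, 1, 0, 0, 0, 0], [6, 5, 7, 8, 1, 0, 2, 3, 4]),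
  ([6, 6, 4, 2, 1, 0, 0, 0], [6, 4, 7, 8, 1, 0, 2, 3, 5]),
  ([6, 6, 4, 2, 1, 0, 0, 0], [6, 4, 7, 8, 1, 0, 3, 2, 5]),
  ([7, 6, 5, 1, 0, 0, 0, 0], [0, 1, 2, 3, 5, 6, 7, 8, 4]),
  ([7, 6, 2, 1, 1, 0, 0, 0], [1, 0, 4, 5, 2, 6, 7, 8, 3]),
  ([7, 6, 4, 2, 1, 0, 0, 0], [0, 1, 2, 3, 4, 6, 7, 8, 5]),
  ([7, 6, 4, 2, 1, 0, 0, 0], [0, 1, 3, 2, 4, 6, 7, 8, 5]),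
  ([5, 4, 4, 2, 1, 0, 0, 0], [4, 1, 6, 7, 0, 2, 5, 8, 3]),
  ([6, 6, 4, 2, 1, 0, 0, 0], [6, 4, 7, 8, 1, 0, 2, 5, 3]),
  ([6, 6, 5, 4, 1, 0, 0, 0], [0, 1, 2, 3, 4, 5, 6, 7, 8]),
  ([7, 6, 5, 4, 1, 0, 0, 0], [0, 1, 2, 3, 4, 5, 6, 7, 8]),
  ([6, 5, 4, 2, 1, 0, 0, 0], [0, 1, 2, 4, 5, 6, 7, 8, 3]),
  ([6, 5, 4, 2, 1, 0, 0, 0], [1, 0, 4, 2, 6, 5, 8, 7, 3]),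
  ([7, 6, 4, 2, 1, 0, 0, 0], [1, 4, 0, 6, 2, 7, 5, 8, 3]),
  ([7, 6, 4, 2, 1, 0, 0, 0], [4, 1, 6, 0, 7, 2, 8, 5, 3]),
  ([7, 6, 5, 4, 1, 0, 0, 0], [4, 5, 1, 6, 0, 7, 2, 8, 3]),
  ([7, 6, 5, 4, 1, 0, 0, 0], [5, 4, 6, 1, 7, 0, 8, 2, 3]),
  ([6, 5, 4, 3, 2, 1, 0, 0], [0, 1, 2, 3, 4, 5, 6, 7, 8]),
  ([6, 5, 4, 3, 2, 1, 0, 0], [1, 0, 3, 2, 5, 4, 7, 6, 8])]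

theorem covers8 : Covers 8 L8 :=
  cover_step covers7 C8 (by decide +kernel) (by decide)

end Pool.Agent.V11131.TreeData
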