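import Mathlib
import Pool.Agent.Helper981.KP.ZY

/-!
The Zhang–Yeung inequality for discrete random variables with countable ranges, as a limit of the
inequality for finite (unnormalised) weights.
-/

set_option autoImplicit false
set_option linter.unusedSectionVars false

namespace Pool.Agent.V11131.EntLim

open MeasureTheory Filter Topology Pool.Agent.Helper981.KP
open scoped ENNReal

/-- coordinate restriction -/
def rT (T : Finset (Fin 4)) (z : Fin 4 → ℕ) : Fin 4 → ℕ := fun i => if i ∈ T then z i else 0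

lemma negMulLog_le {x y : ℝ} (hx : 0 ≤ x) (hxy : x ≤ y) (hy : y ≤ 1) :
    Real.negMulLog x ≤ Real.negMulLog y + y := by
  rcases hx.eq_or_lt with h0 | hpos
  · rw [← h0, Real.negMulLog_zero]
    exact add_nonneg (Real.negMulLog_nonneg (hx.trans hxy) hy) (hx.trans hxy)
  · have hypos : 0 < y := hpos.trans_le hxy
    have h1 := Real.log_le_sub_one_of_pos (div_pos hypos hpos)
    rw [Real.log_div hypos.ne' hpos.ne'] at h1
    have h2 := mul_le_mul_of_nonneg_left h1 hpos.le
    have h3 : x * (y / x - 1) = y - x := by field_simp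
    rw [h3] at h2
    have h4 : 0 ≤ -Real.log y := neg_nonneg.2 (Real.log_nonpos hypos.le hy)
    have h5 := mul_le_mul_of_nonneg_right hxy h4
    unfold Real.negMulLog
    nlinarith

section
variable (ν : Measure (Fin 4 → ℕ)) [IsProbabilityMeasure ν]

/-- truncated marginal -/
noncomputable def mF (F : Finset (Fin 4 → ℕ)) (T : Finset (Fin 4)) (t : Fin 4 → ℕ) : ℝ :=
  ∑ z ∈ F, if rT T z = t then ν.real {z} else 0

/-- marginal -/
noncomputable def mI (T : Finset (Fin 4)) (t : Fin 4 → ℕ) : ℝ := ν.real (rT T ⁻¹' {t})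

lemma hasSum_mI (T : Finset (Fin 4)) (t : Fin 4 → ℕ) :
    HasSum (fun z => if rT T z = t then ν.real {z} else 0) (mI ν T t) := by
  have h1 := Measure.tsum_indicator_apply_singleton ν (rT T ⁻¹' {t})
    (Set.to_countable _).measurableSet
  have h2 : ∑' z, (rT T ⁻¹' {t}).indicator (fun z => ν {z}) z ≠ ∞ := by
    rw [h1]; exact measure_ne_top _ _
  have h3 := ENNReal.hasSum_toReal h2
  have h4 : (∑' z, ((rT T ⁻¹' {t}).indicator (fun z => ν {z}) z).toReal) = mI ν T t := by
    rw [← ENNReal.tsum_toReal_eq (fun z => ENNReal.ne_top_of_tsum_ne_top h2 z), h1]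
    rfl
  rw [← h4]
  convert h3 using 2 with z
  by_cases hz : rT T z = t
  · rw [if_pos hz, Set.indicator_of_mem (by simpa using hz)]; rfl
  · rw [if_neg hz, Set.indicator_of_notMem (by simpa using hz)]; rfl

lemma mF_nonneg (F : Finset (Fin 4 → ℕ)) (T : Finset (Fin 4)) (t : Fin 4 → ℕ) : 0 ≤ mF ν F T t :=
  Finset.sum_nonneg fun z _ => by split_ifs <;> simp [measureReal_nonneg]

lemma mF_le (F : Finset (Fin 4 → ℕ)) (T : Finset (Fin 4)) (t : Fin 4 → ℕ) :
    mF ν F T t ≤ mI ν T t :=
  sum_le_hasSum F (fun z _ => by split_ifs <;> simp [measureReal_nonneg]) (hasSum_mI ν T t)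

lemma mI_le_one (T : Finset (Fin 4)) (t : Fin 4 → ℕ) : mI ν T t ≤ 1 := measureReal_le_one

lemma tendsto_mF (T : Finset (Fin 4)) (t : Fin 4 → ℕ) :
    Tendsto (fun F => mF ν F T t) atTop (𝓝 (mI ν T t)) := by
  have h := hasSum_mI ν T t
  unfold HasSum at h
  simpa [mF] using h

lemma summable_mI (T : Finset (Fin 4)) : Summable (mI ν T) := by
  have h1 := Measure.tsum_indicator_apply_singleton (ν.map (rT T)) Set.univ MeasurableSet.univ
  have hm : Measurable (rT T) := measurable_of_countable _
  have h2 : ∑' t, ν (rT T ⁻¹' {t}) ≠ ∞ := by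
    have h3 : ∑' t, ν (rT T ⁻¹' {t}) = (ν.map (rT T)) Set.univ := by
      rw [← h1]
      refine tsum_congr fun t => ?_
      rw [Set.indicator_of_mem (Set.mem_univ _), Measure.map_apply hm (measurableSet_singleton t)]
    rw [h3, Measure.map_apply hm MeasurableSet.univ]
    exact measure_ne_top _ _
  exact ENNReal.summable_toReal h2

lemma HV_trunc (F : Finset (Fin 4 → ℕ)) (T : Finset (Fin 4)) :
    HV (fun z : F => ν.real {z.1}) (fun j z => z.1 j) T = ∑' t, Real.negMulLog (mF ν F T t) := by
  classical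
  have htup : ∀ z : F, tup (fun (j : Fin 4) (z : F) => z.1 j) T z = rT T z.1 := fun z => rfl
  have hmg : ∀ z : F, mg (fun z : F => ν.real {z.1}) (tup (fun (j : Fin 4) (z : F) => z.1 j) T) z
      = mF ν F T (rT T z.1) := by
    intro z
    unfold mg mF
    rw [← Finset.sum_coe_sort F]
    refine Finset.sum_congr rfl fun z' _ => ?_
    rw [htup, htup]
  unfold HV Hf
  simp only [hmg]
  rw [Finset.sum_coe_sort F (fun z => ν.real {z} * (-Real.log (mF ν F T (rT T z))))]
  rw [tsum_eq_sum (s := F.image (rT T))]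
  · rw [← Finset.sum_fiberwise_of_maps_to (s := F) (t := F.image (rT T)) (g := rT T)
      (fun z hz => Finset.mem_image_of_mem _ hz)]
    refine Finset.sum_congr rfl fun t _ => ?_
    have h1 : ∑ z ∈ F with rT T z = t, ν.real {z} * (-Real.log (mF ν F T (rT T z)))
        = (∑ z ∈ F with rT T z = t, ν.real {z}) * (-Real.log (mF ν F T t)) := by
      rw [Finset.sum_mul]
      refine Finset.sum_congr rfl fun z hz => ?_
      rw [(Finset.mem_filter.1 hz).2]
    rw [h1, Finset.sum_filter]
    unfold Real.negMulLog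
    have h2 : (∑ a ∈ F, if rT T a = t then ν.real {a} else 0) = mF ν F T t := rfl
    rw [h2]
    ring
  · intro t ht
    have h1 : mF ν F T t = 0 := by
      refine Finset.sum_eq_zero fun z hz => ?_
      rw [if_neg]
      intro h
      exact ht (h ▸ Finset.mem_image_of_mem _ hz)
    rw [h1, Real.negMulLog_zero]

lemma tendsto_HV (T : Finset (Fin 4)) (hs : Summable fun t => Real.negMulLog (mI ν T t)) :
    Tendsto (fun F : Finset (Fin 4 → ℕ) => HV (fun z : F => ν.real {z.1}) (fun j z => z.1 j) T)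
      atTop (𝓝 (∑' t, Real.negMulLog (mI ν T t))) := by
  simp only [HV_trunc]
  refine tendsto_tsum_of_dominated_convergence (bound := fun t => Real.negMulLog (mI ν T t) + mI ν T t)
    (hs.add (summable_mI ν T)) (fun t => ?_) (Eventually.of_forall fun F t => ?_)
  · exact (Real.continuous_negMulLog.tendsto _).comp (tendsto_mF ν T t)
  · rw [Real.norm_eq_abs, abs_of_nonneg (Real.negMulLog_nonneg (mF_nonneg ν F T t)
      ((mF_le ν F T t).trans (mI_le_one ν T t)))]
    exact negMulLog_le (mF_nonneg ν F T t) (mF_le ν F T t) (mI_le_one ν T t)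

/-- the Zhang–Yeung inequality for a probability measure on `ℕ⁴` -/
theorem zy_countable (hs : ∀ T, Summable fun t => Real.negMulLog (mI ν T t)) :
    2 * ((∑' t, Real.negMulLog (mI ν {2} t)) + (∑' t, Real.negMulLog (mI ν {3} t))
        - (∑' t, Real.negMulLog (mI ν {2, 3} t))) ≤
      ((∑' t, Real.negMulLog (mI ν {0} t)) + (∑' t, Real.negMulLog (mI ν {1} t))
        - (∑' t, Real.negMulLog (mI ν {0, 1} t))) +
      ((∑' t, Real.negMulLog (mI ν {0} t)) + (∑' t, Real.negMulLog (mI ν {2, 3} t))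
        - (∑' t, Real.negMulLog (mI ν {0, 2, 3} t))) +
      3 * ((∑' t, Real.negMulLog (mI ν {0, 2} t)) + (∑' t, Real.negMulLog (mI ν {0, 3} t))
        - (∑' t, Real.negMulLog (mI ν {0, 2, 3} t)) - (∑' t, Real.negMulLog (mI ν {0} t))) +
      ((∑' t, Real.negMulLog (mI ν {1, 2} t)) + (∑' t, Real.negMulLog (mI ν {1, 3} t))
        - (∑' t, Real.negMulLog (mI ν {1, 2, 3} t)) - (∑' t, Real.negMulLog (mI ν {1} t))) := by
  have t := fun T => tendsto_HV ν T (hs T)
  refine le_of_tendsto_of_tendsto'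
    ((((t {2}).add (t {3})).sub (t {2, 3})).const_mul 2)
    ((((((t {0}).add (t {1})).sub (t {0, 1})).add (((t {0}).add (t {2, 3})).sub (t {0, 2, 3}))).add
      (((((t {0, 2}).add (t {0, 3})).sub (t {0, 2, 3})).sub (t {0})).const_mul 3)).add
      ((((t {1, 2}).add (t {1, 3})).sub (t {1, 2, 3})).sub (t {1}))) fun F => ?_
  exact zhang_yeung (fun z : F => ν.real {z.1}) (fun z => measureReal_nonneg) (fun j z => z.1 j)

end

end Pool.Agent.V11131.EntLim
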