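import Mathlib
import Pool.Agent.V1119.Comp

/-!
Presentations of special inverse monoids and a criterion for them to be `E`-unitary.
-/

set_option autoImplicit false

namespace Pool.Agent.V11131.InvMon

open Pool.Agent.V1119.Comp FreeGroup

/-- The defining relations of the inverse monoid `Inv⟨X | w = 1 (w ∈ R)⟩`, where `X` is indexed by
`Fin k`, the letter `(i, true)` is the generator `i` and `(i, false)` its formal inverse: Wagner's
relations `w w⁻¹ w = w` and `u u⁻¹ w w⁻¹ = w w⁻¹ u u⁻¹` for all words, and `w = 1` for `w ∈ R`. -/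
inductive VRel {k : ℕ} (R : Set (List (Fin k × Bool))) :
    FreeMonoid (Fin k × Bool) → FreeMonoid (Fin k × Bool) → Prop
  | inv (w : List (Fin k × Bool)) :
      VRel R (FreeMonoid.ofList (w ++ invRev w ++ w)) (FreeMonoid.ofList w)
  | comm (u w : List (Fin k × Bool)) :
      VRel R (FreeMonoid.ofList ((u ++ invRev u) ++ (w ++ invRev w)))
        (FreeMonoid.ofList ((w ++ invRev w) ++ (u ++ invRev u)))
  | rel (w : List (Fin k × Bool)) (hw : w ∈ R) : VRel R (FreeMonoid.ofList w) 1

/-- The inverse monoid `Inv⟨X | w = 1 (w ∈ R)⟩`. -/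
def IM {k : ℕ} (R : Set (List (Fin k × Bool))) : Type := (conGen (VRel R)).Quotient

instance {k : ℕ} (R : Set (List (Fin k × Bool))) : Monoid (IM R) :=
  inferInstanceAs (Monoid (conGen (VRel R)).Quotient)

/-- The element of `Inv⟨X | w = 1 (w ∈ R)⟩` represented by a word. -/
def cls {k : ℕ} (R : Set (List (Fin k × Bool))) (w : List (Fin k × Bool)) : IM R :=
  (conGen (VRel R)).mk' (FreeMonoid.ofList w)

/-- Inverse monoids. -/
def IsInverseMonoid (S : Type) [Monoid S] : Prop :=
  ∀ s : S, ∃! s' : S, s * s' * s = s ∧ s' * s * s' = s'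

/-- The natural partial order. -/
def NLE {S : Type} [Monoid S] (s t : S) : Prop := ∃ e : S, e * e = e ∧ s = e * t

/-- `E`-unitary monoids: an element above an idempotent is an idempotent. -/
def EUnitary (S : Type) [Monoid S] : Prop := ∀ e s : S, e * e = e → NLE e s → s * s = s

/-- The minimum group congruence `σ`. -/
def Sig {S : Type} [Monoid S] (s t : S) : Prop := ∃ e : S, e * e = e ∧ e * s = e * t

/-- The right units, i.e. the elements of the `ℛ`-class of `1`. -/
def RightUnit {S : Type} [Monoid S] (s : S) : Prop := ∃ s' : S, s * s' = 1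

section basic

variable {k : ℕ} {R : Set (Wd k)}

lemma cls_append (u v : Wd k) : cls R (u ++ v) = cls R u * cls R v := by
  exact _root_.map_mul (conGen (VRel R)).mk' (FreeMonoid.ofList u) (FreeMonoid.ofList v)

lemma cls_nil : cls R [] = 1 := by
  exact _root_.map_one (conGen (VRel R)).mk'

lemma cls_surj (s : IM R) : ∃ w, cls R w = s := by
  obtain ⟨w, rfl⟩ := Con.mk'_surjective s
  exact ⟨w.toList, rfl⟩

lemma cls_eq_of {u v : FreeMonoid (Fin k × Bool)} (h : VRel R u v) :
    (conGen (VRel R)).mk' u = (conGen (VRel R)).mk' v :=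
  (Con.eq _).2 (ConGen.Rel.of _ _ h)

lemma vinv (w : Wd k) : cls R w * cls R (invRev w) * cls R w = cls R w := by
  rw [← cls_append, ← cls_append]
  exact cls_eq_of (VRel.inv w)

lemma vcomm (u w : Wd k) : cls R u * cls R (invRev u) * (cls R w * cls R (invRev w)) =
    cls R w * cls R (invRev w) * (cls R u * cls R (invRev u)) := by
  rw [← cls_append, ← cls_append, ← cls_append, ← cls_append]
  exact cls_eq_of (VRel.comm u w)

lemma vrel {w : Wd k} (hw : w ∈ R) : cls R w = 1 := cls_eq_of (VRel.rel w hw)

lemma vinv' (w : Wd k) : cls R (invRev w) * cls R w * cls R (invRev w) = cls R (invRev w) := by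
  have := vinv (R := R) (invRev w)
  rwa [invRev_invRev] at this

lemma vcomm' (u w : Wd k) : cls R (invRev u) * cls R u * (cls R (invRev w) * cls R w) =
    cls R (invRev w) * cls R w * (cls R (invRev u) * cls R u) := by
  have := vcomm (R := R) (invRev u) (invRev w)
  rwa [invRev_invRev, invRev_invRev] at this

lemma vcomm2 (u w : Wd k) : cls R u * cls R (invRev u) * (cls R (invRev w) * cls R w) =
    cls R (invRev w) * cls R w * (cls R u * cls R (invRev u)) := by
  have := vcomm (R := R) u (invRev w)
  rwa [invRev_invRev] at this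

/-- an idempotent equals its inverse -/
lemma idem {w : Wd k} (h : cls R w * cls R w = cls R w) :
    cls R w = cls R w * cls R (invRev w) := by
  set e := cls R w
  set f := cls R (invRev w)
  have h1 : e * f * e = e := vinv w
  have h2 : f * e * f = f := vinv' w
  have h3 : e * f * (f * e) = f * e * (e * f) := vcomm2 w w
  have h4 : f = e * (f * f) * e := by
    calc f = f * e * f := h2.symm
      _ = f * (e * e) * f := by rw [h]
      _ = f * e * (e * f) := by simp only [mul_assoc]
      _ = e * f * (f * e) := h3.symm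
      _ = _ := by simp only [mul_assoc]
  have h5 : e * f = f := by
    calc e * f = e * (e * (f * f) * e) := by rw [← h4]
      _ = (e * e) * (f * f) * e := by simp only [mul_assoc]
      _ = e * (f * f) * e := by rw [h]
      _ = f := h4.symm
  have h6 : f * e = f := by
    calc f * e = (e * (f * f) * e) * e := by rw [← h4]
      _ = e * (f * f) * (e * e) := by simp only [mul_assoc]
      _ = e * (f * f) * e := by rw [h]
      _ = f := h4.symm
  calc e = e * f * e := h1.symm
    _ = f * e := by rw [h5]
    _ = f := h6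
    _ = e * f := h5.symm

lemma idem_comm {e f : IM R} (he : e * e = e) (hf : f * f = f) : e * f = f * e := by
  obtain ⟨u, rfl⟩ := cls_surj e
  obtain ⟨w, rfl⟩ := cls_surj f
  rw [idem he, idem hf]
  exact vcomm u w

lemma isInverse (R : Set (Wd k)) : IsInverseMonoid (IM R) := by
  intro s
  obtain ⟨w, rfl⟩ := cls_surj s
  refine ⟨cls R (invRev w), ⟨vinv w, vinv' w⟩, ?_⟩
  rintro b ⟨h1, h2⟩
  set a := cls R w
  set c := cls R (invRev w)
  have h3 : a * c * a = a := vinv w
  have h4 : c * a * c = c := vinv' w
  have hab : (a * b) * (a * b) = a * b := by rw [← mul_assoc, h1]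
  have hac : (a * c) * (a * c) = a * c := by rw [← mul_assoc, h3]
  have hba : (b * a) * (b * a) = b * a := by rw [← mul_assoc, h2]
  have hca : (c * a) * (c * a) = c * a := by rw [← mul_assoc, h4]
  have e1 := idem_comm hab hac
  have e2 := idem_comm hba hca
  calc b = b * a * b := h2.symm
    _ = b * (a * c * a) * b := by rw [h3]
    _ = b * ((a * c) * (a * b)) := by simp only [mul_assoc]
    _ = b * ((a * b) * (a * c)) := by rw [e1]
    _ = (b * a * b) * (a * c) := by simp only [mul_assoc]
    _ = b * (a * c) := by rw [h2]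
    _ = (b * a) * (c * a * c) := by rw [h4]; simp only [mul_assoc]
    _ = (b * a) * (c * a) * c := by simp only [mul_assoc]
    _ = (c * a) * (b * a) * c := by rw [e2]
    _ = c * (a * b * a) * c := by simp only [mul_assoc]
    _ = c * a * c := by rw [h1]
    _ = c := h4

lemma rightUnit_iff (w : Wd k) : RightUnit (cls R w) ↔ cls R w * cls R (invRev w) = 1 := by
  constructor
  · rintro ⟨s, hs⟩
    calc cls R w * cls R (invRev w) = cls R w * cls R (invRev w) * (cls R w * s) := by
          rw [hs, mul_one]
      _ = cls R w * cls R (invRev w) * cls R w * s := by simp only [mul_assoc]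
      _ = 1 := by rw [vinv, hs]
  · exact fun h => ⟨_, h⟩

lemma rightUnit_mul {a b : IM R} (ha : RightUnit a) (hb : RightUnit b) : RightUnit (a * b) := by
  obtain ⟨a', ha⟩ := ha
  obtain ⟨b', hb⟩ := hb
  refine ⟨b' * a', ?_⟩
  rw [mul_assoc, ← mul_assoc b, hb, one_mul, ha]

lemma right_cancel {a b c : IM R} (hc : RightUnit c) (h : a * c = b * c) : a = b := by
  obtain ⟨c', hc⟩ := hc
  have := congrArg (· * c') h
  simpa only [mul_assoc, hc, mul_one] using this

/-- A relator `u v⁻¹` makes `u` and `v` equal. -/
lemma eq_of_rel {u v : Wd k} (h : cls R (u ++ invRev v) = 1) : cls R u = cls R v := by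
  have h1 : cls R (v ++ invRev u) = 1 := by
    have h2 := vinv (R := R) (u ++ invRev v)
    rw [h, one_mul, mul_one, invRev_append, invRev_invRev] at h2
    exact h2
  rw [cls_append] at h h1
  have h3 := vcomm' (R := R) u v
  calc cls R u = cls R v * cls R (invRev u) * cls R u := by rw [h1, one_mul]
    _ = (cls R u * cls R (invRev v)) * cls R v * cls R (invRev u) * cls R u := by
          rw [h, one_mul]
    _ = cls R u * ((cls R (invRev v) * cls R v) * (cls R (invRev u) * cls R u)) := by
          simp only [mul_assoc]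
    _ = cls R u * ((cls R (invRev u) * cls R u) * (cls R (invRev v) * cls R v)) := by rw [h3]
    _ = (cls R u * cls R (invRev u) * cls R u) * (cls R (invRev v) * cls R v) := by
          simp only [mul_assoc]
    _ = cls R u * (cls R (invRev v) * cls R v) := by rw [vinv]
    _ = (cls R u * cls R (invRev v)) * cls R v := by simp only [mul_assoc]
    _ = cls R v := by rw [h, one_mul]

lemma conj_idem (X W : Wd k) : cls R X * (cls R W * cls R (invRev W)) =
    cls R X * (cls R W * cls R (invRev W)) * cls R (invRev X) * cls R X := by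
  have h := vcomm2 (R := R) W X
  calc cls R X * (cls R W * cls R (invRev W)) =
      (cls R X * cls R (invRev X) * cls R X) * (cls R W * cls R (invRev W)) := by rw [vinv]
    _ = cls R X * ((cls R (invRev X) * cls R X) * (cls R W * cls R (invRev W))) := by
          simp only [mul_assoc]
    _ = cls R X * ((cls R W * cls R (invRev W)) * (cls R (invRev X) * cls R X)) := by rw [h]
    _ = _ := by simp only [mul_assoc]

end basic

section values

variable {k : ℕ} {G : Type} [Group G] (x : Fin k → G)

/-- the value of a word in a group -/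
def ev (w : Wd k) : G := FreeGroup.lift x (FreeGroup.mk w)

/-- the letter's value -/
def lt (c : Fin k × Bool) : G := cond c.2 (x c.1) (x c.1)⁻¹

lemma ev_append (u v : Wd k) : ev x (u ++ v) = ev x u * ev x v := by
  rw [ev, ← FreeGroup.mul_mk, _root_.map_mul]; rfl

lemma ev_nil : ev x [] = 1 := _root_.map_one _

lemma ev_single (c : Fin k × Bool) : ev x [c] = lt x c := lift_mk_single x c

lemma ev_cons (c : Fin k × Bool) (w : Wd k) : ev x (c :: w) = lt x c * ev x w := by
  rw [← ev_single, ← ev_append]; rfl

lemma ev_invRev (w : Wd k) : ev x (invRev w) = (ev x w)⁻¹ := by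
  rw [ev, ← FreeGroup.inv_mk, _root_.map_inv]; rfl

/-- positive words -/
def pos (u : List (Fin k)) : Wd k := u.map (fun i => (i, true))

lemma pos_append (u v : List (Fin k)) : pos (u ++ v) = pos u ++ pos v := List.map_append ..

lemma pos_cons (i : Fin k) (v : List (Fin k)) : pos (i :: v) = [(i, true)] ++ pos v := rfl

/-- the submonoid generated by the generators -/
def PM : Submonoid G := Submonoid.closure (Set.range x)

lemma ev_pos_mem (u : List (Fin k)) : ev x (pos u) ∈ PM x := by
  induction u with
  | nil => exact one_mem _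
  | cons i u ih =>
    rw [pos_cons, ev_append, ev_single]
    exact mul_mem (Submonoid.subset_closure ⟨i, rfl⟩) ih

lemma exists_pos {g : G} (hg : g ∈ PM x) : ∃ u, ev x (pos u) = g := by
  induction hg using Submonoid.closure_induction with
  | mem g hg =>
    obtain ⟨i, rfl⟩ := hg
    exact ⟨[i], ev_single x _⟩
  | one => exact ⟨[], rfl⟩
  | mul a b _ _ ha hb =>
    obtain ⟨u, rfl⟩ := ha
    obtain ⟨v, rfl⟩ := hb
    exact ⟨u ++ v, by rw [pos_append, ev_append]⟩

/-- the relators: all equalities between short positive words -/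
def Rel (N : ℕ) : Set (Wd k) := {r | ∃ u v : List (Fin k), u.length ≤ N ∧ v.length ≤ N ∧
  ev x (pos u) = ev x (pos v) ∧ r = pos u ++ invRev (pos v)}

lemma rel_finite (N : ℕ) : (Rel x N).Finite := by
  have h : {u : List (Fin k) | u.length ≤ N}.Finite := List.finite_length_le _ _
  refine ((h.prod h).image (fun p => pos p.1 ++ invRev (pos p.2))).subset ?_
  rintro r ⟨u, v, hu, hv, -, rfl⟩
  exact ⟨(u, v), ⟨hu, hv⟩, rfl⟩

/-- The partial action on the right of `P`. -/
def D : Wd k → G → Prop
  | [], g => g ∈ PM x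
  | c :: w, g => g ∈ PM x ∧ D w (g * lt x c)

lemma D_start {w : Wd k} {g : G} (h : D x w g) : g ∈ PM x := by
  cases w with
  | nil => exact h
  | cons c w => exact h.1

lemma D_append (u v : Wd k) (g : G) : D x (u ++ v) g ↔ D x u g ∧ D x v (g * ev x u) := by
  induction u generalizing g with
  | nil =>
    rw [List.nil_append, ev_nil, mul_one]
    exact ⟨fun h => ⟨D_start x h, h⟩, fun h => h.2⟩
  | cons c u ih =>
    change (_ ∧ D x (u ++ v) _) ↔ (_ ∧ D x u _) ∧ _
    rw [ih, ev_cons, ← mul_assoc, and_assoc]

lemma D_end {w : Wd k} {g : G} (h : D x w g) : g * ev x w ∈ PM x := by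
  have h1 := (D_append x w [] g).1 (by rwa [List.append_nil])
  exact h1.2

lemma D_single (c : Fin k × Bool) (g : G) : D x [c] g ↔ g ∈ PM x ∧ g * lt x c ∈ PM x := Iff.rfl

lemma lt_not (c : Fin k × Bool) : lt x (c.1, !c.2) = (lt x c)⁻¹ := by
  obtain ⟨i, b⟩ := c
  cases b <;> simp [lt]

lemma D_invRev (w : Wd k) (g : G) : D x (invRev w) (g * ev x w) ↔ D x w g := by
  induction w generalizing g with
  | nil =>
    rw [ev_nil, mul_one]; rfl
  | cons c w ih =>
    have h1 : invRev (c :: w) = invRev w ++ [(c.1, !c.2)] := by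
      simp [invRev]
    rw [h1, D_append, ev_cons, ← mul_assoc, ih, D_single, ev_invRev, mul_inv_cancel_right,
      lt_not, mul_inv_cancel_right]
    constructor
    · rintro ⟨h2, h3, h4⟩; exact ⟨h4, h2⟩
    · rintro ⟨h2, h3⟩; exact ⟨h3, D_start x h3, h2⟩

lemma D_pos (u : List (Fin k)) {g : G} (hg : g ∈ PM x) : D x (pos u) g := by
  induction u generalizing g with
  | nil => exact hg
  | cons i u ih =>
    exact ⟨hg, ih (mul_mem hg (Submonoid.subset_closure ⟨i, rfl⟩))⟩

/-- the congruence of the partial action -/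
def conD : Con (FreeMonoid (Fin k × Bool)) where
  r u v := ev x u.toList = ev x v.toList ∧ ∀ g, D x u.toList g ↔ D x v.toList g
  iseqv := ⟨fun _ => ⟨rfl, fun _ => Iff.rfl⟩, fun h => ⟨h.1.symm, fun g => (h.2 g).symm⟩,
    fun h h' => ⟨h.1.trans h'.1, fun g => (h.2 g).trans (h'.2 g)⟩⟩
  mul' := by
    rintro a b c d ⟨h1, h2⟩ ⟨h3, h4⟩
    simp only [FreeMonoid.toList_mul]
    refine ⟨by rw [ev_append, ev_append, h1, h3], fun g => ?_⟩
    rw [D_append, D_append, h1, h2, h4]

lemma le_conD (N : ℕ) : conGen (VRel (Rel x N)) ≤ conD x := by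
  rw [Con.conGen_le]
  intro a b h
  cases h with
  | inv w =>
    refine ⟨?_, fun g => ?_⟩
    · simp only [FreeMonoid.toList_ofList, ev_append, ev_invRev]; group
    · simp only [FreeMonoid.toList_ofList, D_append, D_invRev, ev_append, ev_invRev,
        mul_inv_cancel, mul_one]
      tauto
  | comm u w =>
    refine ⟨?_, fun g => ?_⟩
    · simp only [FreeMonoid.toList_ofList, ev_append, ev_invRev]; group
    · simp only [FreeMonoid.toList_ofList, D_append, D_invRev, ev_append, ev_invRev,
        mul_inv_cancel, mul_one]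
      tauto
  | rel w hw =>
    obtain ⟨u, v, -, -, h, rfl⟩ := hw
    refine ⟨?_, fun g => ?_⟩
    · simp only [FreeMonoid.toList_ofList, FreeMonoid.toList_one, ev_append, ev_invRev, h, ev_nil,
        mul_inv_cancel]
    · simp only [FreeMonoid.toList_ofList, FreeMonoid.toList_one, D_append]
      rw [h, D_invRev]
      exact ⟨fun h => D_start x h.1, fun h => ⟨D_pos x u h, D_pos x v h⟩⟩

lemma ev_eq {N : ℕ} {u v : Wd k} (h : cls (Rel x N) u = cls (Rel x N) v) : ev x u = ev x v :=
  (le_conD x N ((Con.eq _).1 h)).1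

lemma D_iff {N : ℕ} {u v : Wd k} (h : cls (Rel x N) u = cls (Rel x N) v) (g : G) :
    D x u g ↔ D x v g :=
  (le_conD x N ((Con.eq _).1 h)).2 g

lemma mem_of_rightUnit {N : ℕ} {w : Wd k} (h : RightUnit (cls (Rel x N) w)) : ev x w ∈ PM x := by
  rw [rightUnit_iff, ← cls_append, ← cls_nil] at h
  have h1 := (D_iff x h 1).2 (one_mem _)
  rw [D_append] at h1
  have h2 := D_end x h1.1
  rwa [one_mul] at h2

lemma rightUnit_pos {N : ℕ} (hN : 1 ≤ N) (u : List (Fin k)) :
    RightUnit (cls (Rel x N) (pos u)) := by
  induction u with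
  | nil => exact ⟨1, by rw [mul_one]; exact cls_nil⟩
  | cons i u ih =>
    rw [pos_cons, cls_append]
    refine rightUnit_mul ⟨cls (Rel x N) (invRev [(i, true)]), ?_⟩ ih
    rw [← cls_append]
    exact vrel ⟨[i], [i], hN, hN, rfl, rfl⟩

lemma eq_short {N : ℕ} {u v : List (Fin k)} (hu : u.length ≤ N) (hv : v.length ≤ N)
    (h : ev x (pos u) = ev x (pos v)) : cls (Rel x N) (pos u) = cls (Rel x N) (pos v) :=
  eq_of_rel (vrel ⟨u, v, hu, hv, h, rfl⟩)

variable {N : ℕ} (hN : 1 ≤ N)
  (hyp : ∀ u v : List (Fin k), ev x (pos u) = ev x (pos v) →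
    cls (Rel x N) (pos u) = cls (Rel x N) (pos v))

include hyp in
/-- the key lemma -/
lemma key (w : Wd k) (q : List (Fin k))
    (hw : ∀ w' ∈ w.tails, ev x w' * ev x (pos q) ∈ PM x) (u : List (Fin k))
    (hu : ev x (pos u) = ev x w * ev x (pos q)) :
    cls (Rel x N) w * cls (Rel x N) (pos q) =
      cls (Rel x N) w * cls (Rel x N) (invRev w) * cls (Rel x N) (pos u) := by
  induction w generalizing u with
  | nil =>
    have h1 : invRev ([] : Wd k) = [] := rfl
    rw [h1, cls_nil, one_mul, one_mul, one_mul]
    apply hyp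
    rw [hu, ev_nil, one_mul]
  | cons c w ih =>
    have hw' : ∀ w' ∈ w.tails, ev x w' * ev x (pos q) ∈ PM x := fun w' h => hw w' (by
      rw [List.tails_cons]; exact List.mem_cons_of_mem _ h)
    obtain ⟨p, hp⟩ := exists_pos x (hw' w ((List.mem_tails _ _).2 List.suffix_rfl))
    have h1 := ih hw' p hp
    have h2 : c :: w = [c] ++ w := rfl
    have h3 : cls (Rel x N) (invRev (c :: w)) =
        cls (Rel x N) (invRev w) * cls (Rel x N) (invRev [c]) := by
      rw [h2, invRev_append, cls_append]
    have h4 := conj_idem (R := Rel x N) [c] w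
    rw [h3, h2, cls_append, mul_assoc, h1]
    have hc : cls (Rel x N) [c] * (cls (Rel x N) w * cls (Rel x N) (invRev w) *
        cls (Rel x N) (pos p)) = cls (Rel x N) [c] * (cls (Rel x N) w *
        cls (Rel x N) (invRev w)) * cls (Rel x N) (pos p) := by simp only [mul_assoc]
    rw [hc]
    obtain ⟨i, b⟩ := c
    cases b with
    | true =>
      have h5 : cls (Rel x N) [(i, true)] * cls (Rel x N) (pos p) = cls (Rel x N) (pos u) := by
        rw [← cls_append]
        apply hyp (i :: p) u
        rw [hu, h2, ev_append, pos_cons, ev_append, hp, mul_assoc]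
      rw [h4, mul_assoc _ _ (cls (Rel x N) (pos p)), h5]
      simp only [mul_assoc]
    | false =>
      have h5 : cls (Rel x N) (pos p) = cls (Rel x N) [(i, true)] * cls (Rel x N) (pos u) := by
        rw [← cls_append]
        apply hyp p (i :: u)
        rw [pos_cons, ev_append, hu, h2, ev_append, hp, ev_single, ev_single]
        simp [lt, mul_assoc]
      have h6 : invRev [((i, false) : Fin k × Bool)] = [(i, true)] := rfl
      rw [h5, h6]
      simp only [mul_assoc]

include hyp hN in
/-- right cancellation in the key lemma -/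
lemma key_one {w : Wd k} {q : List (Fin k)}
    (hw : ∀ w' ∈ w.tails, ev x w' * ev x (pos q) ∈ PM x) (h1 : ev x w = 1) :
    cls (Rel x N) w = cls (Rel x N) w * cls (Rel x N) (invRev w) := by
  have h := key x hyp w q hw q (by rw [h1, one_mul])
  exact right_cancel (rightUnit_pos x hN q) h

lemma idem_ww (w : Wd k) : cls (Rel x N) w * cls (Rel x N) (invRev w) *
    (cls (Rel x N) w * cls (Rel x N) (invRev w)) = cls (Rel x N) w * cls (Rel x N) (invRev w) := by
  rw [← mul_assoc, vinv]

variable (hcom : ∀ l : List G, ∃ q ∈ PM x, ∀ g ∈ l, g * q ∈ PM x)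

include hN hyp hcom in
lemma eUnitary : EUnitary (IM (Rel x N)) := by
  rintro e s he ⟨f, hf, hef⟩
  obtain ⟨w, rfl⟩ := cls_surj s
  obtain ⟨u, rfl⟩ := cls_surj e
  obtain ⟨v, rfl⟩ := cls_surj f
  have hid : ∀ u : Wd k, cls (Rel x N) u * cls (Rel x N) u = cls (Rel x N) u → ev x u = 1 := by
    intro u hu
    rw [← cls_append] at hu
    have := ev_eq x hu
    rw [ev_append] at this
    simpa using this
  have h1 : ev x w = 1 := by
    rw [← cls_append] at hef
    have h2 := ev_eq x hef
    rw [ev_append, hid u he, hid v hf, one_mul] at h2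
    exact h2.symm
  obtain ⟨q, hq, hl⟩ := hcom (w.tails.map (ev x))
  obtain ⟨q, rfl⟩ := exists_pos x hq
  have h3 := key_one x hN hyp (w := w) (q := q)
    (fun w' hw' => hl _ (List.mem_map_of_mem hw')) h1
  rw [h3]
  exact idem_ww x w

include hN hyp hcom in
lemma sig_iff (w w' : Wd k) :
    Sig (cls (Rel x N) w) (cls (Rel x N) w') ↔ ev x w = ev x w' := by
  constructor
  · rintro ⟨e, he, h⟩
    obtain ⟨u, rfl⟩ := cls_surj e
    rw [← cls_append, ← cls_append] at h
    have := ev_eq x h
    rw [ev_append, ev_append] at this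
    exact mul_left_cancel this
  · intro h
    obtain ⟨q, hq, hl⟩ := hcom (w.tails.map (ev x) ++ w'.tails.map (ev x))
    obtain ⟨q, rfl⟩ := exists_pos x hq
    have hw1 : ∀ v ∈ w.tails, ev x v * ev x (pos q) ∈ PM x :=
      fun v hv => hl _ (List.mem_append_left _ (List.mem_map_of_mem hv))
    have hw2 : ∀ v ∈ w'.tails, ev x v * ev x (pos q) ∈ PM x :=
      fun v hv => hl _ (List.mem_append_right _ (List.mem_map_of_mem hv))
    obtain ⟨u, hu⟩ := exists_pos x (hw1 w ((List.mem_tails _ _).2 List.suffix_rfl))
    have k1 := key x hyp w q hw1 u hu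
    have k2 := key x hyp w' q hw2 u (by rw [hu, h])
    set a := cls (Rel x N) w
    set a' := cls (Rel x N) (invRev w)
    set b := cls (Rel x N) w'
    set b' := cls (Rel x N) (invRev w')
    have hab : a * a' * (b * b') = b * b' * (a * a') := vcomm w w'
    have k3 : (b * b') * a = (a * a') * b := by
      apply right_cancel (rightUnit_pos x hN q)
      rw [mul_assoc, k1, mul_assoc (a * a'), k2, ← mul_assoc (b * b'), ← mul_assoc (a * a'), hab]
    refine ⟨(b * b') * (a * a'), ?_, ?_⟩
    · have e1 := idem_ww (N := N) x w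
      have e2 := idem_ww (N := N) x w'
      calc (b * b') * (a * a') * ((b * b') * (a * a')) =
          (b * b') * ((a * a') * (b * b')) * (a * a') := by simp only [mul_assoc]
        _ = (b * b') * ((b * b') * (a * a')) * (a * a') := by rw [hab]
        _ = ((b * b') * (b * b')) * ((a * a') * (a * a')) := by simp only [mul_assoc]
        _ = _ := by rw [e1, e2]
    · calc (b * b') * (a * a') * a = (b * b') * (a * a' * a) := by simp only [mul_assoc]
        _ = (b * b') * a := by rw [vinv]
        _ = (a * a') * b := k3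
        _ = (a * a') * (b * b' * b) := by rw [vinv]
        _ = ((a * a') * (b * b')) * b := by simp only [mul_assoc]
        _ = _ := by rw [hab]

include hyp hN in
/-- A word `u x⁻¹` with `u` positive and `x` a generator is a right unit iff its value is in
`P`. -/
lemma rightUnit_iff_mem (u : List (Fin k)) (i : Fin k) :
    RightUnit (cls (Rel x N) (pos u ++ [(i, false)])) ↔ ev x (pos u ++ [(i, false)]) ∈ PM x := by
  constructor
  · exact mem_of_rightUnit x
  · intro h
    obtain ⟨v, hv⟩ := exists_pos x h
    have h1 : cls (Rel x N) (pos u) = cls (Rel x N) (pos v) * cls (Rel x N) [(i, true)] := by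
      rw [← cls_append]
      have h2 : pos v ++ [(i, true)] = pos (v ++ [i]) := by rw [pos_append]; rfl
      rw [h2]
      apply hyp
      rw [← h2, ev_append, hv, ev_append, ev_single, ev_single]
      simp [lt]
    have h3 : cls (Rel x N) [(i, true)] * cls (Rel x N) [(i, false)] = 1 := by
      rw [← cls_append]
      exact vrel ⟨[i], [i], hN, hN, rfl, rfl⟩
    rw [cls_append, h1, mul_assoc, h3, mul_one]
    exact rightUnit_pos x hN v

end values

end Pool.Agent.V11131.InvMon
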