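import Mathlib

/-!
Covering a virtually abelian group by proper subsemigroups.
-/

namespace Pool.Agent.V11131.Cov

open Finset

/-- `G` is a union of `n` proper subsemigroups (nonempty multiplicatively closed subsets). -/
def SCov (G : Type) [Group G] (n : ℕ) : Prop :=
  ∃ S : Fin n → Subsemigroup G, (∀ i, (S i : Set G).Nonempty ∧ S i ≠ ⊤) ∧ ∀ g, ∃ i, g ∈ S i

/-- `G` is a union of `n` proper subgroups. -/
def GCov (G : Type) [Group G] (n : ℕ) : Prop :=
  ∃ H : Fin n → Subgroup G, (∀ i, H i ≠ ⊤) ∧ ∀ g, ∃ i, g ∈ H i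

lemma scov_of_gcov {G : Type} [Group G] {n : ℕ} (h : GCov G n) : SCov G n := by
  obtain ⟨H, hH, hc⟩ := h
  refine ⟨fun i => (H i).toSubmonoid.toSubsemigroup, fun i => ⟨⟨1, (H i).one_mem⟩, ?_⟩, hc⟩
  intro h
  apply hH i
  rw [Subgroup.eq_top_iff']
  intro x
  have : x ∈ (⊤ : Subsemigroup G) := Subsemigroup.mem_top x
  rw [← h] at this
  exact this

lemma not_scov_zero {G : Type} [Group G] : ¬ SCov G 0 := by
  rintro ⟨S, -, hc⟩
  obtain ⟨i, -⟩ := hc 1
  exact i.elim0

lemma not_scov_one {G : Type} [Group G] : ¬ SCov G 1 := by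
  rintro ⟨S, hS, hc⟩
  apply (hS 0).2
  rw [eq_top_iff]
  intro x _
  obtain ⟨i, hi⟩ := hc x
  rwa [Subsingleton.elim i 0] at hi

lemma scov_two {G : Type} [Group G] (ψ : G →* Multiplicative ℚ) {z : G}
    (hz : (ψ z).toAdd ≠ 0) : SCov G 2 := by
  have hz' : (ψ z⁻¹).toAdd = - (ψ z).toAdd := by rw [map_inv]; rfl
  let P : Subsemigroup G := ⟨{g | 0 ≤ (ψ g).toAdd}, fun {a b} ha hb => by
    change 0 ≤ (ψ (a * b)).toAdd
    rw [map_mul]
    exact add_nonneg ha hb⟩
  let M : Subsemigroup G := ⟨{g | (ψ g).toAdd ≤ 0}, fun {a b} ha hb => by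
    change (ψ (a * b)).toAdd ≤ 0
    rw [map_mul]
    exact add_nonpos ha hb⟩
  have h1 : (ψ 1).toAdd = 0 := by rw [map_one]; rfl
  refine ⟨![P, M], fun i => ?_, fun g => ?_⟩
  · fin_cases i
    · refine ⟨⟨1, le_of_eq h1.symm⟩, fun h0 => ?_⟩
      have h : P = ⊤ := h0
      have e1 : z ∈ P := by
        have : z ∈ (⊤ : Subsemigroup G) := Subsemigroup.mem_top z
        exact h ▸ this
      have e2 : z⁻¹ ∈ P := by
        have : z⁻¹ ∈ (⊤ : Subsemigroup G) := Subsemigroup.mem_top _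
        exact h ▸ this
      have e1' : 0 ≤ (ψ z).toAdd := e1
      have e2' : 0 ≤ (ψ z⁻¹).toAdd := e2
      rw [hz'] at e2'
      exact hz (le_antisymm (by linarith) e1')
    · refine ⟨⟨1, le_of_eq h1⟩, fun h0 => ?_⟩
      have h : M = ⊤ := h0
      have e1 : z ∈ M := by
        have : z ∈ (⊤ : Subsemigroup G) := Subsemigroup.mem_top z
        exact h ▸ this
      have e2 : z⁻¹ ∈ M := by
        have : z⁻¹ ∈ (⊤ : Subsemigroup G) := Subsemigroup.mem_top _
        exact h ▸ this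
      have e1' : (ψ z).toAdd ≤ 0 := e1
      have e2' : (ψ z⁻¹).toAdd ≤ 0 := e2
      rw [hz'] at e2'
      exact hz (le_antisymm e1' (by linarith))
  · rcases le_total 0 (ψ g).toAdd with h | h
    · exact ⟨0, h⟩
    · exact ⟨1, h⟩

/-- A homomorphism to `ℚ` which is nonzero on a given element of infinite order. -/
lemma exists_hom {N : Type} [CommGroup N] {z : N} (hz : ∀ n : ℕ, 0 < n → z ^ n ≠ 1) :
    ∃ ϕ : N →* Multiplicative ℚ, (ϕ z).toAdd ≠ 0 := by
  have hinj : Module.Injective ℤ ℚ := (Module.Baer.of_divisible ℚ).injective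
  let f : ℤ →ₗ[ℤ] Additive N := LinearMap.toSpanSingleton ℤ (Additive N) (Additive.ofMul z)
  have hf : Function.Injective f := by
    rw [injective_iff_map_eq_zero]
    intro n hn
    by_contra hne
    have h1 : n • Additive.ofMul z = 0 := hn
    have h2 : z ^ n = 1 := h1
    rcases lt_trichotomy n 0 with h | h | h
    · apply hz n.natAbs (by omega)
      rw [← zpow_natCast, Int.natCast_natAbs, abs_of_neg h, zpow_neg, h2, inv_one]
    · exact hne h
    · apply hz n.natAbs (by omega)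
      rw [← zpow_natCast, Int.natCast_natAbs, abs_of_pos h, h2]
  obtain ⟨h, hh⟩ := hinj.out f hf (LinearMap.toSpanSingleton ℤ ℚ 1)
  refine ⟨AddMonoidHom.toMultiplicativeRight h.toAddMonoidHom, ?_⟩
  have h1 := hh 1
  have h2 : f 1 = Additive.ofMul z := by simp [f]
  rw [h2] at h1
  change h (Additive.ofMul z) ≠ 0
  rw [h1]
  simp

end Pool.Agent.V11131.Cov
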