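import Pool.Agent.V11131.Cov1

namespace Pool.Agent.V11131.Cov

open Finset

/-- powers in a subsemigroup -/
lemma pow_mem_sub {G : Type} [Group G] {S : Subsemigroup G} {x : G} (hx : x ∈ S) {n : ℕ}
    (hn : 0 < n) : x ^ n ∈ S := by
  induction n with
  | zero => omega
  | succ n ih =>
    rcases Nat.eq_zero_or_pos n with rfl | h
    · simpa using hx
    · rw [pow_succ]; exact S.mul_mem (ih h) hx

/-- The key step: `N` is an abelian normal subgroup of finite index such that the central elements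
in `N` have finite order, and `S` is a subsemigroup that meets every coset of `N`. Then `S` is
closed under inverses. -/
theorem inv_closed {G : Type} [Group G] (N : Subgroup G) [hNn : N.Normal] [N.FiniteIndex]
    (hN : ∀ a ∈ N, ∀ b ∈ N, a * b = b * a)
    (hfin : ∀ z ∈ N, (∀ g, g * z = z * g) → ∃ n : ℕ, 0 < n ∧ z ^ n = 1)
    (S : Subsemigroup G) (hS : ∀ g, ∃ s ∈ S, g⁻¹ * s ∈ N) :
    ∀ s ∈ S, s⁻¹ ∈ S := by
  classical
  letI : CommGroup N := { (inferInstance : Group N) with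
    mul_comm := fun a b => Subtype.ext (hN a a.2 b b.2) }
  haveI : Fintype (G ⧸ N) := Subgroup.fintypeQuotientOfFiniteIndex
  set k := N.index with hk
  have hk0 : 0 < k := Nat.pos_of_ne_zero Subgroup.FiniteIndex.index_ne_zero
  have hpow : ∀ g : G, g ^ k ∈ N := fun g => Subgroup.pow_index_mem N g
  have hpow2 : ∀ g : G, g ^ (2 * k) ∈ N := fun g => by
    rw [mul_comm, pow_mul]; exact N.pow_mem (hpow g) 2
  -- representatives in S
  have hrep : ∀ q : G ⧸ N, ∃ s ∈ S, (QuotientGroup.mk s : G ⧸ N) = q := by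
    intro q
    obtain ⟨g, rfl⟩ := QuotientGroup.mk_surjective q
    obtain ⟨s, hs, hgs⟩ := hS g
    exact ⟨s, hs, (QuotientGroup.eq.2 hgs).symm⟩
  choose r hrS hr using hrep
  let cj : G → N → N := fun g x => ⟨g * x * g⁻¹, hNn.conj_mem x x.2 g⟩
  have cj_congr : ∀ g h : G, (QuotientGroup.mk g : G ⧸ N) = QuotientGroup.mk h → ∀ x, cj g x = cj h x := by
    intro g h hgh x
    have h1 : g⁻¹ * h ∈ N := QuotientGroup.eq.1 hgh
    apply Subtype.ext
    change g * x * g⁻¹ = h * x * h⁻¹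
    have h2 := hN _ h1 x x.2
    have h3 : h * x * h⁻¹ = g * ((g⁻¹ * h) * x * (g⁻¹ * h)⁻¹) * g⁻¹ := by group
    rw [h3, h2]
    group
  have cj_mul : ∀ g x y, cj g (x * y) = cj g x * cj g y := by
    intro g x y
    apply Subtype.ext
    change g * (x * y) * g⁻¹ = g * x * g⁻¹ * (g * y * g⁻¹)
    group
  have cj_comp : ∀ g h x, cj g (cj h x) = cj (g * h) x := by
    intro g h x
    apply Subtype.ext
    change g * (h * x * h⁻¹) * g⁻¹ = g * h * x * (g * h)⁻¹
    group
  let nm : N → N := fun x => ∏ q : G ⧸ N, cj (r q) x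
  have hnm_inv : ∀ g x, cj g (nm x) = nm x := by
    intro g x
    let φ : N →* N := ⟨⟨cj g, by apply Subtype.ext; change g * 1 * g⁻¹ = 1; group⟩, cj_mul g⟩
    have h1 : cj g (nm x) = ∏ q : G ⧸ N, cj g (cj (r q) x) := map_prod φ _ _
    rw [h1]
    change _ = ∏ q : G ⧸ N, cj (r q) x
    refine Fintype.prod_equiv (MulAction.toPerm g : Equiv.Perm (G ⧸ N)) _ _ (fun q => ?_)
    rw [cj_comp]
    apply cj_congr
    change _ = (QuotientGroup.mk (r (g • q)) : G ⧸ N)
    rw [hr]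
    conv_rhs => rw [← hr q]
    rfl
  have hnm_fin : ∀ x : N, ∃ n : ℕ, 0 < n ∧ nm x ^ n = 1 := by
    intro x
    obtain ⟨n, hn, h⟩ := hfin (nm x) (nm x).2 (fun g => by
      have := congrArg Subtype.val (hnm_inv g x)
      have h2 : g * (nm x : G) * g⁻¹ = nm x := this
      rw [mul_inv_eq_iff_eq_mul] at h2
      exact h2)
    exact ⟨n, hn, Subtype.ext h⟩
  have hnm_pow : ∀ (x : N) (n : ℕ), nm (x ^ n) = nm x ^ n := by
    intro x n
    have h1 : ∀ g, cj g (x ^ n) = cj g x ^ n := by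
      intro g
      let φ : N →* N := ⟨⟨cj g, by apply Subtype.ext; change g * 1 * g⁻¹ = 1; group⟩, cj_mul g⟩
      exact map_pow φ x n
    change ∏ q : G ⧸ N, cj (r q) (x ^ n) = (∏ q : G ⧸ N, cj (r q) x) ^ n
    rw [← Finset.prod_pow]
    exact Finset.prod_congr rfl fun q _ => h1 _
  -- the constant
  let w : G ⧸ N → N := fun q => ⟨r q ^ (2 * k), hpow2 _⟩
  let c : N := ∏ q : G ⧸ N, w q
  have hwS : ∀ q, (w q : G) ∈ S := fun q => pow_mem_sub (hrS q) (by omega)
  have hcS : (c : G) ∈ S := by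
    refine Finset.prod_induction_nonempty (M := N) w (fun y => (y : G) ∈ S)
      (fun a b ha hb => S.mul_mem ha hb) ⟨QuotientGroup.mk 1, Finset.mem_univ _⟩ (fun q _ => hwS q)
  have key : ∀ (x : N), (x : G) ∈ S → ∀ n : ℕ, 0 < n → nm x ^ n = 1 →
      ((x ^ n)⁻¹ * c : N).1 ∈ S := by
    intro x hx n hn h1
    let f : G ⧸ N → N := fun q => cj (r q) (x ^ n) *
      (if q = QuotientGroup.mk 1 then (x ^ n)⁻¹ else 1) * w q
    have hf : ∏ q : G ⧸ N, f q = (x ^ n)⁻¹ * c := by
      simp only [f]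
      rw [Finset.prod_mul_distrib, Finset.prod_mul_distrib, Finset.prod_ite_eq']
      have : ∏ q : G ⧸ N, cj (r q) (x ^ n) = 1 := by
        have := hnm_pow x n
        rw [h1] at this
        exact this
      rw [this, if_pos (Finset.mem_univ _), one_mul]
    rw [← hf]
    refine Finset.prod_induction_nonempty (M := N) f (fun y => (y : G) ∈ S)
      (fun a b ha hb => S.mul_mem ha hb) ⟨QuotientGroup.mk 1, Finset.mem_univ _⟩ (fun q _ => ?_)
    by_cases hq : q = QuotientGroup.mk 1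
    · have h2 : cj (r q) (x ^ n) = x ^ n := by
        rw [cj_congr (r q) 1 (by rw [hr, hq])]
        apply Subtype.ext
        change 1 * (x ^ n : N).1 * 1⁻¹ = _
        group
      have h3 : f q = w q := by
        simp only [f]
        rw [if_pos hq, h2, mul_inv_cancel, one_mul]
      rw [h3]
      exact hwS q
    · have h3 : (f q : G) = r q * (x : G) ^ n * (r q) ^ (2 * k - 1) := by
        simp only [f]
        rw [if_neg hq, mul_one]
        change r q * (x : G) ^ n * (r q)⁻¹ * (r q) ^ (2 * k) = _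
        have : (r q) ^ (2 * k) = r q * (r q) ^ (2 * k - 1) := by
          rw [← pow_succ']; congr 1; omega
        rw [this]
        group
      change (f q : G) ∈ S
      rw [h3]
      exact S.mul_mem (S.mul_mem (hrS q) (pow_mem_sub hx hn)) (pow_mem_sub (hrS q) (by omega))
  -- 1 and c⁻¹ are in S
  obtain ⟨e, he, hce⟩ := hnm_fin c
  have h2 := key c hcS (2 * e) (by omega) (by rw [mul_comm, pow_mul, hce, one_pow])
  have h2' : (c : G) ^ (-(2 * e - 1 : ℤ)) ∈ S := by
    have : ((c ^ (2 * e))⁻¹ * c : N).1 = (c : G) ^ (-(2 * e - 1 : ℤ)) := by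
      change ((c : G) ^ (2 * e))⁻¹ * (c : G) = _
      rw [← zpow_natCast, ← zpow_neg, ← zpow_add_one]
      congr 1
      push_cast
      ring
    rw [← this]; exact h2
  have hone : (1 : G) ∈ S := by
    have h4 : (c : G) ^ (2 * e - 1) ∈ S := pow_mem_sub hcS (by omega)
    have h5 := S.mul_mem h2' h4
    rw [← zpow_natCast, ← zpow_add] at h5
    have : (-(2 * e - 1 : ℤ)) + ((2 * e - 1 : ℕ) : ℤ) = 0 := by omega
    rw [this, zpow_zero] at h5
    exact h5
  have hpow0 : ∀ x ∈ S, ∀ n : ℕ, x ^ n ∈ S := by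
    intro x hx n
    rcases Nat.eq_zero_or_pos n with rfl | h
    · simpa using hone
    · exact pow_mem_sub hx h
  have hcinv : (c : G)⁻¹ ∈ S := by
    have h5 := S.mul_mem h2' (hpow0 _ hcS (2 * e - 2))
    rw [← zpow_natCast, ← zpow_add] at h5
    have : (-(2 * e - 1 : ℤ)) + ((2 * e - 2 : ℕ) : ℤ) = -1 := by omega
    rw [this, zpow_neg_one] at h5
    exact h5
  have hNinv : ∀ x : N, (x : G) ∈ S → (x : G)⁻¹ ∈ S := by
    intro x hx
    obtain ⟨n, hn, h1⟩ := hnm_fin x
    have h6 := key x hx n hn h1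
    have h7 : ((x : G) ^ n)⁻¹ ∈ S := by
      have h8 := S.mul_mem h6 hcinv
      have h9 : ((x ^ n)⁻¹ * c : N).1 * (c : G)⁻¹ = ((x : G) ^ n)⁻¹ := by
        change ((x : G) ^ n)⁻¹ * (c : G) * (c : G)⁻¹ = _
        group
      rwa [h9] at h8
    have h10 := S.mul_mem h7 (hpow0 _ hx (n - 1))
    have h11 : ((x : G) ^ n)⁻¹ * (x : G) ^ (n - 1) = (x : G)⁻¹ := by
      obtain ⟨m, rfl⟩ : ∃ m, n = m + 1 := ⟨n - 1, by omega⟩
      rw [Nat.add_sub_cancel, pow_succ', mul_inv_rev, mul_assoc]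
      have : ((x : G) ^ m)⁻¹ * ((x : G)⁻¹ * (x : G) ^ m) = (x : G)⁻¹ := by
        have hc : Commute ((x : G)⁻¹) ((x : G) ^ m) := ((Commute.refl (x : G)).inv_left).pow_right m
        rw [hc.eq]
        group
      exact this
    rwa [h11] at h10
  intro s hs
  have h12 : (s ^ k)⁻¹ ∈ S := hNinv ⟨s ^ k, hpow s⟩ (pow_mem_sub hs hk0)
  have h13 := S.mul_mem (hpow0 _ hs (k - 1)) h12
  have h14 : s ^ (k - 1) * (s ^ k)⁻¹ = s⁻¹ := by
    obtain ⟨m, hm⟩ : ∃ m, k = m + 1 := ⟨k - 1, by omega⟩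
    rw [hm, Nat.add_sub_cancel, pow_succ, mul_inv_rev, ← mul_assoc]
    have hc : Commute (s ^ m) (s⁻¹) := ((Commute.refl s).inv_right).pow_left m
    rw [hc.eq]
    group
  rwa [h14] at h13

end Pool.Agent.V11131.Cov
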