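import Pool.Agent.V11131.Cov2

namespace Pool.Agent.V11131.Cov

/-- The semigroup covering number, `⊤ = ∞` if there is no finite covering. -/
noncomputable def sigmaS (G : Type) [Group G] : ℕ∞ :=
  sInf {n : ℕ∞ | ∃ k : ℕ, n = k ∧ SCov G k}

/-- The subgroup covering number, `⊤ = ∞` if there is no finite covering. -/
noncomputable def sigmaG (G : Type) [Group G] : ℕ∞ :=
  sInf {n : ℕ∞ | ∃ k : ℕ, n = k ∧ GCov G k}

theorem gcov_of_scov {G : Type} [Group G] (N : Subgroup G) [hNn : N.Normal] [N.FiniteIndex]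
    (hN : ∀ a ∈ N, ∀ b ∈ N, a * b = b * a)
    (hfin : ∀ z ∈ N, (∀ g, g * z = z * g) → ∃ n : ℕ, 0 < n ∧ z ^ n = 1)
    {n : ℕ} (h : SCov G n) : GCov G n := by
  obtain ⟨S, hS, hc⟩ := h
  refine ⟨fun i => Subgroup.closure (S i : Set G), fun i => ?_, fun g => ?_⟩
  · intro htop
    replace htop : Subgroup.closure (S i : Set G) = ⊤ := htop
    obtain ⟨⟨s0, hs0⟩, hne⟩ := hS i
    have hk0 : 0 < N.index := Nat.pos_of_ne_zero Subgroup.FiniteIndex.index_ne_zero
    have hpow : ∀ g : G, g ^ N.index ∈ N := fun g => Subgroup.pow_index_mem N g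
    let P : Subgroup G :=
      { carrier := {g | ∃ s ∈ S i, g⁻¹ * s ∈ N}
        one_mem' := ⟨s0 ^ N.index, pow_mem_sub hs0 hk0, by
          rw [inv_one, one_mul]; exact hpow s0⟩
        mul_mem' := by
          rintro g h ⟨s, hs, hgs⟩ ⟨t, ht, hht⟩
          refine ⟨s * t, (S i).mul_mem hs ht, ?_⟩
          have : (g * h)⁻¹ * (s * t) = (h⁻¹ * (g⁻¹ * s) * h⁻¹⁻¹) * (h⁻¹ * t) := by group
          rw [this]
          exact N.mul_mem (hNn.conj_mem _ hgs h⁻¹) hht
        inv_mem' := by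
          rintro g ⟨s, hs, hgs⟩
          refine ⟨s ^ (2 * N.index - 1), pow_mem_sub hs (by omega), ?_⟩
          have h1 : s ^ (2 * N.index - 1) = s⁻¹ * (s ^ N.index) ^ 2 := by
            rw [← pow_mul, mul_comm N.index 2]
            obtain ⟨m, hm⟩ : ∃ m, 2 * N.index = m + 1 := ⟨2 * N.index - 1, by omega⟩
            rw [hm, Nat.add_sub_cancel, pow_succ']
            group
          rw [h1]
          have h2 : g⁻¹⁻¹ * (s⁻¹ * (s ^ N.index) ^ 2) =
              (g * (g⁻¹ * s)⁻¹ * g⁻¹) * (s ^ N.index) ^ 2 := by group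
          rw [h2]
          exact N.mul_mem (hNn.conj_mem _ (N.inv_mem hgs) g) (N.pow_mem (hpow s) 2) }
    have hP : ∀ g, ∃ s ∈ S i, g⁻¹ * s ∈ N := by
      intro g
      have h1 : Subgroup.closure (S i : Set G) ≤ P := by
        rw [Subgroup.closure_le]
        intro s hs
        exact ⟨s, hs, by rw [inv_mul_cancel]; exact N.one_mem⟩
      have h2 : g ∈ Subgroup.closure (S i : Set G) := by rw [htop]; trivial
      exact h1 h2
    have hinv := inv_closed N hN hfin (S i) hP
    let K : Subgroup G :=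
      { carrier := (S i : Set G)
        one_mem' := by
          have := (S i).mul_mem hs0 (hinv s0 hs0)
          rwa [mul_inv_cancel] at this
        mul_mem' := fun ha hb => (S i).mul_mem ha hb
        inv_mem' := fun {x} hx => hinv x hx }
    apply hne
    rw [eq_top_iff]
    intro g _
    have h1 : Subgroup.closure (S i : Set G) ≤ K := by
      rw [Subgroup.closure_le]
      intro s hs
      exact hs
    have h2 : g ∈ Subgroup.closure (S i : Set G) := by rw [htop]; trivial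
    exact h1 h2
  · obtain ⟨i, hi⟩ := hc g
    exact ⟨i, Subgroup.subset_closure hi⟩

theorem scov_two_of_central {G : Type} [Group G] (N : Subgroup G) [N.FiniteIndex]
    (hN : ∀ a ∈ N, ∀ b ∈ N, a * b = b * a) {z : G} (hz : z ∈ N) (hc : ∀ g, g * z = z * g)
    (hinf : ∀ n : ℕ, 0 < n → z ^ n ≠ 1) : SCov G 2 := by
  letI : CommGroup N := { (inferInstance : Group N) with
    mul_comm := fun a b => Subtype.ext (hN a a.2 b b.2) }
  obtain ⟨ϕ, hϕ⟩ := exists_hom (N := N) (z := ⟨z, hz⟩) (fun n hn h =>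
    hinf n hn (congrArg Subtype.val h))
  have hcz : ∀ (k : ℕ) (g₀ : G), g₀⁻¹ * z ^ k * g₀ = z ^ k := by
    intro k g₀
    have h1 : Commute g₀ z := hc g₀
    have h2 : Commute g₀ (z ^ k) := h1.pow_right k
    rw [mul_assoc, ← h2.eq, inv_mul_cancel_left]
  have key := MonoidHom.transfer_eq_pow ϕ z (fun k g₀ _ => hcz k g₀)
  refine scov_two (MonoidHom.transfer ϕ) (z := z) ?_
  rw [key]
  have h3 : (⟨z ^ N.index, MonoidHom.transfer_eq_pow_aux z (fun k g₀ _ => hcz k g₀)⟩ : N) =
      (⟨z, hz⟩ : N) ^ N.index := rfl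
  rw [h3, map_pow, toAdd_pow]
  have hk0 : N.index ≠ 0 := Subgroup.FiniteIndex.index_ne_zero
  intro h4
  rcases smul_eq_zero.1 h4 with h5 | h5
  · exact hk0 h5
  · exact hϕ h5

theorem sigmaS_eq_two {G : Type} [Group G] (h : SCov G 2) : sigmaS G = 2 := by
  apply le_antisymm
  · exact sInf_le ⟨2, rfl, h⟩
  · apply le_sInf
    rintro _ ⟨k, rfl, hk⟩
    rcases k with _ | _ | k
    · exact absurd hk not_scov_zero
    · exact absurd hk not_scov_one
    · exact_mod_cast Nat.le_add_left 2 k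

theorem main {G : Type} [Group G] (A : Subgroup G) [A.FiniteIndex]
    (hA : ∀ a ∈ A, ∀ b ∈ A, a * b = b * a) : sigmaS G = 2 ∨ sigmaS G = sigmaG G := by
  have hN : ∀ a ∈ A.normalCore, ∀ b ∈ A.normalCore, a * b = b * a := fun a ha b hb =>
    hA a (A.normalCore_le ha) b (A.normalCore_le hb)
  by_cases hfin : ∀ z ∈ A.normalCore, (∀ g, g * z = z * g) → ∃ n : ℕ, 0 < n ∧ z ^ n = 1
  · right
    have : ∀ k : ℕ, SCov G k ↔ GCov G k := fun k =>
      ⟨fun h => gcov_of_scov A.normalCore hN hfin h, scov_of_gcov⟩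
    simp only [sigmaS, sigmaG, this]
  · left
    push Not at hfin
    obtain ⟨z, hz, hc, hinf⟩ := hfin
    exact sigmaS_eq_two (scov_two_of_central A.normalCore hN hz hc hinf)

end Pool.Agent.V11131.Cov
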