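import Mathlib

/-!
Scalar and coupling inequalities behind the quasi-symmetry of the Schatten-`p` Bregman divergence.
-/

namespace Pool.Agent.V11131.HlawkaCore

open Finset

/-- Weighted AM-GM defect. -/
noncomputable def gap (s a b : ℝ) : ℝ := (1 - s) * a + s * b - a ^ (1 - s) * b ^ s

lemma gap_nonneg {s a b : ℝ} (hs : 0 ≤ s) (hs1 : s ≤ 1) (ha : 0 ≤ a) (hb : 0 ≤ b) :
    0 ≤ gap s a b := by
  have := Real.geom_mean_le_arith_mean2_weighted (by linarith : 0 ≤ 1 - s) hs ha hb (by ring)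
  unfold gap; linarith

lemma gap_swap (s a b : ℝ) : gap s a b = gap (1 - s) b a := by
  unfold gap
  have : (1 : ℝ) - (1 - s) = s := by ring
  rw [this]; ring

lemma gap_half {s a b : ℝ} (hs : 0 < s) (hs1 : s ≤ 1 / 2) (ha : 0 ≤ a) (hb : 0 ≤ b) :
    gap s a b ≤ (1 - s) / s * gap (1 - s) a b := by
  have h1s : 0 < 1 - s := by linarith
  set θ : ℝ := s / (1 - s) with hθ
  have hθ0 : 0 ≤ θ := by positivity
  have hθ1 : θ ≤ 1 := by rw [hθ, div_le_one h1s]; linarith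
  have hG : 0 ≤ a ^ (1 - s) * b ^ s := by positivity
  have key := Real.geom_mean_le_arith_mean2_weighted hθ0 (by linarith : 0 ≤ 1 - θ) hG hb (by ring)
  have e : (a ^ (1 - s) * b ^ s) ^ θ * b ^ (1 - θ) = a ^ s * b ^ (1 - s) := by
    rw [Real.mul_rpow (by positivity) (by positivity), ← Real.rpow_mul ha, ← Real.rpow_mul hb]
    have e1 : (1 - s) * θ = s := by rw [hθ]; field_simp
    rw [e1, mul_assoc]
    rcases hb.eq_or_lt with hb0 | hb0
    · subst hb0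
      have h2 : (1 : ℝ) - s ≠ 0 := h1s.ne'
      rcases hθ1.eq_or_lt with h | h
      · have hs2 : s = 1 / 2 := by
          rw [hθ, div_eq_one_iff_eq h2] at h; linarith
        rw [h, sub_self, Real.rpow_zero, mul_one, mul_one, hs2]; norm_num
      · rw [Real.zero_rpow (by linarith : (1 : ℝ) - θ ≠ 0), Real.zero_rpow h2, mul_zero]
    · rw [← Real.rpow_add hb0]
      congr 2
      rw [hθ]; field_simp; ring
  rw [e] at key
  unfold gap
  have e3 : (1 : ℝ) - (1 - s) = s := by ring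
  rw [e3, div_mul_eq_mul_div, le_div_iff₀ hs]
  have e4 : θ * (1 - s) = s := by rw [hθ]; field_simp
  have h5 : (1 - s) * (a ^ s * b ^ (1 - s))
      ≤ (1 - s) * (θ * (a ^ (1 - s) * b ^ s) + (1 - θ) * b) :=
    mul_le_mul_of_nonneg_left key h1s.le
  have h6 : (1 - s) * (θ * (a ^ (1 - s) * b ^ s) + (1 - θ) * b)
      = s * (a ^ (1 - s) * b ^ s) + (1 - 2 * s) * b := by
    have : (1 - s) * (θ * (a ^ (1 - s) * b ^ s) + (1 - θ) * b)
      = (θ * (1 - s)) * (a ^ (1 - s) * b ^ s) + ((1 - s) - θ * (1 - s)) * b := by ring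
    rw [this, e4]; ring
  nlinarith [h5, h6]

lemma gap_compare {s K a b : ℝ} (hs : 0 < s) (hs1 : s < 1) (hK1 : (1 - s) / s ≤ K)
    (hK2 : s / (1 - s) ≤ K) (ha : 0 ≤ a) (hb : 0 ≤ b) : gap s a b ≤ K * gap (1 - s) a b := by
  have h0 := gap_nonneg (s := 1 - s) (by linarith) (by linarith) ha hb
  rcases le_total s (1 / 2) with h | h
  · exact (gap_half hs h ha hb).trans (mul_le_mul_of_nonneg_right hK1 h0)
  · have := gap_half (s := 1 - s) (by linarith) (by linarith) hb ha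
    rw [← gap_swap, show (1 : ℝ) - (1 - s) = s by ring] at this
    have e2 : gap s b a = gap (1 - s) a b := by rw [gap_swap]
    rw [e2] at this
    exact this.trans (mul_le_mul_of_nonneg_right hK2 h0)

/-- Termwise comparison. -/
lemma term_compare {s K a b m c : ℝ} (hs : 0 < s) (hs1 : s < 1) (hK1 : (1 - s) / s ≤ K)
    (hK2 : s / (1 - s) ≤ K) (ha : 0 ≤ a) (hb : 0 ≤ b) (hc : |c| ≤ m) :
    m * ((1 - s) * a + s * b) - c * (a ^ (1 - s) * b ^ s)
      ≤ 2 * K * (m * (s * a + (1 - s) * b) - c * (a ^ s * b ^ (1 - s))) := by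
  have h1s : 0 < 1 - s := by linarith
  have hg := gap_compare hs hs1 hK1 hK2 ha hb
  have hK0 : 0 ≤ K := le_trans (by positivity) hK1
  have hn := gap_nonneg hs.le hs1.le ha hb
  have hn' := gap_nonneg (s := 1 - s) h1s.le (by linarith) ha hb
  unfold gap at hg hn hn'
  rw [show (1 : ℝ) - (1 - s) = s by ring] at hg hn'
  set G := a ^ (1 - s) * b ^ s with hG
  set G' := a ^ s * b ^ (1 - s) with hG'
  have hG0 : 0 ≤ G := by positivity
  have hG0' : 0 ≤ G' := by positivity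
  have hP : (1 - s) * a + s * b ≤ K * (s * a + (1 - s) * b) := by
    have k1 : (1 - s) ≤ K * s := by rwa [div_le_iff₀ hs] at hK1
    have k2 : s ≤ K * (1 - s) := by rwa [div_le_iff₀ h1s] at hK2
    nlinarith [mul_le_mul_of_nonneg_right k1 ha, mul_le_mul_of_nonneg_right k2 hb]
  have hc1 : 0 ≤ m + c := by linarith [neg_abs_le c]
  have hc2 : 0 ≤ m - c := by linarith [le_abs_self c]
  set P := (1 - s) * a + s * b with hPd
  set P' := s * a + (1 - s) * b with hPd'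
  have e1 : m * P - c * G = (m + c) / 2 * (P - G) + (m - c) / 2 * (P + G) := by ring
  have e2 : 2 * K * (m * P' - c * G')
      = (m + c) / 2 * (2 * K * (P' - G')) + (m - c) / 2 * (2 * K * (P' + G')) := by ring
  rw [e1, e2]
  have i1 : P - G ≤ 2 * K * (P' - G') := by nlinarith
  have i2 : P + G ≤ 2 * K * (P' + G') := by nlinarith [mul_nonneg hK0 hG0']
  exact add_le_add (mul_le_mul_of_nonneg_left i1 (by positivity))
    (mul_le_mul_of_nonneg_left i2 (by positivity))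

lemma term_nonneg {s a b m c : ℝ} (hs : 0 ≤ s) (hs1 : s ≤ 1) (ha : 0 ≤ a) (hb : 0 ≤ b)
    (hc : |c| ≤ m) : 0 ≤ m * ((1 - s) * a + s * b) - c * (a ^ (1 - s) * b ^ s) := by
  have hn := gap_nonneg hs hs1 ha hb
  unfold gap at hn
  have hG0 : 0 ≤ a ^ (1 - s) * b ^ s := by positivity
  have hm : 0 ≤ m := (abs_nonneg c).trans hc
  have : c * (a ^ (1 - s) * b ^ s) ≤ m * (a ^ (1 - s) * b ^ s) :=
    mul_le_mul_of_nonneg_right ((le_abs_self c).trans hc) hG0
  nlinarith [mul_le_mul_of_nonneg_left (show a ^ (1 - s) * b ^ s ≤ (1 - s) * a + s * b by linarith) hm]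

section coupling

variable {ι κ : Type*} [Fintype ι] [Fintype κ]

/-- Decomposition of `1 - ∑ c α^{1-s} δ^s`. -/
lemma decomp (m c : ι → κ → ℝ) (α : ι → ℝ) (δ : κ → ℝ) (hα1 : ∑ i, α i = 1) (hδ1 : ∑ j, δ j = 1)
    (s : ℝ) (F : ι → κ → ℝ) :
    1 - ∑ i, ∑ j, c i j * F i j
      = (∑ i, ∑ j, (m i j * ((1 - s) * α i + s * δ j) - c i j * F i j))
        + ((1 - s) * ∑ i, (1 - ∑ j, m i j) * α i + s * ∑ j, (1 - ∑ i, m i j) * δ j) := by
  have e1 : ∑ i, ∑ j, (m i j * ((1 - s) * α i + s * δ j) - c i j * F i j)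
      = (1 - s) * (∑ i, (∑ j, m i j) * α i) + s * (∑ j, (∑ i, m i j) * δ j)
        - ∑ i, ∑ j, c i j * F i j := by
    have a1 : ∑ i, ∑ j, (m i j * ((1 - s) * α i + s * δ j) - c i j * F i j)
        = ∑ i, ∑ j, (1 - s) * (m i j * α i) + ∑ i, ∑ j, s * (m i j * δ j)
          - ∑ i, ∑ j, c i j * F i j := by
      simp only [← Finset.sum_add_distrib, ← Finset.sum_sub_distrib]
      refine Finset.sum_congr rfl fun i _ => Finset.sum_congr rfl fun j _ => ?_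
      ring
    rw [a1]
    congr 1
    congr 1
    · simp only [Finset.sum_mul, Finset.mul_sum]
    · rw [Finset.sum_comm]
      simp only [Finset.sum_mul, Finset.mul_sum]
  rw [e1]
  simp only [sub_mul, one_mul, Finset.sum_sub_distrib, hα1, hδ1]
  ring

theorem core (m c : ι → κ → ℝ) (hc : ∀ i j, |c i j| ≤ m i j) (hm1 : ∀ i, ∑ j, m i j ≤ 1)
    (hm2 : ∀ j, ∑ i, m i j ≤ 1) (α : ι → ℝ) (δ : κ → ℝ) (hα : ∀ i, 0 ≤ α i) (hδ : ∀ j, 0 ≤ δ j)
    (hα1 : ∑ i, α i = 1) (hδ1 : ∑ j, δ j = 1) {s K : ℝ} (hs : 0 < s) (hs1 : s < 1)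
    (hK1 : (1 - s) / s ≤ K) (hK2 : s / (1 - s) ≤ K) :
    1 - ∑ i, ∑ j, c i j * (α i ^ (1 - s) * δ j ^ s)
      ≤ 2 * K * (1 - ∑ i, ∑ j, c i j * (α i ^ s * δ j ^ (1 - s))) := by
  have h1s : 0 < 1 - s := by linarith
  have hK0 : 0 ≤ K := le_trans (by positivity) hK1
  rw [decomp m c α δ hα1 hδ1 s, decomp m c α δ hα1 hδ1 (1 - s) (fun i j => α i ^ s * δ j ^ (1 - s))]
  rw [mul_add]
  apply add_le_add
  · rw [Finset.mul_sum]
    refine Finset.sum_le_sum fun i _ => ?_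
    rw [Finset.mul_sum]
    refine Finset.sum_le_sum fun j _ => ?_
    have := term_compare hs hs1 hK1 hK2 (hα i) (hδ j) (hc i j)
    rwa [show (1 : ℝ) - (1 - s) = s by ring]
  · have A : 0 ≤ ∑ i, (1 - ∑ j, m i j) * α i :=
      Finset.sum_nonneg fun i _ => mul_nonneg (by linarith [hm1 i]) (hα i)
    have B : 0 ≤ ∑ j, (1 - ∑ i, m i j) * δ j :=
      Finset.sum_nonneg fun j _ => mul_nonneg (by linarith [hm2 j]) (hδ j)
    have k1 : (1 - s) ≤ K * s := by rwa [div_le_iff₀ hs] at hK1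
    have k2 : s ≤ K * (1 - s) := by rwa [div_le_iff₀ h1s] at hK2
    rw [show (1 : ℝ) - (1 - s) = s by ring]
    nlinarith [mul_le_mul_of_nonneg_right k1 A, mul_le_mul_of_nonneg_right k2 B,
      mul_nonneg (mul_nonneg hK0 hs.le) A, mul_nonneg (mul_nonneg hK0 h1s.le) B]

theorem core_nonneg (m c : ι → κ → ℝ) (hc : ∀ i j, |c i j| ≤ m i j) (hm1 : ∀ i, ∑ j, m i j ≤ 1)
    (hm2 : ∀ j, ∑ i, m i j ≤ 1) (α : ι → ℝ) (δ : κ → ℝ) (hα : ∀ i, 0 ≤ α i) (hδ : ∀ j, 0 ≤ δ j)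
    (hα1 : ∑ i, α i = 1) (hδ1 : ∑ j, δ j = 1) {s : ℝ} (hs : 0 < s) (hs1 : s < 1) :
    0 ≤ 1 - ∑ i, ∑ j, c i j * (α i ^ (1 - s) * δ j ^ s) := by
  have h1s : 0 < 1 - s := by linarith
  rw [decomp m c α δ hα1 hδ1 s]
  have A : 0 ≤ ∑ i, (1 - ∑ j, m i j) * α i :=
    Finset.sum_nonneg fun i _ => mul_nonneg (by linarith [hm1 i]) (hα i)
  have B : 0 ≤ ∑ j, (1 - ∑ i, m i j) * δ j :=
    Finset.sum_nonneg fun j _ => mul_nonneg (by linarith [hm2 j]) (hδ j)
  have C : 0 ≤ ∑ i, ∑ j, (m i j * ((1 - s) * α i + s * δ j) - c i j * (α i ^ (1 - s) * δ j ^ s)) :=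
    Finset.sum_nonneg fun i _ => Finset.sum_nonneg fun j _ =>
      term_nonneg hs.le hs1.le (hα i) (hδ j) (hc i j)
  nlinarith [mul_nonneg h1s.le A, mul_nonneg hs.le B]

end coupling

end Pool.Agent.V11131.HlawkaCore
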