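import Pool.Agent.V11131.HlawkaCore

namespace Pool.Agent.V11131.HlawkaSvd

open Matrix Filter Topology ENNReal NNReal
open scoped InnerProductSpace ComplexConjugate

variable {N M : ℕ}

noncomputable def sqSing (X : Matrix (Fin N) (Fin M) ℂ) : Fin M → ℝ :=
  (isHermitian_conjTranspose_mul_self X).eigenvalues

lemma sqSing_nonneg (X : Matrix (Fin N) (Fin M) ℂ) (i : Fin M) : 0 ≤ sqSing X i :=
  eigenvalues_conjTranspose_mul_self_nonneg X i

/-- Right singular vectors. -/
noncomputable def fB (X : Matrix (Fin N) (Fin M) ℂ) :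
    OrthonormalBasis (Fin M) ℂ (EuclideanSpace ℂ (Fin M)) :=
  (isHermitian_conjTranspose_mul_self X).eigenvectorBasis

/-- Singular values. -/
noncomputable def sg (X : Matrix (Fin N) (Fin M) ℂ) (i : Fin M) : ℝ := Real.sqrt (sqSing X i)

lemma sg_nonneg (X : Matrix (Fin N) (Fin M) ℂ) (i : Fin M) : 0 ≤ sg X i := Real.sqrt_nonneg _

lemma sg_sq (X : Matrix (Fin N) (Fin M) ℂ) (i : Fin M) : sg X i * sg X i = sqSing X i :=
  Real.mul_self_sqrt (sqSing_nonneg X i)

/-- The action of a matrix on Euclidean space. -/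
noncomputable abbrev L (X : Matrix (Fin N) (Fin M) ℂ) :
    EuclideanSpace ℂ (Fin M) →ₗ[ℂ] EuclideanSpace ℂ (Fin N) := toEuclideanLin X

/-- Left singular vectors (`0` for zero singular values). -/
noncomputable def eV (X : Matrix (Fin N) (Fin M) ℂ) (i : Fin M) : EuclideanSpace ℂ (Fin N) :=
  (((sg X i)⁻¹ : ℝ) : ℂ) • L X (fB X i)

lemma inner_L (X : Matrix (Fin N) (Fin M) ℂ) (u v : EuclideanSpace ℂ (Fin M)) :
    ⟪L X u, L X v⟫_ℂ = ⟪u, toEuclideanLin (Xᴴ * X) v⟫_ℂ := by
  rw [← LinearMap.adjoint_inner_right, ← Matrix.toEuclideanLin_conjTranspose_eq_adjoint]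
  congr 1
  apply WithLp.ofLp_injective 2
  simp [toLpLin_apply, Matrix.mulVec_mulVec]

lemma L_gram_fB (X : Matrix (Fin N) (Fin M) ℂ) (k : Fin M) :
    toEuclideanLin (Xᴴ * X) (fB X k) = (sqSing X k : ℂ) • fB X k := by
  have := (isHermitian_conjTranspose_mul_self X).mulVec_eigenvectorBasis k
  apply WithLp.ofLp_injective 2
  simp only [toLpLin_apply, WithLp.ofLp_smul]
  rw [show (fB X k) = (isHermitian_conjTranspose_mul_self X).eigenvectorBasis k from rfl, this]
  ext i
  simp [sqSing]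

lemma inner_L_fB (X : Matrix (Fin N) (Fin M) ℂ) (i k : Fin M) :
    ⟪L X (fB X i), L X (fB X k)⟫_ℂ = if i = k then (sqSing X k : ℂ) else 0 := by
  rw [inner_L, L_gram_fB, inner_smul_right, orthonormal_iff_ite.1 (fB X).orthonormal i k]
  split_ifs <;> simp

lemma L_fB (X : Matrix (Fin N) (Fin M) ℂ) (i : Fin M) :
    L X (fB X i) = (sg X i : ℂ) • eV X i := by
  unfold eV
  by_cases h : sg X i = 0
  · have h2 : sqSing X i = 0 := by rw [← sg_sq, h, mul_zero]
    have h3 := inner_L_fB X i i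
    rw [if_pos rfl, h2] at h3
    have h4 : L X (fB X i) = 0 := by
      apply inner_self_eq_zero (𝕜 := ℂ).1
      simpa using h3
    rw [h4]; simp
  · rw [smul_smul, ← Complex.ofReal_mul, mul_inv_cancel₀ h, Complex.ofReal_one, one_smul]

lemma inner_eV (X : Matrix (Fin N) (Fin M) ℂ) (i k : Fin M) :
    ⟪eV X i, eV X k⟫_ℂ = if i = k ∧ sg X i ≠ 0 then 1 else 0 := by
  unfold eV
  rw [inner_smul_left, inner_smul_right, inner_L_fB]
  by_cases hik : i = k
  · subst hik
    rw [if_pos rfl, ← sg_sq]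
    by_cases h : sg X i = 0
    · simp [h]
    · rw [if_pos ⟨rfl, h⟩]
      simp only [Complex.conj_ofReal]
      norm_cast
      field_simp
  · rw [if_neg hik, if_neg (by tauto)]; simp

lemma norm_eV_sq (X : Matrix (Fin N) (Fin M) ℂ) (i : Fin M) :
    ‖eV X i‖ ^ 2 = if sg X i ≠ 0 then 1 else 0 := by
  have h := inner_eV X i i
  have h2 : ‖eV X i‖ ^ 2 = (⟪eV X i, eV X i⟫_ℂ).re := by
    rw [← inner_self_eq_norm_sq (𝕜 := ℂ)]; rfl
  rw [h2, h]
  by_cases hs : sg X i = 0
  · simp [hs]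
  · simp [hs]

lemma norm_eV_le (X : Matrix (Fin N) (Fin M) ℂ) (i : Fin M) : ‖eV X i‖ ^ 2 ≤ 1 := by
  rw [norm_eV_sq]; split_ifs <;> norm_num

/-- Bessel's inequality for the left singular vectors. -/
lemma bessel_eV (X : Matrix (Fin N) (Fin M) ℂ) (v : EuclideanSpace ℂ (Fin N)) :
    ∑ j, ‖⟪eV X j, v⟫_ℂ‖ ^ 2 ≤ ‖v‖ ^ 2 := by
  classical
  have ho : Orthonormal ℂ (fun j : {j : Fin M // sg X j ≠ 0} => eV X j) := by
    rw [orthonormal_iff_ite]
    intro a b
    rw [inner_eV]
    by_cases hab : a = b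
    · rw [if_pos hab, if_pos ⟨by rw [hab], a.2⟩]
    · rw [if_neg hab, if_neg]
      rintro ⟨h, -⟩
      exact hab (Subtype.ext h)
  have h1 := ho.sum_inner_products_le v (s := Finset.univ)
  refine le_trans (le_of_eq ?_) h1
  have h2 : ∑ j, ‖⟪eV X j, v⟫_ℂ‖ ^ 2
      = ∑ j ∈ Finset.univ.filter (fun j => sg X j ≠ 0), ‖⟪eV X j, v⟫_ℂ‖ ^ 2 := by
    rw [Finset.sum_filter]
    refine Finset.sum_congr rfl fun j _ => ?_
    split_ifs with h
    · rfl
    · push Not at h
      have : eV X j = 0 := by unfold eV; rw [h]; simp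
      rw [this]; simp
  rw [h2]
  exact (Finset.sum_subtype _ (by simp) (fun j => ‖⟪eV X j, v⟫_ℂ‖ ^ 2))

/-- Coupling coefficients. -/
noncomputable def cc (X Y : Matrix (Fin N) (Fin M) ℂ) (i j : Fin M) : ℝ :=
  (⟪eV X i, eV Y j⟫_ℂ * ⟪fB Y j, fB X i⟫_ℂ).re

noncomputable def mm (X Y : Matrix (Fin N) (Fin M) ℂ) (i j : Fin M) : ℝ :=
  (‖⟪eV X i, eV Y j⟫_ℂ‖ ^ 2 + ‖⟪fB Y j, fB X i⟫_ℂ‖ ^ 2) / 2

lemma cc_symm (X Y : Matrix (Fin N) (Fin M) ℂ) (i j : Fin M) : cc Y X j i = cc X Y i j := by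
  unfold cc
  rw [← inner_conj_symm (eV Y j) (eV X i), ← inner_conj_symm (fB X i) (fB Y j), ← map_mul,
    Complex.conj_re]

lemma abs_cc_le (X Y : Matrix (Fin N) (Fin M) ℂ) (i j : Fin M) : |cc X Y i j| ≤ mm X Y i j := by
  unfold cc mm
  refine (Complex.abs_re_le_norm _).trans ?_
  rw [norm_mul]
  nlinarith [sq_nonneg (‖⟪eV X i, eV Y j⟫_ℂ‖ - ‖⟪fB Y j, fB X i⟫_ℂ‖)]

lemma mm_row (X Y : Matrix (Fin N) (Fin M) ℂ) (i : Fin M) : ∑ j, mm X Y i j ≤ 1 := by
  unfold mm
  rw [← Finset.sum_div, Finset.sum_add_distrib, (fB Y).sum_sq_norm_inner_right]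
  have h1 : ∑ j, ‖⟪eV X i, eV Y j⟫_ℂ‖ ^ 2 ≤ ‖eV X i‖ ^ 2 := by
    refine le_trans (le_of_eq ?_) (bessel_eV Y (eV X i))
    refine Finset.sum_congr rfl fun j _ => ?_
    rw [norm_inner_symm]
  have h2 := norm_eV_le X i
  have h3 : ‖fB X i‖ = 1 := (fB X).orthonormal.1 i
  rw [h3]
  linarith

lemma mm_col (X Y : Matrix (Fin N) (Fin M) ℂ) (j : Fin M) : ∑ i, mm X Y i j ≤ 1 := by
  have : ∑ i, mm X Y i j = ∑ i, mm Y X j i := by
    refine Finset.sum_congr rfl fun i _ => ?_
    unfold mm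
    rw [norm_inner_symm (eV X i), norm_inner_symm (fB Y j)]
  rw [this]
  exact mm_row Y X j

/-- Expansion of `L Y (f_i)` in the singular vectors of `Y`. -/
lemma inner_expand (X Y : Matrix (Fin N) (Fin M) ℂ) (i : Fin M) :
    ⟪eV X i, L Y (fB X i)⟫_ℂ
      = ∑ j, (sg Y j : ℂ) * (⟪eV X i, eV Y j⟫_ℂ * ⟪fB Y j, fB X i⟫_ℂ) := by
  conv_lhs => rw [← (fB Y).sum_repr' (fB X i)]
  rw [map_sum, inner_sum]
  refine Finset.sum_congr rfl fun j _ => ?_
  rw [map_smul, inner_smul_right, L_fB, inner_smul_right]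
  ring

/-! ### Schatten norms and their norming functionals -/

/-- The Schatten `p`-norm, `‖X‖_p = (∑ σ_i(X)^p)^{1/p}` (for `1 ≤ p < ∞`). -/
noncomputable def schatten (p : ℝ) (X : Matrix (Fin N) (Fin M) ℂ) : ℝ :=
  (∑ i, (Real.sqrt (sqSing X i)) ^ p) ^ (1 / p)

lemma schatten_nonneg (p : ℝ) (X : Matrix (Fin N) (Fin M) ℂ) : 0 ≤ schatten p X := by
  unfold schatten; positivity

lemma schatten_rpow {p : ℝ} (hp : 0 < p) (X : Matrix (Fin N) (Fin M) ℂ) :
    schatten p X ^ p = ∑ i, sg X i ^ p := by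
  unfold schatten sg
  rw [← Real.rpow_mul (by positivity), one_div, inv_mul_cancel₀ hp.ne', Real.rpow_one]

lemma sg_eq_zero {p : ℝ} (hp : 0 < p) (X : Matrix (Fin N) (Fin M) ℂ) (h : schatten p X = 0)
    (i : Fin M) : sg X i = 0 := by
  have h1 := schatten_rpow hp X
  rw [h, Real.zero_rpow hp.ne'] at h1
  have h2 := (Finset.sum_eq_zero_iff_of_nonneg
    (fun i _ => Real.rpow_nonneg (sg_nonneg X i) p)).1 h1.symm i (Finset.mem_univ i)
  exact (Real.rpow_eq_zero (sg_nonneg X i) hp.ne').1 h2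

/-- The (real part of the) norming functional of `X` for the Schatten `p`-norm. -/
noncomputable def jn (p : ℝ) (X Y : Matrix (Fin N) (Fin M) ℂ) : ℝ :=
  (∑ i, (((sg X i / schatten p X) ^ (p - 1) : ℝ) : ℂ) * ⟪eV X i, L Y (fB X i)⟫_ℂ).re

lemma jn_add (p : ℝ) (X Y Z : Matrix (Fin N) (Fin M) ℂ) :
    jn p X (Y + Z) = jn p X Y + jn p X Z := by
  unfold jn
  rw [← Complex.add_re, ← Finset.sum_add_distrib]
  congr 1
  refine Finset.sum_congr rfl fun i _ => ?_
  rw [show L (Y + Z) = L Y + L Z from map_add _ _ _, LinearMap.add_apply, inner_add_right]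
  ring

lemma jn_eq (p : ℝ) (X Y : Matrix (Fin N) (Fin M) ℂ) :
    jn p X Y = ∑ i, ∑ j, cc X Y i j * ((sg X i / schatten p X) ^ (p - 1) * sg Y j) := by
  unfold jn
  rw [Complex.re_sum]
  refine Finset.sum_congr rfl fun i _ => ?_
  rw [inner_expand, Finset.mul_sum, Complex.re_sum]
  refine Finset.sum_congr rfl fun j _ => ?_
  unfold cc
  rw [← mul_assoc, ← Complex.ofReal_mul, Complex.re_ofReal_mul]
  ring

lemma jn_self {p : ℝ} (hp : 1 < p) (X : Matrix (Fin N) (Fin M) ℂ) (h : 0 < schatten p X) :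
    jn p X X = schatten p X := by
  unfold jn
  have e1 : ∀ i, (((sg X i / schatten p X) ^ (p - 1) : ℝ) : ℂ) * ⟪eV X i, L X (fB X i)⟫_ℂ
      = ((schatten p X * (sg X i ^ p / schatten p X ^ p) : ℝ) : ℂ) := by
    intro i
    rw [L_fB, inner_smul_right, inner_eV]
    by_cases hs : sg X i = 0
    · rw [hs, if_neg (by tauto), Real.zero_rpow (by linarith : p ≠ 0)]; simp
    · rw [if_pos ⟨rfl, hs⟩, mul_one, ← Complex.ofReal_mul]
      congr 1
      have hpos : 0 < sg X i := lt_of_le_of_ne (sg_nonneg X i) (Ne.symm hs)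
      rw [← Real.div_rpow hpos.le h.le]
      have : (sg X i / schatten p X) ^ p
          = (sg X i / schatten p X) ^ (p - 1) * (sg X i / schatten p X) := by
        rw [← Real.rpow_add_one (by positivity)]; congr 1; ring
      rw [this]; field_simp
  rw [Finset.sum_congr rfl fun i _ => e1 i, ← Complex.ofReal_sum, Complex.ofReal_re,
    ← Finset.mul_sum, ← Finset.sum_div, ← schatten_rpow (by linarith) X,
    div_self (Real.rpow_pos_of_pos h p).ne', mul_one]

section
variable {p : ℝ} (hp : 1 < p) (X Y : Matrix (Fin N) (Fin M) ℂ)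
  (hA : 0 < schatten p X) (hB : 0 < schatten p Y)

include hp in
lemma sum_norm (hA : 0 < schatten p X) : ∑ i, (sg X i / schatten p X) ^ p = 1 := by
  have : ∀ i, (sg X i / schatten p X) ^ p = sg X i ^ p / schatten p X ^ p := fun i =>
    Real.div_rpow (sg_nonneg X i) hA.le p
  rw [Finset.sum_congr rfl fun i _ => this i, ← Finset.sum_div, ← schatten_rpow (by linarith) X,
    div_self (Real.rpow_pos_of_pos hA p).ne']

include hp in
lemma pow_a {a : ℝ} (ha : 0 ≤ a) : (a ^ p) ^ (1 - 1 / p) = a ^ (p - 1) := by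
  rw [← Real.rpow_mul ha]; congr 1
  have : p ≠ 0 := by linarith
  field_simp

include hp in
lemma pow_b {a : ℝ} (ha : 0 ≤ a) : (a ^ p) ^ (1 / p) = a := by
  rw [← Real.rpow_mul ha, mul_one_div, div_self (by linarith : p ≠ 0), Real.rpow_one]

include hp hB in
lemma jn_div : jn p X Y / schatten p Y = ∑ i, ∑ j, cc X Y i j *
    (((sg X i / schatten p X) ^ p) ^ (1 - 1 / p) * ((sg Y j / schatten p Y) ^ p) ^ (1 / p)) := by
  rw [jn_eq, Finset.sum_div]
  refine Finset.sum_congr rfl fun i _ => ?_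
  rw [Finset.sum_div]
  refine Finset.sum_congr rfl fun j _ => ?_
  rw [pow_a hp (div_nonneg (sg_nonneg X i) (schatten_nonneg p X)),
    pow_b hp (div_nonneg (sg_nonneg Y j) hB.le)]
  ring

include hp hA in
lemma jn_div' : jn p Y X / schatten p X = ∑ i, ∑ j, cc X Y i j *
    (((sg X i / schatten p X) ^ p) ^ (1 / p) * ((sg Y j / schatten p Y) ^ p) ^ (1 - 1 / p)) := by
  rw [jn_div hp Y X hA, Finset.sum_comm]
  refine Finset.sum_congr rfl fun i _ => Finset.sum_congr rfl fun j _ => ?_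
  rw [cc_symm]; ring

include hp hA hB in
/-- Quasi-symmetry of the Bregman divergence of the Schatten `p`-norm. -/
theorem quasi {K : ℝ} (hK1 : p - 1 ≤ K) (hK2 : 1 / (p - 1) ≤ K) :
    1 - jn p X Y / schatten p Y ≤ 2 * K * (1 - jn p Y X / schatten p X) := by
  have hp0 : 0 < p := by linarith
  rw [jn_div hp X Y hB, jn_div' hp X Y hA]
  refine HlawkaCore.core (mm X Y) (cc X Y) (abs_cc_le X Y) (mm_row X Y) (mm_col X Y) _ _
    (fun i => Real.rpow_nonneg (div_nonneg (sg_nonneg X i) hA.le) p)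
    (fun i => Real.rpow_nonneg (div_nonneg (sg_nonneg Y i) hB.le) p)
    (sum_norm hp X hA) (sum_norm hp Y hB) (by positivity) ?_ ?_ ?_
  · rw [div_lt_one hp0]; exact hp
  · have : (1 - 1 / p) / (1 / p) = p - 1 := by field_simp
    rw [this]; exact hK1
  · have : (1 / p) / (1 - 1 / p) = 1 / (p - 1) := by
      have : p - 1 ≠ 0 := by linarith
      field_simp
    rw [this]; exact hK2

include hp hA in
lemma jn_le : jn p X Y ≤ schatten p Y := by
  have hp0 : 0 < p := by linarith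
  rcases (schatten_nonneg p Y).eq_or_lt with h0 | hB
  · rw [← h0, jn_eq]
    refine le_of_eq ?_
    refine Finset.sum_eq_zero fun i _ => Finset.sum_eq_zero fun j _ => ?_
    rw [sg_eq_zero hp0 Y h0.symm j]; ring
  · have := HlawkaCore.core_nonneg (mm X Y) (cc X Y) (abs_cc_le X Y) (mm_row X Y) (mm_col X Y) _ _
      (fun i => Real.rpow_nonneg (div_nonneg (sg_nonneg X i) hA.le) p)
      (fun i => Real.rpow_nonneg (div_nonneg (sg_nonneg Y i) hB.le) p)
      (sum_norm hp X hA) (sum_norm hp Y hB) (s := 1 / p) (by positivity)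
      (by rw [div_lt_one hp0]; exact hp)
    rw [← jn_div hp X Y hB] at this
    have h2 : jn p X Y / schatten p Y ≤ 1 := by linarith
    rwa [div_le_one hB] at h2

end

/-- Triangle inequality. -/
lemma schatten_add_le {p : ℝ} (hp : 1 < p) (X Y : Matrix (Fin N) (Fin M) ℂ) :
    schatten p (X + Y) ≤ schatten p X + schatten p Y := by
  rcases (schatten_nonneg p (X + Y)).eq_or_lt with h0 | hS
  · rw [← h0]; exact add_nonneg (schatten_nonneg p X) (schatten_nonneg p Y)
  · have h1 := jn_self hp (X + Y) hS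
    rw [jn_add] at h1
    linarith [jn_le hp (X + Y) X hS, jn_le hp (X + Y) Y hS]

/-- `|J_X(Y)| ≤ ‖Y‖`, lower side. -/
lemma neg_le_jn {p : ℝ} (hp : 1 < p) (X Y : Matrix (Fin N) (Fin M) ℂ) (hA : 0 < schatten p X) :
    - schatten p Y ≤ jn p X Y := by
  have hp0 : 0 < p := by linarith
  rcases (schatten_nonneg p Y).eq_or_lt with h0 | hB
  · rw [← h0, jn_eq]
    refine le_of_eq ?_
    rw [neg_zero, eq_comm]
    refine Finset.sum_eq_zero fun i _ => Finset.sum_eq_zero fun j _ => ?_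
    rw [sg_eq_zero hp0 Y h0.symm j]; ring
  · have := HlawkaCore.core_nonneg (mm X Y) (fun i j => - cc X Y i j)
      (fun i j => by rw [abs_neg]; exact abs_cc_le X Y i j) (mm_row X Y) (mm_col X Y) _ _
      (fun i => Real.rpow_nonneg (div_nonneg (sg_nonneg X i) hA.le) p)
      (fun i => Real.rpow_nonneg (div_nonneg (sg_nonneg Y i) hB.le) p)
      (sum_norm hp X hA) (sum_norm hp Y hB) (s := 1 / p) (by positivity)
      (by rw [div_lt_one hp0]; exact hp)
    have e : ∑ i, ∑ j, - cc X Y i j * (((sg X i / schatten p X) ^ p) ^ (1 - 1 / p) *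
        ((sg Y j / schatten p Y) ^ p) ^ (1 / p)) = - (jn p X Y / schatten p Y) := by
      rw [jn_div hp X Y hB]
      simp only [neg_mul, Finset.sum_neg_distrib]
    rw [e] at this
    have h2 : -1 ≤ jn p X Y / schatten p Y := by linarith
    rw [le_div_iff₀ hB] at h2
    linarith

/-- Control of `‖Y‖ - J_X(Y)` by `D₂(X,Y)` when `‖Y‖ ≤ ‖X‖`. -/
lemma defect_le {p K : ℝ} (hp : 1 < p) (hK1 : p - 1 ≤ K) (hK2 : 1 / (p - 1) ≤ K)
    (X Y : Matrix (Fin N) (Fin M) ℂ) (hA : 0 < schatten p X) (hYX : schatten p Y ≤ schatten p X) :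
    schatten p Y - jn p X Y
      ≤ (1 + 4 * K) * (schatten p X + schatten p Y - schatten p (X + Y)) := by
  have hK0 : 0 ≤ K := le_trans (by linarith) hK1
  have hD2 : 0 ≤ schatten p X + schatten p Y - schatten p (X + Y) := by
    linarith [schatten_add_le hp X Y]
  have hY := schatten_nonneg p Y
  rcases (schatten_nonneg p (X + Y)).eq_or_lt with h0 | hS
  · have h1 := neg_le_jn hp X Y hA
    nlinarith
  · have q := quasi hp X (X + Y) hA hS hK1 hK2
    have q1 : schatten p (X + Y) - jn p X (X + Y)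
        ≤ 4 * K * (schatten p X - jn p (X + Y) X) := by
      have e1 : schatten p (X + Y) - jn p X (X + Y)
          = schatten p (X + Y) * (1 - jn p X (X + Y) / schatten p (X + Y)) := by
        field_simp
      have e2 : schatten p X - jn p (X + Y) X
          = schatten p X * (1 - jn p (X + Y) X / schatten p X) := by
        field_simp
      rw [e1, e2]
      have hn : 0 ≤ 1 - jn p (X + Y) X / schatten p X := by
        have := jn_le hp (X + Y) X hS
        rw [sub_nonneg, div_le_one hA]; exact this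
      have hle : schatten p (X + Y) ≤ 2 * schatten p X := by
        linarith [schatten_add_le hp X Y]
      calc schatten p (X + Y) * (1 - jn p X (X + Y) / schatten p (X + Y))
          ≤ schatten p (X + Y) * (2 * K * (1 - jn p (X + Y) X / schatten p X)) :=
            mul_le_mul_of_nonneg_left q hS.le
        _ ≤ (2 * schatten p X) * (2 * K * (1 - jn p (X + Y) X / schatten p X)) :=
            mul_le_mul_of_nonneg_right hle (by positivity)
        _ = _ := by ring
    have h1 := jn_self hp X hA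
    have h2 := jn_self hp (X + Y) hS
    rw [jn_add] at h2
    have h3 : jn p X (X + Y) = schatten p X + jn p X Y := by rw [jn_add, h1]
    have h4 := jn_le hp (X + Y) Y hS
    have h5 := jn_le hp (X + Y) X hS
    nlinarith

/-- `D₃ ≤ (1+4K)(D₂ + D₂ + D₂)` when `X` has the largest norm. -/
lemma hlawka_aux {p K : ℝ} (hp : 1 < p) (hK1 : p - 1 ≤ K) (hK2 : 1 / (p - 1) ≤ K)
    (X Y Z : Matrix (Fin N) (Fin M) ℂ) (hYX : schatten p Y ≤ schatten p X)
    (hZX : schatten p Z ≤ schatten p X) :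
    schatten p X + schatten p Y + schatten p Z - schatten p (X + Y + Z)
      ≤ (1 + 4 * K) * ((schatten p X + schatten p Y - schatten p (X + Y))
        + (schatten p X + schatten p Z - schatten p (X + Z))
        + (schatten p Y + schatten p Z - schatten p (Y + Z))) := by
  have hK0 : 0 ≤ K := le_trans (by linarith) hK1
  have d1 : 0 ≤ schatten p X + schatten p Y - schatten p (X + Y) := by
    linarith [schatten_add_le hp X Y]
  have d2 : 0 ≤ schatten p X + schatten p Z - schatten p (X + Z) := by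
    linarith [schatten_add_le hp X Z]
  have d3 : 0 ≤ schatten p Y + schatten p Z - schatten p (Y + Z) := by
    linarith [schatten_add_le hp Y Z]
  rcases (schatten_nonneg p X).eq_or_lt with h0 | hA
  · have hY : schatten p Y = 0 := le_antisymm (h0 ▸ hYX) (schatten_nonneg p Y)
    have hZ : schatten p Z = 0 := le_antisymm (h0 ▸ hZX) (schatten_nonneg p Z)
    have hT := schatten_nonneg p (X + Y + Z)
    have : 0 ≤ (1 + 4 * K) * ((schatten p X + schatten p Y - schatten p (X + Y))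
        + (schatten p X + schatten p Z - schatten p (X + Z))
        + (schatten p Y + schatten p Z - schatten p (Y + Z))) := by positivity
    linarith
  · have a1 := defect_le hp hK1 hK2 X Y hA hYX
    have a2 := defect_le hp hK1 hK2 X Z hA hZX
    have a3 := jn_le hp X (X + Y + Z) hA
    rw [jn_add, jn_add, jn_self hp X hA] at a3
    nlinarith [mul_nonneg hK0 d3]

end Pool.Agent.V11131.HlawkaSvd
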