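import Pool.Agent.V11131.HlawkaSvd

/-!
Explicit `3 × 2` rank one matrices showing that the Hlawka-type constant of the trace norm is
infinite.
-/

namespace Pool.Agent.V11131.HlawkaTrace

open Matrix Filter Topology ENNReal NNReal
open Pool.Agent.V11131.HlawkaSvd

/-- `D₂(X,Y) = ‖X‖+‖Y‖-‖X+Y‖` for the Schatten `p`-norm. -/
noncomputable def D2 (p : ℝ) {N M : ℕ} (X Y : Matrix (Fin N) (Fin M) ℂ) : ℝ :=
  schatten p X + schatten p Y - schatten p (X + Y)

/-- `D₃(X,Y,Z) = ‖X‖+‖Y‖+‖Z‖-‖X+Y+Z‖` for the Schatten `p`-norm. -/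
noncomputable def D3 (p : ℝ) {N M : ℕ} (X Y Z : Matrix (Fin N) (Fin M) ℂ) : ℝ :=
  schatten p X + schatten p Y + schatten p Z - schatten p (X + Y + Z)

/-! ### `3 × 2` matrices: trace norm from trace and determinant -/

lemma schatten_one_of_gram (X : Matrix (Fin 3) (Fin 2) ℂ) (u v w : ℝ)
    (h : Xᴴ * X = !![(u : ℂ), (w : ℂ); (w : ℂ), (v : ℂ)]) :
    schatten 1 X = Real.sqrt (u + v + 2 * Real.sqrt (u * v - w * w)) := by
  have hH := isHermitian_conjTranspose_mul_self X
  have htr : ((sqSing X 0 + sqSing X 1 : ℝ) : ℂ) = ((u + v : ℝ) : ℂ) := by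
    have := hH.trace_eq_sum_eigenvalues
    rw [Fin.sum_univ_two] at this
    have h2 : (Xᴴ * X).trace = (u : ℂ) + v := by
      rw [h]; simp [Matrix.trace, Fin.sum_univ_two]
    rw [h2] at this
    simp only [sqSing]
    push_cast
    exact this.symm
  have hdet : ((sqSing X 0 * sqSing X 1 : ℝ) : ℂ) = ((u * v - w * w : ℝ) : ℂ) := by
    have := hH.det_eq_prod_eigenvalues
    rw [Fin.prod_univ_two] at this
    have h2 : (Xᴴ * X).det = (u : ℂ) * v - w * w := by
      rw [h]; simp [Matrix.det_fin_two]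
    rw [h2] at this
    simp only [sqSing]
    push_cast
    exact this.symm
  have htr' : sqSing X 0 + sqSing X 1 = u + v := by exact_mod_cast htr
  have hdet' : sqSing X 0 * sqSing X 1 = u * v - w * w := by exact_mod_cast hdet
  have h0 : 0 ≤ sqSing X 0 := eigenvalues_conjTranspose_mul_self_nonneg X 0
  have h1 : 0 ≤ sqSing X 1 := eigenvalues_conjTranspose_mul_self_nonneg X 1
  unfold schatten
  simp only [Fin.sum_univ_two, Real.rpow_one, div_one]
  rw [← htr', ← hdet', Real.sqrt_mul h0]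
  have e : sqSing X 0 + sqSing X 1 + 2 * (Real.sqrt (sqSing X 0) * Real.sqrt (sqSing X 1))
      = (Real.sqrt (sqSing X 0) + Real.sqrt (sqSing X 1)) ^ 2 := by
    nlinarith [Real.sq_sqrt h0, Real.sq_sqrt h1]
  rw [e, Real.sqrt_sq (by positivity)]

/-- A real `3 × 2` matrix, viewed as a complex one. -/
def cx (A : Matrix (Fin 3) (Fin 2) ℝ) : Matrix (Fin 3) (Fin 2) ℂ := A.map (fun x : ℝ => (x : ℂ))

lemma cx_add (A B : Matrix (Fin 3) (Fin 2) ℝ) : cx A + cx B = cx (A + B) := by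
  ext i j; simp [cx]

lemma schatten_one_real (A : Matrix (Fin 3) (Fin 2) ℝ) (u v w : ℝ)
    (hu : A 0 0 * A 0 0 + A 1 0 * A 1 0 + A 2 0 * A 2 0 = u)
    (hv : A 0 1 * A 0 1 + A 1 1 * A 1 1 + A 2 1 * A 2 1 = v)
    (hw : A 0 0 * A 0 1 + A 1 0 * A 1 1 + A 2 0 * A 2 1 = w) :
    schatten 1 (cx A) = Real.sqrt (u + v + 2 * Real.sqrt (u * v - w * w)) := by
  apply schatten_one_of_gram
  subst hu hv hw
  ext i j
  fin_cases i <;> fin_cases j <;>
    simp [Matrix.mul_apply, Fin.sum_univ_three, cx, Matrix.conjTranspose_apply] <;> ring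

/-! ### The three rank one matrices -/

/-- `b aᵀ` with `a = (x,y)` and `b = (r x, r y, h)`. -/
def rk (r h x y : ℝ) : Matrix (Fin 3) (Fin 2) ℝ :=
  !![r * x * x, r * x * y; r * y * x, r * y * y; h * x, h * y]

section
variable (r h s : ℝ)

lemma norm_one (hr : r * r + h * h = 1) : schatten 1 (cx (rk r h 1 0)) = 1 := by
  rw [schatten_one_real _ 1 0 0] <;> simp [rk]
  linear_combination hr

lemma norm_two (hr : r * r + h * h = 1) (hs : s * s = 3 / 4) :
    schatten 1 (cx (rk r h (-1/2) s)) = 1 := by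
  rw [schatten_one_real _ (1/4) (3/4) (-s/2)]
  · have : (1/4 : ℝ) * (3/4) - (-s/2) * (-s/2) = 0 := by linear_combination (-1/4) * hs
    rw [this]; norm_num
  · simp [rk]
    linear_combination (1/4) * hr + (r * r / 4) * hs
  · simp [rk]
    linear_combination (3/4) * hr + (r * r / 4 + r * r * (s * s + 3/4) + h * h) * hs
  · simp [rk]
    linear_combination (-s/2) * hr + (-(r * r * s) / 2) * hs

lemma norm_sum (hr0 : 0 ≤ r) (hs : s * s = 3 / 4) :
    schatten 1 (cx (rk r h 1 0 + rk r h (-1/2) s + rk r h (-1/2) (-s))) = 3 * r := by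
  rw [schatten_one_real _ ((9/4) * (r * r)) ((9/4) * (r * r)) 0]
  · have e1 : (9/4) * (r * r) * ((9/4) * (r * r)) - 0 * 0 = ((9/4) * (r * r)) ^ 2 := by ring
    rw [e1, Real.sqrt_sq (by positivity)]
    have e2 : (9/4) * (r * r) + (9/4) * (r * r) + 2 * ((9/4) * (r * r)) = (3 * r) ^ 2 := by ring
    rw [e2, Real.sqrt_sq (by positivity)]
  · simp [rk]; ring
  · simp [rk]
    linear_combination (4 * r * r * s * s + 3 * r * r) * hs
  · simp [rk]

/-- The common trace norm of the three pair sums. -/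
noncomputable def Q (h : ℝ) : ℝ :=
  Real.sqrt (5/2 - (3/2) * h ^ 2 + 2 * Real.sqrt ((3/4) * (3/4 + (3/2) * h ^ 2 - (9/4) * h ^ 4)))

lemma norm_pair (hr : r * r + h * h = 1) (hs : s * s = 3 / 4) :
    schatten 1 (cx (rk r h 1 0 + rk r h (-1/2) s)) = Q h := by
  have hr' : r * r = 1 - h * h := by linarith
  rw [schatten_one_real _ ((7/4) * (r * r) + h * h / 4) (3/4) (-(r * r * s) + h * h * s / 2)]
  · unfold Q
    congr 1
    have e1 : (7/4) * (r * r) + h * h / 4 + 3/4 = 5/2 - (3/2) * h ^ 2 := by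
      linear_combination (7/4) * hr
    have e2 : ((7/4) * (r * r) + h * h / 4) * (3/4) -
        (-(r * r * s) + h * h * s / 2) * (-(r * r * s) + h * h * s / 2)
        = (3/4) * (3/4 + (3/2) * h ^ 2 - (9/4) * h ^ 4) := by
      have : (-(r * r * s) + h * h * s / 2) * (-(r * r * s) + h * h * s / 2)
          = (s * s) * (-(r * r) + h * h / 2) ^ 2 := by ring
      rw [this, hs, hr']; ring
    rw [e1, e2]
  · simp [rk]
    linear_combination (r * r / 4) * hs
  · simp [rk]
    linear_combination (3/4) * hr + (r * r / 4 + r * r * (s * s + 3/4) + h * h) * hs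
  · simp [rk]
    linear_combination (-(r * r * s) / 2) * hs

lemma norm_pair' (hr : r * r + h * h = 1) (hs : s * s = 3 / 4) :
    schatten 1 (cx (rk r h (-1/2) s + rk r h (-1/2) (-s))) = Q h := by
  have hr' : r * r = 1 - h * h := by linarith
  rw [schatten_one_real _ (r * r / 4 + h * h) ((9/4) * (r * r)) 0]
  · unfold Q
    congr 1
    have e1 : r * r / 4 + h * h + (9/4) * (r * r) = 5/2 - (3/2) * h ^ 2 := by
      linear_combination (5/2) * hr
    have e2 : (r * r / 4 + h * h) * ((9/4) * (r * r)) - 0 * 0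
        = (3/4) * (3/4 + (3/2) * h ^ 2 - (9/4) * h ^ 4) := by
      rw [hr']; ring
    rw [e1, e2]
  · simp [rk]; ring
  · simp [rk]
    linear_combination (4 * r * r * s * s + 3 * r * r) * hs
  · simp [rk]

end

lemma Q_lower {h : ℝ} (h1 : h ^ 2 ≤ 1) : 2 - (3/2) * h ^ 4 ≤ Q h := by
  unfold Q
  apply Real.le_sqrt_of_sq_le
  have hh : 0 ≤ h ^ 2 := sq_nonneg h
  have h4 : h ^ 4 = (h ^ 2) ^ 2 := by ring
  rw [h4]
  set t := h ^ 2 with ht
  have key : 3/4 + t * (3/4) - (3/2) * t ^ 2 ≤ Real.sqrt ((3/4) * (3/4 + (3/2) * t - (9/4) * t ^ 2)) := by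
    by_cases hneg : 3/4 + t * (3/4) - (3/2) * t ^ 2 < 0
    · exact le_trans hneg.le (Real.sqrt_nonneg _)
    · apply Real.le_sqrt_of_sq_le
      nlinarith [mul_nonneg hh hh, mul_nonneg (mul_nonneg hh hh) (sub_nonneg.2 h1)]
  nlinarith [mul_nonneg hh hh, mul_nonneg (mul_nonneg hh hh) (sub_nonneg.2 h1), pow_le_one₀ (n := 2) hh h1]

lemma Q_upper {h : ℝ} (h0 : 0 < h) : Q h < 2 := by
  unfold Q
  rw [Real.sqrt_lt' (by norm_num)]
  have ht : 0 < h ^ 2 := by positivity
  have h4 : h ^ 4 = (h ^ 2) ^ 2 := by ring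
  rw [h4]
  set t := h ^ 2 with ht'
  have key : Real.sqrt ((3/4) * (3/4 + (3/2) * t - (9/4) * t ^ 2)) < 3/4 + (3/4) * t := by
    rw [Real.sqrt_lt' (by positivity)]
    nlinarith [mul_pos ht ht]
  nlinarith

/-! ### Continuity in `p` at `p = 1` -/

lemma schatten_continuousAt {N M : ℕ} (X : Matrix (Fin N) (Fin M) ℂ) :
    ContinuousAt (fun p => schatten p X) 1 := by
  unfold schatten
  apply ContinuousAt.rpow
  · refine tendsto_finsetSum _ fun i _ => ?_
    exact Real.continuousAt_const_rpow' one_ne_zero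
  · exact ContinuousAt.div continuousAt_const continuousAt_id one_ne_zero
  · right; norm_num

lemma D2_continuousAt {N M : ℕ} (X Y : Matrix (Fin N) (Fin M) ℂ) :
    ContinuousAt (fun p => D2 p X Y) 1 := by
  unfold D2
  exact ((schatten_continuousAt X).add (schatten_continuousAt Y)).sub (schatten_continuousAt _)

lemma D3_continuousAt {N M : ℕ} (X Y Z : Matrix (Fin N) (Fin M) ℂ) :
    ContinuousAt (fun p => D3 p X Y Z) 1 := by
  unfold D3
  exact (((schatten_continuousAt X).add (schatten_continuousAt Y)).add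
    (schatten_continuousAt Z)).sub (schatten_continuousAt _)

/-- For every `K` there are `3 × 2` matrices with `D₃ > K (D₂+D₂+D₂) > 0` in trace norm. -/
lemma exists_bad (K : ℝ) (hK : 0 ≤ K) : ∃ X Y Z : Matrix (Fin 3) (Fin 2) ℂ,
    0 < D2 1 X Y + D2 1 X Z + D2 1 Y Z ∧
    K * (D2 1 X Y + D2 1 X Z + D2 1 Y Z) < D3 1 X Y Z := by
  set h : ℝ := Real.sqrt (1 / (3 * K + 2)) with hh
  have hpos : (0 : ℝ) < 1 / (3 * K + 2) := by positivity
  have hsq : h ^ 2 = 1 / (3 * K + 2) := Real.sq_sqrt hpos.le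
  have h0 : 0 < h := Real.sqrt_pos.2 hpos
  have h1 : h ^ 2 < 1 := by
    rw [hsq, div_lt_one (by positivity)]; linarith
  have hKh : 3 * K * h ^ 2 < 1 := by
    rw [hsq, mul_one_div, div_lt_one (by positivity)]; linarith
  set r : ℝ := Real.sqrt (1 - h ^ 2) with hr
  have hr2 : r ^ 2 = 1 - h ^ 2 := Real.sq_sqrt (by linarith)
  have hr0 : 0 ≤ r := Real.sqrt_nonneg _
  have hrr : r * r + h * h = 1 := by nlinarith
  set s : ℝ := Real.sqrt (3/4) with hs
  have hss : s * s = 3 / 4 := Real.mul_self_sqrt (by norm_num)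
  have hss' : (-s) * (-s) = 3 / 4 := by linarith [hss, neg_mul_neg s s]
  refine ⟨cx (rk r h 1 0), cx (rk r h (-1/2) s), cx (rk r h (-1/2) (-s)), ?_⟩
  have n1 := norm_one r h hrr
  have n2 := norm_two r h s hrr hss
  have n3 := norm_two r h (-s) hrr hss'
  have p12 := norm_pair r h s hrr hss
  have p13 := norm_pair r h (-s) hrr hss'
  have p23 := norm_pair' r h s hrr hss
  have t := norm_sum r h s hr0 hss
  have d12 : D2 1 (cx (rk r h 1 0)) (cx (rk r h (-1/2) s)) = 2 - Q h := by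
    unfold D2; rw [cx_add, n1, n2, p12]; ring
  have d13 : D2 1 (cx (rk r h 1 0)) (cx (rk r h (-1/2) (-s))) = 2 - Q h := by
    unfold D2; rw [cx_add, n1, n3, p13]; ring
  have d23 : D2 1 (cx (rk r h (-1/2) s)) (cx (rk r h (-1/2) (-s))) = 2 - Q h := by
    unfold D2; rw [cx_add, n2, n3, p23]; ring
  have d3 : D3 1 (cx (rk r h 1 0)) (cx (rk r h (-1/2) s)) (cx (rk r h (-1/2) (-s)))
      = 3 - 3 * r := by
    unfold D3; rw [cx_add, cx_add, n1, n2, n3, t]; ring
  rw [d12, d13, d23, d3]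
  have hQl := Q_lower (h := h) h1.le
  have hQu := Q_upper h0
  have hrle : r ≤ 1 - h ^ 2 / 2 := by
    nlinarith [sq_nonneg (h ^ 2), sq_nonneg (r - 1)]
  constructor
  · linarith
  · have hh0 : 0 < h ^ 2 := by positivity
    have e1 : K * (2 - Q h + (2 - Q h) + (2 - Q h)) ≤ K * ((9/2) * h ^ 4) :=
      mul_le_mul_of_nonneg_left (by linarith) hK
    have e2 : K * ((9/2) * h ^ 4) = (3/2) * (3 * K * h ^ 2) * h ^ 2 := by ring
    have e3 : (3/2) * (3 * K * h ^ 2) * h ^ 2 < (3/2) * 1 * h ^ 2 := by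
      have := mul_lt_mul_of_pos_right hKh hh0
      linarith
    linarith


end Pool.Agent.V11131.HlawkaTrace
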