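import Mathlib

/-!
General definitions: surfaces cut into polygons in the pattern of a rooted locally finite
planar tree, asymptotically rigid homeomorphisms and the asymptotically rigid mapping
class group.
-/

namespace Pool.Agent.V11131.Mod

open Set Topology

noncomputable section

/-- `A` is a closed disc. -/
def IsDisc (A : Set ℂ) : Prop :=
  ∃ f : Metric.closedBall (0 : ℂ) 1 → ℂ, Continuous f ∧ Function.Injective f ∧ Set.range f = A

/-- `A` is an arc. -/
def IsArc (A : Set ℂ) : Prop :=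
  ∃ f : Set.Icc (0 : ℝ) 1 → ℂ, Continuous f ∧ Function.Injective f ∧ Set.range f = A

/-- A rooted locally finite tree: each vertex `v ≠ root` is joined to `parent v` by an edge, and
`depth` is the distance to the root. -/
structure RTree where
  V : Type
  root : V
  parent : V → V
  depth : V → ℕ
  depth_root : depth root = 0
  depth_parent : ∀ v, v ≠ root → depth v = depth (parent v) + 1
  fin_children : ∀ v, {w | w ≠ root ∧ parent w = v}.Finite

/-- Adjacent vertices. -/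
def RTree.Adj (A : RTree) (v w : A.V) : Prop :=
  (v ≠ A.root ∧ A.parent v = w) ∨ (w ≠ A.root ∧ A.parent w = v)

/-- The set of the children of a vertex. -/
def RTree.children (A : RTree) (v : A.V) : Set A.V := {w | w ≠ A.root ∧ A.parent w = v}

/-- The root has degree 1 and all the other vertices have degree 3. -/
def RTree.IsA21 (A : RTree) : Prop :=
  (A.children A.root).ncard = 1 ∧ ∀ v, v ≠ A.root → (A.children v).ncard = 2

/-- A surface S (a subset of the plane) cut into polygons `H v`, one for each vertex `v` of a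
rooted locally finite tree.  The polygon `H v` is a closed disc, the puncture `p v` lies in its
interior; the polygons of two adjacent vertices meet in an arc, other pairs of polygons are
disjoint, and the interior of a polygon is disjoint from all the other polygons; every compact
set meets only finitely many polygons. -/
structure TreeSurface extends RTree where
  H : V → Set ℂ
  p : V → ℂ
  disc : ∀ v, IsDisc (H v)
  p_mem : ∀ v, p v ∈ interior (H v)
  arc : ∀ v, v ≠ root → IsArc (H v ∩ H (parent v))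
  disj : ∀ v w, v ≠ w → ¬ toRTree.Adj v w → H v ∩ H w = ∅
  int_disj : ∀ v w, v ≠ w → Disjoint (interior (H v)) (H w)
  locfin : ∀ K : Set ℂ, IsCompact K → {v | (H v ∩ K).Nonempty}.Finite

namespace TreeSurface

variable (X : TreeSurface)

/-- The surface: the union of all polygons. -/
def S : Set ℂ := ⋃ v, X.H v

/-- The surface as a topological space. -/
abbrev Surf : Type := {z : ℂ // z ∈ X.S}

instance instTopSurf : TopologicalSpace X.Surf := instTopologicalSpaceSubtype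

/-- The polygon of `v` as a subset of the surface. -/
def poly (v : X.V) : Set X.Surf := Subtype.val ⁻¹' X.H v

/-- The union of the polygons in a finite family. -/
def reg (F : Finset X.V) : Set X.Surf := ⋃ v ∈ F, X.poly v

/-- The set of punctures. -/
def punct : Set X.Surf := {z | ∃ v, (z : ℂ) = X.p v}

/-- `φ` maps the union of the polygons in `F` onto the union of the polygons in `F'`, and the
polygons outside `F` onto the polygons outside `F'`. -/
def Match (φ : X.Surf ≃ₜ X.Surf) (F F' : Finset X.V) : Prop :=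
  φ '' X.reg F = X.reg F' ∧ (∀ v, v ∉ F → ∃ w, w ∉ F' ∧ φ '' X.poly v = X.poly w) ∧
    (∀ w, w ∉ F' → ∃ v, v ∉ F ∧ φ '' X.poly v = X.poly w)

/-- Asymptotically rigid homeomorphisms. -/
def AsympRigid (φ : X.Surf ≃ₜ X.Surf) : Prop :=
  ∃ F F' : Finset X.V, IsConnected (X.reg F) ∧ IsConnected (X.reg F') ∧ X.Match φ F F'

/-- Pairs of distinct points of the surface. -/
abbrev Conf : Type := {q : X.Surf × X.Surf // q.1 ≠ q.2}

variable {X} in
lemma diff_ne (φ : X.Surf ≃ₜ X.Surf) (q : X.Conf) : (φ q.1.1 : ℂ) - φ q.1.2 ≠ 0 := by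
  intro h
  exact q.2 (φ.injective (Subtype.ext (sub_eq_zero.1 h)))

/-- The function `(z, w) ↦ φ z - φ w` from pairs of distinct points to the nonzero complex
numbers. -/
def diffFun (φ : X.Surf ≃ₜ X.Surf) (q : X.Conf) : {z : ℂ // z ≠ 0} :=
  ⟨(φ q.1.1 : ℂ) - φ q.1.2, diff_ne φ q⟩

variable {X} in
lemma diffFun_cont (φ : X.Surf ≃ₜ X.Surf) : Continuous (X.diffFun φ) := by
  unfold diffFun
  fun_prop

/-- The continuous map `(z, w) ↦ φ z - φ w` from pairs of distinct points to the nonzero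
complex numbers. -/
def diffMap (φ : X.Surf ≃ₜ X.Surf) : C(X.Conf, {z : ℂ // z ≠ 0}) := ⟨X.diffFun φ, diffFun_cont φ⟩

/-- Orientation preserving: the map `(z, w) ↦ φ z - φ w` from the pairs of distinct points of
the surface to the nonzero complex numbers is homotopic to `(z, w) ↦ z - w`. -/
def OrientPres (φ : X.Surf ≃ₜ X.Surf) : Prop :=
  (X.diffMap (Homeomorph.refl X.Surf)).Homotopic (X.diffMap φ)

/-- Isotopic to the identity by an isotopy fixing every puncture. -/
def IsotopicId (φ : X.Surf ≃ₜ X.Surf) : Prop :=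
  ∃ Φ : (unitInterval × X.Surf) ≃ₜ (unitInterval × X.Surf), (∀ x, (Φ x).1 = x.1) ∧
    (∀ z, Φ (0, z) = (0, z)) ∧ (∀ z, Φ (1, z) = (1, φ z)) ∧
    (∀ s z, z ∈ X.punct → Φ (s, z) = (s, z))

variable {X}

lemma H_nonempty (v : X.V) : (X.H v).Nonempty := ⟨X.p v, interior_subset (X.p_mem v)⟩

lemma H_subset (v : X.V) : X.H v ⊆ X.S := Set.subset_iUnion X.H v

lemma val_poly (v : X.V) : Subtype.val '' X.poly v = X.H v := by
  unfold poly
  rw [Subtype.image_preimage_coe]
  exact Set.inter_eq_right.2 (H_subset v)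

lemma poly_injective : Function.Injective X.poly := by
  intro v w h
  by_contra hne
  have h1 : X.H v = X.H w := by rw [← val_poly, ← val_poly, h]
  have h2 := X.int_disj v w hne
  exact Set.disjoint_left.1 h2 (X.p_mem v) (h1 ▸ interior_subset (X.p_mem v))

lemma Match.symm {φ : X.Surf ≃ₜ X.Surf} {F F' : Finset X.V} (h : X.Match φ F F') :
    X.Match φ⁻¹ F' F := by
  obtain ⟨h1, h2, h3⟩ := h
  have key : ∀ A B : Set X.Surf, φ '' A = B → (φ⁻¹ : X.Surf ≃ₜ X.Surf) '' B = A := by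
    intro A B hAB
    rw [← hAB]
    ext z
    constructor
    · rintro ⟨_, ⟨a, ha, rfl⟩, rfl⟩
      have : (φ⁻¹ : X.Surf ≃ₜ X.Surf) (φ a) = a := φ.symm_apply_apply a
      rw [this]; exact ha
    · intro hz
      exact ⟨φ z, ⟨z, hz, rfl⟩, φ.symm_apply_apply z⟩
  refine ⟨key _ _ h1, ?_, ?_⟩
  · intro w hw
    obtain ⟨v, hv, hvw⟩ := h3 w hw
    exact ⟨v, hv, key _ _ hvw⟩
  · intro v hv
    obtain ⟨w, hw, hvw⟩ := h2 v hv
    exact ⟨w, hw, key _ _ hvw⟩

lemma Match.comp {φ ψ : X.Surf ≃ₜ X.Surf} {F G K : Finset X.V} (h : X.Match φ F G)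
    (h' : X.Match ψ G K) : X.Match (ψ * φ) F K := by
  have key : ∀ A : Set X.Surf, (ψ * φ : X.Surf ≃ₜ X.Surf) '' A = ψ '' (φ '' A) := by
    intro A
    rw [Set.image_image]; rfl
  refine ⟨by rw [key, h.1, h'.1], ?_, ?_⟩
  · intro v hv
    obtain ⟨w, hw, e⟩ := h.2.1 v hv
    obtain ⟨u, hu, e'⟩ := h'.2.1 w hw
    exact ⟨u, hu, by rw [key, e, e']⟩
  · intro u hu
    obtain ⟨w, hw, e⟩ := h'.2.2 u hu
    obtain ⟨v, hv, e'⟩ := h.2.2 w hw
    exact ⟨v, hv, by rw [key, e', e]⟩

lemma reg_eq_union {F B : Finset X.V} (h : F ⊆ B) :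
    X.reg B = X.reg F ∪ ⋃ v ∈ (B : Set X.V) \ F, X.poly v := by
  unfold reg
  ext z
  simp only [Set.mem_iUnion, Set.mem_union, Set.mem_sdiff, Finset.mem_coe, exists_prop]
  constructor
  · rintro ⟨v, hv, hz⟩
    by_cases hF : v ∈ F
    · exact Or.inl ⟨v, hF, hz⟩
    · exact Or.inr ⟨v, ⟨hv, hF⟩, hz⟩
  · rintro (⟨v, hv, hz⟩ | ⟨v, ⟨hv, _⟩, hz⟩)
    · exact ⟨v, h hv, hz⟩
    · exact ⟨v, hv, hz⟩

lemma Match.enlarge {φ : X.Surf ≃ₜ X.Surf} {F F' B : Finset X.V} (h : X.Match φ F F') (hB : F ⊆ B) :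
    ∃ B', F' ⊆ B' ∧ X.Match φ B B' := by
  classical
  obtain ⟨h1, h2, h3⟩ := h
  choose! w hw hw' using h2
  refine ⟨F' ∪ (B \ F).image w, Finset.subset_union_left, ?_, ?_, ?_⟩
  · rw [reg_eq_union hB, Set.image_union, h1]
    have hsub : F' ⊆ F' ∪ (B \ F).image w := Finset.subset_union_left
    ext z
    simp only [reg, Set.mem_union, Set.mem_iUnion, exists_prop, Finset.mem_union,
      Finset.mem_image, Finset.mem_sdiff, Set.mem_image, Set.mem_sdiff, Finset.mem_coe]
    constructor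
    · rintro (⟨v, hv, hz⟩ | ⟨y, ⟨v, ⟨hvB, hvF⟩, hy⟩, rfl⟩)
      · exact ⟨v, Or.inl hv, hz⟩
      · refine ⟨w v, Or.inr ⟨v, ⟨hvB, hvF⟩, rfl⟩, ?_⟩
        rw [← hw' v hvF]
        exact ⟨y, hy, rfl⟩
    · rintro ⟨u, hu | ⟨v, ⟨hvB, hvF⟩, rfl⟩, hz⟩
      · exact Or.inl ⟨u, hu, hz⟩
      · rw [← hw' v hvF] at hz
        obtain ⟨y, hy, rfl⟩ := hz
        exact Or.inr ⟨y, ⟨v, ⟨hvB, hvF⟩, hy⟩, rfl⟩
  · intro v hv
    have hvF : v ∉ F := fun hh => hv (hB hh)
    refine ⟨w v, ?_, hw' v hvF⟩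
    intro hmem
    rcases Finset.mem_union.1 hmem with hh | hh
    · exact hw v hvF hh
    · obtain ⟨v', hv', e⟩ := Finset.mem_image.1 hh
      rw [Finset.mem_sdiff] at hv'
      have e2 : φ '' X.poly v' = φ '' X.poly v := by rw [hw' v' hv'.2, e, hw' v hvF]
      have e3 : v' = v := poly_injective (φ.injective.image_injective e2)
      exact hv (e3 ▸ hv'.1)
  · intro u hu
    rw [Finset.mem_union, not_or] at hu
    obtain ⟨v, hv, e⟩ := h3 u hu.1
    refine ⟨v, ?_, e⟩
    intro hvB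
    apply hu.2
    rw [Finset.mem_image]
    refine ⟨v, Finset.mem_sdiff.2 ⟨hvB, hv⟩, ?_⟩
    exact poly_injective (by rw [← hw' v hv, e])

lemma fin_depth (n : ℕ) : {v : X.V | X.depth v ≤ n}.Finite := by
  induction n with
  | zero =>
    apply Set.Finite.subset (Set.finite_singleton X.root)
    intro v hv
    by_contra hne
    have := X.depth_parent v hne
    simp only [Set.mem_ofPred_eq] at hv
    omega
  | succ n ih =>
    apply Set.Finite.subset (ih.union ((ih.biUnion (fun v _ => X.fin_children v))))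
    intro v hv
    simp only [Set.mem_ofPred_eq] at hv
    by_cases hr : v = X.root
    · left
      simp only [Set.mem_ofPred_eq, hr, X.depth_root]
      omega
    · right
      have := X.depth_parent v hr
      simp only [Set.mem_iUnion, Set.mem_ofPred_eq, exists_prop]
      exact ⟨X.parent v, by omega, hr, rfl⟩

/-- The finite set of vertices at distance at most `n` from the root. -/
def ball (X : TreeSurface) (n : ℕ) : Finset X.V := (fin_depth (X := X) n).toFinset

lemma mem_ball {n : ℕ} {v : X.V} : v ∈ X.ball n ↔ X.depth v ≤ n := by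
  unfold ball
  rw [Set.Finite.mem_toFinset]; rfl

lemma exists_ball (F : Finset X.V) : ∃ n, F ⊆ X.ball n := by
  refine ⟨F.sup X.depth, ?_⟩
  intro v hv
  rw [mem_ball]
  exact Finset.le_sup (f := X.depth) hv

lemma poly_preconnected (v : X.V) : IsPreconnected (X.poly v) := by
  rw [← Topology.IsInducing.subtypeVal.isPreconnected_image, val_poly]
  obtain ⟨f, hf, -, hr⟩ := X.disc v
  rw [← hr]
  have : IsPreconnected (Set.univ : Set (Metric.closedBall (0 : ℂ) 1)) := by
    have h := (convex_closedBall (0 : ℂ) 1).isPreconnected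
    haveI := Subtype.preconnectedSpace h
    exact isPreconnected_univ
  rw [← Set.image_univ]
  exact this.image f hf.continuousOn

lemma root_mem_ball (n : ℕ) : X.root ∈ X.ball n := by
  rw [mem_ball, X.depth_root]; omega

lemma chain (n : ℕ) : ∀ m, m ≤ n → ∀ v : X.V, X.depth v = m →
    ∃ C : Set X.Surf, IsPreconnected C ∧ X.poly v ⊆ C ∧ X.poly X.root ⊆ C ∧ C ⊆ X.reg (X.ball n) := by
  intro m
  induction m with
  | zero =>
    intro _ v hv
    have hr : v = X.root := by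
      by_contra hne
      have := X.depth_parent v hne
      omega
    subst hr
    refine ⟨_, poly_preconnected X.root, subset_rfl, subset_rfl, ?_⟩
    intro z hz
    simp only [reg, Set.mem_iUnion]
    exact ⟨X.root, root_mem_ball n, hz⟩
  | succ m ih =>
    intro hm v hv
    have hne : v ≠ X.root := by
      intro h; rw [h, X.depth_root] at hv; omega
    have hd := X.depth_parent v hne
    obtain ⟨C, hC, h1, h2, h3⟩ := ih (by omega) (X.parent v) (by omega)
    obtain ⟨f, hf, -, hr⟩ := X.arc v hne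
    have hz : f ⟨0, by simp⟩ ∈ X.H v ∩ X.H (X.parent v) := by rw [← hr]; exact ⟨_, rfl⟩
    set z : X.Surf := ⟨f ⟨0, by simp⟩, H_subset v hz.1⟩
    have hzv : z ∈ X.poly v := hz.1
    have hzp : z ∈ X.poly (X.parent v) := hz.2
    refine ⟨X.poly v ∪ C, IsPreconnected.union z hzv (h1 hzp) (poly_preconnected v) hC,
      Set.subset_union_left, h2.trans Set.subset_union_right, ?_⟩
    apply Set.union_subset _ h3
    intro y hy
    simp only [reg, Set.mem_iUnion]
    exact ⟨v, mem_ball.2 (by omega), hy⟩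

lemma reg_ball_connected (n : ℕ) : IsConnected (X.reg (X.ball n)) := by
  have hroot : X.poly X.root ⊆ X.reg (X.ball n) := by
    intro z hz
    simp only [reg, Set.mem_iUnion]
    exact ⟨X.root, root_mem_ball n, hz⟩
  obtain ⟨y, hy⟩ := H_nonempty X.root
  set z0 : X.Surf := ⟨y, H_subset _ hy⟩
  have hz0 : z0 ∈ X.poly X.root := hy
  refine ⟨⟨z0, hroot hz0⟩, ?_⟩
  apply isPreconnected_of_forall z0
  intro z hz
  simp only [reg, Set.mem_iUnion] at hz
  obtain ⟨v, hv, hz⟩ := hz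
  obtain ⟨C, hC, h1, h2, h3⟩ := chain (X := X) n (X.depth v) (mem_ball.1 hv) v rfl
  exact ⟨C, h3, h2 hz0, h1 hz, hC⟩

lemma AsympRigid.one : X.AsympRigid 1 := by
  refine ⟨X.ball 0, X.ball 0, reg_ball_connected 0, reg_ball_connected 0, ?_, ?_, ?_⟩
  · exact Set.image_id _
  · intro v hv; exact ⟨v, hv, Set.image_id _⟩
  · intro v hv; exact ⟨v, hv, Set.image_id _⟩

lemma AsympRigid.inv {φ : X.Surf ≃ₜ X.Surf} (h : X.AsympRigid φ) : X.AsympRigid φ⁻¹ := by
  obtain ⟨F, F', h1, h2, h3⟩ := h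
  exact ⟨F', F, h2, h1, h3.symm⟩

lemma AsympRigid.mul {φ ψ : X.Surf ≃ₜ X.Surf} (hψ : X.AsympRigid ψ) (hφ : X.AsympRigid φ) :
    X.AsympRigid (ψ * φ) := by
  classical
  obtain ⟨F, F', -, -, h⟩ := hφ
  obtain ⟨G, G', -, -, g⟩ := hψ
  obtain ⟨A, hA, hA'⟩ := h.symm.enlarge (B := F' ∪ G) Finset.subset_union_left
  have hA2 : X.Match φ A (F' ∪ G) := by
    have := hA'.symm
    rwa [inv_inv] at this
  obtain ⟨n, hn⟩ := exists_ball A
  obtain ⟨K, hK, hK'⟩ := hA2.enlarge hn
  obtain ⟨L, hL, hL'⟩ := g.enlarge (B := K) (Finset.subset_union_right.trans hK)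
  have hM := hK'.comp hL'
  refine ⟨X.ball n, L, reg_ball_connected n, ?_, hM⟩
  rw [← hM.1]
  exact (reg_ball_connected n).image _ (ψ * φ).continuous.continuousOn

/-- The map induced on pairs of distinct points. -/
def confMap (φ : X.Surf ≃ₜ X.Surf) : C(X.Conf, X.Conf) :=
  ⟨fun q => ⟨(φ q.1.1, φ q.1.2), fun h => q.2 (φ.injective h)⟩, by fun_prop⟩

lemma OrientPres.one : X.OrientPres 1 := ContinuousMap.Homotopic.refl _

lemma OrientPres.mul {φ ψ : X.Surf ≃ₜ X.Surf} (hψ : X.OrientPres ψ) (hφ : X.OrientPres φ) :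
    X.OrientPres (ψ * φ) := by
  have h1 : ((X.diffMap (Homeomorph.refl X.Surf)).comp (confMap φ)).Homotopic
      ((X.diffMap ψ).comp (confMap φ)) :=
    ContinuousMap.Homotopic.comp hψ (ContinuousMap.Homotopic.refl _)
  exact ContinuousMap.Homotopic.trans hφ h1

lemma OrientPres.inv {φ : X.Surf ≃ₜ X.Surf} (hφ : X.OrientPres φ) : X.OrientPres φ⁻¹ := by
  have h1 : ((X.diffMap (Homeomorph.refl X.Surf)).comp (confMap φ⁻¹)).Homotopic
      ((X.diffMap φ).comp (confMap φ⁻¹)) :=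
    ContinuousMap.Homotopic.comp hφ (ContinuousMap.Homotopic.refl _)
  have h2 : (X.diffMap φ).comp (confMap φ⁻¹) = X.diffMap (Homeomorph.refl X.Surf) := by
    ext q
    show ((φ (φ⁻¹ q.1.1) : X.Surf) : ℂ) - (φ (φ⁻¹ q.1.2) : X.Surf) = (q.1.1 : ℂ) - q.1.2
    have e1 : φ (φ⁻¹ q.1.1) = q.1.1 := φ.apply_symm_apply _
    have e2 : φ (φ⁻¹ q.1.2) = q.1.2 := φ.apply_symm_apply _
    rw [e1, e2]
  rw [h2] at h1
  exact h1.symm

lemma IsotopicId.one : X.IsotopicId 1 :=
  ⟨1, fun _ => rfl, fun _ => rfl, fun _ => rfl, fun _ _ _ => rfl⟩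

lemma IsotopicId.mul {φ ψ : X.Surf ≃ₜ X.Surf} (hψ : X.IsotopicId ψ) (hφ : X.IsotopicId φ) :
    X.IsotopicId (ψ * φ) := by
  obtain ⟨Φ, a1, a2, a3, a4⟩ := hφ
  obtain ⟨Ψ, b1, b2, b3, b4⟩ := hψ
  refine ⟨Ψ * Φ, ?_, ?_, ?_, ?_⟩
  · intro x
    show (Ψ (Φ x)).1 = x.1
    rw [b1, a1]
  · intro z
    show Ψ (Φ (0, z)) = (0, z)
    rw [a2, b2]
  · intro z
    show Ψ (Φ (1, z)) = (1, ψ (φ z))
    rw [a3, b3]
  · intro s z hz
    show Ψ (Φ (s, z)) = (s, z)
    rw [a4 s z hz, b4 s z hz]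

lemma IsotopicId.inv {φ : X.Surf ≃ₜ X.Surf} (hφ : X.IsotopicId φ) : X.IsotopicId φ⁻¹ := by
  obtain ⟨Φ, a1, a2, a3, a4⟩ := hφ
  refine ⟨Φ.symm, ?_, ?_, ?_, ?_⟩
  · intro x
    rw [← a1 (Φ.symm x), Φ.apply_symm_apply]
  · intro z
    rw [Homeomorph.symm_apply_eq, a2]
  · intro z
    rw [Homeomorph.symm_apply_eq, a3]
    congr 1
    exact (φ.apply_symm_apply z).symm
  · intro s z hz
    rw [Homeomorph.symm_apply_eq, a4 s z hz]

lemma IsotopicId.conj {φ ψ : X.Surf ≃ₜ X.Surf} (hφ : X.IsotopicId φ)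
    (hψ : ψ '' X.punct = X.punct) : X.IsotopicId (ψ * φ * ψ⁻¹) := by
  obtain ⟨Φ, a1, a2, a3, a4⟩ := hφ
  set E : (unitInterval × X.Surf) ≃ₜ (unitInterval × X.Surf) :=
    (Homeomorph.refl unitInterval).prodCongr ψ
  have hE : ∀ s z, E (s, z) = (s, ψ z) := fun s z => rfl
  have hEs : ∀ s z, E.symm (s, z) = (s, ψ.symm z) := fun s z => rfl
  refine ⟨(E.symm.trans Φ).trans E, ?_, ?_, ?_, ?_⟩
  · intro x
    show (Φ (E.symm x)).1 = x.1
    rw [a1]; rfl
  · intro z
    show E (Φ (E.symm (0, z))) = (0, z)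
    rw [hEs, a2, hE, ψ.apply_symm_apply]
  · intro z
    show E (Φ (E.symm (1, z))) = (1, _)
    rw [hEs, a3, hE]; rfl
  · intro s z hz
    show E (Φ (E.symm (s, z))) = (s, z)
    rw [hEs, a4, hE, ψ.apply_symm_apply]
    rw [← hψ] at hz
    obtain ⟨y, hy, rfl⟩ := hz
    rwa [ψ.symm_apply_apply]

/-- The orientation preserving asymptotically rigid homeomorphisms of the punctured surface. -/
def IsAR (φ : X.Surf ≃ₜ X.Surf) : Prop :=
  X.AsympRigid φ ∧ X.OrientPres φ ∧ φ '' X.punct = X.punct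

lemma IsAR.mul {ψ φ : X.Surf ≃ₜ X.Surf} (hψ : IsAR ψ) (hφ : IsAR φ) : IsAR (ψ * φ) := by
  obtain ⟨h1, h2, h3⟩ := hψ
  obtain ⟨g1, g2, g3⟩ := hφ
  refine ⟨h1.mul g1, h2.mul g2, ?_⟩
  have : (ψ * φ : X.Surf ≃ₜ X.Surf) '' X.punct = ψ '' (φ '' X.punct) := by
    rw [Set.image_image]; rfl
  rw [this, g3, h3]

lemma IsAR.one : IsAR (1 : X.Surf ≃ₜ X.Surf) := ⟨AsympRigid.one, OrientPres.one, Set.image_id _⟩

lemma IsAR.inv {φ : X.Surf ≃ₜ X.Surf} (hφ : IsAR φ) : IsAR φ⁻¹ := by
  obtain ⟨h1, h2, h3⟩ := hφ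
  refine ⟨h1.inv, h2.inv, ?_⟩
  conv_lhs => rw [← h3]
  rw [Set.image_image]
  have : (fun x => (φ⁻¹ : X.Surf ≃ₜ X.Surf) (φ x)) = id := by
    funext x; exact φ.symm_apply_apply x
  rw [this, Set.image_id]

variable (X)

/-- The group of orientation preserving asymptotically rigid homeomorphisms of the punctured
surface. -/
def AR : Subgroup (X.Surf ≃ₜ X.Surf) where
  carrier := {φ | IsAR φ}
  mul_mem' := IsAR.mul
  one_mem' := IsAR.one
  inv_mem' := IsAR.inv

/-- The type of the elements of `AR`. -/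
abbrev ARG : Type := X.AR

instance instGroupARG : Group X.ARG := Subgroup.toGroup X.AR

/-- Homeomorphisms isotopic to the identity relative to the punctures. -/
def Iso0 : Subgroup X.ARG where
  carrier := {φ | X.IsotopicId φ.1}
  mul_mem' := IsotopicId.mul
  one_mem' := IsotopicId.one
  inv_mem' := IsotopicId.inv

lemma Iso0_normal : X.Iso0.Normal :=
  ⟨fun _ hφ ψ => IsotopicId.conj (ψ := ψ.1) hφ ψ.2.2.2⟩

instance : X.Iso0.Normal := X.Iso0_normal

/-- The asymptotically rigid mapping class group. -/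
abbrev MCG : Type := X.ARG ⧸ X.Iso0

instance instGroupMCG : Group X.MCG := QuotientGroup.Quotient.group X.Iso0

end TreeSurface

/-- `G` has an infinite torsion subgroup which is abelian, 2-divisible and in which the orders
of the elements are powers of 2. -/
def HasInfTorsion (G : Type) [Group G] : Prop :=
  ∃ T : Subgroup G, Infinite T ∧ (∀ x ∈ T, IsOfFinOrder x) ∧ (∀ x ∈ T, ∀ y ∈ T, x * y = y * x) ∧
    (∀ x ∈ T, ∃ k : ℕ, x ^ (2 ^ k) = 1) ∧ (∀ x ∈ T, ∃ y ∈ T, y * y = x)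

/-- The group `A` is isomorphic to a direct sum of cyclic groups. -/
def IsSumOfCyclic (A : Type) [AddGroup A] : Prop :=
  ∃ (ι : Type) (C : ι → Type) (_ : ∀ i, AddCommGroup (C i)),
    (∀ i, IsAddCyclic (C i)) ∧ Nonempty (A ≃+ DirectSum ι C)

/-- `G` has an abelian subgroup not isomorphic to a direct sum of cyclic groups. -/
def HasBadAbelian (G : Type) [Group G] : Prop :=
  ∃ T : Subgroup G, (∀ x ∈ T, ∀ y ∈ T, x * y = y * x) ∧ ¬ IsSumOfCyclic (Additive T)

end

end Pool.Agent.V11131.Mod
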