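import Mathlib

/-!
A degree two circle map with an attracting fixed point and the function `psi`.
-/

namespace Pool.Agent.V11131.Mod

open Set Filter Topology

noncomputable section

/-- Auxiliary piecewise linear function. -/
def cc (y : ℝ) : ℝ := max 0 (min ((5 * y - 1) / 3) 1)

lemma cc_nonneg (y : ℝ) : 0 ≤ cc y := le_max_left _ _

lemma cc_le_one (y : ℝ) : cc y ≤ 1 := max_le (by norm_num) (min_le_right _ _)

lemma cc_mono : Monotone cc := by
  intro a b h
  exact max_le_max le_rfl (min_le_min (by linarith) le_rfl)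

lemma cc_cont : Continuous cc := by unfold cc; fun_prop

lemma cc_low {y : ℝ} (h : y ≤ 1 / 5) : cc y = 0 := by
  unfold cc
  rw [max_eq_left]
  exact (min_le_left _ _).trans (by linarith)

lemma cc_high {y : ℝ} (h : 4 / 5 ≤ y) : cc y = 1 := by
  unfold cc
  rw [min_eq_right (by linarith)]
  norm_num

lemma cc_mid {y : ℝ} (h : 1 / 5 ≤ y) (h' : y ≤ 4 / 5) : cc y = (5 * y - 1) / 3 := by
  unfold cc
  rw [min_eq_left (by linarith), max_eq_right (by linarith)]

/-- The lift of the circle map of degree two: on `[0,1]` it is `x / 2` up to `1/5`, then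
`3 x - 1/2` up to `4/5`, then `x / 2 + 3 / 2`; and `Dfun (x + n) = Dfun x + 2 n`. -/
def Dfun (x : ℝ) : ℝ := x / 2 + 3 / 2 * (⌊x⌋ + cc (Int.fract x))

lemma Dfun_add_int (x : ℝ) (n : ℤ) : Dfun (x + n) = Dfun x + 2 * n := by
  unfold Dfun
  rw [Int.floor_add_intCast, Int.fract_add_intCast]
  push_cast
  ring

lemma Dfun_cont : Continuous Dfun := by
  have h1 : Continuous ((fun y => cc y - y) ∘ Int.fract) := by
    apply ContinuousOn.comp_fract''
    · exact (cc_cont.sub continuous_id).continuousOn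
    · show cc 0 - 0 = cc 1 - 1
      rw [cc_low (by norm_num), cc_high (by norm_num)]; norm_num
  have h2 : Dfun = fun x => 2 * x + 3 / 2 * ((fun y => cc y - y) ∘ Int.fract) x := by
    funext x
    have := Int.floor_add_fract x
    simp only [Dfun, Function.comp]
    linarith
  rw [h2]
  exact (continuous_const.mul continuous_id).add (continuous_const.mul h1)

lemma Dfun_strictMono : StrictMono Dfun := by
  intro x y h
  unfold Dfun
  have h1 : (⌊x⌋ : ℝ) + cc (Int.fract x) ≤ ⌊y⌋ + cc (Int.fract y) := by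
    rcases (Int.floor_le_floor h.le).lt_or_eq with hlt | heq
    · have : ((⌊x⌋ : ℝ) + 1) ≤ ⌊y⌋ := by exact_mod_cast hlt
      have a := cc_le_one (Int.fract x)
      have b := cc_nonneg (Int.fract y)
      linarith
    · rw [heq]
      have hx := Int.floor_add_fract x
      have hy := Int.floor_add_fract y
      have : Int.fract x ≤ Int.fract y := by
        rw [heq] at hx
        linarith
      have := cc_mono this
      linarith
  linarith

lemma Dfun_lower (x : ℝ) : 2 * x - 3 / 2 ≤ Dfun x := by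
  unfold Dfun
  have h1 := Int.floor_add_fract x
  have h2 := Int.fract_lt_one x
  have h3 := cc_nonneg (Int.fract x)
  linarith

lemma Dfun_upper (x : ℝ) : Dfun x ≤ 2 * x + 3 / 2 := by
  unfold Dfun
  have h1 := Int.floor_add_fract x
  have h2 := Int.fract_nonneg x
  have h3 := cc_le_one (Int.fract x)
  linarith

lemma Dfun_surj : Function.Surjective Dfun := by
  apply Dfun_cont.surjective
  · apply tendsto_atTop_mono Dfun_lower
    exact tendsto_atTop_add_const_right _ _ (tendsto_id.const_mul_atTop (by norm_num))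
  · apply tendsto_atBot_mono Dfun_upper
    exact tendsto_atBot_add_const_right _ _ (tendsto_id.const_mul_atBot (by norm_num))

/-- The lift as an order isomorphism of the real line. -/
def DI : ℝ ≃o ℝ := StrictMono.orderIsoOfSurjective Dfun Dfun_strictMono Dfun_surj

lemma DI_apply (x : ℝ) : DI x = Dfun x := rfl

lemma DI_pow_succ (k : ℕ) (x : ℝ) : (DI ^ (k + 1)) x = (DI ^ k) (DI x) := by
  rw [pow_succ]; rfl

lemma DI_pow_succ' (k : ℕ) (x : ℝ) : (DI ^ (k + 1)) x = DI ((DI ^ k) x) := by
  rw [pow_succ']; rfl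

lemma DI_pow_add_int (k : ℕ) (x : ℝ) (n : ℤ) :
    (DI ^ k) (x + n) = (DI ^ k) x + 2 ^ k * n := by
  induction k generalizing x n with
  | zero => simp
  | succ k ih =>
    rw [DI_pow_succ, DI_pow_succ, DI_apply, Dfun_add_int]
    have := ih (Dfun x) (2 * n)
    push_cast at this
    rw [this, DI_apply]
    ring

lemma DI_near {x : ℝ} {n : ℤ} (h : |x - n| ≤ 1 / 5) : DI x = 2 * n + (x - n) / 2 := by
  have hx : x = (x - n) + n := by ring
  rw [DI_apply]
  conv_lhs => rw [hx]
  rw [Dfun_add_int]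
  set y := x - n
  rw [abs_le] at h
  unfold Dfun
  by_cases hy : 0 ≤ y
  · have hf : ⌊y⌋ = 0 := by
      rw [Int.floor_eq_iff]
      push_cast
      constructor <;> linarith
    have hfr : Int.fract y = y := by
      have := Int.floor_add_fract y
      rw [hf] at this
      simpa using this
    rw [hf, hfr, cc_low h.2]
    push_cast
    ring
  · push Not at hy
    have hf : ⌊y⌋ = -1 := by
      rw [Int.floor_eq_iff]
      push_cast
      constructor <;> linarith
    have hfr : Int.fract y = y + 1 := by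
      have := Int.floor_add_fract y
      rw [hf] at this
      push_cast at this
      linarith
    rw [hf, hfr, cc_high (by linarith)]
    push_cast
    ring

lemma DI_mid {x : ℝ} {n : ℤ} (h : n + 1 / 5 ≤ x) (h' : x ≤ n + 4 / 5) :
    DI x = 2 * n + (3 * (x - n) - 1 / 2) := by
  have hx : x = (x - n) + n := by ring
  rw [DI_apply]
  conv_lhs => rw [hx]
  rw [Dfun_add_int]
  have h1 : 1 / 5 ≤ x - n := by linarith
  have h2 : x - n ≤ 4 / 5 := by linarith
  set y := x - n
  unfold Dfun
  have hf : ⌊y⌋ = 0 := by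
    rw [Int.floor_eq_iff]
    push_cast
    constructor <;> linarith
  have hfr : Int.fract y = y := by
    have := Int.floor_add_fract y
    rw [hf] at this
    simpa using this
  rw [hf, hfr, cc_mid h1 h2]
  push_cast
  ring

/-- Auxiliary function. -/
def kk (y : ℝ) : ℝ := max 0 (min ((4 - 20 * min y (1 - y)) / 3) (2 / 3))

/-- The bump function: `2/3` at distance at most `1/10` from the integers, `0` at distance at
least `1/5`, linear in between. -/
def kap (x : ℝ) : ℝ := kk (Int.fract x)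

lemma kap_cont : Continuous kap := by
  apply ContinuousOn.comp_fract''
  · unfold kk; fun_prop
  · unfold kk; norm_num

lemma kap_nonneg (x : ℝ) : 0 ≤ kap x := le_max_left _ _

lemma kap_le (x : ℝ) : kap x ≤ 2 / 3 := max_le (by norm_num) (min_le_right _ _)

lemma kap_add_int (x : ℝ) (n : ℤ) : kap (x + n) = kap x := by
  unfold kap; rw [Int.fract_add_intCast]

lemma kap_near {x : ℝ} {n : ℤ} (h : |x - n| ≤ 1 / 10) : kap x = 2 / 3 := by
  have hx : x = (x - n) + n := by ring
  conv_lhs => rw [hx]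
  rw [kap_add_int]
  set y := x - n
  rw [abs_le] at h
  unfold kap kk
  by_cases hy : 0 ≤ y
  · have hfr : Int.fract y = y := by
      rw [Int.fract_eq_self]; constructor <;> linarith
    rw [hfr, min_eq_left (a := y) (by linarith), min_eq_right (by linarith)]
    norm_num
  · push Not at hy
    have hfr : Int.fract y = y + 1 := by
      rw [Int.fract_eq_iff]
      refine ⟨by linarith, by linarith, -1, by push_cast; ring⟩
    rw [hfr, min_eq_right (a := y + 1) (by linarith), min_eq_right (by linarith)]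
    norm_num

lemma kap_ne {x : ℝ} (h : kap x ≠ 0) : ∃ n : ℤ, |x - n| < 1 / 5 := by
  have h1 : min (Int.fract x) (1 - Int.fract x) < 1 / 5 := by
    by_contra hc
    push Not at hc
    apply h
    unfold kap kk
    rw [max_eq_left]
    exact (min_le_left _ _).trans (by linarith)
  have h0 := Int.fract_nonneg x
  have h2 := Int.fract_lt_one x
  have h3 := Int.floor_add_fract x
  rcases min_lt_iff.1 h1 with h4 | h4
  · refine ⟨⌊x⌋, ?_⟩
    rw [abs_lt]; constructor <;> linarith
  · refine ⟨⌊x⌋ + 1, ?_⟩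
    push_cast
    rw [abs_lt]; constructor <;> linarith

/-- The function `psi x = ∑ 3^{-n} kap (D^n x)`. -/
def psi (x : ℝ) : ℝ := ∑' n : ℕ, (1 / 3 : ℝ) ^ n * kap ((DI ^ n) x)

lemma psi_bound (n : ℕ) (x : ℝ) : ‖(1 / 3 : ℝ) ^ n * kap ((DI ^ n) x)‖ ≤ (1 / 3 : ℝ) ^ n * (2 / 3) := by
  rw [Real.norm_eq_abs, abs_of_nonneg (mul_nonneg (by positivity) (kap_nonneg _))]
  exact mul_le_mul_of_nonneg_left (kap_le _) (by positivity)

lemma geo_summable : Summable (fun n : ℕ => (1 / 3 : ℝ) ^ n * (2 / 3)) :=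
  (summable_geometric_of_lt_one (by norm_num) (by norm_num)).mul_right _

lemma geo_sum : ∑' n : ℕ, (1 / 3 : ℝ) ^ n * (2 / 3) = 1 := by
  rw [tsum_mul_right, tsum_geometric_of_lt_one (by norm_num) (by norm_num)]
  norm_num

lemma psi_summable (x : ℝ) : Summable (fun n : ℕ => (1 / 3 : ℝ) ^ n * kap ((DI ^ n) x)) :=
  Summable.of_norm_bounded geo_summable (fun n => psi_bound n x)

lemma psi_cont : Continuous psi := by
  apply continuous_tsum _ geo_summable psi_bound
  intro n
  exact continuous_const.mul (kap_cont.comp (DI ^ n).continuous)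

lemma psi_nonneg (x : ℝ) : 0 ≤ psi x :=
  tsum_nonneg (fun n => mul_nonneg (by positivity) (kap_nonneg _))

lemma psi_le_one (x : ℝ) : psi x ≤ 1 := by
  rw [← geo_sum]
  apply Summable.tsum_le_tsum _ (psi_summable x) geo_summable
  intro n
  exact mul_le_mul_of_nonneg_left (kap_le _) (by positivity)

lemma psi_add_int (x : ℝ) (n : ℤ) : psi (x + n) = psi x := by
  unfold psi
  congr 1
  funext k
  rw [DI_pow_add_int]
  have := kap_add_int ((DI ^ k) x) (2 ^ k * n)
  push_cast at this
  rw [this]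

lemma psi_step (x : ℝ) : psi x = kap x + psi (DI x) / 3 := by
  unfold psi
  rw [(psi_summable x).tsum_eq_zero_add]
  rw [← tsum_div_const]
  congr 1
  · simp
  · congr 1
    funext n
    rw [DI_pow_succ, pow_succ]
    ring

lemma near_pow (k : ℕ) {x : ℝ} {n : ℤ} {δ : ℝ} (hδ : δ ≤ 1 / 5) (h : |x - n| ≤ δ) :
    ∃ m : ℤ, |(DI ^ k) x - m| ≤ δ := by
  induction k with
  | zero => exact ⟨n, by simpa using h⟩
  | succ k ih =>
    obtain ⟨m, hm⟩ := ih
    refine ⟨2 * m, ?_⟩
    rw [DI_pow_succ', DI_near (hm.trans hδ)]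
    push_cast
    rw [show (2 * (m : ℝ) + ((DI ^ k) x - m) / 2 - 2 * m) = ((DI ^ k) x - m) / 2 by ring,
      abs_div, abs_of_pos (by norm_num : (0 : ℝ) < 2)]
    have := abs_nonneg ((DI ^ k) x - m)
    linarith

lemma psi_near {x : ℝ} {n : ℤ} (h : |x - n| ≤ 1 / 10) : psi x = 1 := by
  rw [← geo_sum]
  unfold psi
  congr 1
  funext k
  obtain ⟨m, hm⟩ := near_pow k (by norm_num) h
  rw [kap_near hm]

lemma psi_D (x : ℝ) : psi (DI x) = min 1 (3 * psi x) := by
  have h1 := psi_step x
  by_cases hk : kap x = 0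
  · rw [hk] at h1
    have : 3 * psi x = psi (DI x) := by linarith
    rw [this, min_eq_right (psi_le_one _)]
  · obtain ⟨n, hn⟩ := kap_ne hk
    have h2 : |DI x - (2 * n : ℤ)| ≤ 1 / 10 := by
      rw [DI_near hn.le]
      push_cast
      rw [show (2 * (n : ℝ) + (x - n) / 2 - 2 * n) = (x - n) / 2 by ring,
        abs_div, abs_of_pos (by norm_num : (0 : ℝ) < 2)]
      linarith
    have h3 := psi_near h2
    rw [h3] at h1 ⊢
    have := kap_nonneg x
    rw [min_eq_left (by linarith)]

lemma psi_pow (k : ℕ) (x : ℝ) : psi ((DI ^ k) x) = min 1 (3 ^ k * psi x) := by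
  induction k with
  | zero => simp [psi_le_one]
  | succ k ih =>
    rw [DI_pow_succ', psi_D, ih]
    rcases le_total 1 ((3 : ℝ) ^ k * psi x) with h | h
    · rw [min_eq_left h, min_eq_left (by norm_num)]
      rw [pow_succ, min_eq_left (by nlinarith)]
    · rw [min_eq_right h, pow_succ]
      congr 1; ring

/-- away from the integers by at least `1/10` -/
def Far (y : ℝ) : Prop := ∀ n : ℤ, 1 / 10 ≤ |y - n|

lemma psi_far (m : ℕ) {x : ℝ} (h : Far ((DI ^ m) x)) : psi x = psi ((DI ^ m) x) / 3 ^ m := by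
  induction m generalizing x with
  | zero => simp
  | succ m ih =>
    have h' : Far ((DI ^ m) (DI x)) := by rwa [← DI_pow_succ]
    have h1 := ih h'
    have hk : kap x = 0 := by
      by_contra hne
      obtain ⟨n, hn⟩ := kap_ne hne
      have h2 : |DI x - (2 * n : ℤ)| ≤ |x - n| / 2 := by
        rw [DI_near hn.le]
        push_cast
        rw [show (2 * (n : ℝ) + (x - n) / 2 - 2 * n) = (x - n) / 2 by ring,
          abs_div, abs_of_pos (by norm_num : (0 : ℝ) < 2)]
      obtain ⟨j, hj⟩ := near_pow m (by linarith) h2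
      have := h' j
      linarith
    rw [psi_step, hk, h1, DI_pow_succ, pow_succ]
    field_simp
    ring

lemma psi_lt_one {y : ℝ} (h : ∀ n : ℤ, 1 / 10 < |y - n|) : psi y < 1 := by
  have h1 := psi_step y
  have h2 := psi_le_one (DI y)
  have h3 : kap y < 2 / 3 := by
    unfold kap kk
    apply max_lt (by norm_num)
    apply lt_of_le_of_lt (min_le_left _ _)
    have h4 : 1 / 10 < min (Int.fract y) (1 - Int.fract y) := by
      have h5 := h ⌊y⌋
      have h6 := h (⌊y⌋ + 1)
      have h0 := Int.fract_nonneg y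
      have h2 := Int.fract_lt_one y
      have h3 := Int.floor_add_fract y
      push_cast at h6
      rw [show y - ⌊y⌋ = Int.fract y by linarith, abs_of_nonneg h0] at h5
      rw [show y - (⌊y⌋ + 1) = -(1 - Int.fract y) by linarith, abs_neg,
        abs_of_nonneg (by linarith)] at h6
      exact lt_min h5 h6
    linarith
  linarith

/-- The lift of the deck transformation: `D^k (R x) = D^k x + j`. -/
def R (k : ℕ) (j : ℤ) : ℝ ≃o ℝ := (DI ^ k)⁻¹ * OrderIso.addRight (j : ℝ) * DI ^ k

lemma D_R (k : ℕ) (j : ℤ) (x : ℝ) : (DI ^ k) (R k j x) = (DI ^ k) x + j := by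
  show (DI ^ k) ((DI ^ k)⁻¹ ((DI ^ k) x + j)) = _
  exact (DI ^ k).apply_symm_apply _

lemma R_ext {k : ℕ} {x y : ℝ} (h : (DI ^ k) x = (DI ^ k) y) : x = y := (DI ^ k).injective h

lemma R_R (k : ℕ) (i j : ℤ) (x : ℝ) : R k i (R k j x) = R k (i + j) x := by
  apply R_ext (k := k)
  rw [D_R, D_R, D_R]; push_cast; ring

lemma R_zero (k : ℕ) (x : ℝ) : R k 0 x = x := by
  apply R_ext (k := k)
  rw [D_R]; simp

lemma R_add_int (k : ℕ) (j : ℤ) (x : ℝ) (n : ℤ) : R k j (x + n) = R k j x + n := by
  apply R_ext (k := k)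
  rw [D_R, DI_pow_add_int, DI_pow_add_int, D_R]; ring

lemma R_full (k : ℕ) (x : ℝ) : R k (2 ^ k) x = x + 1 := by
  apply R_ext (k := k)
  have := DI_pow_add_int k x 1
  rw [D_R]
  push_cast at this ⊢
  rw [this]; ring

lemma R_succ (k : ℕ) (j : ℤ) (x : ℝ) : R (k + 1) (2 * j) x = R k j x := by
  apply R_ext (k := k + 1)
  rw [D_R, DI_pow_succ', DI_pow_succ', D_R, DI_apply, DI_apply, Dfun_add_int]
  push_cast; ring

lemma D_R_ge {k m : ℕ} (h : k ≤ m) (j : ℤ) (x : ℝ) :
    (DI ^ m) (R k j x) = (DI ^ m) x + 2 ^ (m - k) * j := by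
  obtain ⟨l, rfl⟩ := Nat.exists_eq_add_of_le h
  have hl : k + l - k = l := by omega
  rw [hl]
  have e : ∀ y : ℝ, (DI ^ (k + l)) y = (DI ^ l) ((DI ^ k) y) := by
    intro y
    rw [add_comm, pow_add]; rfl
  rw [e, e, D_R, DI_pow_add_int]

lemma R_cont (k : ℕ) (j : ℤ) : Continuous (R k j) := (R k j).continuous

lemma psi_R_lt {k : ℕ} {j : ℤ} {x : ℝ} (h : 3 ^ k * psi x < 1) : psi (R k j x) = psi x := by
  have h1 := psi_pow k x
  have h2 := psi_pow k (R k j x)
  rw [D_R, psi_add_int, h1, min_eq_right h.le] at h2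
  rcases min_choice 1 ((3 : ℝ) ^ k * psi (R k j x)) with h3 | h3
  · rw [h3] at h2
    linarith
  · rw [h3] at h2
    have : (3 : ℝ) ^ k ≠ 0 := by positivity
    exact (mul_left_cancel₀ this h2).symm

/-- The radial factor. -/
def q (k : ℕ) (j : ℤ) (x : ℝ) : ℝ := max (3 ^ k * psi x) 1 / max (3 ^ k * psi (R k j x)) 1

lemma q_pos (k : ℕ) (j : ℤ) (x : ℝ) : 0 < q k j x := by
  unfold q
  have h1 : 0 < max (3 ^ k * psi x) 1 := lt_max_of_lt_right one_pos
  have h2 : 0 < max (3 ^ k * psi (R k j x)) 1 := lt_max_of_lt_right one_pos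
  positivity

lemma q_cont (k : ℕ) (j : ℤ) : Continuous (q k j) := by
  unfold q
  apply Continuous.div
  · exact (continuous_const.mul psi_cont).max continuous_const
  · exact (continuous_const.mul (psi_cont.comp (R_cont k j))).max continuous_const
  · intro x
    have h2 : 0 < max (3 ^ k * psi (R k j x)) 1 := lt_max_of_lt_right one_pos
    exact h2.ne'

lemma q_add_int (k : ℕ) (j : ℤ) (x : ℝ) (n : ℤ) : q k j (x + n) = q k j x := by
  unfold q
  rw [R_add_int, psi_add_int, psi_add_int]

lemma q_psi (k : ℕ) (j : ℤ) (x : ℝ) : q k j x * psi (R k j x) = psi x := by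
  have h3 : (3 : ℝ) ^ k ≠ 0 := by positivity
  unfold q
  by_cases h : 3 ^ k * psi x < 1
  · rw [psi_R_lt h, div_self, one_mul]
    have h2 : 0 < max (3 ^ k * psi x) 1 := lt_max_of_lt_right one_pos
    exact h2.ne'
  · have h' : ¬ (3 ^ k * psi (R k j x) < 1) := by
      intro hc
      have := psi_R_lt (j := -j) hc
      rw [R_R, neg_add_cancel, R_zero] at this
      rw [← this] at hc
      exact h hc
    push Not at h h'
    rw [max_eq_left h, max_eq_left h']
    have : psi (R k j x) ≠ 0 := by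
      intro h0; rw [h0] at h'; norm_num at h'
    field_simp

lemma q_mul (k : ℕ) (i j : ℤ) (x : ℝ) : q k j x * q k i (R k j x) = q k (i + j) x := by
  unfold q
  rw [R_R]
  have h2 : max (3 ^ k * psi (R k j x)) 1 ≠ 0 :=
    (lt_max_of_lt_right one_pos : (0 : ℝ) < max (3 ^ k * psi (R k j x)) 1).ne'
  field_simp

lemma q_zero (k : ℕ) (x : ℝ) : q k 0 x = 1 := by
  unfold q
  rw [R_zero, div_self]
  exact (lt_max_of_lt_right one_pos : (0 : ℝ) < max (3 ^ k * psi x) 1).ne'

lemma q_succ (k : ℕ) (j : ℤ) (x : ℝ) : q (k + 1) (2 * j) x = q k j x := by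
  have e := q_psi (k + 1) (2 * j) x
  have e' := q_psi k j x
  rw [R_succ] at e
  by_cases hp : psi (R k j x) = 0
  · have hx : psi x = 0 := by rw [← e', hp, mul_zero]
    unfold q
    rw [R_succ, hp, hx]
    norm_num
  · exact mul_right_cancel₀ hp (e.trans e'.symm)

end

end Pool.Agent.V11131.Mod
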