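import Pool.Agent.V11131.Mod2

/-!
The homeomorphisms of the plane and the surface.
-/

namespace Pool.Agent.V11131.Mod

open Set Filter Topology

noncomputable section

/-- `E x = exp (2 π i x)`. -/
def E (x : ℝ) : ℂ := Complex.exp (((2 * Real.pi * x : ℝ) : ℂ) * Complex.I)

lemma norm_E (x : ℝ) : ‖E x‖ = 1 := by unfold E; exact Complex.norm_exp_ofReal_mul_I _

lemma E_ne (x : ℝ) : E x ≠ 0 := Complex.exp_ne_zero _

lemma E_add (x y : ℝ) : E (x + y) = E x * E y := by
  unfold E
  rw [← Complex.exp_add]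
  congr 1
  push_cast
  ring

lemma E_zero : E 0 = 1 := by unfold E; simp

lemma E_int (n : ℤ) : E n = 1 := by
  unfold E
  have : ((2 * Real.pi * (n : ℝ) : ℝ) : ℂ) * Complex.I = n * (2 * Real.pi * Complex.I) := by
    push_cast; ring
  rw [this, Complex.exp_int_mul_two_pi_mul_I]

lemma E_add_int (x : ℝ) (n : ℤ) : E (x + n) = E x := by rw [E_add, E_int, mul_one]

lemma E_eq {x y : ℝ} (h : E x = E y) : ∃ n : ℤ, x = y + n := by
  unfold E at h
  rw [Complex.exp_eq_exp_iff_exists_int] at h
  obtain ⟨n, hn⟩ := h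
  refine ⟨n, ?_⟩
  have h1 : (((2 * Real.pi * x : ℝ) : ℂ) - ((2 * Real.pi * (y + n) : ℝ) : ℂ)) * Complex.I = 0 := by
    rw [sub_mul, hn]
    push_cast
    ring
  rcases mul_eq_zero.1 h1 with h2 | h2
  · rw [sub_eq_zero] at h2
    have h3 : 2 * Real.pi * x = 2 * Real.pi * (y + n) := by exact_mod_cast h2
    exact mul_left_cancel₀ (by positivity) h3
  · exact absurd h2 Complex.I_ne_zero

lemma E_cont : Continuous E := by unfold E; fun_prop

/-- The angle, in full turns. -/
def ang (z : ℂ) : ℝ := Complex.arg z / (2 * Real.pi)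

lemma polar (z : ℂ) : z = (‖z‖ : ℂ) * E (ang z) := by
  have h := Complex.norm_mul_exp_arg_mul_I z
  conv_lhs => rw [← h]
  unfold E ang
  congr 3
  have : 2 * Real.pi * (z.arg / (2 * Real.pi)) = z.arg := by
    field_simp
  rw [this]

lemma norm_polar {t : ℝ} (ht : 0 ≤ t) (x : ℝ) : ‖(t : ℂ) * E x‖ = t := by
  rw [norm_mul, norm_E, mul_one, Complex.norm_real, Real.norm_of_nonneg ht]

lemma ang_polar {t : ℝ} (ht : 0 < t) (x : ℝ) : ∃ n : ℤ, ang ((t : ℂ) * E x) = x + n := by
  apply E_eq
  have h := polar ((t : ℂ) * E x)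
  rw [norm_polar ht.le] at h
  exact (mul_left_cancel₀ (by exact_mod_cast ht.ne') h).symm

lemma ang_cont {z : ℂ} (hz : z ∈ Complex.slitPlane) : ContinuousAt ang z :=
  (Complex.continuousAt_arg hz).div_const _

lemma polar_unique {t s x y : ℝ} (ht : 0 < t) (hs : 0 ≤ s)
    (h : (t : ℂ) * E x = (s : ℂ) * E y) : t = s ∧ ∃ n : ℤ, x = y + n := by
  have h1 : t = s := by
    have := congrArg norm h
    rwa [norm_polar ht.le, norm_polar hs] at this
  subst h1
  exact ⟨rfl, E_eq (mul_left_cancel₀ (by exact_mod_cast ht.ne') h)⟩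

/-- A periodic continuous function of the angle is continuous away from `0`. -/
lemma periodic_ang {Y : Type*} [TopologicalSpace Y] {Q : ℝ → Y} (hQ : Continuous Q)
    (hp : ∀ x (n : ℤ), Q (x + n) = Q x) {z : ℂ} (hz : z ≠ 0) :
    ContinuousAt (fun z => Q (ang z)) z := by
  by_cases hs : z ∈ Complex.slitPlane
  · exact hQ.continuousAt.comp (ang_cont hs)
  · have hneg : -z ∈ Complex.slitPlane := by
      rw [Complex.mem_slitPlane_iff] at hs ⊢
      push Not at hs
      left
      have h1 : z.re ≠ 0 := by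
        intro h
        exact hz (Complex.ext h hs.2)
      have := lt_of_le_of_ne hs.1 h1
      simpa using this
    have key : ∀ᶠ w in 𝓝 z, Q (ang w) = Q (ang (-w) + 1 / 2) := by
      filter_upwards [isOpen_ne.mem_nhds hz] with w hw
      have h1 : E (ang w) = E (ang (-w) + 1 / 2) := by
        have e1 := polar w
        have e2 := polar (-w)
        rw [norm_neg] at e2
        have e3 : E (1 / 2) = -1 := by
          unfold E
          rw [show ((2 * Real.pi * (1 / 2) : ℝ) : ℂ) * Complex.I = Real.pi * Complex.I by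
            push_cast; ring]
          exact Complex.exp_pi_mul_I
        have hw' : (‖w‖ : ℂ) ≠ 0 := by
          simpa using hw
        apply mul_left_cancel₀ hw'
        rw [E_add, e3, ← e1]
        rw [mul_neg_one, mul_neg, ← e2, neg_neg]
      obtain ⟨n, hn⟩ := E_eq h1
      rw [hn, hp]
    have h2 : ContinuousAt (fun w => Q (ang (-w) + 1 / 2)) z := by
      apply hQ.continuousAt.comp
      apply ContinuousAt.add _ continuousAt_const
      exact ContinuousAt.comp (f := fun w : ℂ => -w) (ang_cont hneg) continuous_neg.continuousAt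
    exact h2.congr (key.mono fun w hw => hw.symm)

/-- The homogeneous extension to the plane. -/
def rr (k : ℕ) (j : ℤ) (z : ℂ) : ℂ := ((‖z‖ * q k j (ang z) : ℝ) : ℂ) * E (R k j (ang z))

lemma rr_polar (k : ℕ) (j : ℤ) {t : ℝ} (ht : 0 ≤ t) (x : ℝ) :
    rr k j ((t : ℂ) * E x) = ((t * q k j x : ℝ) : ℂ) * E (R k j x) := by
  unfold rr
  rw [norm_polar ht]
  rcases ht.eq_or_lt with h | h
  · rw [← h]; simp
  · obtain ⟨n, hn⟩ := ang_polar h x
    rw [hn, q_add_int, R_add_int, E_add_int]

lemma q_le (k : ℕ) (j : ℤ) (x : ℝ) : q k j x ≤ 3 ^ k := by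
  unfold q
  have h2 : (1 : ℝ) ≤ max (3 ^ k * psi (R k j x)) 1 := le_max_right _ _
  rw [div_le_iff₀ (by linarith)]
  have h3 : (1 : ℝ) ≤ 3 ^ k := one_le_pow₀ (by norm_num)
  have h1 : max (3 ^ k * psi x) 1 ≤ 3 ^ k := by
    apply max_le _ h3
    have := psi_le_one x
    nlinarith
  nlinarith

lemma rr_cont (k : ℕ) (j : ℤ) : Continuous (rr k j) := by
  rw [continuous_iff_continuousAt]
  intro z
  by_cases hz : z = 0
  · subst hz
    have h0 : rr k j 0 = 0 := by unfold rr; simp
    rw [ContinuousAt, h0, tendsto_zero_iff_norm_tendsto_zero]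
    apply squeeze_zero (g := fun z : ℂ => ‖z‖ * 3 ^ k) (fun _ => norm_nonneg _)
    · intro z
      unfold rr
      rw [norm_polar (mul_nonneg (norm_nonneg _) (q_pos _ _ _).le)]
      exact mul_le_mul_of_nonneg_left (q_le _ _ _) (norm_nonneg _)
    · have : Tendsto (fun z : ℂ => ‖z‖ * 3 ^ k) (𝓝 0) (𝓝 (‖(0 : ℂ)‖ * 3 ^ k)) := by
        apply Continuous.tendsto; fun_prop
      simpa using this
  · have h1 : rr k j = fun z => (‖z‖ : ℂ) * ((fun x => ((q k j x : ℝ) : ℂ) * E (R k j x)) (ang z)) := by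
      funext z
      unfold rr
      push_cast; ring
    rw [h1]
    apply ContinuousAt.mul
    · exact (Complex.continuous_ofReal.comp continuous_norm).continuousAt
    · refine periodic_ang (Q := fun x => ((q k j x : ℝ) : ℂ) * E (R k j x)) ?_ ?_ hz
      · exact (Complex.continuous_ofReal.comp (q_cont k j)).mul (E_cont.comp (R_cont k j))
      · intro x n
        rw [q_add_int, R_add_int, E_add_int]

lemma rr_rr (k : ℕ) (i j : ℤ) (z : ℂ) : rr k i (rr k j z) = rr k (i + j) z := by
  rw [polar z]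
  rw [rr_polar k j (norm_nonneg _), rr_polar k (i + j) (norm_nonneg _),
    rr_polar k i (mul_nonneg (norm_nonneg _) (q_pos _ _ _).le)]
  rw [R_R, mul_assoc, q_mul]

lemma rr_zero (k : ℕ) (z : ℂ) : rr k 0 z = z := by
  conv_lhs => rw [polar z]
  rw [rr_polar k 0 (norm_nonneg _), q_zero, R_zero, mul_one]
  exact (polar z).symm

lemma rr_full (k : ℕ) (z : ℂ) : rr k (2 ^ k) z = z := by
  conv_lhs => rw [polar z]
  have hq : q k (2 ^ k) (ang z) = 1 := by
    have h := q_psi k (2 ^ k) (ang z)
    unfold q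
    rw [R_full]
    have : psi (ang z + 1) = psi (ang z) := by exact_mod_cast psi_add_int (ang z) 1
    rw [this, div_self]
    exact (lt_max_of_lt_right one_pos : (0 : ℝ) < max (3 ^ k * psi (ang z)) 1).ne'
  rw [rr_polar k _ (norm_nonneg _), hq, R_full, mul_one]
  have : E (ang z + 1) = E (ang z) := by exact_mod_cast E_add_int (ang z) 1
  rw [this]
  exact (polar z).symm

lemma rr_succ (k : ℕ) (j : ℤ) (z : ℂ) : rr (k + 1) (2 * j) z = rr k j z := by
  unfold rr
  rw [q_succ, R_succ]

/-- The surface. -/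
def SS : Set ℂ := {z | ‖z‖ * psi (ang z) ≤ 1}

lemma polar_mem_SS {t : ℝ} (ht : 0 ≤ t) (x : ℝ) : (t : ℂ) * E x ∈ SS ↔ t * psi x ≤ 1 := by
  show ‖_‖ * psi (ang _) ≤ 1 ↔ _
  rw [norm_polar ht]
  rcases ht.eq_or_lt with h | h
  · rw [← h]; simp
  · obtain ⟨n, hn⟩ := ang_polar h x
    rw [hn, psi_add_int]

lemma rr_mem_SS (k : ℕ) (j : ℤ) (z : ℂ) : rr k j z ∈ SS ↔ z ∈ SS := by
  rw [polar z, rr_polar k j (norm_nonneg _),
    polar_mem_SS (mul_nonneg (norm_nonneg _) (q_pos _ _ _).le), polar_mem_SS (norm_nonneg _),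
    mul_assoc, q_psi]

/-- The isotopy of the plane from the identity to `rr k j`. -/
def iso (k : ℕ) (j : ℤ) (s : ℝ) (z : ℂ) : ℂ :=
  ((‖z‖ * (q k j (ang z)) ^ s : ℝ) : ℂ) * E ((1 - s) * ang z + s * R k j (ang z))

lemma iso_polar (k : ℕ) (j : ℤ) (s : ℝ) {t : ℝ} (ht : 0 ≤ t) (x : ℝ) :
    iso k j s ((t : ℂ) * E x) = ((t * (q k j x) ^ s : ℝ) : ℂ) * E ((1 - s) * x + s * R k j x) := by
  unfold iso
  rw [norm_polar ht]
  rcases ht.eq_or_lt with h | h
  · rw [← h]; simp
  · obtain ⟨n, hn⟩ := ang_polar h x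
    rw [hn, q_add_int, R_add_int]
    rw [show (1 - s) * (x + n) + s * (R k j x + n) = ((1 - s) * x + s * R k j x) + n by ring,
      E_add_int]

lemma iso_zero (k : ℕ) (j : ℤ) (z : ℂ) : iso k j 0 z = z := by
  unfold iso
  simp only [Real.rpow_zero, mul_one, sub_zero, one_mul, zero_mul, add_zero]
  exact (polar z).symm

lemma iso_one (k : ℕ) (j : ℤ) (z : ℂ) : iso k j 1 z = rr k j z := by
  unfold iso rr
  simp only [Real.rpow_one, sub_self, zero_mul, one_mul, zero_add]

lemma iso_inj (k : ℕ) (j : ℤ) {s : ℝ} (h0 : 0 ≤ s) (h1 : s ≤ 1) :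
    Function.Injective (iso k j s) := by
  have hmono : StrictMono (fun x => (1 - s) * x + s * R k j x) := by
    intro x y h
    have h2 : R k j x < R k j y := (R k j).strictMono h
    rcases h0.eq_or_lt with h3 | h3
    · simp only [← h3]; simpa using h
    · have : (1 - s) * x ≤ (1 - s) * y := mul_le_mul_of_nonneg_left h.le (by linarith)
      have : s * R k j x < s * R k j y := mul_lt_mul_of_pos_left h2 h3
      show (1 - s) * x + s * R k j x < (1 - s) * y + s * R k j y
      linarith
  intro z w h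
  have hz := polar z
  have hw := polar w
  rw [hz, hw, iso_polar k j s (norm_nonneg _), iso_polar k j s (norm_nonneg _)] at h
  have qz : 0 < (q k j (ang z)) ^ s := Real.rpow_pos_of_pos (q_pos _ _ _) _
  have qw : 0 < (q k j (ang w)) ^ s := Real.rpow_pos_of_pos (q_pos _ _ _) _
  by_cases hz0 : ‖z‖ = 0
  · have h3 := congrArg norm h
    rw [norm_polar (mul_nonneg (norm_nonneg _) qz.le),
      norm_polar (mul_nonneg (norm_nonneg _) qw.le), hz0, zero_mul] at h3
    have h4 : ‖w‖ = 0 := by
      rcases mul_eq_zero.1 h3.symm with h5 | h5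
      · exact h5
      · exact absurd h5 qw.ne'
    rw [norm_eq_zero] at hz0 h4
    rw [hz0, h4]
  · have hzp : 0 < ‖z‖ := lt_of_le_of_ne (norm_nonneg _) (Ne.symm hz0)
    obtain ⟨e1, n, e2⟩ := polar_unique (mul_pos hzp qz) (mul_nonneg (norm_nonneg _) qw.le) h
    have e3 : (fun x => (1 - s) * x + s * R k j x) (ang z) =
        (fun x => (1 - s) * x + s * R k j x) (ang w + n) := by
      simp only
      rw [R_add_int, e2]; ring
    have e4 := hmono.injective e3
    rw [e4, q_add_int] at e1
    have e5 := mul_right_cancel₀ qw.ne' e1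
    rw [hz, hw, e5, e4, E_add_int]

lemma iso_cont (k : ℕ) (j : ℤ) : Continuous (fun p : unitInterval × ℂ => iso k j p.1 p.2) := by
  rw [continuous_iff_continuousAt]
  rintro ⟨s, z⟩
  by_cases hz : z = 0
  · subst hz
    have h0 : iso k j (s : ℝ) 0 = 0 := by unfold iso; simp
    rw [ContinuousAt, h0, tendsto_zero_iff_norm_tendsto_zero]
    apply squeeze_zero (g := fun p : unitInterval × ℂ => ‖p.2‖ * 3 ^ k) (fun _ => norm_nonneg _)
    · rintro ⟨s, z⟩
      show ‖iso k j s z‖ ≤ _
      unfold iso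
      rw [norm_polar (mul_nonneg (norm_nonneg _) (Real.rpow_pos_of_pos (q_pos _ _ _) _).le)]
      apply mul_le_mul_of_nonneg_left _ (norm_nonneg _)
      calc (q k j (ang z)) ^ (s : ℝ) ≤ ((3 : ℝ) ^ k) ^ (s : ℝ) :=
            Real.rpow_le_rpow (q_pos _ _ _).le (q_le _ _ _) s.2.1
        _ ≤ ((3 : ℝ) ^ k) ^ (1 : ℝ) :=
            Real.rpow_le_rpow_of_exponent_le (one_le_pow₀ (by norm_num)) s.2.2
        _ = 3 ^ k := Real.rpow_one _
    · have : Tendsto (fun p : unitInterval × ℂ => ‖p.2‖ * 3 ^ k) (𝓝 (s, 0))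
          (𝓝 (‖(0 : ℂ)‖ * 3 ^ k)) := by
        apply Continuous.tendsto' _ _ _ rfl
        fun_prop
      simpa using this
  · have hQ : Continuous (fun x : ℝ => (⟨fun s : unitInterval =>
        (((q k j x) ^ (s : ℝ) : ℝ) : ℂ) * E ((s : ℝ) * (R k j x - x)), by
          apply Continuous.mul
          · apply Complex.continuous_ofReal.comp
            exact Continuous.rpow continuous_const continuous_subtype_val
              (fun _ => Or.inl (q_pos _ _ _).ne')
          · exact E_cont.comp (continuous_subtype_val.mul continuous_const)⟩ :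
          C(unitInterval, ℂ))) := by
      apply ContinuousMap.continuous_of_continuous_uncurry
      show Continuous (fun p : ℝ × unitInterval => (((q k j p.1) ^ (p.2 : ℝ) : ℝ) : ℂ) *
        E ((p.2 : ℝ) * (R k j p.1 - p.1)))
      apply Continuous.mul
      · apply Complex.continuous_ofReal.comp
        exact Continuous.rpow ((q_cont k j).comp continuous_fst)
          (continuous_subtype_val.comp continuous_snd) (fun _ => Or.inl (q_pos _ _ _).ne')
      · exact E_cont.comp ((continuous_subtype_val.comp continuous_snd).mul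
          (((R_cont k j).comp continuous_fst).sub continuous_fst))
    have hc := periodic_ang hQ (by
      intro x n
      ext s
      show (((q k j (x + n)) ^ (s : ℝ) : ℝ) : ℂ) * E ((s : ℝ) * (R k j (x + n) - (x + n))) = _
      rw [q_add_int, R_add_int]
      rw [show R k j x + n - (x + n) = R k j x - x by ring]
      rfl) hz
    have hc2 : ContinuousAt (fun p : unitInterval × ℂ =>
        (((q k j (ang p.2)) ^ (p.1 : ℝ) : ℝ) : ℂ) * E ((p.1 : ℝ) * (R k j (ang p.2) - ang p.2)))
        (s, z) := by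
      have h3 : ContinuousAt (fun p : unitInterval × ℂ => ((⟨fun s : unitInterval =>
        (((q k j (ang p.2)) ^ (s : ℝ) : ℝ) : ℂ) * E ((s : ℝ) * (R k j (ang p.2) - ang p.2)), by
          apply Continuous.mul
          · apply Complex.continuous_ofReal.comp
            exact Continuous.rpow continuous_const continuous_subtype_val
              (fun _ => Or.inl (q_pos _ _ _).ne')
          · exact E_cont.comp (continuous_subtype_val.mul continuous_const)⟩ :
          C(unitInterval, ℂ)), p.1)) (s, z) := by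
        apply ContinuousAt.prodMk
        · exact ContinuousAt.comp (x := ((s, z) : unitInterval × ℂ))
            (f := fun p : unitInterval × ℂ => p.2) hc continuousAt_snd
        · exact continuousAt_fst
      have h4 : Continuous (fun p : C(unitInterval, ℂ) × unitInterval => p.1 p.2) :=
        ContinuousEval.continuous_eval
      exact h4.continuousAt.comp h3
    have h5 : (fun p : unitInterval × ℂ => iso k j p.1 p.2) = fun p => p.2 *
        ((((q k j (ang p.2)) ^ (p.1 : ℝ) : ℝ) : ℂ) *
          E ((p.1 : ℝ) * (R k j (ang p.2) - ang p.2))) := by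
      funext p
      have hp := polar p.2
      unfold iso
      rw [show (1 - (p.1 : ℝ)) * ang p.2 + p.1 * R k j (ang p.2) =
        ang p.2 + p.1 * (R k j (ang p.2) - ang p.2) by ring, E_add, Complex.ofReal_mul]
      linear_combination (-(((q k j (ang p.2)) ^ (p.1 : ℝ) : ℝ) : ℂ) *
        E ((p.1 : ℝ) * (R k j (ang p.2) - ang p.2))) * hp
    rw [h5]
    exact continuousAt_snd.mul hc2

end

end Pool.Agent.V11131.Mod
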