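import Pool.Agent.V11131.Mod1
import Pool.Agent.V11131.Mod3

/-!
The polygons and the tree surface.
-/

namespace Pool.Agent.V11131.Mod

open Set Filter Topology

noncomputable section

lemma sq_eq_one_cases {X : ℝ} (h : X ^ 2 = 1) : X = 1 ∨ X = -1 := by
  have : (X - 1) * (X + 1) = 0 := by nlinarith
  rcases mul_eq_zero.1 this with h | h
  · left; linarith
  · right; linarith

/-- A lens between two graphs meeting at the end points is a closed disc. -/
lemma lens_disc {α β c : ℝ} (hαβ : α < β) (h1 : β - α < 1) (hc : 0 < c) {u : ℝ → ℝ}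
    (hu : Continuous u) (uα : u α = c) (uβ : u β = c) (hlt : ∀ x, α < x → x < β → c < u x) :
    ∃ f : Metric.closedBall (0 : ℂ) 1 → ℂ, Continuous f ∧ Function.Injective f ∧
      Set.range f = {z | ∃ t x : ℝ, z = t * E x ∧ α ≤ x ∧ x ≤ β ∧ c ≤ t ∧ t ≤ u x} := by
  have hd : 0 < β - α := by linarith
  set xx : ℝ → ℝ := fun X => α + (β - α) * ((1 + X) / 2) with hxx
  set g : ℝ → ℝ := fun X => u (xx X) - c with hg
  have xxc : Continuous xx := by fun_prop
  have gc : Continuous g := (hu.comp xxc).sub continuous_const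
  have g1 : g 1 = 0 := by
    simp only [hg, hxx]
    rw [show α + (β - α) * ((1 + 1) / 2) = β by ring, uβ, sub_self]
  have gm1 : g (-1) = 0 := by
    simp only [hg, hxx]
    rw [show α + (β - α) * ((1 + -1) / 2) = α by ring, uα, sub_self]
  have gpos : ∀ X, -1 < X → X < 1 → 0 < g X := by
    intro X hX hX'
    have := hlt (xx X) (by simp only [hxx]; nlinarith) (by simp only [hxx]; nlinarith)
    simp only [hg]; linarith
  have key : ∀ w : Metric.closedBall (0 : ℂ) 1, (w : ℂ).re ^ 2 + (w : ℂ).im ^ 2 ≤ 1 := by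
    intro w
    have h := w.2
    rw [mem_closedBall_zero_iff] at h
    have h2 : ‖(w : ℂ)‖ ^ 2 ≤ 1 := by nlinarith [norm_nonneg (w : ℂ)]
    rw [← Complex.normSq_eq_norm_sq, Complex.normSq_apply] at h2
    nlinarith
  have hre : ∀ w : Metric.closedBall (0 : ℂ) 1, -1 ≤ (w : ℂ).re ∧ (w : ℂ).re ≤ 1 := by
    intro w
    have := key w
    constructor <;> nlinarith [sq_nonneg (w : ℂ).im]
  have him : ∀ w : Metric.closedBall (0 : ℂ) 1,
      |(w : ℂ).im| ≤ Real.sqrt (1 - (w : ℂ).re ^ 2) := by
    intro w
    apply Real.abs_le_sqrt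
    have := key w
    linarith
  set ρ : ℂ → ℝ := fun w => w.im / Real.sqrt (1 - w.re ^ 2) with hρ
  have hρ1 : ∀ w : Metric.closedBall (0 : ℂ) 1, |ρ w| ≤ 1 := by
    intro w
    simp only [hρ]
    rw [abs_div, abs_of_nonneg (Real.sqrt_nonneg _)]
    apply div_le_one_of_le₀ (him w) (Real.sqrt_nonneg _)
  have g0 : ∀ X, -1 ≤ X → X ≤ 1 → 0 ≤ g X := by
    intro X hX hX'
    rcases hX.eq_or_lt with h | h
    · rw [← h, gm1]
    rcases hX'.eq_or_lt with h' | h'
    · rw [h', g1]
    exact (gpos X h h').le
  set T : Metric.closedBall (0 : ℂ) 1 → ℝ := fun w => c + g (w : ℂ).re * ((1 + ρ w) / 2) with hT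
  have rec_ : Continuous (fun w : Metric.closedBall (0 : ℂ) 1 => (w : ℂ).re) := by fun_prop
  have Tc : Continuous T := by
    have h2 : Continuous (fun w : Metric.closedBall (0 : ℂ) 1 => g (w : ℂ).re * ρ w) := by
      rw [continuous_iff_continuousAt]
      intro w
      by_cases hw : (w : ℂ).re ^ 2 < 1
      · apply ContinuousAt.mul
        · exact (gc.comp rec_).continuousAt
        · simp only [hρ]
          apply ContinuousAt.div
          · fun_prop
          · fun_prop
          · have : 0 < 1 - (w : ℂ).re ^ 2 := by linarith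
            exact (Real.sqrt_pos.2 this).ne'
      · have hw1 : (w : ℂ).re = 1 ∨ (w : ℂ).re = -1 := by
          have := key w
          have h3 : (w : ℂ).re ^ 2 = 1 := by nlinarith [sq_nonneg (w : ℂ).im]
          exact sq_eq_one_cases h3
        have hg0 : g (w : ℂ).re = 0 := by
          rcases hw1 with h | h <;> rw [h]
          · exact g1
          · exact gm1
        rw [ContinuousAt, hg0, zero_mul, tendsto_zero_iff_norm_tendsto_zero]
        apply squeeze_zero (g := fun w : Metric.closedBall (0 : ℂ) 1 => |g (w : ℂ).re|)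
          (fun _ => norm_nonneg _)
        · intro w
          rw [norm_mul]
          have := hρ1 w
          rw [Real.norm_eq_abs, Real.norm_eq_abs]
          nlinarith [abs_nonneg (g (w : ℂ).re)]
        · have : Tendsto (fun w : Metric.closedBall (0 : ℂ) 1 => |g (w : ℂ).re|) (𝓝 w)
              (𝓝 |g (w : ℂ).re|) := ((gc.comp rec_).abs).tendsto w
          rwa [hg0, abs_zero] at this
    have h3 : T = fun w : Metric.closedBall (0 : ℂ) 1 =>
        c + (g (w : ℂ).re + g (w : ℂ).re * ρ w) / 2 := by
      funext w; simp only [hT]; ring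
    rw [h3]
    exact continuous_const.add (((gc.comp rec_).add h2).div_const _)
  have Tge : ∀ w, c ≤ T w := by
    intro w
    have h2 := g0 _ (hre w).1 (hre w).2
    have h3 := (abs_le.1 (hρ1 w)).1
    have : 0 ≤ g (w : ℂ).re * ((1 + ρ w) / 2) := mul_nonneg h2 (by linarith)
    simp only [hT]; linarith
  have Tle : ∀ w, T w ≤ u (xx (w : ℂ).re) := by
    intro w
    have h2 := g0 _ (hre w).1 (hre w).2
    have h3 := (abs_le.1 (hρ1 w)).2
    have : g (w : ℂ).re * ((1 + ρ w) / 2) ≤ g (w : ℂ).re * 1 :=
      mul_le_mul_of_nonneg_left (by linarith) h2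
    have e : g (w : ℂ).re = u (xx (w : ℂ).re) - c := rfl
    simp only [hT]
    rw [e] at this ⊢
    linarith
  refine ⟨fun w => (T w : ℂ) * E (xx (w : ℂ).re), ?_, ?_, ?_⟩
  · exact (Complex.continuous_ofReal.comp Tc).mul (E_cont.comp (xxc.comp rec_))
  · intro w w' h
    simp only at h
    obtain ⟨e1, n, e2⟩ := polar_unique (lt_of_lt_of_le hc (Tge w)) (hc.le.trans (Tge w')) h
    have b1 := hre w
    have b2 := hre w'
    have hX : (w : ℂ).re = (w' : ℂ).re := by
      simp only [hxx] at e2
      have hn : (n : ℝ) = (β - α) * (((w : ℂ).re - (w' : ℂ).re) / 2) := by linarith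
      have hn1 : (n : ℝ) < 1 := by rw [hn]; nlinarith
      have hn2 : (-1 : ℝ) < n := by rw [hn]; nlinarith
      have hn3 : n = 0 := by
        have a1 : n < 1 := by exact_mod_cast hn1
        have a2 : -1 < n := by exact_mod_cast hn2
        omega
      rw [hn3] at hn
      push_cast at hn
      have : ((w : ℂ).re - (w' : ℂ).re) / 2 = 0 := by
        rcases mul_eq_zero.1 hn.symm with h' | h'
        · linarith
        · exact h'
      linarith
    apply Subtype.ext
    apply Complex.ext hX
    by_cases hw : (w : ℂ).re ^ 2 < 1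
    · have hs : 0 < Real.sqrt (1 - (w : ℂ).re ^ 2) := Real.sqrt_pos.2 (by linarith)
      have hgp : 0 < g (w : ℂ).re := gpos _ (by nlinarith) (by nlinarith)
      simp only [hT, hρ] at e1
      rw [← hX] at e1
      have e3 : g (w : ℂ).re * ((1 + (w : ℂ).im / Real.sqrt (1 - (w : ℂ).re ^ 2)) / 2) =
          g (w : ℂ).re * ((1 + (w' : ℂ).im / Real.sqrt (1 - (w : ℂ).re ^ 2)) / 2) := by
        linarith
      have e4 := mul_left_cancel₀ hgp.ne' e3
      have e5 : (w : ℂ).im / Real.sqrt (1 - (w : ℂ).re ^ 2) =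
          (w' : ℂ).im / Real.sqrt (1 - (w : ℂ).re ^ 2) := by linarith
      field_simp at e5
      exact e5
    · have k1 := key w
      have k2 := key w'
      rw [← hX] at k2
      have i1 : (w : ℂ).im ^ 2 = 0 := by nlinarith [sq_nonneg (w : ℂ).im]
      have i2 : (w' : ℂ).im ^ 2 = 0 := by nlinarith [sq_nonneg (w' : ℂ).im]
      rw [pow_eq_zero_iff two_ne_zero] at i1 i2
      rw [i1, i2]
  · ext z
    constructor
    · rintro ⟨w, rfl⟩
      have b1 := hre w
      exact ⟨T w, xx (w : ℂ).re, rfl, by simp only [hxx]; nlinarith,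
        by simp only [hxx]; nlinarith, Tge w, Tle w⟩
    · rintro ⟨t, x, rfl, hx1, hx2, ht1, ht2⟩
      set X : ℝ := 2 * (x - α) / (β - α) - 1 with hX
      have hxX : xx X = x := by
        simp only [hxx, hX]; field_simp; ring
      have X1 : -1 ≤ X := by
        have : 0 ≤ 2 * (x - α) / (β - α) := div_nonneg (by linarith) hd.le
        linarith
      have X2 : X ≤ 1 := by
        have : 2 * (x - α) / (β - α) ≤ 2 := by
          rw [div_le_iff₀ hd]; linarith
        linarith
      by_cases hw : X ^ 2 < 1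
      · have hs : 0 < Real.sqrt (1 - X ^ 2) := Real.sqrt_pos.2 (by linarith)
        have hgp : 0 < g X := gpos _ (by nlinarith) (by nlinarith)
        set r : ℝ := 2 * (t - c) / g X - 1 with hr
        have hgx : g X = u x - c := by simp only [hg]; rw [hxX]
        have r1 : -1 ≤ r := by
          have : 0 ≤ 2 * (t - c) / g X := div_nonneg (by linarith) hgp.le
          linarith
        have r2 : r ≤ 1 := by
          have : 2 * (t - c) / g X ≤ 2 := by
            rw [div_le_iff₀ hgp, hgx]; linarith
          linarith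
        have hball : (⟨X, Real.sqrt (1 - X ^ 2) * r⟩ : ℂ) ∈ Metric.closedBall (0 : ℂ) 1 := by
          rw [mem_closedBall_zero_iff]
          have h2 : ‖(⟨X, Real.sqrt (1 - X ^ 2) * r⟩ : ℂ)‖ ^ 2 ≤ 1 := by
            rw [← Complex.normSq_eq_norm_sq, Complex.normSq_apply]
            have hsq := Real.sq_sqrt (show 0 ≤ 1 - X ^ 2 by linarith)
            show X * X + Real.sqrt (1 - X ^ 2) * r * (Real.sqrt (1 - X ^ 2) * r) ≤ 1
            have hr2 : r ^ 2 ≤ 1 := by nlinarith
            have e7 : Real.sqrt (1 - X ^ 2) * r * (Real.sqrt (1 - X ^ 2) * r) =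
              Real.sqrt (1 - X ^ 2) ^ 2 * r ^ 2 := by ring
            have e8 := mul_le_mul_of_nonneg_left hr2 (show 0 ≤ 1 - X ^ 2 by linarith)
            have e9 : X * X = X ^ 2 := by ring
            rw [e7, hsq, e9]
            linarith
          exact (sq_le_one_iff₀ (norm_nonneg _)).1 h2
        refine ⟨⟨_, hball⟩, ?_⟩
        show ((c + g X * ((1 + Real.sqrt (1 - X ^ 2) * r / Real.sqrt (1 - X ^ 2)) / 2) : ℝ) : ℂ) *
          E (xx X) = _
        rw [hxX, mul_div_cancel_left₀ _ hs.ne']
        have : c + g X * ((1 + r) / 2) = t := by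
          simp only [hr]; field_simp; ring
        rw [this]
      · have hX3 : X = 1 ∨ X = -1 := by
          have h3 : X ^ 2 = 1 := by nlinarith
          exact sq_eq_one_cases h3
        have hg0 : g X = 0 := by
          rcases hX3 with h | h <;> rw [h]
          · exact g1
          · exact gm1
        have hball : (⟨X, 0⟩ : ℂ) ∈ Metric.closedBall (0 : ℂ) 1 := by
          rw [mem_closedBall_zero_iff]
          have h2 : ‖(⟨X, 0⟩ : ℂ)‖ ^ 2 ≤ 1 := by
            rw [← Complex.normSq_eq_norm_sq, Complex.normSq_apply]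
            show X * X + 0 * 0 ≤ 1
            rcases hX3 with h | h <;> rw [h] <;> norm_num
          exact (sq_le_one_iff₀ (norm_nonneg _)).1 h2
        refine ⟨⟨_, hball⟩, ?_⟩
        show ((c + g X * ((1 + 0 / Real.sqrt (1 - X ^ 2)) / 2) : ℝ) : ℂ) * E (xx X) = _
        rw [hxX, hg0, zero_mul, add_zero]
        have : g X = u x - c := by simp only [hg]; rw [hxX]
        have : t = c := by linarith
        rw [this]

end

end Pool.Agent.V11131.Mod
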