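import Pool.Agent.V11131.Mod4

/-!
The polygons and the tree surface, continued.
-/

namespace Pool.Agent.V11131.Mod

open Set Filter Topology

noncomputable section

/-- The polygon number `a` of level `m`. -/
def HZ (m : ℕ) (a : ℤ) : Set ℂ :=
  {z | ∃ t x : ℝ, z = t * E x ∧ (a : ℝ) + 1 / 10 ≤ (DI ^ m) x ∧ (DI ^ m) x ≤ a + 9 / 10 ∧
    3 ^ m ≤ t ∧ t ≤ 3 ^ (m + 1) ∧ t * psi x ≤ 1}

/-- The lower side of the polygon number `a` of level `m`. -/
def Lo (m : ℕ) (a : ℤ) : Set ℂ :=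
  {z | ∃ x : ℝ, z = ((3 ^ m : ℝ) : ℂ) * E x ∧ (a : ℝ) + 1 / 10 ≤ (DI ^ m) x ∧
    (DI ^ m) x ≤ a + 9 / 10}

lemma pow3_pos (m : ℕ) : (0 : ℝ) < 3 ^ m := by positivity

lemma far_W {a : ℤ} {y : ℝ} (h1 : (a : ℝ) + 1 / 10 ≤ y) (h2 : y ≤ a + 9 / 10) : Far y := by
  intro n
  by_cases hn : n ≤ a
  · have : (n : ℝ) ≤ a := by exact_mod_cast hn
    rw [le_abs]; left; linarith
  · have : (a : ℝ) + 1 ≤ n := by exact_mod_cast (by omega : a + 1 ≤ n)
    rw [le_abs]; right; linarith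

lemma far_W' {a : ℤ} {y : ℝ} (h1 : (a : ℝ) + 1 / 10 < y) (h2 : y < a + 9 / 10) :
    ∀ n : ℤ, 1 / 10 < |y - n| := by
  intro n
  by_cases hn : n ≤ a
  · have : (n : ℝ) ≤ a := by exact_mod_cast hn
    rw [lt_abs]; left; linarith
  · have : (a : ℝ) + 1 ≤ n := by exact_mod_cast (by omega : a + 1 ≤ n)
    rw [lt_abs]; right; linarith

lemma psi_W {m : ℕ} {a : ℤ} {x : ℝ} (h1 : (a : ℝ) + 1 / 10 ≤ (DI ^ m) x)
    (h2 : (DI ^ m) x ≤ a + 9 / 10) : 3 ^ m * psi x = psi ((DI ^ m) x) := by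
  rw [psi_far m (far_W h1 h2)]
  have := (pow3_pos m).ne'
  field_simp

lemma psi_W_le {m : ℕ} {a : ℤ} {x : ℝ} (h1 : (a : ℝ) + 1 / 10 ≤ (DI ^ m) x)
    (h2 : (DI ^ m) x ≤ a + 9 / 10) : 3 ^ m * psi x ≤ 1 := by
  rw [psi_W h1 h2]; exact psi_le_one _

/-- upper boundary -/
def uu (m : ℕ) (x : ℝ) : ℝ := 3 ^ (m + 1) / max 1 (3 ^ (m + 1) * psi x)

lemma uu_cont (m : ℕ) : Continuous (uu m) := by
  unfold uu
  apply Continuous.div continuous_const
  · exact continuous_const.max (continuous_const.mul psi_cont)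
  · intro x
    exact (lt_max_of_lt_left one_pos : (0 : ℝ) < max 1 (3 ^ (m + 1) * psi x)).ne'

lemma le_uu {m : ℕ} {t x : ℝ} (ht : 0 ≤ t) :
    t ≤ uu m x ↔ t ≤ 3 ^ (m + 1) ∧ t * psi x ≤ 1 := by
  have h0 : (0 : ℝ) < max 1 (3 ^ (m + 1) * psi x) := lt_max_of_lt_left one_pos
  have hc := pow3_pos (m + 1)
  unfold uu
  rw [le_div_iff₀ h0]
  constructor
  · intro h
    have h1 : t * 1 ≤ t * max 1 (3 ^ (m + 1) * psi x) :=
      mul_le_mul_of_nonneg_left (le_max_left _ _) ht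
    have h2 : t * (3 ^ (m + 1) * psi x) ≤ t * max 1 (3 ^ (m + 1) * psi x) :=
      mul_le_mul_of_nonneg_left (le_max_right _ _) ht
    refine ⟨by linarith, ?_⟩
    have h3 : 3 ^ (m + 1) * (t * psi x) ≤ 3 ^ (m + 1) * 1 := by linarith
    exact le_of_mul_le_mul_left h3 hc
  · rintro ⟨h1, h2⟩
    rcases max_choice (1 : ℝ) (3 ^ (m + 1) * psi x) with h | h
    · rw [h]; linarith
    · rw [h]
      have : 3 ^ (m + 1) * (t * psi x) ≤ 3 ^ (m + 1) * 1 := mul_le_mul_of_nonneg_left h2 hc.le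
      linarith

/-- left end -/
def al (m : ℕ) (a : ℤ) : ℝ := (DI ^ m).symm (a + 1 / 10)
/-- right end -/
def be (m : ℕ) (a : ℤ) : ℝ := (DI ^ m).symm (a + 9 / 10)

lemma D_al (m : ℕ) (a : ℤ) : (DI ^ m) (al m a) = a + 1 / 10 := (DI ^ m).apply_symm_apply _
lemma D_be (m : ℕ) (a : ℤ) : (DI ^ m) (be m a) = a + 9 / 10 := (DI ^ m).apply_symm_apply _

lemma al_le {m : ℕ} {a : ℤ} {x : ℝ} : al m a ≤ x ↔ (a : ℝ) + 1 / 10 ≤ (DI ^ m) x :=
  (DI ^ m).symm_apply_le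

lemma le_be {m : ℕ} {a : ℤ} {x : ℝ} : x ≤ be m a ↔ (DI ^ m) x ≤ (a : ℝ) + 9 / 10 :=
  (DI ^ m).le_symm_apply

lemma al_lt_be (m : ℕ) (a : ℤ) : al m a < be m a := by
  apply (DI ^ m).symm.strictMono
  linarith

lemma be_sub_al (m : ℕ) (a : ℤ) : be m a - al m a < 1 := by
  have h : be m a < al m a + 1 := by
    rw [← (DI ^ m).lt_iff_lt, D_be]
    have h1 := DI_pow_add_int m (al m a) 1
    push_cast at h1
    rw [h1, D_al]
    have : (1 : ℝ) ≤ 2 ^ m := one_le_pow₀ (by norm_num)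
    linarith
  linarith

lemma psi_end {m : ℕ} {x : ℝ} {n : ℤ} (hf : Far ((DI ^ m) x)) (h : |(DI ^ m) x - n| ≤ 1 / 10) :
    uu m x = 3 ^ m := by
  have h1 := psi_far m hf
  rw [psi_near h] at h1
  have hc := pow3_pos m
  unfold uu
  rw [h1]
  have : (3 : ℝ) ^ (m + 1) * (1 / 3 ^ m) = 3 := by
    rw [pow_succ]; field_simp
  rw [this, max_eq_right (by norm_num), pow_succ]
  ring

lemma HZ_eq (m : ℕ) (a : ℤ) : HZ m a = {z | ∃ t x : ℝ, z = t * E x ∧ al m a ≤ x ∧ x ≤ be m a ∧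
    3 ^ m ≤ t ∧ t ≤ uu m x} := by
  ext z
  constructor
  · rintro ⟨t, x, rfl, h1, h2, h3, h4, h5⟩
    exact ⟨t, x, rfl, al_le.2 h1, le_be.2 h2, h3, (le_uu ((pow3_pos m).le.trans h3)).2 ⟨h4, h5⟩⟩
  · rintro ⟨t, x, rfl, h1, h2, h3, h4⟩
    obtain ⟨h5, h6⟩ := (le_uu ((pow3_pos m).le.trans h3)).1 h4
    exact ⟨t, x, rfl, al_le.1 h1, le_be.1 h2, h3, h5, h6⟩

lemma HZ_disc (m : ℕ) (a : ℤ) : ∃ f : Metric.closedBall (0 : ℂ) 1 → ℂ,
    Continuous f ∧ Function.Injective f ∧ Set.range f = HZ m a := by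
  rw [HZ_eq]
  apply lens_disc (al_lt_be m a) (be_sub_al m a) (pow3_pos m) (uu_cont m)
  · apply psi_end (n := a)
    · rw [D_al]; exact far_W (a := a) le_rfl (by linarith)
    · rw [D_al]; rw [show (a : ℝ) + 1 / 10 - a = 1 / 10 by ring]; norm_num
  · apply psi_end (n := a + 1)
    · rw [D_be]; exact far_W (a := a) (by linarith) le_rfl
    · rw [D_be]; push_cast; rw [show (a : ℝ) + 9 / 10 - (a + 1) = -(1 / 10) by ring]; norm_num
  · intro x h1 h2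
    have h3 : (a : ℝ) + 1 / 10 < (DI ^ m) x := by
      rw [← D_al m a]; exact (DI ^ m).strictMono h1
    have h4 : (DI ^ m) x < (a : ℝ) + 9 / 10 := by
      rw [← D_be m a]; exact (DI ^ m).strictMono h2
    have h5 := psi_W h3.le h4.le
    have h6 := psi_lt_one (far_W' h3 h4)
    have h0 : (0 : ℝ) < max 1 (3 ^ (m + 1) * psi x) := lt_max_of_lt_left one_pos
    unfold uu
    rw [lt_div_iff₀ h0]
    have h7 : max 1 (3 ^ (m + 1) * psi x) < 3 := by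
      apply max_lt (by norm_num)
      rw [pow_succ, mul_right_comm, h5]
      linarith
    calc (3 : ℝ) ^ m * max 1 (3 ^ (m + 1) * psi x) < 3 ^ m * 3 :=
          mul_lt_mul_of_pos_left h7 (pow3_pos m)
      _ = 3 ^ (m + 1) := by rw [pow_succ]

lemma HZ_norm {m : ℕ} {a : ℤ} {z : ℂ} (h : z ∈ HZ m a) : 3 ^ m ≤ ‖z‖ ∧ ‖z‖ ≤ 3 ^ (m + 1) := by
  obtain ⟨t, x, rfl, h1, h2, h3, h4, h5⟩ := h
  rw [norm_polar ((pow3_pos m).le.trans h3)]
  exact ⟨h3, h4⟩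

lemma HZ_SS {m : ℕ} {a : ℤ} : HZ m a ⊆ SS := by
  rintro z ⟨t, x, rfl, h1, h2, h3, h4, h5⟩
  exact (polar_mem_SS ((pow3_pos m).le.trans h3) x).2 h5

lemma ball_SS : Metric.closedBall (0 : ℂ) 1 ⊆ SS := by
  intro z hz
  rw [mem_closedBall_zero_iff] at hz
  show ‖z‖ * psi (ang z) ≤ 1
  have h1 := psi_nonneg (ang z)
  have h2 := psi_le_one (ang z)
  have h3 := norm_nonneg z
  nlinarith

lemma HZ_shift (m : ℕ) (a n : ℤ) : HZ m (a + 2 ^ m * n) = HZ m a := by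
  have key : ∀ a n : ℤ, HZ m a ⊆ HZ m (a + 2 ^ m * n) := by
    rintro a n z ⟨t, x, rfl, h1, h2, h3, h4, h5⟩
    refine ⟨t, x + n, by rw [E_add_int], ?_, ?_, h3, h4, by rw [psi_add_int]; exact h5⟩
    · rw [DI_pow_add_int]; push_cast; linarith
    · rw [DI_pow_add_int]; push_cast; linarith
  apply Set.Subset.antisymm _ (key a n)
  have := key (a + 2 ^ m * n) (-n)
  rwa [show a + 2 ^ m * n + 2 ^ m * -n = a by ring] at this

lemma HZ_same {m : ℕ} {a b : ℤ} {z : ℂ} (h : z ∈ HZ m a) (h' : z ∈ HZ m b) :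
    ∃ n : ℤ, b = a + 2 ^ m * n := by
  obtain ⟨t, x, rfl, h1, h2, h3, h4, h5⟩ := h
  obtain ⟨s, y, e, g1, g2, g3, g4, g5⟩ := h'
  obtain ⟨-, n, hn⟩ := polar_unique (lt_of_lt_of_le (pow3_pos m) h3) ((pow3_pos m).le.trans g3) e
  refine ⟨-n, ?_⟩
  rw [hn, DI_pow_add_int] at h1 h2
  have k1 : (a : ℝ) - 2 ^ m * n - b < 1 := by linarith
  have k2 : (-1 : ℝ) < (a : ℝ) - 2 ^ m * n - b := by linarith
  have k3 : a - 2 ^ m * n - b < 1 := by exact_mod_cast k1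
  have k4 : -1 < a - 2 ^ m * n - b := by exact_mod_cast k2
  have : a + 2 ^ m * -n = a - 2 ^ m * n := by ring
  omega

lemma HZ_succ {m : ℕ} {a b : ℤ} {z : ℂ} (h : z ∈ HZ m a) (h' : z ∈ HZ (m + 1) b) :
    ∃ n : ℤ, b = 2 * a + 2 ^ (m + 1) * n ∨ b = 2 * a + 1 + 2 ^ (m + 1) * n := by
  obtain ⟨t, x, rfl, h1, h2, h3, h4, h5⟩ := h
  obtain ⟨s, y, e, g1, g2, g3, g4, g5⟩ := h'
  obtain ⟨-, n, hn⟩ := polar_unique (lt_of_lt_of_le (pow3_pos m) h3)
    ((pow3_pos (m + 1)).le.trans g3) e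
  refine ⟨-n, ?_⟩
  have hy : y = x + (-n : ℤ) := by rw [hn]; push_cast; ring
  rw [hy, DI_pow_add_int, DI_pow_succ'] at g1 g2
  have m1 : DI ((a : ℝ) + 1 / 10) ≤ DI ((DI ^ m) x) := DI.monotone h1
  have m2 : DI ((DI ^ m) x) ≤ DI ((a : ℝ) + 9 / 10) := DI.monotone h2
  have e1 : DI ((a : ℝ) + 1 / 10) = 2 * a + 1 / 20 := by
    rw [DI_near (n := a)]
    · ring
    · rw [show (a : ℝ) + 1 / 10 - a = 1 / 10 by ring]; norm_num
  have e2 : DI ((a : ℝ) + 9 / 10) = 2 * a + 39 / 20 := by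
    rw [DI_near (n := a + 1)]
    · push_cast; ring
    · push_cast; rw [show (a : ℝ) + 9 / 10 - (a + 1) = -(1 / 10) by ring]; norm_num
  rw [e1] at m1
  rw [e2] at m2
  have k1 : (b : ℝ) - 2 * a - 2 ^ (m + 1) * (-n : ℤ) < 2 := by linarith
  have k2 : (-1 : ℝ) < (b : ℝ) - 2 * a - 2 ^ (m + 1) * (-n : ℤ) := by linarith
  have k3 : b - 2 * a - 2 ^ (m + 1) * (-n) < 2 := by exact_mod_cast k1
  have k4 : -1 < b - 2 * a - 2 ^ (m + 1) * (-n) := by exact_mod_cast k2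
  omega

lemma Lo_sub_HZ {m : ℕ} {a : ℤ} : Lo m a ⊆ HZ m a := by
  rintro z ⟨x, rfl, h1, h2⟩
  refine ⟨3 ^ m, x, rfl, h1, h2, le_rfl, ?_, psi_W_le h1 h2⟩
  rw [pow_succ]; have := pow3_pos m; linarith

lemma Lo_sub_parent {m : ℕ} {a b : ℤ} (hb : b = 2 * a ∨ b = 2 * a + 1) : Lo (m + 1) b ⊆ HZ m a := by
  rintro z ⟨x, rfl, h1, h2⟩
  have hb1 : 2 * (a : ℝ) ≤ b := by
    rcases hb with h | h <;> rw [h] <;> push_cast <;> linarith
  have hb2 : (b : ℝ) ≤ 2 * a + 1 := by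
    rcases hb with h | h <;> rw [h] <;> push_cast <;> linarith
  have e1 : DI ((a : ℝ) + 1 / 10) = 2 * a + 1 / 20 := by
    rw [DI_near (n := a)]
    · ring
    · rw [show (a : ℝ) + 1 / 10 - a = 1 / 10 by ring]; norm_num
  have e2 : DI ((a : ℝ) + 9 / 10) = 2 * a + 39 / 20 := by
    rw [DI_near (n := a + 1)]
    · push_cast; ring
    · push_cast; rw [show (a : ℝ) + 9 / 10 - (a + 1) = -(1 / 10) by ring]; norm_num
  refine ⟨3 ^ (m + 1), x, rfl, ?_, ?_, ?_, le_rfl, psi_W_le h1 h2⟩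
  · rw [← DI.le_iff_le, e1, ← DI_pow_succ']; linarith
  · rw [← DI.le_iff_le, e2, ← DI_pow_succ']; linarith
  · rw [pow_succ]; have := pow3_pos m; linarith

lemma mem_Lo {m : ℕ} {a : ℤ} {z : ℂ} (h : z ∈ HZ m a) (h' : ‖z‖ ≤ 3 ^ m) : z ∈ Lo m a := by
  obtain ⟨t, x, rfl, h1, h2, h3, h4, h5⟩ := h
  rw [norm_polar ((pow3_pos m).le.trans h3)] at h'
  have : t = 3 ^ m := le_antisymm h' h3
  exact ⟨x, by rw [this], h1, h2⟩

lemma Lo_norm {m : ℕ} {a : ℤ} {z : ℂ} (h : z ∈ Lo m a) : ‖z‖ = 3 ^ m := by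
  obtain ⟨x, rfl, h1, h2⟩ := h
  exact norm_polar (pow3_pos m).le x

lemma Lo_arc (m : ℕ) (a : ℤ) : ∃ f : Set.Icc (0 : ℝ) 1 → ℂ,
    Continuous f ∧ Function.Injective f ∧ Set.range f = Lo m a := by
  have hd : 0 < be m a - al m a := by linarith [al_lt_be m a]
  have hd1 := be_sub_al m a
  refine ⟨fun s => ((3 ^ m : ℝ) : ℂ) * E (al m a + s * (be m a - al m a)), ?_, ?_, ?_⟩
  · apply continuous_const.mul
    apply E_cont.comp
    fun_prop
  · intro s s' h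
    simp only at h
    obtain ⟨-, n, hn⟩ := polar_unique (pow3_pos m) (pow3_pos m).le h
    have b1 := s.2
    have b2 := s'.2
    have hn' : (n : ℝ) = ((s : ℝ) - s') * (be m a - al m a) := by linarith
    have k1 : (n : ℝ) < 1 := by rw [hn']; nlinarith [b1.1, b1.2, b2.1, b2.2]
    have k2 : (-1 : ℝ) < n := by rw [hn']; nlinarith [b1.1, b1.2, b2.1, b2.2]
    have k3 : n < 1 := by exact_mod_cast k1
    have k4 : -1 < n := by exact_mod_cast k2
    have k5 : n = 0 := by omega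
    rw [k5] at hn'
    push_cast at hn'
    rcases mul_eq_zero.1 hn'.symm with h' | h'
    · exact Subtype.ext (by linarith)
    · linarith
  · ext z
    constructor
    · rintro ⟨s, rfl⟩
      have b1 := s.2
      refine ⟨_, rfl, al_le.1 ?_, le_be.1 ?_⟩
      · nlinarith [b1.1]
      · nlinarith [b1.2]
    · rintro ⟨x, rfl, h1, h2⟩
      have h1 := al_le.2 h1
      have h2 := le_be.2 h2
      refine ⟨⟨(x - al m a) / (be m a - al m a), ?_, ?_⟩, ?_⟩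
      · exact div_nonneg (by linarith) hd.le
      · rw [div_le_one hd]; linarith
      · show ((3 ^ m : ℝ) : ℂ) * E (al m a + (x - al m a) / (be m a - al m a) *
          (be m a - al m a)) = _
        rw [div_mul_cancel₀ _ hd.ne']
        congr 2; ring

/-- The puncture of the polygon number `a` of level `m`. -/
def pZ (m : ℕ) (a : ℤ) : ℂ := ((3 ^ (m + 1) / 2 : ℝ) : ℂ) * E ((DI ^ m).symm (a + 1 / 2))

lemma psi_half (n : ℤ) : psi ((n : ℝ) + 1 / 2) = 1 / 3 := by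
  have h0 : kap ((n : ℝ) + 1 / 2) = 0 := by
    by_contra h
    obtain ⟨k, hk⟩ := kap_ne h
    rw [abs_lt] at hk
    have k1 : ((n - k : ℤ) : ℝ) < 1 := by push_cast; linarith
    have k2 : (-1 : ℝ) < ((n - k : ℤ) : ℝ) := by push_cast; linarith
    have k3 : n - k < 1 := by exact_mod_cast k1
    have k4 : -1 < n - k := by exact_mod_cast k2
    have k5 : n - k = 0 := by omega
    have k6 : (n : ℝ) - k = 0 := by exact_mod_cast k5
    linarith
  have h1 : DI ((n : ℝ) + 1 / 2) = (2 * n + 1 : ℤ) := by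
    rw [DI_mid (n := n) (by linarith) (by linarith)]
    push_cast; ring
  rw [psi_step, h0, h1, psi_near (n := 2 * n + 1) (by simp)]
  norm_num

lemma psi_pZ (m : ℕ) (a : ℤ) : 3 ^ m * psi ((DI ^ m).symm ((a : ℝ) + 1 / 2)) = 1 / 3 := by
  have e : (DI ^ m) ((DI ^ m).symm ((a : ℝ) + 1 / 2)) = a + 1 / 2 := (DI ^ m).apply_symm_apply _
  rw [psi_W (a := a) (by rw [e]; linarith) (by rw [e]; linarith), e, psi_half]

lemma pZ_int (m : ℕ) (a : ℤ) : pZ m a ∈ interior (HZ m a) := by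
  rw [mem_interior_iff_mem_nhds]
  set x0 := (DI ^ m).symm ((a : ℝ) + 1 / 2) with hx0
  set t0 : ℝ := 3 ^ (m + 1) / 2 with ht0
  have ht0p : 0 < t0 := by have := pow3_pos (m + 1); positivity
  have hp : pZ m a = (t0 : ℂ) * E x0 := rfl
  set loc : ℂ → ℝ := fun z => x0 + ang (z * E (-x0)) with hloc
  have hE : E x0 * E (-x0) = 1 := by rw [← E_add, add_neg_cancel, E_zero]
  have h1 : pZ m a * E (-x0) = (t0 : ℂ) := by rw [hp, mul_assoc, hE, mul_one]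
  have hsl : pZ m a * E (-x0) ∈ Complex.slitPlane := by
    rw [h1]; exact Complex.ofReal_mem_slitPlane.2 ht0p
  have loc_cont : ContinuousAt loc (pZ m a) := by
    apply continuousAt_const.add
    exact ContinuousAt.comp (f := fun z : ℂ => z * E (-x0)) (ang_cont hsl)
      (continuousAt_id.mul continuousAt_const)
  have loc0 : loc (pZ m a) = x0 := by
    simp only [hloc]
    rw [h1]
    unfold ang
    rw [Complex.arg_ofReal_of_nonneg ht0p.le]
    simp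
  have locE : ∀ z, z = (‖z‖ : ℂ) * E (loc z) := by
    intro z
    have := polar (z * E (-x0))
    rw [norm_mul, norm_E, mul_one] at this
    have hE' : E (-x0) * E x0 = 1 := by rw [mul_comm]; exact hE
    calc z = z * E (-x0) * E x0 := by rw [mul_assoc, hE', mul_one]
      _ = _ := by
        rw [this]
        simp only [hloc]
        rw [E_add]
        ring
  have hnp : ‖pZ m a‖ = t0 := by rw [hp, norm_polar ht0p.le]
  have c1 : ContinuousAt (fun z => (DI ^ m) (loc z)) (pZ m a) :=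
    (DI ^ m).continuous.continuousAt.comp loc_cont
  have c2 : ContinuousAt (fun z => ‖z‖ * psi (loc z)) (pZ m a) :=
    continuous_norm.continuousAt.mul (psi_cont.continuousAt.comp loc_cont)
  have c3 : ContinuousAt (fun z : ℂ => ‖z‖) (pZ m a) := continuous_norm.continuousAt
  have v1 : (DI ^ m) (loc (pZ m a)) = a + 1 / 2 := by rw [loc0]; exact (DI ^ m).apply_symm_apply _
  have v2 : ‖pZ m a‖ * psi (loc (pZ m a)) < 1 := by
    rw [loc0, hnp]
    have := psi_pZ m a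
    simp only [ht0]
    rw [pow_succ]
    rw [← hx0] at this
    linarith
  have hm := pow3_pos m
  filter_upwards [c1.eventually_const_lt (u := (a : ℝ) + 1 / 10)
      (by show _ < (DI ^ m) (loc (pZ m a)); rw [v1]; linarith),
    c1.eventually_lt_const (u := (a : ℝ) + 9 / 10)
      (by show (DI ^ m) (loc (pZ m a)) < _; rw [v1]; linarith),
    c3.eventually_const_lt (u := (3 : ℝ) ^ m)
      (by show _ < ‖pZ m a‖; rw [hnp, ht0, pow_succ]; linarith),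
    c3.eventually_lt_const (u := (3 : ℝ) ^ (m + 1))
      (by show ‖pZ m a‖ < _; rw [hnp, ht0, pow_succ]; linarith),
    c2.eventually_lt_const v2] with z z1 z2 z3 z4 z5
  exact ⟨‖z‖, loc z, locE z, z1.le, z2.le, z3.le, z4.le, z5.le⟩

/-- Radial scaling inside the interior. -/
lemma int_scale {A : Set ℂ} {z : ℂ} (h : z ∈ interior A) :
    (∃ s : ℝ, 0 ≤ s ∧ s < 1 ∧ (s : ℂ) * z ∈ A) ∧ (∃ s : ℝ, 1 < s ∧ (s : ℂ) * z ∈ A) := by
  have hA : A ∈ 𝓝 z := mem_interior_iff_mem_nhds.1 h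
  have hc : Tendsto (fun s : ℝ => (s : ℂ) * z) (𝓝 1) (𝓝 z) := by
    have : Tendsto (fun s : ℝ => (s : ℂ) * z) (𝓝 1) (𝓝 (((1 : ℝ) : ℂ) * z)) := by
      apply Continuous.tendsto; fun_prop
    simpa using this
  have hev : ∀ᶠ s : ℝ in 𝓝 1, (s : ℂ) * z ∈ A := hc hA
  constructor
  · have h1 : ∀ᶠ s : ℝ in 𝓝[<] 1, (s : ℂ) * z ∈ A := hev.filter_mono nhdsWithin_le_nhds
    have h2 : ∀ᶠ s : ℝ in 𝓝[<] 1, s < 1 := self_mem_nhdsWithin
    have h3 : ∀ᶠ s : ℝ in 𝓝[<] 1, 0 ≤ s :=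
      (eventually_ge_nhds (by norm_num : (0 : ℝ) < 1)).filter_mono nhdsWithin_le_nhds
    obtain ⟨s, a, b, c⟩ := (h1.and (h2.and h3)).exists
    exact ⟨s, c, b, a⟩
  · have h1 : ∀ᶠ s : ℝ in 𝓝[>] 1, (s : ℂ) * z ∈ A := hev.filter_mono nhdsWithin_le_nhds
    have h2 : ∀ᶠ s : ℝ in 𝓝[>] 1, 1 < s := self_mem_nhdsWithin
    obtain ⟨s, a, b⟩ := (h1.and h2).exists
    exact ⟨s, b, a⟩

lemma int_HZ {m : ℕ} {a : ℤ} {z : ℂ} (h : z ∈ interior (HZ m a)) :
    3 ^ m < ‖z‖ ∧ ‖z‖ < 3 ^ (m + 1) := by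
  obtain ⟨⟨s, s0, s1, hs⟩, ⟨r, r1, hr⟩⟩ := int_scale h
  have b := HZ_norm (interior_subset h)
  have b1 := HZ_norm hs
  have b2 := HZ_norm hr
  rw [norm_mul, Complex.norm_real, Real.norm_of_nonneg s0] at b1
  rw [norm_mul, Complex.norm_real, Real.norm_of_nonneg (by linarith)] at b2
  have hm := pow3_pos m
  constructor <;> nlinarith [b1.1, b2.2, b.1]

lemma int_ball {z : ℂ} (h : z ∈ interior (Metric.closedBall (0 : ℂ) 1)) : ‖z‖ < 1 := by
  rw [interior_closedBall (0 : ℂ) (by norm_num)] at h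
  simpa using h

lemma cover {z : ℂ} (hz : z ∈ SS) (h1 : 1 < ‖z‖) : ∃ m : ℕ, ∃ a : ℤ, 3 ^ m < ‖z‖ ∧
    ‖z‖ ≤ 3 ^ (m + 1) ∧ z ∈ HZ m a := by
  obtain ⟨m, hm1, hm2⟩ : ∃ m : ℕ, 3 ^ m < ‖z‖ ∧ ‖z‖ ≤ 3 ^ (m + 1) := by
    have hex : ∃ n : ℕ, ‖z‖ ≤ 3 ^ n := by
      obtain ⟨n, hn⟩ := pow_unbounded_of_one_lt ‖z‖ (by norm_num : (1 : ℝ) < 3)
      exact ⟨n, hn.le⟩
    classical
    have hs := Nat.find_spec hex
    have hmin := fun k => Nat.find_min hex (m := k)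
    rcases hn : Nat.find hex with _ | m
    · rw [hn] at hs; norm_num at hs; linarith
    · refine ⟨m, ?_, by rw [hn] at hs; exact hs⟩
      have := hmin m (by omega)
      push Not at this
      exact this
  have hz' : ‖z‖ * psi (ang z) ≤ 1 := hz
  set x := ang z with hx
  refine ⟨m, ⌊(DI ^ m) x⌋, hm1, hm2, ‖z‖, x, polar z, ?_, ?_, hm1.le, hm2, hz'⟩
  all_goals
    have hfl := Int.floor_le ((DI ^ m) x)
    have hfl2 := Int.lt_floor_add_one ((DI ^ m) x)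
    have hfar : ∀ n : ℤ, 1 / 10 < |(DI ^ m) x - n| := by
      intro n
      by_contra hc
      push Not at hc
      have h2 := psi_near hc
      rw [psi_pow] at h2
      have h3 : 1 ≤ 3 ^ m * psi x := by
        rw [← h2]; exact min_le_right _ _
      have hp : 0 < psi x := by
        by_contra hp
        push Not at hp
        have := pow3_pos m
        nlinarith
      nlinarith
    have f1 := hfar ⌊(DI ^ m) x⌋
    have f2 := hfar (⌊(DI ^ m) x⌋ + 1)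
    push_cast at f2
    rw [abs_of_nonneg (by linarith)] at f1
    rw [abs_sub_comm, abs_of_nonneg (by linarith)] at f2
    linarith

end

end Pool.Agent.V11131.Mod
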