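import Pool.Agent.V11131.Mod5

/-!
The tree surface and its homeomorphisms.
-/

namespace Pool.Agent.V11131.Mod

open Set Filter Topology

noncomputable section

/-- Vertices: a root, and `2 ^ m` vertices of level `m` for every `m`. -/
abbrev VV : Type := Option ((m : ℕ) × Fin (2 ^ m))

lemma half_lt {m : ℕ} (i : Fin (2 ^ (m + 1))) : (i : ℕ) / 2 < 2 ^ m := by
  have h := i.2
  have e : 2 ^ (m + 1) = 2 ^ m * 2 := pow_succ 2 m
  omega

/-- parent -/
def par : VV → VV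
  | none => none
  | some ⟨0, _⟩ => none
  | some ⟨m + 1, i⟩ => some ⟨m, ⟨(i : ℕ) / 2, half_lt i⟩⟩

/-- depth -/
def dep : VV → ℕ
  | none => 0
  | some ⟨m, _⟩ => m + 1

/-- polygons -/
def HH : VV → Set ℂ
  | none => Metric.closedBall 0 1
  | some ⟨m, i⟩ => HZ m ((i : ℕ) : ℤ)

/-- punctures -/
def pp : VV → ℂ
  | none => ((1 / 2 : ℝ) : ℂ)
  | some ⟨m, i⟩ => pZ m ((i : ℕ) : ℤ)

lemma dep_par : ∀ v : VV, v ≠ none → dep v = dep (par v) + 1 := by
  rintro (_ | ⟨_ | m, i⟩) h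
  · exact absurd rfl h
  · rfl
  · rfl

lemma fin_dep (n : ℕ) : {v : VV | dep v ≤ n}.Finite := by
  apply Set.Finite.subset (((((Finset.range n).sigma
    (fun m => (Finset.univ : Finset (Fin (2 ^ m))))).finite_toSet).image
      (some : _ → VV)).insert none)
  rintro (_ | ⟨m, i⟩) h
  · exact Or.inl rfl
  · right
    refine ⟨⟨m, i⟩, ?_, rfl⟩
    have h' : m + 1 ≤ n := h
    rw [Finset.mem_coe, Finset.mem_sigma]
    exact ⟨Finset.mem_range.2 (by show m < n; omega), Finset.mem_univ _⟩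

lemma idx_same {m : ℕ} {a b : Fin (2 ^ m)} {n : ℤ} (h : ((b : ℕ) : ℤ) = (a : ℕ) + 2 ^ m * n) :
    a = b := by
  have ha : ((a : ℕ) : ℤ) < 2 ^ m := by exact_mod_cast a.2
  have hb : ((b : ℕ) : ℤ) < 2 ^ m := by exact_mod_cast b.2
  have ha0 : (0 : ℤ) ≤ (a : ℕ) := Int.natCast_nonneg _
  have hb0 : (0 : ℤ) ≤ (b : ℕ) := Int.natCast_nonneg _
  have hn : n = 0 := by
    rcases lt_trichotomy n 0 with hn | hn | hn
    · nlinarith
    · exact hn
    · nlinarith
  rw [hn, mul_zero, add_zero] at h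
  exact Fin.ext (by exact_mod_cast h.symm)

lemma idx_succ {m : ℕ} {a : Fin (2 ^ m)} {b : Fin (2 ^ (m + 1))} {n : ℤ}
    (h : ((b : ℕ) : ℤ) = 2 * (a : ℕ) + 2 ^ (m + 1) * n ∨
      ((b : ℕ) : ℤ) = 2 * (a : ℕ) + 1 + 2 ^ (m + 1) * n) : (b : ℕ) / 2 = a := by
  have ha : ((a : ℕ) : ℤ) < 2 ^ m := by exact_mod_cast a.2
  have ha2 : ((a : ℕ) : ℤ) + 1 ≤ 2 ^ m := by omega
  have hb : ((b : ℕ) : ℤ) < 2 ^ (m + 1) := by exact_mod_cast b.2
  have ha0 : (0 : ℤ) ≤ (a : ℕ) := Int.natCast_nonneg _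
  have hb0 : (0 : ℤ) ≤ (b : ℕ) := Int.natCast_nonneg _
  have hp : (2 : ℤ) ^ (m + 1) = 2 * 2 ^ m := by rw [pow_succ]; ring
  have hn : n = 0 := by
    rcases lt_trichotomy n 0 with hn | hn | hn
    · rcases h with h | h <;> nlinarith
    · exact hn
    · rcases h with h | h <;> nlinarith
  rw [hn, mul_zero, add_zero, add_zero] at h
  omega

lemma par_eq {m : ℕ} {a : Fin (2 ^ m)} {b : Fin (2 ^ (m + 1))} (h : (b : ℕ) / 2 = a) :
    par (some ⟨m + 1, b⟩) = some ⟨m, a⟩ := by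
  show some (⟨m, ⟨(b : ℕ) / 2, _⟩⟩ : (m : ℕ) × Fin (2 ^ m)) = _
  congr 2
  exact Fin.ext h

lemma pow3_le {m n : ℕ} (h : m ≤ n) : (3 : ℝ) ^ m ≤ 3 ^ n := pow_le_pow_right₀ (by norm_num) h

lemma pow3_lt {m n : ℕ} (h : m < n) : (3 : ℝ) ^ m < 3 ^ n := pow_lt_pow_right₀ (by norm_num) h

lemma HH_norm_le {v : VV} {z : ℂ} (h : z ∈ HH v) : ‖z‖ ≤ 3 ^ dep v := by
  rcases v with _ | ⟨m, i⟩
  · have h' : z ∈ Metric.closedBall (0 : ℂ) 1 := h
    rw [mem_closedBall_zero_iff] at h'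
    simpa [dep] using h'
  · exact (HZ_norm h).2

lemma adj_aux {m : ℕ} {a : Fin (2 ^ m)} {w : VV} {z : ℂ} (hz : z ∈ HH (some ⟨m, a⟩))
    (hw : z ∈ HH w) (hd : dep w ≤ m) : par (some ⟨m, a⟩) = w := by
  have h1 := (HZ_norm (show z ∈ HZ m ((a : ℕ) : ℤ) from hz)).1
  have h2 := HH_norm_le hw
  rcases m with _ | m
  · rcases w with _ | ⟨l, b⟩
    · rfl
    · exact absurd hd (by simp [dep])
  · rcases w with _ | ⟨l, b⟩
    · exfalso
      have : (3 : ℝ) ^ 0 < 3 ^ (m + 1) := pow3_lt (by omega)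
      have h2' : ‖z‖ ≤ 3 ^ 0 := h2
      linarith
    · have hl : l = m := by
        by_contra hne
        have hlm : l + 1 < m + 1 := by
          have : l + 1 ≤ m + 1 := hd
          omega
        have : (3 : ℝ) ^ (l + 1) < 3 ^ (m + 1) := pow3_lt hlm
        have h2' : ‖z‖ ≤ 3 ^ (l + 1) := h2
        linarith
      subst hl
      obtain ⟨n, hn⟩ := HZ_succ (show z ∈ HZ l ((b : ℕ) : ℤ) from hw)
        (show z ∈ HZ (l + 1) ((a : ℕ) : ℤ) from hz)
      exact par_eq (idx_succ hn)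

lemma HH_disj (v w : VV) (hne : v ≠ w) (h1 : ¬ (v ≠ none ∧ par v = w))
    (h2 : ¬ (w ≠ none ∧ par w = v)) : HH v ∩ HH w = ∅ := by
  by_contra hc
  obtain ⟨z, hz, hw⟩ := Set.nonempty_iff_ne_empty.2 hc
  rcases v with _ | ⟨m, a⟩
  · rcases w with _ | ⟨l, b⟩
    · exact hne rfl
    · exact h2 ⟨by simp, adj_aux hw hz (by simp [dep])⟩
  · rcases w with _ | ⟨l, b⟩
    · exact h1 ⟨by simp, adj_aux hz hw (by simp [dep])⟩
    · rcases lt_trichotomy m l with h | h | h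
      · exact h2 ⟨by simp, adj_aux hw hz (by simpa [dep] using h)⟩
      · subst h
        obtain ⟨n, hn⟩ := HZ_same (show z ∈ HZ m ((a : ℕ) : ℤ) from hz)
          (show z ∈ HZ m ((b : ℕ) : ℤ) from hw)
        exact hne (by rw [idx_same hn])
      · exact h1 ⟨by simp, adj_aux hz hw (by simpa [dep] using h)⟩

lemma HH_int_disj (v w : VV) (hne : v ≠ w) : Disjoint (interior (HH v)) (HH w) := by
  rw [Set.disjoint_left]
  intro z hz hw
  rcases v with _ | ⟨m, a⟩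
  · have h1 := int_ball (show z ∈ interior (Metric.closedBall (0 : ℂ) 1) from hz)
    rcases w with _ | ⟨l, b⟩
    · exact hne rfl
    · have h2 := (HZ_norm (show z ∈ HZ l ((b : ℕ) : ℤ) from hw)).1
      have : (1 : ℝ) ≤ 3 ^ l := one_le_pow₀ (by norm_num)
      linarith
  · have h1 := int_HZ (show z ∈ interior (HZ m ((a : ℕ) : ℤ)) from hz)
    rcases w with _ | ⟨l, b⟩
    · have h2 : z ∈ Metric.closedBall (0 : ℂ) 1 := hw
      rw [mem_closedBall_zero_iff] at h2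
      have : (1 : ℝ) ≤ 3 ^ m := one_le_pow₀ (by norm_num)
      linarith
    · have h2 := HZ_norm (show z ∈ HZ l ((b : ℕ) : ℤ) from hw)
      rcases lt_trichotomy m l with h | h | h
      · have := pow3_le (show m + 1 ≤ l from h)
        linarith
      · subst h
        obtain ⟨n, hn⟩ := HZ_same (interior_subset hz) (show z ∈ HZ m ((b : ℕ) : ℤ) from hw)
        exact hne (by rw [idx_same hn])
      · have := pow3_le (show l + 1 ≤ m from h)
        linarith

lemma Lo_eq_inter {m : ℕ} {a : Fin (2 ^ m)} :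
    HH (some ⟨m, a⟩) ∩ HH (par (some ⟨m, a⟩)) = Lo m ((a : ℕ) : ℤ) := by
  ext z
  rcases m with _ | m
  · have hp : par (some ⟨0, a⟩) = none := rfl
    rw [hp]
    constructor
    · rintro ⟨h1, h2⟩
      apply mem_Lo h1
      have : z ∈ Metric.closedBall (0 : ℂ) 1 := h2
      rw [mem_closedBall_zero_iff] at this
      simpa using this
    · intro h
      refine ⟨Lo_sub_HZ h, ?_⟩
      show z ∈ Metric.closedBall (0 : ℂ) 1
      rw [mem_closedBall_zero_iff, Lo_norm h]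
      norm_num
  · have hlt : (a : ℕ) / 2 < 2 ^ m := half_lt a
    have hp : par (some ⟨m + 1, a⟩) = some ⟨m, ⟨(a : ℕ) / 2, hlt⟩⟩ := rfl
    rw [hp]
    constructor
    · rintro ⟨h1, h2⟩
      exact mem_Lo h1 (HZ_norm (show z ∈ HZ m (((a : ℕ) / 2 : ℕ) : ℤ) from h2)).2
    · intro h
      refine ⟨Lo_sub_HZ h, ?_⟩
      show z ∈ HZ m (((a : ℕ) / 2 : ℕ) : ℤ)
      apply Lo_sub_parent _ h
      omega

/-- The tree surface. -/
def XX : TreeSurface where
  V := VV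
  root := none
  parent := par
  depth := dep
  depth_root := rfl
  depth_parent := dep_par
  fin_children := by
    intro v
    apply Set.Finite.subset (fin_dep (dep v + 1))
    rintro w ⟨h1, h2⟩
    show dep w ≤ dep v + 1
    rw [dep_par w h1, h2]
  H := HH
  p := pp
  disc := by
    rintro (_ | ⟨m, i⟩)
    · exact ⟨Subtype.val, continuous_subtype_val, Subtype.val_injective, Subtype.range_val⟩
    · exact HZ_disc m _
  p_mem := by
    rintro (_ | ⟨m, i⟩)
    · show ((1 / 2 : ℝ) : ℂ) ∈ interior (Metric.closedBall (0 : ℂ) 1)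
      rw [interior_closedBall (0 : ℂ) (by norm_num), mem_ball_zero_iff, Complex.norm_real]
      norm_num
    · exact pZ_int m _
  arc := by
    rintro (_ | ⟨m, i⟩) h
    · exact absurd rfl h
    · rw [Lo_eq_inter]; exact Lo_arc m _
  disj := fun v w hne h => HH_disj v w hne (fun h1 => h (Or.inl h1)) (fun h2 => h (Or.inr h2))
  int_disj := HH_int_disj
  locfin := by
    intro K hK
    obtain ⟨M, hM⟩ := hK.isBounded.exists_norm_le
    obtain ⟨n, hn⟩ := pow_unbounded_of_one_lt M (by norm_num : (1 : ℝ) < 3)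
    apply Set.Finite.subset (fin_dep n)
    rintro (_ | ⟨m, i⟩) ⟨z, hz, hzK⟩
    · show 0 ≤ n
      omega
    · show m + 1 ≤ n
      by_contra hc
      push Not at hc
      have h1 := (HZ_norm (show z ∈ HZ m ((i : ℕ) : ℤ) from hz)).1
      have h2 := hM z hzK
      have h3 := pow3_le (show n ≤ m by omega)
      linarith

lemma HZ_mod (m : ℕ) (a : ℤ) : ∃ i : Fin (2 ^ m), HZ m a = HZ m ((i : ℕ) : ℤ) := by
  have hp : (0 : ℤ) < 2 ^ m := by positivity
  have h0 := Int.emod_nonneg a hp.ne'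
  have h1 := Int.emod_lt_of_pos a hp
  have h2 := Int.emod_add_mul_ediv a (2 ^ m)
  refine ⟨⟨(a % 2 ^ m).toNat, ?_⟩, ?_⟩
  · zify
    rw [Int.toNat_of_nonneg h0]
    exact h1
  · show HZ m a = HZ m ((a % 2 ^ m).toNat : ℤ)
    rw [Int.toNat_of_nonneg h0]
    conv_lhs => rw [← h2]
    rw [HZ_shift]

lemma S_eq : XX.S = SS := by
  apply Set.Subset.antisymm
  · apply Set.iUnion_subset
    rintro (_ | ⟨m, i⟩)
    · exact ball_SS
    · exact HZ_SS
  · intro z hz
    by_cases h : ‖z‖ ≤ 1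
    · exact Set.mem_iUnion.2 ⟨none, by show z ∈ Metric.closedBall (0 : ℂ) 1
                                       rwa [mem_closedBall_zero_iff]⟩
    · push Not at h
      obtain ⟨m, a, -, -, h3⟩ := cover hz h
      obtain ⟨i, hi⟩ := HZ_mod m a
      rw [hi] at h3
      exact Set.mem_iUnion.2 ⟨some ⟨m, i⟩, h3⟩

lemma rr_mem (k : ℕ) (j : ℤ) (z : ℂ) : rr k j z ∈ XX.S ↔ z ∈ XX.S := by
  rw [S_eq]; exact rr_mem_SS k j z

/-- The homeomorphism of the surface. -/
def rS (k : ℕ) (j : ℤ) : XX.Surf ≃ₜ XX.Surf where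
  toFun z := ⟨rr k j z, (rr_mem k j z).2 z.2⟩
  invFun z := ⟨rr k (-j) z, (rr_mem k (-j) z).2 z.2⟩
  left_inv z := Subtype.ext (by
    show rr k (-j) (rr k j z) = z
    rw [rr_rr, neg_add_cancel, rr_zero])
  right_inv z := Subtype.ext (by
    show rr k j (rr k (-j) z) = z
    rw [rr_rr, add_neg_cancel, rr_zero])
  continuous_toFun := by
    exact ((rr_cont k j).comp continuous_subtype_val).subtype_mk _
  continuous_invFun := by
    exact ((rr_cont k (-j)).comp continuous_subtype_val).subtype_mk _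

lemma rS_coe (k : ℕ) (j : ℤ) (z : XX.Surf) : ((rS k j z : XX.Surf) : ℂ) = rr k j z := rfl

lemma rS_mul (k : ℕ) (i j : ℤ) : rS k i * rS k j = rS k (i + j) := by
  apply Homeomorph.ext
  intro z
  apply Subtype.ext
  exact rr_rr k i j z

lemma rS_succ (k : ℕ) (j : ℤ) : rS (k + 1) (2 * j) = rS k j := by
  apply Homeomorph.ext
  intro z
  apply Subtype.ext
  exact rr_succ k j z

lemma rS_zero (k : ℕ) : rS k 0 = 1 := by
  apply Homeomorph.ext
  intro z
  apply Subtype.ext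
  exact rr_zero k z

lemma q_one_of {k : ℕ} {j : ℤ} {x : ℝ} (h : psi (R k j x) = psi x) : q k j x = 1 := by
  unfold q
  rw [h, div_self]
  exact (lt_max_of_lt_right one_pos : (0 : ℝ) < max (3 ^ k * psi x) 1).ne'

lemma rr_norm_le {k : ℕ} {j : ℤ} {z : ℂ} (hz : z ∈ SS) (h : ‖z‖ ≤ 3 ^ k) :
    ‖rr k j z‖ ≤ 3 ^ k := by
  have hn : ‖rr k j z‖ = ‖z‖ * q k j (ang z) := by
    unfold rr
    rw [norm_polar (mul_nonneg (norm_nonneg _) (q_pos _ _ _).le)]
  rw [hn]
  by_cases hc : 3 ^ k * psi (R k j (ang z)) < 1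
  · have h1 := psi_R_lt (j := -j) hc
    rw [R_R, neg_add_cancel, R_zero] at h1
    rw [q_one_of h1.symm, mul_one]
    exact h
  · push Not at hc
    have h1 : ‖z‖ * q k j (ang z) * psi (R k j (ang z)) ≤ 1 := by
      rw [mul_assoc, q_psi]; exact hz
    have h2 : 0 ≤ ‖z‖ * q k j (ang z) := mul_nonneg (norm_nonneg _) (q_pos _ _ _).le
    have h3 := pow3_pos k
    calc ‖z‖ * q k j (ang z) = (‖z‖ * q k j (ang z)) * 1 := by ring
      _ ≤ (‖z‖ * q k j (ang z)) * (3 ^ k * psi (R k j (ang z))) :=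
          mul_le_mul_of_nonneg_left hc h2
      _ = 3 ^ k * (‖z‖ * q k j (ang z) * psi (R k j (ang z))) := by ring
      _ ≤ 3 ^ k * 1 := mul_le_mul_of_nonneg_left h1 h3.le
      _ = 3 ^ k := mul_one _

lemma rr_HZ {k m : ℕ} (hk : k ≤ m) (j a : ℤ) {z : ℂ} (hz : z ∈ HZ m a) :
    rr k j z ∈ HZ m (a + 2 ^ (m - k) * j) := by
  obtain ⟨t, x, rfl, h1, h2, h3, h4, h5⟩ := hz
  have ht : 0 ≤ t := (pow3_pos m).le.trans h3
  have e1 := D_R_ge hk j x
  have g1 : ((a + 2 ^ (m - k) * j : ℤ) : ℝ) + 1 / 10 ≤ (DI ^ m) (R k j x) := by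
    rw [e1]; push_cast; linarith
  have g2 : (DI ^ m) (R k j x) ≤ ((a + 2 ^ (m - k) * j : ℤ) : ℝ) + 9 / 10 := by
    rw [e1]; push_cast; linarith
  have e2 := psi_W g1 g2
  have e3 := psi_W h1 h2
  have e4 : psi ((DI ^ m) (R k j x)) = psi ((DI ^ m) x) := by
    rw [e1]
    have := psi_add_int ((DI ^ m) x) (2 ^ (m - k) * j)
    push_cast at this
    exact this
  rw [e4, ← e3] at e2
  have e5 := mul_left_cancel₀ (pow3_pos m).ne' e2
  rw [rr_polar k j ht, q_one_of e5, mul_one]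
  exact ⟨t, R k j x, rfl, g1, g2, h3, h4, by rw [e5]; exact h5⟩

lemma mem_reg_ball {k : ℕ} {z : XX.Surf} : z ∈ XX.reg (XX.ball k) ↔ ‖(z : ℂ)‖ ≤ 3 ^ k := by
  constructor
  · intro h
    simp only [TreeSurface.reg, Set.mem_iUnion] at h
    obtain ⟨v, hv, hz⟩ := h
    rw [TreeSurface.mem_ball] at hv
    exact (HH_norm_le (show (z : ℂ) ∈ HH v from hz)).trans (pow3_le hv)
  · intro h
    simp only [TreeSurface.reg, Set.mem_iUnion]
    have hz : (z : ℂ) ∈ SS := by rw [← S_eq]; exact z.2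
    by_cases h1 : ‖(z : ℂ)‖ ≤ 1
    · refine ⟨(none : VV), ?_, ?_⟩
      · rw [TreeSurface.mem_ball]; exact Nat.zero_le _
      · show (z : ℂ) ∈ Metric.closedBall (0 : ℂ) 1
        rwa [mem_closedBall_zero_iff]
    · push Not at h1
      obtain ⟨m, a, h2, -, h3⟩ := cover hz h1
      obtain ⟨i, hi⟩ := HZ_mod m a
      rw [hi] at h3
      refine ⟨(some ⟨m, i⟩ : VV), ?_, h3⟩
      rw [TreeSurface.mem_ball]
      show m + 1 ≤ k
      by_contra hc
      have := pow3_le (show k ≤ m by omega)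
      linarith

lemma img {k m : ℕ} (hk : k ≤ m) {j a : ℤ} {v w : XX.V} (hv : XX.H v = HZ m a)
    (hw : XX.H w = HZ m (a + 2 ^ (m - k) * j)) : rS k j '' XX.poly v = XX.poly w := by
  ext z
  constructor
  · rintro ⟨y, hy, rfl⟩
    have hy' : (y : ℂ) ∈ HZ m a := by rw [← hv]; exact hy
    show rr k j y ∈ XX.H w
    rw [hw]
    exact rr_HZ hk j a hy'
  · intro hz
    have hz' : (z : ℂ) ∈ HZ m (a + 2 ^ (m - k) * j) := by rw [← hw]; exact hz
    refine ⟨(rS k j).symm z, ?_, (rS k j).apply_symm_apply z⟩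
    show rr k (-j) z ∈ XX.H v
    rw [hv]
    have := rr_HZ hk (-j) _ hz'
    rwa [show a + 2 ^ (m - k) * j + 2 ^ (m - k) * -j = a by ring] at this

lemma rS_match (k : ℕ) (j : ℤ) : XX.Match (rS k j) (XX.ball k) (XX.ball k) := by
  refine ⟨?_, ?_, ?_⟩
  · ext z
    constructor
    · rintro ⟨y, hy, rfl⟩
      rw [mem_reg_ball] at hy ⊢
      exact rr_norm_le (by rw [← S_eq]; exact y.2) hy
    · intro hz
      refine ⟨(rS k j).symm z, ?_, (rS k j).apply_symm_apply z⟩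
      rw [mem_reg_ball] at hz ⊢
      exact rr_norm_le (by rw [← S_eq]; exact z.2) hz
  · intro v hv
    rw [TreeSurface.mem_ball] at hv
    rcases v with _ | ⟨m, i⟩
    · exact absurd (Nat.zero_le k) hv
    · have hk : k ≤ m := by
        have : ¬ (m + 1 ≤ k) := hv
        omega
      obtain ⟨i', hi'⟩ := HZ_mod m ((i : ℕ) + 2 ^ (m - k) * j)
      refine ⟨(some ⟨m, i'⟩ : VV), ?_, img hk (a := (i : ℕ)) rfl hi'.symm⟩
      rw [TreeSurface.mem_ball]
      show ¬ (m + 1 ≤ k)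
      omega
  · intro w hw
    rw [TreeSurface.mem_ball] at hw
    rcases w with _ | ⟨m, i⟩
    · exact absurd (Nat.zero_le k) hw
    · have hk : k ≤ m := by
        have : ¬ (m + 1 ≤ k) := hw
        omega
      obtain ⟨i', hi'⟩ := HZ_mod m ((i : ℕ) - 2 ^ (m - k) * j)
      refine ⟨(some ⟨m, i'⟩ : VV), ?_, img hk (a := (i : ℕ) - 2 ^ (m - k) * j) hi'.symm ?_⟩
      · rw [TreeSurface.mem_ball]
        show ¬ (m + 1 ≤ k)
        omega
      · rw [sub_add_cancel]; rfl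

lemma rS_rigid (k : ℕ) (j : ℤ) : XX.AsympRigid (rS k j) :=
  ⟨XX.ball k, XX.ball k, TreeSurface.reg_ball_connected k, TreeSurface.reg_ball_connected k,
    rS_match k j⟩

lemma rS_orient (k : ℕ) (j : ℤ) : XX.OrientPres (rS k j) := by
  refine ⟨⟨⟨fun p => ⟨iso k j p.1 (p.2.1.1 : ℂ) - iso k j p.1 (p.2.1.2 : ℂ), ?_⟩, ?_⟩, ?_, ?_⟩⟩
  · intro h
    have h1 := iso_inj k j p.1.2.1 p.1.2.2 (sub_eq_zero.1 h)
    exact p.2.2 (Subtype.ext h1)
  · apply Continuous.subtype_mk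
    apply Continuous.sub
    · exact (iso_cont k j).comp (by fun_prop :
        Continuous (fun p : unitInterval × XX.Conf => (p.1, (p.2.1.1 : ℂ))))
    · exact (iso_cont k j).comp (by fun_prop :
        Continuous (fun p : unitInterval × XX.Conf => (p.1, (p.2.1.2 : ℂ))))
  · intro q
    apply Subtype.ext
    show iso k j (0 : unitInterval) (q.1.1 : ℂ) - iso k j (0 : unitInterval) (q.1.2 : ℂ) =
      (q.1.1 : ℂ) - q.1.2
    have e : ((0 : unitInterval) : ℝ) = 0 := rfl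
    rw [e, iso_zero, iso_zero]
  · intro q
    apply Subtype.ext
    show iso k j (1 : unitInterval) (q.1.1 : ℂ) - iso k j (1 : unitInterval) (q.1.2 : ℂ) =
      rr k j (q.1.1 : ℂ) - rr k j q.1.2
    have e : ((1 : unitInterval) : ℝ) = 1 := rfl
    rw [e, iso_one, iso_one]

end

end Pool.Agent.V11131.Mod
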