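import Pool.Agent.V11131.Mod6

/-!
Punctures, the subgroup, and its properties.
-/

namespace Pool.Agent.V11131.Mod

open Set Filter Topology

noncomputable section

lemma DI_int (n : ℤ) : DI (n : ℝ) = 2 * n := by
  rw [DI_near (n := n) (by simp)]; ring

lemma DI_pow_int (k : ℕ) (n : ℤ) : (DI ^ k) (n : ℝ) = 2 ^ k * n := by
  induction k with
  | zero => simp
  | succ k ih =>
    rw [DI_pow_succ', ih]
    have := DI_int (2 ^ k * n)
    push_cast at this
    rw [this, pow_succ]; ring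

/-- Explicit description of the set of punctures. -/
def PP : Set ℂ := {z | ∃ t x : ℝ, z = t * E x ∧ t * psi x = 1 / 2 ∧ 0 ≤ t ∧
  ∃ n : ℕ, ∃ i : ℤ, (DI ^ n) x = i}

lemma symm_add (m : ℕ) (y : ℝ) (n : ℤ) :
    (DI ^ m).symm (y + 2 ^ m * n) = (DI ^ m).symm y + n := by
  apply (DI ^ m).injective
  rw [DI_pow_add_int]
  have e1 : (DI ^ m) ((DI ^ m).symm (y + 2 ^ m * n)) = y + 2 ^ m * n :=
    (DI ^ m).apply_symm_apply _
  have e2 : (DI ^ m) ((DI ^ m).symm y) = y := (DI ^ m).apply_symm_apply _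
  rw [e1, e2]

lemma pZ_mod (m : ℕ) (a : ℤ) : ∃ i : Fin (2 ^ m), pZ m a = pZ m ((i : ℕ) : ℤ) := by
  have hp : (0 : ℤ) < 2 ^ m := by positivity
  have h0 := Int.emod_nonneg a hp.ne'
  have h1 := Int.emod_lt_of_pos a hp
  have h2 := Int.emod_add_mul_ediv a (2 ^ m)
  refine ⟨⟨(a % 2 ^ m).toNat, ?_⟩, ?_⟩
  · zify
    rw [Int.toNat_of_nonneg h0]
    exact h1
  · show pZ m a = pZ m ((a % 2 ^ m).toNat : ℤ)
    rw [Int.toNat_of_nonneg h0]
    have h3 : (a : ℝ) + 1 / 2 = ((a % 2 ^ m : ℤ) : ℝ) + 1 / 2 + 2 ^ m * ((a / 2 ^ m : ℤ) : ℝ) := by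
      have : (a : ℝ) = ((a % 2 ^ m + 2 ^ m * (a / 2 ^ m) : ℤ) : ℝ) := by rw [h2]
      rw [this]; push_cast; ring
    unfold pZ
    rw [h3, symm_add, E_add_int]

lemma punct_iff (z : ℂ) : (∃ v : VV, z = pp v) ↔ z ∈ PP := by
  constructor
  · rintro ⟨_ | ⟨m, i⟩, rfl⟩
    · refine ⟨1 / 2, 0, ?_, ?_, by norm_num, 0, 0, by simp⟩
      · show ((1 / 2 : ℝ) : ℂ) = _
        rw [E_zero, mul_one]
      · rw [psi_near (x := 0) (n := 0) (by simp)]; norm_num
    · refine ⟨3 ^ (m + 1) / 2, _, rfl, ?_, by positivity, m + 1, 2 * ((i : ℕ) : ℤ) + 1, ?_⟩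
      · have := psi_pZ m ((i : ℕ) : ℤ)
        rw [pow_succ]
        linarith
      · rw [DI_pow_succ']
        have e : (DI ^ m) ((DI ^ m).symm ((((i : ℕ) : ℤ) : ℝ) + 1 / 2)) = (((i : ℕ) : ℤ) : ℝ) + 1 / 2 :=
          (DI ^ m).apply_symm_apply _
        rw [e, DI_mid (n := ((i : ℕ) : ℤ)) (by linarith) (by linarith)]
        push_cast; ring
  · rintro ⟨t, x, rfl, h1, h0, hn⟩
    classical
    have hs := Nat.find_spec hn
    have hmin := fun k => Nat.find_min hn (m := k)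
    rcases hm : Nat.find hn with _ | m
    · rw [hm] at hs
      obtain ⟨i, hi⟩ := hs
      have hx : x = i := by simpa using hi
      refine ⟨none, ?_⟩
      rw [hx, psi_near (x := (i : ℝ)) (n := i) (by simp), mul_one] at h1
      rw [hx, E_int, h1, mul_one]; rfl
    · rw [hm] at hs
      obtain ⟨i, hi⟩ := hs
      have hni : ∀ j : ℤ, (DI ^ m) x ≠ j := by
        intro j hj
        exact hmin m (by omega) ⟨j, hj⟩
      rw [DI_pow_succ'] at hi
      set y := (DI ^ m) x with hy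
      set a := ⌊y⌋ with ha
      have a1 : (a : ℝ) < y := lt_of_le_of_ne (Int.floor_le y) (hni a).symm
      have a2 : y < (a : ℝ) + 1 := Int.lt_floor_add_one y
      have b1 : DI (a : ℝ) < DI y := DI.strictMono a1
      have b2 : DI y < DI ((a + 1 : ℤ) : ℝ) := DI.strictMono (by push_cast; exact a2)
      rw [DI_int, hi] at b1 b2
      have c1 : 2 * a < i := by exact_mod_cast b1
      have c2 : i < 2 * (a + 1) := by exact_mod_cast b2
      have c3 : i = 2 * a + 1 := by omega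
      have hya : y = a + 1 / 2 := by
        apply DI.injective
        rw [hi, c3, DI_mid (n := a) (by linarith) (by linarith)]
        push_cast; ring
      have hx : x = (DI ^ m).symm ((a : ℝ) + 1 / 2) := by
        rw [← hya, hy]; exact ((DI ^ m).symm_apply_apply x).symm
      have h3 := psi_pZ m a
      rw [← hx] at h3
      have ht : t = 3 ^ (m + 1) / 2 := by
        have hp := pow3_pos m
        have hpsi : psi x ≠ 0 := by
          intro h; rw [h] at h3; norm_num at h3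
        apply mul_right_cancel₀ hpsi
        rw [h1, pow_succ]
        linarith
      obtain ⟨i', hi'⟩ := pZ_mod m a
      refine ⟨some ⟨m, i'⟩, ?_⟩
      show (t : ℂ) * E x = pZ m ((i' : ℕ) : ℤ)
      rw [← hi', ht, hx]; rfl

lemma mem_punct (z : XX.Surf) : z ∈ XX.punct ↔ (z : ℂ) ∈ PP := punct_iff z

lemma rr_PP (k : ℕ) (j : ℤ) {z : ℂ} (h : z ∈ PP) : rr k j z ∈ PP := by
  obtain ⟨t, x, rfl, h1, h0, n, i, hi⟩ := h
  rw [rr_polar k j h0]
  refine ⟨_, _, rfl, by rw [mul_assoc, q_psi]; exact h1, mul_nonneg h0 (q_pos _ _ _).le,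
    n + k, 2 ^ k * i + 2 ^ n * j, ?_⟩
  rw [D_R_ge (by omega : k ≤ n + k)]
  have e : (DI ^ (n + k)) x = (DI ^ k) ((DI ^ n) x) := by
    rw [add_comm, pow_add]; rfl
  rw [e, hi, DI_pow_int, show n + k - k = n by omega]
  push_cast; ring

lemma rS_punct (k : ℕ) (j : ℤ) : rS k j '' XX.punct = XX.punct := by
  ext z
  constructor
  · rintro ⟨y, hy, rfl⟩
    rw [mem_punct] at hy ⊢
    exact rr_PP k j hy
  · intro hz
    refine ⟨(rS k j).symm z, ?_, (rS k j).apply_symm_apply z⟩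
    rw [mem_punct] at hz ⊢
    exact rr_PP k (-j) hz

/-- The elements of the group of asymptotically rigid homeomorphisms. -/
def gg (k : ℕ) (j : ℤ) : XX.AR := ⟨rS k j, rS_rigid k j, rS_orient k j, rS_punct k j⟩

lemma gg_mul (k : ℕ) (i j : ℤ) : gg k i * gg k j = gg k (i + j) := Subtype.ext (rS_mul k i j)

lemma gg_succ (k : ℕ) (j : ℤ) : gg (k + 1) (2 * j) = gg k j := Subtype.ext (rS_succ k j)

lemma gg_zero (k : ℕ) : gg k 0 = 1 := Subtype.ext (rS_zero k)

lemma gg_inv (k : ℕ) (j : ℤ) : (gg k j)⁻¹ = gg k (-j) := by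
  rw [inv_eq_iff_mul_eq_one, gg_mul, add_neg_cancel, gg_zero]

lemma gg_up (k n : ℕ) (j : ℤ) : gg (k + n) (2 ^ n * j) = gg k j := by
  induction n with
  | zero => simp
  | succ n ih =>
    rw [← add_assoc, pow_succ, show (2 : ℤ) ^ n * 2 * j = 2 * (2 ^ n * j) by ring, gg_succ, ih]

lemma gg_pow (k : ℕ) (j : ℤ) (n : ℕ) : gg k j ^ n = gg k (n * j) := by
  induction n with
  | zero => simp [gg_zero]
  | succ n ih =>
    rw [pow_succ, ih, gg_mul]
    congr 1
    push_cast; ring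

lemma gg_full (k : ℕ) (j : ℤ) : gg k (2 ^ k * j) = 1 := by
  induction k with
  | zero =>
    apply Subtype.ext
    apply Homeomorph.ext
    intro z
    apply Subtype.ext
    show rr 0 (2 ^ 0 * j) z = z
    rw [pow_zero, one_mul]
    conv_lhs => rw [polar (z : ℂ)]
    have hR : ∀ x, R 0 j x = x + j := by
      intro x
      have := D_R 0 j x
      simpa using this
    have hq : q 0 j (ang z) = 1 := q_one_of (by rw [hR, psi_add_int])
    rw [rr_polar 0 _ (norm_nonneg _), hq, hR, mul_one, E_add_int]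
    exact (polar (z : ℂ)).symm
  | succ k ih =>
    rw [pow_succ, show (2 : ℤ) ^ k * 2 * j = 2 * (2 ^ k * j) by ring, gg_succ, ih]

/-- The class in the mapping class group. -/
def cl (k : ℕ) (j : ℤ) : XX.MCG := QuotientGroup.mk (gg k j)

lemma cl_mul (k : ℕ) (i j : ℤ) : cl k i * cl k j = cl k (i + j) := by
  unfold cl; rw [← gg_mul]; rfl

lemma cl_zero (k : ℕ) : cl k 0 = 1 := by unfold cl; rw [gg_zero]; rfl

lemma cl_inv (k : ℕ) (j : ℤ) : (cl k j)⁻¹ = cl k (-j) := by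
  rw [inv_eq_iff_mul_eq_one, cl_mul, add_neg_cancel, cl_zero]

lemma cl_up (k n : ℕ) (j : ℤ) : cl (k + n) (2 ^ n * j) = cl k j := by
  unfold cl; rw [gg_up]

lemma cl_pow (k : ℕ) (j : ℤ) (n : ℕ) : cl k j ^ n = cl k (n * j) := by
  unfold cl; rw [← gg_pow]; rfl

lemma cl_full (k : ℕ) (j : ℤ) : cl k (2 ^ k * j) = 1 := by
  unfold cl; rw [gg_full]; rfl

lemma cl_common (k l : ℕ) (i j : ℤ) : cl k i = cl (k + l) (2 ^ l * i) ∧
    cl l j = cl (k + l) (2 ^ k * j) := by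
  refine ⟨(cl_up k l i).symm, ?_⟩
  rw [add_comm k l]
  exact (cl_up l k j).symm

lemma isotopic_fix {φ : XX.Surf ≃ₜ XX.Surf} (h : XX.IsotopicId φ) {z : XX.Surf} (hz : z ∈ XX.punct) :
    φ z = z := by
  obtain ⟨Φ, -, -, h3, h4⟩ := h
  have e1 := h3 z
  rw [h4 1 z hz] at e1
  exact (congrArg Prod.snd e1).symm

lemma cl_eq {k : ℕ} {i j : ℤ} (h : cl k i = cl k j) : ∃ n : ℤ, j - i = 2 ^ k * n := by
  unfold cl at h
  rw [QuotientGroup.eq, gg_inv, gg_mul] at h
  have h' : XX.IsotopicId (rS k (-i + j)) := h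
  have hmem : (((1 / 2 : ℝ) : ℂ)) ∈ XX.S := by
    apply TreeSurface.H_subset (X := XX) (none : VV)
    exact interior_subset (XX.p_mem (none : VV))
  have hp : (⟨((1 / 2 : ℝ) : ℂ), hmem⟩ : XX.Surf) ∈ XX.punct := ⟨(none : VV), rfl⟩
  have h1 := isotopic_fix h' hp
  have h2 : rr k (-i + j) ((1 / 2 : ℝ) : ℂ) = ((1 / 2 : ℝ) : ℂ) := congrArg Subtype.val h1
  have h3 : (((1 / 2 : ℝ) : ℂ)) = ((1 / 2 : ℝ) : ℂ) * E 0 := by rw [E_zero, mul_one]
  rw [h3, rr_polar k _ (by norm_num)] at h2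
  obtain ⟨-, n, hn⟩ := polar_unique (mul_pos (by norm_num) (q_pos _ _ _)) (by norm_num) h2
  refine ⟨n, ?_⟩
  have h4 := D_R k (-i + j) 0
  have h5 : (DI ^ k) (0 : ℝ) = 0 := by
    have := DI_pow_int k 0
    simpa using this
  rw [hn, zero_add, DI_pow_int, h5, zero_add] at h4
  have h6 : 2 ^ k * n = -i + j := by exact_mod_cast h4
  rw [h6]; ring

/-- The subgroup of all the classes. -/
def TT : Subgroup XX.MCG where
  carrier := {x | ∃ k j, x = cl k j}
  mul_mem' := by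
    rintro _ _ ⟨k, i, rfl⟩ ⟨l, j, rfl⟩
    obtain ⟨e1, e2⟩ := cl_common k l i j
    exact ⟨k + l, _, by rw [e1, e2, cl_mul]⟩
  one_mem' := ⟨0, 0, (cl_zero 0).symm⟩
  inv_mem' := by
    rintro _ ⟨k, i, rfl⟩
    exact ⟨k, -i, cl_inv k i⟩

lemma TT_comm : ∀ x ∈ TT, ∀ y ∈ TT, x * y = y * x := by
  rintro _ ⟨k, i, rfl⟩ _ ⟨l, j, rfl⟩
  obtain ⟨e1, e2⟩ := cl_common k l i j
  rw [e1, e2, cl_mul, cl_mul, add_comm (2 ^ l * i)]

lemma TT_torsion (x : TT) : ∃ k : ℕ, x ^ (2 ^ k) = 1 := by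
  obtain ⟨_, k, j, rfl⟩ := x
  refine ⟨k, Subtype.ext ?_⟩
  show cl k j ^ (2 ^ k) = 1
  rw [cl_pow]
  push_cast
  exact cl_full k j

lemma TT_div (x : TT) : ∃ y : TT, y * y = x := by
  obtain ⟨_, k, j, rfl⟩ := x
  refine ⟨⟨cl (k + 1) j, k + 1, j, rfl⟩, Subtype.ext ?_⟩
  show cl (k + 1) j * cl (k + 1) j = cl k j
  rw [cl_mul, ← cl_up k 1 j]
  congr 1; ring

lemma TT_isTorsion : ∀ x : TT, IsOfFinOrder x := by
  intro x
  obtain ⟨k, hk⟩ := TT_torsion x
  exact isOfFinOrder_iff_pow_eq_one.2 ⟨2 ^ k, by positivity, hk⟩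

lemma TT_infinite : Infinite TT := by
  apply Infinite.of_injective (fun k : ℕ => (⟨cl k 1, k, 1, rfl⟩ : TT))
  have key : ∀ k l : ℕ, k < l → cl k 1 ≠ cl l 1 := by
    intro k l hkl h
    obtain ⟨n, rfl⟩ := Nat.exists_eq_add_of_lt hkl
    have e := cl_up k (n + 1) 1
    rw [mul_one, ← add_assoc] at e
    rw [← e] at h
    obtain ⟨c, hc⟩ := cl_eq h
    have h1 : (2 : ℤ) ^ (n + 1) = 2 * 2 ^ n := by rw [pow_succ]; ring
    have h2 : (2 : ℤ) ^ (k + n + 1) = 2 * 2 ^ (k + n) := by rw [pow_succ]; ring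
    rw [h1, h2, mul_assoc] at hc
    omega
  intro k l h
  have h' : cl k 1 = cl l 1 := congrArg Subtype.val h
  rcases lt_trichotomy k l with hkl | hkl | hkl
  · exact absurd h' (key k l hkl)
  · exact hkl
  · exact absurd h'.symm (key l k hkl)

lemma TT_not_sum (ι : Type) (C : ι → Type) [∀ i, AddCommGroup (C i)]
    (hC : ∀ i, IsAddCyclic (C i)) : IsEmpty (Additive TT ≃+ DirectSum ι C) := by
  classical
  constructor
  intro e
  have hne : cl 1 1 ≠ 1 := by
    rw [← cl_zero 1]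
    intro h
    obtain ⟨c, hc⟩ := cl_eq h
    omega
  set x : Additive TT := Additive.ofMul ⟨cl 1 1, 1, 1, rfl⟩ with hx
  have hx0 : x ≠ 0 := by
    intro h
    apply hne
    have : (⟨cl 1 1, 1, 1, rfl⟩ : TT) = 1 := h
    exact congrArg Subtype.val this
  have hex : e x ≠ 0 := by
    intro h
    apply hx0
    apply e.injective
    rw [h, map_zero]
  obtain ⟨i, hi⟩ : ∃ i, (e x) i ≠ 0 := by
    by_contra hc
    push Not at hc
    exact hex (DFinsupp.ext hc)
  set F : Additive TT → C i := fun y => (e y) i with hF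
  have Fadd : ∀ y z, F (y + z) = F y + F z := by
    intro y z
    simp only [hF, map_add]
    rfl
  have F0 : F 0 = 0 := by
    simp only [hF, map_zero]
    rfl
  have Fn : ∀ (n : ℕ) y, F (n • y) = n • F y := by
    intro n y
    induction n with
    | zero => rw [zero_nsmul, zero_nsmul, F0]
    | succ n ih => rw [succ_nsmul, succ_nsmul, Fadd, ih]
  have Fs : ∀ c : C i, ∃ y, F y = c := by
    intro c
    refine ⟨e.symm (DirectSum.of C i c), ?_⟩
    simp only [hF]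
    rw [e.apply_symm_apply, DirectSum.of_eq_same]
  obtain ⟨g, hg⟩ := (hC i).exists_generator
  obtain ⟨y, hy⟩ := Fs g
  obtain ⟨k, hk⟩ := TT_torsion y.toMul
  have hk' : (2 ^ k) • y = 0 := hk
  have h1 : (2 ^ k : ℕ) • g = 0 := by rw [← hy, ← Fn, hk', F0]
  obtain ⟨w, hw⟩ := TT_div y.toMul
  have hw' : Additive.ofMul w + Additive.ofMul w = y := hw
  obtain ⟨n, hn⟩ := hg (F (Additive.ofMul w))
  have h2 : F (Additive.ofMul w) + F (Additive.ofMul w) = g := by rw [← Fadd, hw', hy]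
  have hn' : n • g = F (Additive.ofMul w) := hn
  rw [← hn', ← add_zsmul] at h2
  have h3 : (n + n - 1) • g = 0 := by rw [sub_zsmul, h2, one_zsmul, add_neg_cancel]
  have h4 : ((2 : ℤ) ^ k) • g = 0 := by
    have : ((2 ^ k : ℕ) : ℤ) • g = 0 := by rw [natCast_zsmul]; exact h1
    push_cast at this
    exact this
  have hcop : IsCoprime (n + n - 1) ((2 : ℤ) ^ k) := by
    apply IsCoprime.pow_right
    exact ⟨-1, n, by ring⟩
  obtain ⟨a, b, hab⟩ := hcop
  have hg0 : g = 0 := by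
    calc g = (1 : ℤ) • g := (one_zsmul g).symm
      _ = (a * (n + n - 1) + b * 2 ^ k) • g := by rw [hab]
      _ = 0 := by rw [add_zsmul, mul_zsmul, mul_zsmul, h3, h4, zsmul_zero, zsmul_zero, add_zero]
  obtain ⟨m, hm⟩ := hg (F x)
  apply hi
  have : m • g = (e x) i := hm
  rw [← this, hg0, zsmul_zero]

lemma XX_root : {w : XX.V | w ≠ XX.root ∧ XX.parent w = XX.root}.ncard = 1 := by
  have : {w : XX.V | w ≠ XX.root ∧ XX.parent w = XX.root} = {(some ⟨0, 0⟩ : VV)} := by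
    ext w
    constructor
    · rintro ⟨h1, h2⟩
      rcases w with _ | ⟨_ | m, i⟩
      · exact absurd rfl h1
      · show (some ⟨0, i⟩ : VV) = some ⟨0, 0⟩
        have : i = 0 := Subsingleton.elim (α := Fin 1) i 0
        rw [this]
      · have h3 : (some ⟨m, ⟨(i : ℕ) / 2, half_lt i⟩⟩ : VV) = none := h2
        simp at h3
    · rintro rfl
      exact ⟨by show (some _ : VV) ≠ none; simp, rfl⟩
  rw [this]
  exact Set.ncard_singleton _

lemma XX_children (v : XX.V) (hv : v ≠ XX.root) :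
    {w : XX.V | w ≠ XX.root ∧ XX.parent w = v}.ncard = 2 := by
  rcases v with _ | ⟨m, a⟩
  · exact absurd rfl hv
  · have l1 : 2 * (a : ℕ) < 2 ^ (m + 1) := by
      have := a.2
      have e : 2 ^ (m + 1) = 2 ^ m * 2 := pow_succ 2 m
      omega
    have l2 : 2 * (a : ℕ) + 1 < 2 ^ (m + 1) := by
      have := a.2
      have e : 2 ^ (m + 1) = 2 ^ m * 2 := pow_succ 2 m
      omega
    have : {w : XX.V | w ≠ XX.root ∧ XX.parent w = (some ⟨m, a⟩ : VV)} =
        {(some ⟨m + 1, ⟨2 * (a : ℕ), l1⟩⟩ : VV), (some ⟨m + 1, ⟨2 * (a : ℕ) + 1, l2⟩⟩ : VV)} := by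
      ext w
      constructor
      · rintro ⟨h1, h2⟩
        rcases w with _ | ⟨_ | l, i⟩
        · exact absurd rfl h1
        · have h3 : (none : VV) = some ⟨m, a⟩ := h2
          simp at h3
        · have h3 : (some ⟨l, ⟨(i : ℕ) / 2, half_lt i⟩⟩ : VV) = some ⟨m, a⟩ := h2
          have h4 := Option.some.inj h3
          have h5 : l = m := congrArg Sigma.fst h4
          subst h5
          have h6 : (⟨(i : ℕ) / 2, half_lt i⟩ : Fin (2 ^ l)) = a := by
            simpa using h4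
          have h7 : (i : ℕ) / 2 = a := congrArg Fin.val h6
          have h8 : (i : ℕ) = 2 * a ∨ (i : ℕ) = 2 * a + 1 := by omega
          rcases h8 with h8 | h8
          · left
            show (some ⟨l + 1, i⟩ : VV) = some ⟨l + 1, ⟨2 * (a : ℕ), l1⟩⟩
            congr 2
            exact Fin.ext h8
          · right
            show (some ⟨l + 1, i⟩ : VV) = some ⟨l + 1, ⟨2 * (a : ℕ) + 1, l2⟩⟩
            congr 2
            exact Fin.ext h8
      · rintro (rfl | rfl)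
        · refine ⟨by show (some _ : VV) ≠ none; simp, ?_⟩
          exact par_eq (by show 2 * (a : ℕ) / 2 = a; omega)
        · refine ⟨by show (some _ : VV) ≠ none; simp, ?_⟩
          exact par_eq (by show (2 * (a : ℕ) + 1) / 2 = a; omega)
    rw [this]
    apply Set.ncard_pair
    intro h
    have h4 := Option.some.inj h
    have h6 : (⟨2 * (a : ℕ), l1⟩ : Fin (2 ^ (m + 1))) = ⟨2 * (a : ℕ) + 1, l2⟩ := by
      simpa using h4
    have h7 : 2 * (a : ℕ) = 2 * a + 1 := congrArg Fin.val h6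
    omega

lemma XX_A21 : XX.IsA21 := ⟨XX_root, XX_children⟩

lemma MCG_inf : HasInfTorsion XX.MCG := by
  refine ⟨TT, TT_infinite, ?_, TT_comm, ?_, ?_⟩
  · intro x hx
    obtain ⟨k, hk⟩ := TT_torsion ⟨x, hx⟩
    exact isOfFinOrder_iff_pow_eq_one.2 ⟨2 ^ k, by positivity, congrArg Subtype.val hk⟩
  · intro x hx
    obtain ⟨k, hk⟩ := TT_torsion ⟨x, hx⟩
    exact ⟨k, congrArg Subtype.val hk⟩
  · intro x hx
    obtain ⟨y, hy⟩ := TT_div ⟨x, hx⟩
    exact ⟨y, y.2, congrArg Subtype.val hy⟩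

lemma MCG_bad : HasBadAbelian XX.MCG := by
  refine ⟨TT, TT_comm, ?_⟩
  rintro ⟨ι, C, inst, hC, ⟨e⟩⟩
  exact (TT_not_sum ι C hC).false e

end

end Pool.Agent.V11131.Mod
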