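import Mathlib

/-!
# Positive completions over a unital C*-algebra: the Douglas property

Scalar level lemmas and the key theorem `gram_factor`: if a unital C*-algebra `A` has the
factorization property `Douglas A` (`x* x ≤ y* y` implies `x = z y` with `z` a contraction of `A`)
then matrices over `A` of any size with `x* x = y* y` satisfy `x = z y` with a contractive
matrix `z` over `A`.
-/

open scoped Matrix

namespace Pool.Agent.V11131.PosComp

section scalar

variable {A : Type*} [CStarAlgebra A] [PartialOrder A] [StarOrderedRing A]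

theorem exists_root {c : A} (hc : 0 ≤ c) : ∃ g : A, 0 ≤ g ∧ star g = g ∧ g * g = c :=
  ⟨CFC.sqrt c, CFC.sqrt_nonneg c, (IsSelfAdjoint.of_nonneg (CFC.sqrt_nonneg c)).star_eq,
    CFC.sqrt_mul_sqrt_self c hc⟩

theorem eq_zero_of_star_mul {x : A} (h : star x * x = 0) : x = 0 :=
  (CStarRing.star_mul_self_eq_zero_iff x).1 h

theorem eq_zero_of_mul_star {x : A} (h : x * star x = 0) : x = 0 :=
  (CStarRing.mul_star_self_eq_zero_iff x).1 h

theorem sum_star_mul_self_eq_zero {ι : Type*} (s : Finset ι) (x : ι → A)
    (h : ∑ i ∈ s, star (x i) * x i = 0) : ∀ i ∈ s, x i = 0 := by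
  intro i hi
  have h1 := (Finset.sum_eq_zero_iff_of_nonneg (fun j _ => star_mul_self_nonneg (x j))).1 h i hi
  exact eq_zero_of_star_mul h1

theorem contr_iff (w : A) : star w * w ≤ 1 ↔ ‖w‖ ≤ 1 := by
  rw [← CStarAlgebra.norm_le_one_iff_of_nonneg _ (star_mul_self_nonneg w),
    CStarRing.norm_star_mul_self]
  constructor
  · intro h; nlinarith [norm_nonneg w]
  · intro h; nlinarith [norm_nonneg w]

theorem contr_star {w : A} (h : star w * w ≤ 1) : w * star w ≤ 1 := by
  have h1 : ‖star w‖ ≤ 1 := by rw [norm_star]; exact (contr_iff w).1 h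
  have h2 := (contr_iff (star w)).2 h1
  rwa [star_star] at h2

/-- The Douglas factorization property of a unital C*-algebra. -/
def Douglas (A : Type*) [CStarAlgebra A] [PartialOrder A] [StarOrderedRing A] : Prop :=
  ∀ x y : A, star x * x ≤ star y * y → ∃ z : A, x = z * y ∧ star z * z ≤ 1

theorem column (hD : Douglas A) {ι : Type*} (x : ι → A) (s : Finset ι) :
    ∀ y : A, ∑ i ∈ s, star (x i) * x i ≤ star y * y →
      ∃ v : ι → A, (∀ i ∈ s, x i = v i * y) ∧ ∑ i ∈ s, star (v i) * v i ≤ 1 := by
  classical
  induction s using Finset.induction_on with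
  | empty => intro y _; exact ⟨fun _ => 0, by simp, by simp⟩
  | insert a s ha ih =>
    intro y hy
    rw [Finset.sum_insert ha] at hy
    have h0 : star (x a) * x a ≤ star y * y :=
      le_trans (le_add_of_nonneg_right
        (Finset.sum_nonneg fun i _ => star_mul_self_nonneg (x i))) hy
    obtain ⟨z, hz, hz1⟩ := hD _ _ h0
    obtain ⟨g, hg0, hgs, hgg⟩ := exists_root (sub_nonneg.2 hz1)
    have h1 : ∑ i ∈ s, star (x i) * x i ≤ star (g * y) * (g * y) := by
      have e0 : star (g * y) * (g * y) = star y * y - star (x a) * x a := by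
        rw [hz, star_mul, star_mul, hgs]
        calc star y * g * (g * y) = star y * (g * g) * y := by noncomm_ring
          _ = star y * (1 - star z * z) * y := by rw [hgg]
          _ = _ := by noncomm_ring
      rw [e0]
      exact le_sub_iff_add_le'.2 hy
    obtain ⟨w, hw, hw1⟩ := ih _ h1
    refine ⟨fun i => if i = a then z else w i * g, ?_, ?_⟩
    · intro i hi
      rcases Finset.mem_insert.1 hi with rfl | hi'
      · simpa using hz
      · have hne : i ≠ a := fun h => ha (h ▸ hi')
        simp only [hne, if_false]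
        rw [hw i hi', mul_assoc]
    · rw [Finset.sum_insert ha]
      have e1 : ∑ i ∈ s, star (if i = a then z else w i * g) * (if i = a then z else w i * g)
          = star g * (∑ i ∈ s, star (w i) * w i) * g := by
        rw [Finset.mul_sum, Finset.sum_mul]
        refine Finset.sum_congr rfl fun i hi => ?_
        have hne : i ≠ a := fun h => ha (h ▸ hi)
        simp only [hne, if_false, star_mul]
        noncomm_ring
      rw [e1]
      simp only [if_true]
      calc star z * z + star g * (∑ i ∈ s, star (w i) * w i) * g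
          ≤ star z * z + star g * 1 * g :=
            add_le_add le_rfl (star_left_conjugate_le_conjugate hw1 g)
        _ = 1 := by rw [hgs, mul_one, hgg]; abel

theorem separate (hD : Douglas A) (α β : A) (hα : 0 ≤ α) (hβ : 0 ≤ β) (h : α * β = 0) :
    ∃ e : A, star e * α = α ∧ e * α = α ∧ e * β = 0 ∧ e * star e ≤ 1 ∧ star e * e ≤ 1 := by
  have sα : star α = α := (IsSelfAdjoint.of_nonneg hα).star_eq
  have sβ : star β = β := (IsSelfAdjoint.of_nonneg hβ).star_eq
  have h' : β * α = 0 := by
    have := congrArg star h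
    rwa [star_mul, sα, sβ, star_zero] at this
  obtain ⟨w, hw, hw1⟩ := hD (α - β) (α + β) (by
    apply le_of_eq
    rw [star_sub, star_add, sα, sβ]
    have e1 : (α - β) * (α - β) = α * α - α * β - β * α + β * β := by noncomm_ring
    have e2 : (α + β) * (α + β) = α * α + α * β + β * α + β * β := by noncomm_ring
    rw [e1, e2, h, h']; simp)
  have h1 : w * α = α := by
    have e1 : (α - w * α) * α = 0 := by
      have := congrArg (· * α) hw
      have e2 : (α - β) * α = α * α - β * α := by noncomm_ring
      have e3 : w * (α + β) * α = w * (α * α) + w * (β * α) := by noncomm_ring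
      rw [e2, e3, h', sub_zero, mul_zero, add_zero] at this
      calc (α - w * α) * α = α * α - w * (α * α) := by noncomm_ring
        _ = 0 := by rw [← this, sub_self]
    have e4 : (α - w * α) * star (α - w * α) = 0 := by
      have : star (α - w * α) = α * star (1 - w) := by
        rw [← sα, ← star_mul, sα]; congr 1; noncomm_ring
      rw [this, ← mul_assoc, e1, zero_mul]
    exact (sub_eq_zero.1 (eq_zero_of_mul_star e4)).symm
  have h2 : w * β = -β := by
    have e1 : (β + w * β) * β = 0 := by
      have := congrArg (· * β) hw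
      have e2 : (α - β) * β = α * β - β * β := by noncomm_ring
      have e3 : w * (α + β) * β = w * (α * β) + w * (β * β) := by noncomm_ring
      rw [e2, e3, h, zero_sub, mul_zero, zero_add] at this
      calc (β + w * β) * β = β * β + w * (β * β) := by noncomm_ring
        _ = 0 := by rw [← this]; abel
    have e4 : (β + w * β) * star (β + w * β) = 0 := by
      have : star (β + w * β) = β * star (1 + w) := by
        rw [← sβ, ← star_mul, sβ]; congr 1; noncomm_ring
      rw [this, ← mul_assoc, e1, zero_mul]
    have := eq_zero_of_mul_star e4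
    exact eq_neg_of_add_eq_zero_right this
  have h3 : star w * α = α := by
    obtain ⟨g, hg0, hgs, hgg⟩ := exists_root (sub_nonneg.2 hw1)
    have e1 : star (g * α) * (g * α) = 0 := by
      rw [star_mul, hgs, sα]
      calc α * g * (g * α) = α * (g * g) * α := by noncomm_ring
        _ = α * α - α * star w * (w * α) := by rw [hgg]; noncomm_ring
        _ = α * α - star (w * α) * (w * α) := by rw [star_mul, sα]
        _ = 0 := by rw [h1, sα, sub_self]
    have e2 := eq_zero_of_star_mul e1
    have e3 : star w * (w * α) = α := by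
      have : (1 - star w * w) * α = 0 := by rw [← hgg, mul_assoc, e2, mul_zero]
      have e4 : (1 - star w * w) * α = α - star w * (w * α) := by noncomm_ring
      rw [e4] at this
      exact (sub_eq_zero.1 this).symm
    rwa [h1] at e3
  have hc : ∀ u : A, star u * u ≤ 1 →
      star ((1 / 2 : ℂ) • (1 + u)) * ((1 / 2 : ℂ) • (1 + u)) ≤ 1 := by
    intro u hu
    rw [contr_iff] at hu ⊢
    rw [norm_smul]
    have : ‖(1 : A) + u‖ ≤ 2 := by
      refine (norm_add_le _ _).trans ?_
      have h1 : ‖(1 : A)‖ ≤ 1 := by
        rw [← contr_iff]; simp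
      linarith
    rw [show ‖(1 / 2 : ℂ)‖ = 1 / 2 by simp]
    linarith
  have hse : star ((1 / 2 : ℂ) • (1 + w)) = (1 / 2 : ℂ) • (1 + star w) := by
    rw [star_smul, star_add, star_one]
    congr 1
    simp
  refine ⟨(1 / 2 : ℂ) • (1 + w), ?_, ?_, ?_, ?_, hc w hw1⟩
  · rw [hse, smul_mul_assoc, add_mul, one_mul, h3, ← two_smul ℂ α, smul_smul]
    norm_num
  · rw [smul_mul_assoc, add_mul, one_mul, h1, ← two_smul ℂ α, smul_smul]
    norm_num
  · rw [smul_mul_assoc, add_mul, one_mul, h2]; simp
  · exact contr_star (hc w hw1)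

end scalar

section matrix

variable {A : Type*} [CStarAlgebra A] [PartialOrder A] [StarOrderedRing A]

/-- the `1 × 1` matrix with entry `a` -/
def sc (a : A) : Matrix Unit Unit A := fun _ _ => a

omit [PartialOrder A] [StarOrderedRing A] in
theorem sc_mul (a b : A) : sc a * sc b = sc (a * b) := by
  ext i j; simp [sc, Matrix.mul_apply]

omit [PartialOrder A] [StarOrderedRing A] in
theorem sc_star (a : A) : (sc a)ᴴ = sc (star a) := by
  ext i j; simp [sc, Matrix.conjTranspose_apply]

omit [PartialOrder A] [StarOrderedRing A] in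
theorem sc_one : sc (1 : A) = 1 := by
  ext i j; simp [sc]

omit [PartialOrder A] [StarOrderedRing A] in
theorem sc_zero : sc (0 : A) = 0 := rfl

omit [PartialOrder A] [StarOrderedRing A] in
theorem sc_add (a b : A) : sc a + sc b = sc (a + b) := rfl

omit [PartialOrder A] [StarOrderedRing A] in
theorem sc_sub (a b : A) : sc a - sc b = sc (a - b) := rfl

/-- A matrix over `A` with `Mᴴ M = 0` vanishes. -/
theorem matrix_eq_zero {r n : Type*} [Fintype r] (M : Matrix r n A) (h : Mᴴ * M = 0) : M = 0 := by
  ext i j
  have h1 : ∑ k, star (M k j) * M k j = 0 := by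
    have := congrFun (congrFun h j) j
    simpa [Matrix.mul_apply] using this
  exact sum_star_mul_self_eq_zero Finset.univ (fun k => M k j) h1 i (Finset.mem_univ _)

/-- defect operators of a contractive column, with explicit formulas -/
theorem defect {m : Type*} [Fintype m] [DecidableEq m] (v : Matrix m Unit A)
    (hv : ∑ i, star (v i ()) * v i () ≤ 1) :
    ∃ (g : A) (D : Matrix m m A), 0 ≤ g ∧ star g = g ∧ Dᴴ = D ∧ vᴴ * v = 1 - sc g * sc g ∧
      D * D = 1 - v * vᴴ ∧ D * v = v * sc g := by
  obtain ⟨g, hg0, hgs, hgg⟩ := exists_root (sub_nonneg.2 hv)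
  have hu : IsUnit (1 + g) := by
    have := CStarAlgebra.isUnit_of_le (1 : A) (b := 1 + g) (le_add_of_nonneg_right hg0)
    exact this
  obtain ⟨u, hu⟩ := hu
  set k : A := ↑u⁻¹ with hk
  have k1 : k * (1 + g) = 1 := by rw [← hu, hk]; simp
  have k2 : (1 + g) * k = 1 := by rw [← hu, hk]; simp
  have ks : star k = k := by
    have e1 : star k * (1 + g) = 1 := by
      have := congrArg star k2
      rwa [star_mul, star_add, star_one, hgs] at this
    calc star k = star k * ((1 + g) * k) := by rw [k2, mul_one]
      _ = (star k * (1 + g)) * k := by rw [mul_assoc]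
      _ = k := by rw [e1, one_mul]
  have hC : vᴴ * v = 1 - sc g * sc g := by
    rw [sc_mul, hgg, ← sc_one, sc_sub]
    ext i j
    simp [sc, Matrix.mul_apply]
  set G := sc g with hG
  set K := sc k with hK
  have K1 : K * (1 + G) = 1 := by rw [hK, hG, ← sc_one, sc_add, sc_mul, k1]
  have K2 : (1 + G) * K = 1 := by rw [hK, hG, ← sc_one, sc_add, sc_mul, k2]
  have KG : K * G = 1 - K := by
    have : K * (1 + G) = K + K * G := by noncomm_ring
    rw [this] at K1; rw [← K1]; abel
  have GK : G * K = 1 - K := by
    have : (1 + G) * K = K + G * K := by noncomm_ring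
    rw [this] at K2; rw [← K2]; abel
  have KC : K * (vᴴ * v) = 1 - G := by
    rw [hC]
    calc K * (1 - G * G) = K - (K * G) * G := by noncomm_ring
      _ = K - G + K * G := by rw [KG, sub_mul, one_mul, KG]; abel
      _ = 1 - G := by rw [KG]; abel
  have KCK : K * (vᴴ * v) * K = 2 • K - 1 := by
    rw [KC]
    calc (1 - G) * K = K - G * K := by noncomm_ring
      _ = 2 • K - 1 := by rw [GK]; abel
  refine ⟨g, 1 - v * K * vᴴ, hg0, hgs, ?_, hC, ?_, ?_⟩
  · rw [Matrix.conjTranspose_sub, Matrix.conjTranspose_mul, Matrix.conjTranspose_mul,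
      Matrix.conjTranspose_conjTranspose, Matrix.conjTranspose_one, hK, sc_star, ks,
      Matrix.mul_assoc]
  · have e1 : v * K * vᴴ * (v * K * vᴴ) = v * (K * (vᴴ * v) * K) * vᴴ := by
      simp only [Matrix.mul_assoc]
    calc (1 - v * K * vᴴ) * (1 - v * K * vᴴ)
        = 1 - v * K * vᴴ - v * K * vᴴ + v * K * vᴴ * (v * K * vᴴ) := by noncomm_ring
      _ = 1 - v * vᴴ := by
          rw [e1, KCK]
          simp only [Matrix.mul_sub, Matrix.sub_mul, Matrix.mul_one, two_smul, Matrix.mul_add,
            Matrix.add_mul]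
          abel
  · have e1 : v * K * vᴴ * v = v * (K * (vᴴ * v)) := by simp only [Matrix.mul_assoc]
    rw [Matrix.sub_mul, Matrix.one_mul, e1, KC, Matrix.mul_sub, Matrix.mul_one]
    abel

/-- One elimination step. -/
theorem step {m m' r q : Type*} [Fintype m] [Fintype m'] [Fintype r]
    [DecidableEq m] [DecidableEq m']
    (v : Matrix m Unit A) (w : Matrix m' Unit A) (g h : A) (a : Matrix Unit Unit A)
    (D : Matrix m m A) (E : Matrix m' m' A)
    (hgs : star g = g) (hhs : star h = h)
    (hD : Dᴴ = D) (hE : Eᴴ = E)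
    (hv : vᴴ * v = 1 - sc g * sc g) (hw : wᴴ * w = 1 - sc h * sc h)
    (hDD : D * D = 1 - v * vᴴ) (hEE : E * E = 1 - w * wᴴ)
    (hDv : D * v = v * sc g) (hEw : E * w = w * sc h)
    (ha : sc h * a = 0)
    (x2 : Matrix m q A) (y2 : Matrix m' q A) (hm : vᴴ * x2 = wᴴ * y2)
    (z : Matrix m m' A) (F : Matrix r m' A) (hz : D * x2 = z * (E * y2))
    (hF : zᴴ * z + Fᴴ * F = 1) :
    ∃ (Z : Matrix m m' A) (Φ : Matrix (Unit ⊕ r) m' A), v * a = Z * (w * a) ∧ x2 = Z * y2 ∧
      Zᴴ * Z + Φᴴ * Φ = 1 := by
  have hvD : vᴴ * D = sc g * vᴴ := by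
    have := congrArg Matrix.conjTranspose hDv
    rw [Matrix.conjTranspose_mul, Matrix.conjTranspose_mul, hD, sc_star, hgs] at this
    exact this
  have hwE : wᴴ * E = sc h * wᴴ := by
    have := congrArg Matrix.conjTranspose hEw
    rw [Matrix.conjTranspose_mul, Matrix.conjTranspose_mul, hE, sc_star, hhs] at this
    exact this
  refine ⟨v * wᴴ + D * z * E, Matrix.fromRows (sc g * wᴴ - vᴴ * z * E) (F * E), ?_, ?_, ?_⟩
  · have e1 : (v * wᴴ + D * z * E) * (w * a) = v * ((wᴴ * w) * a) + D * z * (E * w) * a := by
      simp only [Matrix.add_mul, Matrix.mul_assoc]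
    rw [e1, hw, hEw]
    have e2 : D * z * (w * sc h) * a = D * z * w * (sc h * a) := by simp only [Matrix.mul_assoc]
    have e3 : (1 - sc h * sc h) * a = a - sc h * (sc h * a) := by
      rw [Matrix.sub_mul, Matrix.one_mul, Matrix.mul_assoc]
    rw [e2, e3, ha]
    simp
  · have e1 : (v * wᴴ + D * z * E) * y2 = v * (wᴴ * y2) + D * (z * (E * y2)) := by
      simp only [Matrix.add_mul, Matrix.mul_assoc]
    rw [e1, ← hm, ← hz, ← Matrix.mul_assoc, ← Matrix.mul_assoc, hDD, Matrix.sub_mul,
      Matrix.one_mul]
    abel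
  · have hFF : Fᴴ * F = 1 - zᴴ * z := by rw [← hF]; abel
    rw [Matrix.conjTranspose_fromRows_eq_fromCols_conjTranspose, Matrix.fromCols_mul_fromRows]
    have e0 : (v * wᴴ + D * z * E)ᴴ = w * vᴴ + E * zᴴ * D := by
      simp only [Matrix.conjTranspose_add, Matrix.conjTranspose_mul,
        Matrix.conjTranspose_conjTranspose, hD, hE, Matrix.mul_assoc]
    have e1 : (sc g * wᴴ - vᴴ * z * E)ᴴ = w * sc g - E * zᴴ * v := by
      simp only [Matrix.conjTranspose_sub, Matrix.conjTranspose_mul,
        Matrix.conjTranspose_conjTranspose, hE, sc_star, hgs, Matrix.mul_assoc]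
    have e2 : (F * E)ᴴ = E * Fᴴ := by rw [Matrix.conjTranspose_mul, hE]
    rw [e0, e1, e2]
    have t1 : (w * vᴴ + E * zᴴ * D) * (v * wᴴ + D * z * E)
        = w * (vᴴ * v) * wᴴ + w * (vᴴ * D) * z * E + E * zᴴ * (D * v) * wᴴ
          + E * zᴴ * (D * D) * z * E := by
      simp only [Matrix.add_mul, Matrix.mul_add, Matrix.mul_assoc]
      abel
    have t2 : (w * sc g - E * zᴴ * v) * (sc g * wᴴ - vᴴ * z * E)
        = w * (sc g * sc g) * wᴴ - w * (sc g * vᴴ) * z * E - E * zᴴ * (v * sc g) * wᴴ
          + E * zᴴ * (v * vᴴ) * z * E := by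
      simp only [Matrix.sub_mul, Matrix.mul_sub, Matrix.mul_assoc]
      abel
    have t3 : E * Fᴴ * (F * E) = E * E - E * (zᴴ * z) * E := by
      have : E * Fᴴ * (F * E) = E * (Fᴴ * F) * E := by simp only [Matrix.mul_assoc]
      rw [this, hFF, Matrix.mul_sub, Matrix.sub_mul, Matrix.mul_one]
    rw [t1, t2, t3, hv, hvD, hDv, hDD, hEE]
    simp only [Matrix.mul_sub, Matrix.sub_mul, Matrix.mul_one, Matrix.mul_assoc]
    abel

/-- **Key theorem.** If the unital C*-algebra `A` has the Douglas property, then matrices `x`, `y`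
over `A` (with the same number of columns) with `x* x = y* y` satisfy `x = z y` for a contractive
matrix `z` over `A`. -/
theorem gram_factor (hD : Douglas A) : ∀ (q : ℕ) (m m' : Type) [Fintype m] [Fintype m']
    [DecidableEq m] [DecidableEq m'] (x : Matrix m (Fin q) A) (y : Matrix m' (Fin q) A),
    xᴴ * x = yᴴ * y → ∃ (r : Type) (_ : Fintype r) (z : Matrix m m' A) (F : Matrix r m' A),
      x = z * y ∧ zᴴ * z + Fᴴ * F = 1 := by
  intro q
  induction q with
  | zero =>
    intro m m' _ _ _ _ x y h
    refine ⟨m', inferInstance, 0, 1, ?_, by simp⟩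
    ext i j
    exact j.elim0
  | succ q ih =>
    intro m m' _ _ _ _ x y h
    have hent : ∀ i j, ∑ k, star (x k i) * x k j = ∑ k, star (y k i) * y k j := by
      intro i j
      have := congrFun (congrFun h i) j
      simpa [Matrix.mul_apply] using this
    let x1 : Matrix m Unit A := fun i _ => x i 0
    let y1 : Matrix m' Unit A := fun i _ => y i 0
    let x2 : Matrix m (Fin q) A := fun i j => x i j.succ
    let y2 : Matrix m' (Fin q) A := fun i j => y i j.succ
    have h22 : x2ᴴ * x2 = y2ᴴ * y2 := by
      ext i j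
      rw [Matrix.mul_apply, Matrix.mul_apply]
      exact hent i.succ j.succ
    have hc : 0 ≤ ∑ i, star (x i 0) * x i 0 :=
      Finset.sum_nonneg fun i _ => star_mul_self_nonneg _
    obtain ⟨α, hα0, hαs, hαα⟩ := exists_root hc
    obtain ⟨v, hv, hv1⟩ := column hD (fun i => x i 0) Finset.univ α (by rw [hαs, hαα])
    obtain ⟨w, hw, hw1⟩ := column hD (fun i => y i 0) Finset.univ α
      (by rw [hαs, hαα, ← hent 0 0])
    have hvx : ∀ j : Fin q, α * ∑ i, star (v i) * x i j.succ
        = ∑ i, star (x i 0) * x i j.succ := by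
      intro j
      rw [Finset.mul_sum]
      refine Finset.sum_congr rfl fun i _ => ?_
      rw [hv i (Finset.mem_univ i), star_mul, hαs, mul_assoc]
    have hwy : ∀ j : Fin q, α * ∑ i, star (w i) * y i j.succ
        = ∑ i, star (y i 0) * y i j.succ := by
      intro j
      rw [Finset.mul_sum]
      refine Finset.sum_congr rfl fun i _ => ?_
      rw [hw i (Finset.mem_univ i), star_mul, hαs, mul_assoc]
    let δ : Fin q → A := fun j => ∑ i, star (v i) * x i j.succ - ∑ i, star (w i) * y i j.succ
    have hδ : ∀ j, α * δ j = 0 := by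
      intro j
      simp only [δ]
      rw [mul_sub, hvx, hwy, hent, sub_self]
    obtain ⟨e, he1, he2, he3, he4, he5⟩ := separate hD α (∑ j, δ j * star (δ j)) hα0
      (Finset.sum_nonneg fun j _ => mul_star_self_nonneg _) (by
        rw [Finset.mul_sum]
        refine Finset.sum_eq_zero fun j _ => ?_
        rw [← mul_assoc, hδ, zero_mul])
    have heδ : ∀ j, e * δ j = 0 := by
      intro j
      have h1 : ∑ j, star (star (e * δ j)) * star (e * δ j) = 0 := by
        calc ∑ j, star (star (e * δ j)) * star (e * δ j)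
            = e * (∑ j, δ j * star (δ j)) * star e := by
              rw [Finset.mul_sum, Finset.sum_mul]
              refine Finset.sum_congr rfl fun j _ => ?_
              rw [star_star, star_mul]
              noncomm_ring
          _ = 0 := by rw [he3, zero_mul]
      have h2 := sum_star_mul_self_eq_zero Finset.univ (fun j => star (e * δ j)) h1 j
        (Finset.mem_univ j)
      simpa using congrArg star h2
    let V : Matrix m Unit A := fun i _ => v i * star e
    let W : Matrix m' Unit A := fun i _ => w i * star e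
    have hcon : ∀ {ι : Type} [Fintype ι] (u : ι → A), ∑ i, star (u i) * u i ≤ 1 →
        ∑ i, star (u i * star e) * (u i * star e) ≤ 1 := by
      intro ι _ u hu
      calc ∑ i, star (u i * star e) * (u i * star e)
          = star (star e) * (∑ i, star (u i) * u i) * star e := by
            rw [Finset.mul_sum, Finset.sum_mul]
            refine Finset.sum_congr rfl fun j _ => ?_
            rw [star_mul]
            noncomm_ring
        _ ≤ star (star e) * 1 * star e := star_left_conjugate_le_conjugate hu (star e)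
        _ ≤ 1 := by rw [star_star, mul_one]; exact he4
    have hV : ∑ i, star (V i ()) * V i () ≤ 1 := hcon v hv1
    have hW : ∑ i, star (W i ()) * W i () ≤ 1 := hcon w hw1
    obtain ⟨g, D, hg0, hgs, hDs, hVV, hDD, hDV⟩ := defect V hV
    obtain ⟨k, E, hk0, hks, hEs, hWW, hEE, hEW⟩ := defect W hW
    have hm : Vᴴ * x2 = Wᴴ * y2 := by
      ext i j
      have h1 : e * (∑ i, star (v i) * x i j.succ) = e * ∑ i, star (w i) * y i j.succ := by
        have := heδ j
        simp only [δ] at this
        rw [mul_sub] at this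
        exact sub_eq_zero.1 this
      rw [Finset.mul_sum, Finset.mul_sum] at h1
      rw [Matrix.mul_apply, Matrix.mul_apply]
      have t1 : ∀ k, Vᴴ i k * x2 k j = e * (star (v k) * x k j.succ) := by
        intro k
        rw [Matrix.conjTranspose_apply]
        change star (v k * star e) * x k j.succ = _
        rw [star_mul, star_star, mul_assoc]
      have t2 : ∀ k, Wᴴ i k * y2 k j = e * (star (w k) * y k j.succ) := by
        intro k
        rw [Matrix.conjTranspose_apply]
        change star (w k * star e) * y k j.succ = _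
        rw [star_mul, star_star, mul_assoc]
      simp only [t1, t2]
      exact h1
    have hx1 : x1 = V * sc α := by
      ext i j
      rw [Matrix.mul_apply, Finset.univ_unique, Finset.sum_singleton]
      change x i 0 = v i * star e * α
      rw [hv i (Finset.mem_univ i), mul_assoc, he1]
    have hy1 : y1 = W * sc α := by
      ext i j
      rw [Matrix.mul_apply, Finset.univ_unique, Finset.sum_singleton]
      change y i 0 = w i * star e * α
      rw [hw i (Finset.mem_univ i), mul_assoc, he1]
    have hyy : y1ᴴ * y1 = sc α * sc α := by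
      rw [sc_mul, hαα]
      ext i j
      rw [Matrix.mul_apply]
      exact (hent 0 0).symm
    have hka : sc k * sc α = 0 := by
      apply matrix_eq_zero
      rw [Matrix.conjTranspose_mul, sc_star, sc_star, hks, hαs]
      have e1 : sc α * sc k * (sc k * sc α) = sc α * (sc k * sc k) * sc α := by
        simp only [Matrix.mul_assoc]
      have e2 : sc k * sc k = 1 - Wᴴ * W := by rw [hWW]; abel
      have e3 : sc α * (Wᴴ * W) * sc α = y1ᴴ * y1 := by
        rw [hy1, Matrix.conjTranspose_mul, sc_star, hαs]
        simp only [Matrix.mul_assoc]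
      rw [e1, e2, Matrix.mul_sub, Matrix.sub_mul, Matrix.mul_one, e3, hyy, sub_self]
    have hrest : (D * x2)ᴴ * (D * x2) = (E * y2)ᴴ * (E * y2) := by
      have e1 : (D * x2)ᴴ * (D * x2) = x2ᴴ * x2 - (Vᴴ * x2)ᴴ * (Vᴴ * x2) := by
        rw [Matrix.conjTranspose_mul, Matrix.conjTranspose_mul, hDs,
          Matrix.conjTranspose_conjTranspose]
        calc x2ᴴ * D * (D * x2) = x2ᴴ * (D * D) * x2 := by simp only [Matrix.mul_assoc]
          _ = _ := by
            rw [hDD]
            simp only [Matrix.mul_sub, Matrix.sub_mul, Matrix.mul_one, Matrix.mul_assoc]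
      have e2 : (E * y2)ᴴ * (E * y2) = y2ᴴ * y2 - (Wᴴ * y2)ᴴ * (Wᴴ * y2) := by
        rw [Matrix.conjTranspose_mul, Matrix.conjTranspose_mul, hEs,
          Matrix.conjTranspose_conjTranspose]
        calc y2ᴴ * E * (E * y2) = y2ᴴ * (E * E) * y2 := by simp only [Matrix.mul_assoc]
          _ = _ := by
            rw [hEE]
            simp only [Matrix.mul_sub, Matrix.sub_mul, Matrix.mul_one, Matrix.mul_assoc]
      rw [e1, e2, h22, hm]
    obtain ⟨r, hr, z, F, hz, hF⟩ := ih m m' (D * x2) (E * y2) hrest
    obtain ⟨Z, Φ, h1, h2, h3⟩ := step V W g k (sc α) D E hgs hks hDs hEs hVV hWW hDD hEE hDV hEW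
      hka x2 y2 hm z F hz hF
    rw [← hx1, ← hy1] at h1
    refine ⟨Unit ⊕ r, inferInstance, Z, Φ, ?_, h3⟩
    ext i j
    refine Fin.cases ?_ (fun j => ?_) j
    · have := congrFun (congrFun h1 i) ()
      rw [Matrix.mul_apply] at this ⊢
      exact this
    · have := congrFun (congrFun h2 i) j
      rw [Matrix.mul_apply] at this ⊢
      exact this

end matrix

end Pool.Agent.V11131.PosComp
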