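import Pool.Agent.V11131.PosComp1

/-!
# Positive completions: definitions and basic lemmas
-/

open scoped Matrix

namespace Pool.Agent.V11131.PosComp

section defs

variable {A : Type*} [NonUnitalCStarAlgebra A] [PartialOrder A] [StarOrderedRing A]

/-- `a` is a positive element of the C*-algebra `M_n(A)`. -/
def PosM {n : Type} [Fintype n] (a : Matrix n n A) : Prop :=
  0 ≤ (CStarMatrix.ofMatrix a : CStarMatrix n n A)

/-- `a ∈ M_+(Γ)`: all principal submatrices of `a` indexed by cliques of `Γ` are positive. -/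
def PartialPos {V : Type} (Γ : SimpleGraph V) (a : Matrix V V A) : Prop :=
  ∀ K : Finset V, Γ.IsClique (K : Set V) →
    PosM (a.submatrix (fun i : K => (i : V)) (fun i : K => (i : V)))

/-- `Y` is a positive completion of `a` with respect to `Γ`. -/
def IsPosCompletion {V : Type} [Fintype V] (Γ : SimpleGraph V) (a Y : Matrix V V A) : Prop :=
  PosM Y ∧ ∀ i j, i = j ∨ Γ.Adj i j → Y i j = a i j

/-- `Γ ∈ G(A)`: every element of `M_+(Γ)` has a positive completion. -/
def InG (A : Type*) [NonUnitalCStarAlgebra A] [PartialOrder A] [StarOrderedRing A]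
    {V : Type} [Fintype V] (Γ : SimpleGraph V) : Prop :=
  ∀ a : Matrix V V A, PartialPos Γ a → ∃ Y : Matrix V V A, IsPosCompletion Γ a Y

/-- `K_3^{(0)}`: the complete graph on three vertices with one edge removed (a path). -/
def pathThree : SimpleGraph (Fin 3) where
  Adj i j := (i = 0 ∧ j = 1) ∨ (i = 1 ∧ j = 0) ∨ (i = 1 ∧ j = 2) ∨ (i = 2 ∧ j = 1)
  symm := ⟨by intro i j h; tauto⟩
  loopless := ⟨by intro i h; rcases h with h | h | h | h <;> (obtain ⟨rfl, h2⟩ := h; simp at h2)⟩

/-- `Γ` is chordal: every cycle `c 0, …, c (p-1)` on `p ≥ 4` distinct vertices has a chord. -/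
def Chordal {V : Type} (Γ : SimpleGraph V) : Prop :=
  ∀ (p : ℕ) (c : ℕ → V), 4 ≤ p → (∀ i j, i < p → j < p → c i = c j → i = j) →
    (∀ i, i + 1 < p → Γ.Adj (c i) (c (i + 1))) → Γ.Adj (c (p - 1)) (c 0) →
    ∃ i j, i + 1 < j ∧ j < p ∧ ¬(i = 0 ∧ j = p - 1) ∧ Γ.Adj (c i) (c j)

/-- `Γ` is a disjoint union of complete graphs: its connected components are complete. -/
def IsCluster {V : Type} (Γ : SimpleGraph V) : Prop :=
  ∀ u v, Γ.Reachable u v → u ≠ v → Γ.Adj u v

theorem nonneg_gram {B : Type*} [NonUnitalCStarAlgebra B] [PartialOrder B] [StarOrderedRing B]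
    {b : B} (h : 0 ≤ b) : ∃ c : B, b = star c * c :=
  CStarAlgebra.nonneg_iff_eq_star_mul_self.1 h

theorem PosM.exists_gram {n : Type} [Fintype n] {a : Matrix n n A} (h : PosM a) :
    ∃ N : Matrix n n A, a = Nᴴ * N := by
  obtain ⟨b, hb⟩ := nonneg_gram (B := CStarMatrix n n A) h
  exact ⟨CStarMatrix.ofMatrix.symm b, hb⟩

theorem posM_gram {r n : Type} [Fintype r] [Fintype n] (N : Matrix r n A) : PosM (Nᴴ * N) := by
  classical
  rcases isEmpty_or_nonempty n with hn | hn
  · have : (CStarMatrix.ofMatrix (Nᴴ * N) : CStarMatrix n n A) = 0 := by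
      apply CStarMatrix.ext
      intro i
      exact hn.elim i
    unfold PosM
    rw [this]
  · obtain ⟨i0⟩ := hn
    let R : r → CStarMatrix n n A := fun k => CStarMatrix.ofMatrix
      (fun i j => if i = i0 then N k j else 0)
    have h1 : (CStarMatrix.ofMatrix (Nᴴ * N) : CStarMatrix n n A) = ∑ k, star (R k) * R k := by
      have h2 : Nᴴ * N = ∑ k, (show Matrix n n A from (star (R k) * R k : CStarMatrix n n A)) := by
        ext i j
        rw [Matrix.mul_apply, Matrix.sum_apply]
        refine Finset.sum_congr rfl fun k _ => ?_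
        change star (N k i) * N k j = ∑ l, star (if l = i0 then N k i else 0) *
          (if l = i0 then N k j else 0)
        rw [Finset.sum_eq_single i0]
        · simp
        · intro l _ hl; simp [hl]
        · intro h; exact absurd (Finset.mem_univ _) h
      rw [h2]
      rfl
    unfold PosM
    rw [h1]
    exact Finset.sum_nonneg fun k _ => star_mul_self_nonneg (R k)

theorem posM_sub_of_gram {r V : Type} [Fintype r] (N : Matrix r V A) (a : Matrix V V A)
    (K : Finset V) (h : ∀ i ∈ K, ∀ j ∈ K, ∑ k, star (N k i) * N k j = a i j) :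
    PosM (a.submatrix (fun i : K => (i : V)) (fun i : K => (i : V))) := by
  have : a.submatrix (fun i : K => (i : V)) (fun i : K => (i : V))
      = (N.submatrix id (fun i : K => (i : V)))ᴴ * N.submatrix id (fun i : K => (i : V)) := by
    ext i j
    rw [Matrix.mul_apply, Matrix.submatrix_apply, ← h i i.2 j j.2]
    rfl
  rw [this]
  exact posM_gram _

/-- a Gram representation of a positive principal submatrix, with columns indexed by `V` -/
theorem gram_of_posM_sub {V : Type} (a : Matrix V V A)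
    (K : Finset V) (h : PosM (a.submatrix (fun i : K => (i : V)) (fun i : K => (i : V)))) :
    ∃ N : Matrix K V A, ∀ i ∈ K, ∀ j ∈ K, ∑ k, star (N k i) * N k j = a i j := by
  classical
  obtain ⟨N, hN⟩ := h.exists_gram
  refine ⟨fun k j => if hj : j ∈ K then N k ⟨j, hj⟩ else 0, ?_⟩
  intro i hi j hj
  have := congrFun (congrFun hN ⟨i, hi⟩) ⟨j, hj⟩
  rw [Matrix.submatrix_apply, Matrix.mul_apply] at this
  simp only [hi, hj, dif_pos]
  exact this.symm

theorem posM_of_gram {r V : Type} [Fintype r] [Fintype V] (N : Matrix r V A) (Y : Matrix V V A)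
    (h : ∀ i j, ∑ k, star (N k i) * N k j = Y i j) : PosM Y := by
  have : Y = Nᴴ * N := by
    ext i j
    rw [Matrix.mul_apply, ← h i j]
    rfl
  rw [this]
  exact posM_gram _

theorem gram_of_posM {V : Type} [Fintype V] {Y : Matrix V V A} (h : PosM Y) :
    ∃ N : Matrix V V A, ∀ i j, ∑ k, star (N k i) * N k j = Y i j := by
  obtain ⟨N, hN⟩ := h.exists_gram
  refine ⟨N, fun i j => ?_⟩
  rw [hN, Matrix.mul_apply]
  rfl

/-- `G(A)` is closed under induced subgraphs. -/
theorem InG.induced {U V : Type} [Fintype U] [Fintype V] {H : SimpleGraph U} {Γ : SimpleGraph V}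
    (h : InG A Γ) (f : U → V) (hf : Function.Injective f)
    (hadj : ∀ i j, Γ.Adj (f i) (f j) ↔ H.Adj i j) : InG A H := by
  classical
  intro a ha
  let b : Matrix V V A := fun i j => if h : (∃ s, f s = i) ∧ (∃ t, f t = j) then
    a h.1.choose h.2.choose else 0
  have hb : ∀ s t, b (f s) (f t) = a s t := by
    intro s t
    have h1 : (∃ s', f s' = f s) ∧ (∃ t', f t' = f t) := ⟨⟨s, rfl⟩, ⟨t, rfl⟩⟩
    simp only [b, dif_pos h1]
    rw [hf h1.1.choose_spec, hf h1.2.choose_spec]
  have hb1 : ∀ i j, (¬ ∃ s, f s = i) → b i j = 0 := by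
    intro i j hi
    have : ¬ ((∃ s, f s = i) ∧ (∃ t, f t = j)) := fun h => hi h.1
    simp only [b, dif_neg this]
  have hb2 : ∀ i j, (¬ ∃ s, f s = j) → b i j = 0 := by
    intro i j hi
    have : ¬ ((∃ s, f s = i) ∧ (∃ t, f t = j)) := fun h => hi h.2
    simp only [b, dif_neg this]
  have hbp : PartialPos Γ b := by
    intro K hK
    let K' : Finset U := Finset.univ.filter fun s => f s ∈ K
    have hK' : H.IsClique (K' : Set U) := by
      intro s hs t ht hst
      rw [← hadj]
      exact hK (by simpa [K'] using hs) (by simpa [K'] using ht) (fun e => hst (hf e))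
    obtain ⟨N, hN⟩ := gram_of_posM_sub a K' (ha K' hK')
    refine posM_sub_of_gram (r := K') (fun k i => if h : ∃ s, f s = i then N k h.choose else 0) b K ?_
    intro i hi j hj
    by_cases h1 : ∃ s, f s = i
    · by_cases h2 : ∃ t, f t = j
      · obtain ⟨s, rfl⟩ := h1
        obtain ⟨t, rfl⟩ := h2
        have e1 : (⟨s, rfl⟩ : ∃ s', f s' = f s).choose = s :=
          hf (⟨s, rfl⟩ : ∃ s', f s' = f s).choose_spec
        have e2 : (⟨t, rfl⟩ : ∃ s', f s' = f t).choose = t :=
          hf (⟨t, rfl⟩ : ∃ s', f s' = f t).choose_spec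
        rw [hb, ← hN s (by simpa [K'] using hi) t (by simpa [K'] using hj)]
        refine Finset.sum_congr rfl fun k _ => ?_
        rw [dif_pos ⟨s, rfl⟩, dif_pos ⟨t, rfl⟩, e1, e2]
      · rw [hb2 i j h2]
        refine Finset.sum_eq_zero fun k _ => ?_
        rw [dif_neg h2, mul_zero]
    · rw [hb1 i j h1]
      refine Finset.sum_eq_zero fun k _ => ?_
      rw [dif_neg h1, star_zero, zero_mul]
  obtain ⟨Y, hY, hY2⟩ := h b hbp
  refine ⟨Y.submatrix f f, ?_, ?_⟩
  · obtain ⟨N, hN⟩ := gram_of_posM hY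
    exact posM_of_gram (N.submatrix id f) _ (fun i j => hN (f i) (f j))
  · intro i j hij
    rw [Matrix.submatrix_apply, hY2 (f i) (f j), hb]
    rcases hij with rfl | hij
    · exact Or.inl rfl
    · exact Or.inr ((hadj i j).2 hij)

end defs

end Pool.Agent.V11131.PosComp
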