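import Pool.Agent.V11131.PosComp2

/-!
# Chordal graphs have clique separators
-/

namespace Pool.Agent.V11131.PosComp

section graph

variable {V : Type} {Γ : SimpleGraph V}

/-- a path from `s` to `t` with `k` interior vertices, all of them in `C` -/
def Pth (Γ : SimpleGraph V) (C : Finset V) (s t : V) (k : ℕ) : Prop :=
  ∃ c : ℕ → V, c 0 = s ∧ c (k + 1) = t ∧ (∀ i, 1 ≤ i → i ≤ k → c i ∈ C) ∧
    ∀ i, i ≤ k → Γ.Adj (c i) (c (i + 1))

/-- `C` is connected in `Γ` -/
def Conn (Γ : SimpleGraph V) (C : Finset V) : Prop :=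
  ∀ u ∈ C, ∀ v ∈ C, Relation.ReflTransGen (fun a b => a ∈ C ∧ b ∈ C ∧ Γ.Adj a b) u v

theorem exists_pth {C : Finset V} (hC : Conn Γ C) {s t cs ct : V} (hcs : cs ∈ C) (hct : ct ∈ C)
    (hs : Γ.Adj s cs) (ht : Γ.Adj ct t) : ∃ k, Pth Γ C s t k := by
  have key : ∀ u, Relation.ReflTransGen (fun a b => a ∈ C ∧ b ∈ C ∧ Γ.Adj a b) cs u →
      ∃ k, ∃ c : ℕ → V, 1 ≤ k ∧ c 0 = s ∧ c k = u ∧ (∀ i, 1 ≤ i → i ≤ k → c i ∈ C) ∧
        ∀ i, i < k → Γ.Adj (c i) (c (i + 1)) := by
    intro u hu
    induction hu with
    | refl =>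
      refine ⟨1, fun i => if i = 0 then s else cs, le_rfl, by simp, by simp, ?_, ?_⟩
      · intro i h1 h2
        have : i = 1 := le_antisymm h2 h1
        subst this
        simpa using hcs
      · intro i hi
        have : i = 0 := by omega
        subst this
        simpa using hs
    | tail _ hbc ih =>
      rename_i b w _
      obtain ⟨k, c, hk, h0, hku, hin, hadj⟩ := ih
      refine ⟨k + 1, fun i => if i ≤ k then c i else w, by omega, by simp [h0], by simp, ?_, ?_⟩
      · intro i h1 h2
        by_cases h : i ≤ k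
        · simpa [h] using hin i h1 h
        · simpa [h] using hbc.2.1
      · intro i hi
        by_cases h : i + 1 ≤ k
        · have h' : i ≤ k := by omega
          simpa [h, h'] using hadj i (by omega)
        · have h' : i = k := by omega
          subst h'
          simp only [le_refl, if_true, h, if_false]
          rw [hku]
          exact hbc.2.2
  obtain ⟨k, c, hk, h0, hku, hin, hadj⟩ := key ct (hC cs hcs ct hct)
  refine ⟨k, fun i => if i ≤ k then c i else t, by simp [h0], by simp, ?_, ?_⟩
  · intro i h1 h2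
    simpa [h2] using hin i h1 h2
  · intro i hi
    by_cases h : i + 1 ≤ k
    · have h' : i ≤ k := by omega
      simpa [h, h'] using hadj i (by omega)
    · have h' : i = k := by omega
      subst h'
      simp only [le_refl, if_true, h, if_false]
      rw [hku]
      exact ht

theorem no_shortcut {C : Finset V} {s t : V} {k : ℕ} (hmin : ∀ k' < k, ¬ Pth Γ C s t k')
    {c : ℕ → V} (h0 : c 0 = s) (h1 : c (k + 1) = t) (hin : ∀ i, 1 ≤ i → i ≤ k → c i ∈ C)
    (hadj : ∀ i, i ≤ k → Γ.Adj (c i) (c (i + 1))) {i j : ℕ} (hij : i + 1 < j) (hj : j ≤ k + 1) :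
    ¬ Γ.Adj (c i) (c j) := by
  intro h
  refine hmin (k - (j - i - 1)) (by omega)
    ⟨fun m => if m ≤ i then c m else c (m + (j - i - 1)), by simp [h0], ?_, ?_, ?_⟩
  · have e1 : ¬ (k - (j - i - 1) + 1 ≤ i) := by omega
    have e2 : k - (j - i - 1) + 1 + (j - i - 1) = k + 1 := by omega
    simp only [e1, if_false]
    rw [e2, h1]
  · intro m hm1 hm2
    by_cases hmi : m ≤ i
    · simpa [hmi] using hin m hm1 (by omega)
    · simpa [hmi] using hin (m + (j - i - 1)) (by omega) (by omega)
  · intro m hm
    by_cases h2 : m + 1 ≤ i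
    · have h3 : m ≤ i := by omega
      simpa [h2, h3] using hadj m (by omega)
    · by_cases h4 : m = i
      · subst h4
        simp only [le_refl, if_true, h2, if_false]
        have e3 : m + 1 + (j - m - 1) = j := by omega
        rw [e3]
        exact h
      · have h5 : ¬ m ≤ i := by omega
        simp only [h2, h5, if_false]
        have e3 : m + 1 + (j - i - 1) = m + (j - i - 1) + 1 := by omega
        rw [e3]
        exact hadj _ (by omega)

theorem path_inj {C : Finset V} {s t : V} {k : ℕ} (hst : s ≠ t)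
    (hmin : ∀ k' < k, ¬ Pth Γ C s t k')
    {c : ℕ → V} (h0 : c 0 = s) (h1 : c (k + 1) = t) (hin : ∀ i, 1 ≤ i → i ≤ k → c i ∈ C)
    (hadj : ∀ i, i ≤ k → Γ.Adj (c i) (c (i + 1))) {i j : ℕ} (hij : i < j) (hj : j ≤ k + 1) :
    c i ≠ c j := by
  intro h
  have hne : j - i ≤ k := by
    by_contra hcon
    have hi0 : i = 0 := by omega
    have hj0 : j = k + 1 := by omega
    rw [hi0, hj0, h0, h1] at h
    exact hst h
  refine hmin (k - (j - i)) (by omega)
    ⟨fun m => if m ≤ i then c m else c (m + (j - i)), by simp [h0], ?_, ?_, ?_⟩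
  · by_cases e1 : k - (j - i) + 1 ≤ i
    · have e2 : k - (j - i) + 1 = i := by omega
      have e3 : j = k + 1 := by omega
      simp only [e2, le_refl, if_true]
      rw [h, e3, h1]
    · have e2 : k - (j - i) + 1 + (j - i) = k + 1 := by omega
      simp only [e1, if_false]
      rw [e2, h1]
  · intro m hm1 hm2
    by_cases hmi : m ≤ i
    · simpa [hmi] using hin m hm1 (by omega)
    · simpa [hmi] using hin (m + (j - i)) (by omega) (by omega)
  · intro m hm
    by_cases h2 : m + 1 ≤ i
    · have h3 : m ≤ i := by omega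
      simpa [h2, h3] using hadj m (by omega)
    · by_cases h4 : m = i
      · subst h4
        simp only [le_refl, if_true, h2, if_false]
        have e3 : m + 1 + (j - m) = j + 1 := by omega
        rw [e3, h]
        exact hadj j (by omega)
      · have h5 : ¬ m ≤ i := by omega
        simp only [h2, h5, if_false]
        have e3 : m + 1 + (j - i) = m + (j - i) + 1 := by omega
        rw [e3]
        exact hadj _ (by omega)

/-- In a chordal graph: two nonadjacent vertices with neighbours in a connected set `C` have no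
common neighbour without neighbours in `C` (outside `C`). -/
theorem adj_of_common {C : Finset V} (hch : Chordal Γ) (hC : Conn Γ C) {s t cs ct b : V}
    (hbC : b ∉ C)
    (hcs : cs ∈ C) (hct : ct ∈ C) (hs : Γ.Adj s cs) (ht : Γ.Adj t ct) (hst : s ≠ t)
    (hb : ∀ x ∈ C, ¬ Γ.Adj x b) (hbs : Γ.Adj b s) (hbt : Γ.Adj b t) : Γ.Adj s t := by
  classical
  by_contra hnadj
  have hex := exists_pth hC hcs hct hs ht.symm
  let k := Nat.find hex
  have hk : Pth Γ C s t k := Nat.find_spec hex
  have hmin : ∀ k' < k, ¬ Pth Γ C s t k' := fun k' h => Nat.find_min hex h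
  obtain ⟨c, h0, h1, hin, hadj⟩ := hk
  have hk1 : 1 ≤ k := by
    by_contra hcon
    have hk0 : k = 0 := by omega
    have := hadj 0 (by omega)
    rw [h0] at this
    rw [hk0] at h1
    rw [h1] at this
    exact hnadj this
  have c1 : ∀ i j, i < k + 3 → j < k + 3 → (fun m => if m ≤ k + 1 then c m else b) i
      = (fun m => if m ≤ k + 1 then c m else b) j → i = j := by
    have hcb : ∀ i, i ≤ k + 1 → c i ≠ b := by
      intro i hi he
      rcases Nat.eq_zero_or_pos i with h | h
      · rw [h, h0] at he
        exact hbs.ne he.symm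
      · rcases Nat.lt_or_ge k i with h' | h'
        · have : i = k + 1 := by omega
          rw [this, h1] at he
          exact hbt.ne he.symm
        · exact hbC (he ▸ hin i h h')
    intro i j hi hj he
    by_cases h2 : i ≤ k + 1
    · by_cases h3 : j ≤ k + 1
      · simp only [h2, h3, if_true] at he
        rcases Nat.lt_trichotomy i j with h | h | h
        · exact absurd he (path_inj hst hmin h0 h1 hin hadj h h3)
        · exact h
        · exact absurd he.symm (path_inj hst hmin h0 h1 hin hadj h h2)
      · simp only [h2, h3, if_true, if_false] at he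
        exact absurd he (hcb i h2)
    · by_cases h3 : j ≤ k + 1
      · simp only [h2, h3, if_true, if_false] at he
        exact absurd he.symm (hcb j h3)
      · omega
  have c2 : ∀ i, i + 1 < k + 3 → Γ.Adj ((fun m => if m ≤ k + 1 then c m else b) i)
      ((fun m => if m ≤ k + 1 then c m else b) (i + 1)) := by
    intro i hi
    by_cases h2 : i + 1 ≤ k + 1
    · have h3 : i ≤ k + 1 := by omega
      simp only [h2, h3, if_true]
      exact hadj i (by omega)
    · have h3 : i = k + 1 := by omega
      subst h3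
      simp only [le_refl, if_true, h2, if_false]
      rw [h1]
      exact hbt.symm
  have c3 : Γ.Adj ((fun m => if m ≤ k + 1 then c m else b) (k + 3 - 1))
      ((fun m => if m ≤ k + 1 then c m else b) 0) := by
    have e1 : ¬ (k + 3 - 1 ≤ k + 1) := by omega
    simp only [e1, if_false, Nat.zero_le, if_true]
    rw [h0]
    exact hbs
  obtain ⟨i, j, hij, hjp, hne, hA⟩ := hch (k + 3) (fun m => if m ≤ k + 1 then c m else b)
    (by omega) c1 c2 c3
  by_cases hj : j ≤ k + 1
  · have hi : i ≤ k + 1 := by omega
    simp only [hi, hj, if_true] at hA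
    exact no_shortcut hmin h0 h1 hin hadj hij hj hA
  · have hj2 : j = k + 2 := by omega
    have hi : i ≤ k + 1 := by omega
    simp only [hi, hj, if_true, if_false] at hA
    have hi0 : i ≠ 0 := by
      intro hi0
      exact hne ⟨hi0, by omega⟩
    exact hb (c i) (hin i (by omega) (by omega)) hA

/-- **Clique separator.** If `Γ` is chordal and `W` is a set of vertices which is not a clique,
then `W = C ∪ S ∪ B` (disjoint) with `C, B` nonempty, `S` a clique and no edge between `C` and
`B`. -/
theorem clique_separator [DecidableEq V] (hch : Chordal Γ) (W : Finset V)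
    (hW : ¬ Γ.IsClique (W : Set V)) :
    ∃ C S B : Finset V, C ∪ S ∪ B = W ∧ Disjoint C S ∧ Disjoint C B ∧ Disjoint S B ∧
      C.Nonempty ∧ B.Nonempty ∧ Γ.IsClique (S : Set V) ∧ ∀ x ∈ C, ∀ b ∈ B, ¬ Γ.Adj x b := by
  classical
  -- a pair of nonadjacent vertices
  have hpair : ∃ x ∈ W, ∃ y ∈ W, x ≠ y ∧ ¬ Γ.Adj x y := by
    by_contra hcon
    apply hW
    intro x hx y hy hxy
    by_contra hn
    exact hcon ⟨x, hx, y, hy, hxy, hn⟩
  obtain ⟨x, hx, y, hy, hxy, hnadj⟩ := hpair
  let Good : Finset V → Prop := fun C => C ⊆ W ∧ C.Nonempty ∧ Conn Γ C ∧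
    ∃ b ∈ W, b ∉ C ∧ ∀ z ∈ C, ¬ Γ.Adj z b
  have hgood : Good {x} := by
    refine ⟨by simpa using hx, by simp, ?_, y, hy, by simpa using fun h => hxy h.symm, ?_⟩
    · intro u hu v hv
      rw [Finset.mem_singleton] at hu hv
      rw [hu, hv]
    · intro z hz
      rw [Finset.mem_singleton] at hz
      rw [hz]; exact hnadj
  obtain ⟨C, hCmem, hCmax⟩ := Finset.exists_max_image (W.powerset.filter Good) Finset.card
    ⟨{x}, by
      rw [Finset.mem_filter, Finset.mem_powerset]
      exact ⟨hgood.1, hgood⟩⟩
  rw [Finset.mem_filter, Finset.mem_powerset] at hCmem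
  obtain ⟨hCW, _, hCne, hCconn, b0, hb0W, hb0C, hb0⟩ := hCmem
  let S : Finset V := W.filter fun v => v ∉ C ∧ ∃ z ∈ C, Γ.Adj z v
  let B : Finset V := W.filter fun v => v ∉ C ∧ ∀ z ∈ C, ¬ Γ.Adj z v
  have hBS : ∀ b ∈ B, ∀ s ∈ S, Γ.Adj b s := by
    intro b hb s hs
    rw [Finset.mem_filter] at hb hs
    by_contra hn
    obtain ⟨hbW, hbC, hbz⟩ := hb
    obtain ⟨hsW, hsC, z, hzC, hzs⟩ := hs
    have hbs : b ≠ s := by
      rintro rfl
      exact hbz z hzC hzs
    have hg : Good (insert s C) := by
      refine ⟨?_, by simp, ?_, b, hbW, ?_, ?_⟩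
      · intro v hv
        rcases Finset.mem_insert.1 hv with rfl | hv
        · exact hsW
        · exact hCW hv
      · have hmono : ∀ u v, Relation.ReflTransGen (fun a b => a ∈ C ∧ b ∈ C ∧ Γ.Adj a b) u v →
            Relation.ReflTransGen (fun a b => a ∈ insert s C ∧ b ∈ insert s C ∧ Γ.Adj a b) u v := by
          intro u v h
          induction h with
          | refl => exact Relation.ReflTransGen.refl
          | tail _ hab ih =>
            exact ih.tail ⟨Finset.mem_insert_of_mem hab.1,
              Finset.mem_insert_of_mem hab.2.1, hab.2.2⟩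
        have hzs' : Relation.ReflTransGen
            (fun a b => a ∈ insert s C ∧ b ∈ insert s C ∧ Γ.Adj a b) z s :=
          Relation.ReflTransGen.single ⟨Finset.mem_insert_of_mem hzC, Finset.mem_insert_self _ _, hzs⟩
        have hsz' : Relation.ReflTransGen
            (fun a b => a ∈ insert s C ∧ b ∈ insert s C ∧ Γ.Adj a b) s z :=
          Relation.ReflTransGen.single ⟨Finset.mem_insert_self _ _, Finset.mem_insert_of_mem hzC, hzs.symm⟩
        intro u hu v hv
        rcases Finset.mem_insert.1 hu with hu' | hu'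
        · rcases Finset.mem_insert.1 hv with hv' | hv'
          · rw [hu', hv']
          · rw [hu']
            exact hsz'.trans (hmono _ _ (hCconn z hzC v hv'))
        · rcases Finset.mem_insert.1 hv with hv' | hv'
          · rw [hv']
            exact (hmono _ _ (hCconn u hu' z hzC)).trans hzs'
          · exact hmono _ _ (hCconn u hu' v hv')
      · intro h
        rcases Finset.mem_insert.1 h with h | h
        · exact hbs h
        · exact hbC h
      · intro v hv
        rcases Finset.mem_insert.1 hv with rfl | hv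
        · exact fun h => hn h.symm
        · exact hbz v hv
    have h1 := hCmax (insert s C) (by
      rw [Finset.mem_filter, Finset.mem_powerset]
      exact ⟨hg.1, hg⟩)
    rw [Finset.card_insert_of_notMem hsC] at h1
    omega
  refine ⟨C, S, B, ?_, ?_, ?_, ?_, hCne, ⟨b0, ?_⟩, ?_, ?_⟩
  · ext v
    simp only [Finset.mem_union, S, B, Finset.mem_filter]
    constructor
    · rintro ((h | h) | h)
      · exact hCW h
      · exact h.1
      · exact h.1
    · intro hv
      by_cases hvC : v ∈ C
      · exact Or.inl (Or.inl hvC)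
      · by_cases h : ∃ z ∈ C, Γ.Adj z v
        · exact Or.inl (Or.inr ⟨hv, hvC, h⟩)
        · refine Or.inr ⟨hv, hvC, fun z hz hadj => h ⟨z, hz, hadj⟩⟩
  · rw [Finset.disjoint_left]
    intro v hv hv'
    exact (Finset.mem_filter.1 hv').2.1 hv
  · rw [Finset.disjoint_left]
    intro v hv hv'
    exact (Finset.mem_filter.1 hv').2.1 hv
  · rw [Finset.disjoint_left]
    intro v hv hv'
    obtain ⟨z, hz, hadj⟩ := (Finset.mem_filter.1 hv).2.2
    exact (Finset.mem_filter.1 hv').2.2 z hz hadj
  · rw [Finset.mem_filter]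
    exact ⟨hb0W, hb0C, hb0⟩
  · intro s hs t ht hst
    have hb0B : b0 ∈ B := by
      rw [Finset.mem_filter]
      exact ⟨hb0W, hb0C, hb0⟩
    have hs' := Finset.mem_filter.1 (Finset.mem_coe.1 hs)
    have ht' := Finset.mem_filter.1 (Finset.mem_coe.1 ht)
    obtain ⟨_, hsC, cs, hcs, hcss⟩ := hs'
    obtain ⟨_, htC, ct, hct, hctt⟩ := ht'
    exact adj_of_common hch hCconn hb0C hcs hct hcss.symm hctt.symm hst hb0
      (hBS b0 hb0B s hs) (hBS b0 hb0B t ht)
  · intro z hz b hb
    exact (Finset.mem_filter.1 hb).2.2 z hz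

end graph

end Pool.Agent.V11131.PosComp
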