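import Pool.Agent.V11131.PosComp3

/-!
# Positive completions over unital C*-algebras: main theorems
-/

open scoped Matrix

namespace Pool.Agent.V11131.PosComp

section main

variable {A : Type*} [CStarAlgebra A] [PartialOrder A] [StarOrderedRing A]

/-- `gram_factor` with an arbitrary finite set of columns. -/
theorem gram_factor' (hD : Douglas A) {q m m' : Type} [Fintype q] [Fintype m] [Fintype m']
    [DecidableEq m] [DecidableEq m'] (x : Matrix m q A) (y : Matrix m' q A)
    (h : ∀ i j, ∑ k, star (x k i) * x k j = ∑ k, star (y k i) * y k j) :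
    ∃ (r : Type) (_ : Fintype r) (z : Matrix m m' A) (F : Matrix r m' A),
      x = z * y ∧ zᴴ * z + Fᴴ * F = 1 := by
  classical
  let e := Fintype.equivFin q
  obtain ⟨r, hr, z, F, hz, hF⟩ := gram_factor hD (Fintype.card q) m m'
    (x.submatrix id e.symm) (y.submatrix id e.symm) (by
      ext i j
      rw [Matrix.mul_apply, Matrix.mul_apply]
      exact h (e.symm i) (e.symm j))
  refine ⟨r, hr, z, F, ?_, hF⟩
  ext i j
  have := congrFun (congrFun hz i) (e j)
  rw [Matrix.mul_apply] at this ⊢
  simpa using this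

/-- **Gluing** two Gram representations along a set `S` on which they agree. -/
theorem glue (hD : Douglas A) {V r1 r2 : Type} [DecidableEq V] [Fintype r1] [Fintype r2]
    (N1 : Matrix r1 V A) (N2 : Matrix r2 V A) (S B : Finset V) (hSB : Disjoint S B)
    (h : ∀ i ∈ S, ∀ j ∈ S, ∑ k, star (N1 k i) * N1 k j = ∑ k, star (N2 k i) * N2 k j) :
    ∃ (r : Type) (_ : Fintype r) (N : Matrix r V A),
      (∀ i j, i ∉ B → j ∉ B → ∑ k, star (N k i) * N k j = ∑ k, star (N1 k i) * N1 k j) ∧
      (∀ i ∈ S ∪ B, ∀ j ∈ S ∪ B,
        ∑ k, star (N k i) * N k j = ∑ k, star (N2 k i) * N2 k j) := by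
  classical
  obtain ⟨r, hr, z, F, hz, hF⟩ := gram_factor' hD
    (fun (k : r1) (i : S) => N1 k i) (fun (k : r2) (i : S) => N2 k i)
    (fun i j => h i i.2 j j.2)
  let P : Matrix r1 V A := z * N2
  let Q : Matrix r V A := F * N2
  have hPQ : Pᴴ * P + Qᴴ * Q = N2ᴴ * N2 := by
    have : Pᴴ * P + Qᴴ * Q = N2ᴴ * (zᴴ * z + Fᴴ * F) * N2 := by
      simp only [P, Q, Matrix.conjTranspose_mul, Matrix.mul_add, Matrix.add_mul, Matrix.mul_assoc]
    rw [this, hF, Matrix.mul_one]
  have hPS : ∀ i ∈ S, ∀ k, P k i = N1 k i := by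
    intro i hi k
    have := congrFun (congrFun hz k) ⟨i, hi⟩
    exact this.symm
  have hQS : ∀ i ∈ S, ∀ k, Q k i = 0 := by
    intro i hi k
    have h1 : ∑ k, star (Q k i) * Q k i = 0 := by
      have h2 := congrFun (congrFun hPQ i) i
      rw [Matrix.add_apply, Matrix.mul_apply, Matrix.mul_apply, Matrix.mul_apply] at h2
      simp only [Matrix.conjTranspose_apply] at h2
      have h3 : ∑ k, star (P k i) * P k i = ∑ k, star (N2 k i) * N2 k i := by
        rw [← h i hi i hi]
        exact Finset.sum_congr rfl fun k _ => by rw [hPS i hi k]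
      rw [h3] at h2
      simpa using h2
    exact sum_star_mul_self_eq_zero Finset.univ (fun k => Q k i) h1 k (Finset.mem_univ k)
  refine ⟨r1 ⊕ r, inferInstance, fun k j => match k with
    | Sum.inl k => if j ∈ B then P k j else N1 k j
    | Sum.inr k => if j ∈ B then Q k j else 0, ?_, ?_⟩
  · intro i j hi hj
    rw [Fintype.sum_sum_type]
    simp [hi, hj]
  · have hl : ∀ i ∈ S ∪ B, ∀ k, (if i ∈ B then P k i else N1 k i) = P k i := by
      intro i hi k
      by_cases hB : i ∈ B
      · simp [hB]
      · have hS : i ∈ S := by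
          rcases Finset.mem_union.1 hi with h | h
          · exact h
          · exact absurd h hB
        simp [hB, hPS i hS k]
    have hr' : ∀ i ∈ S ∪ B, ∀ k, (if i ∈ B then Q k i else 0) = Q k i := by
      intro i hi k
      by_cases hB : i ∈ B
      · simp [hB]
      · have hS : i ∈ S := by
          rcases Finset.mem_union.1 hi with h | h
          · exact h
          · exact absurd h hB
        simp [hB, hQS i hS k]
    intro i hi j hj
    rw [Fintype.sum_sum_type]
    simp only [hl i hi, hl j hj, hr' i hi, hr' j hj]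
    have h2 := congrFun (congrFun hPQ i) j
    rw [Matrix.add_apply, Matrix.mul_apply, Matrix.mul_apply, Matrix.mul_apply] at h2
    simpa only [Matrix.conjTranspose_apply] using h2

theorem chordal_complete (hD : Douglas A) {V : Type} [DecidableEq V] (Γ : SimpleGraph V)
    (hch : Chordal Γ) (a : Matrix V V A) (ha : PartialPos Γ a) :
    ∀ (n : ℕ) (W : Finset V), W.card ≤ n → ∃ (r : Type) (_ : Fintype r) (N : Matrix r V A),
      ∀ i ∈ W, ∀ j ∈ W, (i = j ∨ Γ.Adj i j) → ∑ k, star (N k i) * N k j = a i j := by
  intro n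
  induction n with
  | zero =>
    intro W hW
    have : W = ∅ := Finset.card_eq_zero.1 (Nat.le_zero.1 hW)
    refine ⟨Unit, inferInstance, fun _ _ => 0, ?_⟩
    intro i hi
    rw [this] at hi
    simp at hi
  | succ n ih =>
    intro W hW
    by_cases hcl : Γ.IsClique (W : Set V)
    · obtain ⟨N, hN⟩ := gram_of_posM_sub a W (ha W hcl)
      exact ⟨W, inferInstance, N, fun i hi j hj _ => hN i hi j hj⟩
    · obtain ⟨C, S, B, hun, hCS, hCB, hSB, hC, hB, hScl, hno⟩ := clique_separator hch W hcl
      have hc1 : (C ∪ S).card ≤ n := by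
        have h1 : (C ∪ S) ∪ B = W := hun
        have h2 : Disjoint (C ∪ S) B := by
          rw [Finset.disjoint_union_left]
          exact ⟨hCB, hSB⟩
        have h3 := Finset.card_union_of_disjoint h2
        rw [h1] at h3
        have := hB.card_pos
        omega
      have hc2 : (S ∪ B).card ≤ n := by
        have h1 : C ∪ (S ∪ B) = W := by rw [← Finset.union_assoc]; exact hun
        have h2 : Disjoint C (S ∪ B) := by
          rw [Finset.disjoint_union_right]
          exact ⟨hCS, hCB⟩
        have h3 := Finset.card_union_of_disjoint h2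
        rw [h1] at h3
        have := hC.card_pos
        omega
      obtain ⟨r1, hr1, N1, hN1⟩ := ih _ hc1
      obtain ⟨r2, hr2, N2, hN2⟩ := ih _ hc2
      have hadj : ∀ i ∈ S, ∀ j ∈ S, i = j ∨ Γ.Adj i j := by
        intro i hi j hj
        by_cases hij : i = j
        · exact Or.inl hij
        · exact Or.inr (hScl hi hj hij)
      obtain ⟨r, hr, N, hNa, hNb⟩ := glue hD N1 N2 S B hSB (by
        intro i hi j hj
        rw [hN1 i (Finset.mem_union_right _ hi) j (Finset.mem_union_right _ hj)
          (hadj i hi j hj), hN2 i (Finset.mem_union_left _ hi) j (Finset.mem_union_left _ hj)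
          (hadj i hi j hj)])
      refine ⟨r, hr, N, ?_⟩
      intro i hi j hj hij
      have hmem : ∀ v ∈ W, v ∈ C ∪ S ∧ v ∉ B ∨ v ∈ B := by
        intro v hv
        rw [← hun] at hv
        by_cases hvB : v ∈ B
        · exact Or.inr hvB
        · rcases Finset.mem_union.1 hv with h | h
          · exact Or.inl ⟨h, hvB⟩
          · exact absurd h hvB
      rcases hmem i hi with ⟨hi1, hi2⟩ | hiB
      · rcases hmem j hj with ⟨hj1, hj2⟩ | hjB
        · rw [hNa i j hi2 hj2]
          exact hN1 i hi1 j hj1 hij
        · -- `i ∈ S` necessarily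
          have hiS : i ∈ S := by
            rcases Finset.mem_union.1 hi1 with h | h
            · exfalso
              rcases hij with rfl | hij
              · exact hi2 hjB
              · exact hno i h j hjB hij
            · exact h
          rw [hNb i (Finset.mem_union_left _ hiS) j (Finset.mem_union_right _ hjB)]
          exact hN2 i (Finset.mem_union_left _ hiS) j (Finset.mem_union_right _ hjB) hij
      · have hjS : j ∈ S ∪ B := by
          rcases hmem j hj with ⟨hj1, hj2⟩ | hjB
          · rcases Finset.mem_union.1 hj1 with h | h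
            · exfalso
              rcases hij with rfl | hij
              · exact hj2 hiB
              · exact hno j h i hiB hij.symm
            · exact Finset.mem_union_left _ h
          · exact Finset.mem_union_right _ hjB
        rw [hNb i (Finset.mem_union_right _ hiB) j hjS]
        exact hN2 i (Finset.mem_union_right _ hiB) j hjS hij

/-- If `A` has the Douglas property then every chordal graph is in `G(A)`. -/
theorem inG_of_chordal (hD : Douglas A) {V : Type} [Fintype V] (Γ : SimpleGraph V)
    (hch : Chordal Γ) : InG A Γ := by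
  classical
  intro a ha
  obtain ⟨r, hr, N, hN⟩ := chordal_complete hD Γ hch a ha (Finset.univ : Finset V).card
    Finset.univ le_rfl
  refine ⟨Nᴴ * N, posM_gram N, ?_⟩
  intro i j hij
  rw [Matrix.mul_apply]
  exact hN i (Finset.mem_univ i) j (Finset.mem_univ j) hij

/-- `K_3^{(0)} ∈ G(A)` implies the Douglas property. -/
theorem douglas_of_pathThree (h : InG A pathThree) : Douglas A := by
  intro x y hxy
  obtain ⟨c, hc0, hcs, hcc⟩ := exists_root (sub_nonneg.2 hxy)
  let a : Matrix (Fin 3) (Fin 3) A := !![1, x, 0; star x, star y * y, star y; 0, y, 1]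
  have hap : PartialPos pathThree a := by
    intro K hK
    by_cases h2 : (2 : Fin 3) ∈ K
    · have h0 : (0 : Fin 3) ∉ K := by
        intro h0
        have := hK (Finset.mem_coe.2 h0) (Finset.mem_coe.2 h2) (by decide)
        rcases this with h | h | h | h <;> simp at h
      refine posM_sub_of_gram (r := Unit) (fun _ i => ![0, y, 1] i) a K ?_
      intro i hi j hj
      rw [Finset.univ_unique, Finset.sum_singleton]
      fin_cases i <;> fin_cases j <;> first
        | exact absurd hi h0
        | exact absurd hj h0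
        | simp [a]
    · refine posM_sub_of_gram (r := Fin 2) (fun k i => !![1, x, 0; 0, c, 0] k i) a K ?_
      have hyy : star y * y = star x * x + c * c := by rw [hcc]; abel
      intro i hi j hj
      rw [Fin.sum_univ_two]
      fin_cases i <;> fin_cases j <;> first
        | exact absurd hi h2
        | exact absurd hj h2
        | simp [a, hcs, hyy]
  obtain ⟨Y, hY, hYa⟩ := h a hap
  obtain ⟨N, hN⟩ := gram_of_posM hY
  have e11 : Y 1 1 = star y * y := by rw [hYa 1 1 (Or.inl rfl)]; simp [a]
  have e22 : Y 2 2 = 1 := by rw [hYa 2 2 (Or.inl rfl)]; simp [a]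
  have e00 : Y 0 0 = 1 := by rw [hYa 0 0 (Or.inl rfl)]; simp [a]
  have e01 : Y 0 1 = x := by
    rw [hYa 0 1 (Or.inr (by simp [pathThree]))]; simp [a]
  have e12 : Y 1 2 = star y := by
    rw [hYa 1 2 (Or.inr (by simp [pathThree]))]; simp [a]
  have e21 : Y 2 1 = y := by
    rw [hYa 2 1 (Or.inr (by simp [pathThree]))]; simp [a]
  have hδ : ∑ k, star (N k 1 - N k 2 * y) * (N k 1 - N k 2 * y) = 0 := by
    have : ∑ k, star (N k 1 - N k 2 * y) * (N k 1 - N k 2 * y)
        = Y 1 1 - Y 1 2 * y - star y * Y 2 1 + star y * Y 2 2 * y := by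
      rw [← hN 1 1, ← hN 1 2, ← hN 2 1, ← hN 2 2, Finset.sum_mul, Finset.mul_sum, Finset.mul_sum,
        Finset.sum_mul, ← Finset.sum_sub_distrib, ← Finset.sum_sub_distrib,
        ← Finset.sum_add_distrib]
      refine Finset.sum_congr rfl fun k _ => ?_
      rw [star_sub, star_mul]
      noncomm_ring
    rw [this, e11, e12, e21, e22]
    noncomm_ring
  have hN1 : ∀ k, N k 1 = N k 2 * y := by
    intro k
    exact sub_eq_zero.1 (sum_star_mul_self_eq_zero Finset.univ _ hδ k (Finset.mem_univ k))
  refine ⟨Y 0 2, ?_, ?_⟩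
  · rw [← e01, ← hN 0 1, ← hN 0 2, Finset.sum_mul]
    refine Finset.sum_congr rfl fun k _ => ?_
    rw [hN1 k, mul_assoc]
  · have e20 : ∑ k, star (N k 2) * N k 0 = star (Y 0 2) := by
      rw [← hN 0 2, star_sum]
      refine Finset.sum_congr rfl fun k _ => ?_
      rw [star_mul, star_star]
    have h3 : 0 ≤ ∑ k, star (N k 2 - N k 0 * Y 0 2) * (N k 2 - N k 0 * Y 0 2) :=
      Finset.sum_nonneg fun k _ => star_mul_self_nonneg _
    have h4 : ∑ k, star (N k 2 - N k 0 * Y 0 2) * (N k 2 - N k 0 * Y 0 2)
        = Y 2 2 - (∑ k, star (N k 2) * N k 0) * Y 0 2 - star (Y 0 2) * (∑ k, star (N k 0) * N k 2)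
          + star (Y 0 2) * (∑ k, star (N k 0) * N k 0) * Y 0 2 := by
      rw [← hN 2 2, Finset.sum_mul, Finset.mul_sum, Finset.mul_sum,
        Finset.sum_mul, ← Finset.sum_sub_distrib, ← Finset.sum_sub_distrib,
        ← Finset.sum_add_distrib]
      refine Finset.sum_congr rfl fun k _ => ?_
      rw [star_sub, star_mul]
      noncomm_ring
    rw [h4, e20, hN 0 2, hN 0 0, e00, e22] at h3
    have h5 : 1 - star (Y 0 2) * Y 0 2 - star (Y 0 2) * Y 0 2 + star (Y 0 2) * 1 * Y 0 2
        = 1 - star (Y 0 2) * Y 0 2 := by noncomm_ring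
    rw [h5] at h3
    exact sub_nonneg.1 h3

end main

end Pool.Agent.V11131.PosComp
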