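import Pool.Agent.V11131.PosComp4

/-!
# Positive completions over unital C*-algebras: `G(A)` is `Ch` or the class of cluster graphs
-/

open scoped Matrix

namespace Pool.Agent.V11131.PosComp

section unital

variable {A : Type*} [CStarAlgebra A] [PartialOrder A] [StarOrderedRing A]

/-- Every graph in `G(A)` is chordal (`A` unital and nonzero). -/
theorem chordal_of_inG [Nontrivial A] {V : Type} [Fintype V] (Γ : SimpleGraph V)
    (h : InG A Γ) : Chordal Γ := by
  classical
  intro p c hp hinj hadj hlast
  by_contra hno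
  have hch : ∀ i j, i + 1 < j → j < p → ¬(i = 0 ∧ j = p - 1) → ¬ Γ.Adj (c i) (c j) :=
    fun i j h1 h2 h3 h4 => hno ⟨i, j, h1, h2, h3, h4⟩
  let cyc : V → Prop := fun v => ∃ s, s < p ∧ c s = v
  let a : Matrix V V A := fun i j => if cyc i ∧ cyc j then
    (if (i = c 0 ∧ j = c (p - 1)) ∨ (i = c (p - 1) ∧ j = c 0) then -1 else 1) else 0
  have h0p : c 0 ≠ c (p - 1) := by
    intro h
    have := hinj 0 (p - 1) (by omega) (by omega) h
    omega
  have hap : PartialPos Γ a := by
    intro K hK
    by_cases hend : c 0 ∈ K ∧ c (p - 1) ∈ K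
    · -- only `c 0` and `c (p-1)` lie on the cycle
      have honly : ∀ v ∈ K, cyc v → v = c 0 ∨ v = c (p - 1) := by
        rintro v hv ⟨s, hs, rfl⟩
        by_contra hcon
        push Not at hcon
        have hs0 : s ≠ 0 := by rintro rfl; exact hcon.1 rfl
        have hs1 : s ≠ p - 1 := by rintro rfl; exact hcon.2 rfl
        have h1 : Γ.Adj (c 0) (c s) := hK (Finset.mem_coe.2 hend.1) (Finset.mem_coe.2 hv)
          (fun e => hcon.1 e.symm)
        have h2 : Γ.Adj (c s) (c (p - 1)) := hK (Finset.mem_coe.2 hv) (Finset.mem_coe.2 hend.2)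
          hcon.2
        by_cases hs2 : 1 < s
        · exact hch 0 s (by omega) hs (by omega) h1
        · exact hch s (p - 1) (by omega) (by omega) (by omega) h2
      refine posM_sub_of_gram (r := Unit)
        (fun _ v => if v = c 0 then 1 else if v = c (p - 1) then -1 else 0) a K ?_
      intro i hi j hj
      rw [Finset.univ_unique, Finset.sum_singleton]
      have hc0 : cyc (c 0) := ⟨0, by omega, rfl⟩
      have hc1 : cyc (c (p - 1)) := ⟨p - 1, by omega, rfl⟩
      by_cases hic : cyc i
      · by_cases hjc : cyc j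
        · rcases honly i hi hic with rfl | rfl
          · rcases honly j hj hjc with rfl | rfl
            · simp [a, hc0, h0p]
            · simp [a, hc0, hc1, h0p, h0p.symm]
          · rcases honly j hj hjc with rfl | rfl
            · simp [a, hc0, hc1, h0p, h0p.symm]
            · simp [a, hc1, h0p, h0p.symm]
        · have e1 : j ≠ c 0 := by rintro rfl; exact hjc hc0
          have e2 : j ≠ c (p - 1) := by rintro rfl; exact hjc hc1
          simp [a, hjc, e1, e2]
      · have e1 : i ≠ c 0 := by rintro rfl; exact hic hc0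
        have e2 : i ≠ c (p - 1) := by rintro rfl; exact hic hc1
        simp [a, hic, e1, e2]
    · refine posM_sub_of_gram (r := Unit) (fun _ v => if cyc v then 1 else 0) a K ?_
      intro i hi j hj
      rw [Finset.univ_unique, Finset.sum_singleton]
      by_cases hic : cyc i
      · by_cases hjc : cyc j
        · have e1 : ¬ ((i = c 0 ∧ j = c (p - 1)) ∨ (i = c (p - 1) ∧ j = c 0)) := by
            rintro (⟨rfl, rfl⟩ | ⟨rfl, rfl⟩)
            · exact hend ⟨hi, hj⟩
            · exact hend ⟨hj, hi⟩
          simp [a, hic, hjc, e1]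
        · simp [a, hjc]
      · simp [a, hic]
  obtain ⟨Y, hY, hYa⟩ := h a hap
  obtain ⟨N, hN⟩ := gram_of_posM hY
  have hcyc : ∀ s, s < p → cyc (c s) := fun s hs => ⟨s, hs, rfl⟩
  have hdiag : ∀ s, s < p → Y (c s) (c s) = 1 := by
    intro s hs
    rw [hYa _ _ (Or.inl rfl)]
    have e1 : ¬ ((c s = c 0 ∧ c s = c (p - 1)) ∨ (c s = c (p - 1) ∧ c s = c 0)) := by
      rintro (⟨h1, h2⟩ | ⟨h1, h2⟩)
      · exact h0p (h1.symm.trans h2)
      · exact h0p (h2.symm.trans h1)
    simp [a, hcyc s hs, e1]
  have hstep : ∀ s, s + 1 < p → Y (c s) (c (s + 1)) = 1 ∧ Y (c (s + 1)) (c s) = 1 := by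
    intro s hs
    have e0 : ¬ (c s = c 0 ∧ c (s + 1) = c (p - 1)) := by
      rintro ⟨h1, h2⟩
      have := hinj _ _ (by omega) (by omega) h1
      have := hinj _ _ (by omega) (by omega) h2
      omega
    have e1 : ¬ (c s = c (p - 1) ∧ c (s + 1) = c 0) := by
      rintro ⟨h1, h2⟩
      have := hinj _ _ (by omega) (by omega) h2
      omega
    have e2 : ¬ ((c s = c 0 ∧ c (s + 1) = c (p - 1)) ∨ (c s = c (p - 1) ∧ c (s + 1) = c 0)) := by
      tauto
    have e3 : ¬ ((c (s + 1) = c 0 ∧ c s = c (p - 1)) ∨ (c (s + 1) = c (p - 1) ∧ c s = c 0)) := by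
      tauto
    constructor
    · rw [hYa _ _ (Or.inr (hadj s hs))]
      simp only [a]
      rw [if_pos ⟨hcyc s (by omega), hcyc (s + 1) hs⟩, if_neg e2]
    · rw [hYa _ _ (Or.inr (hadj s hs).symm)]
      simp only [a]
      rw [if_pos ⟨hcyc (s + 1) hs, hcyc s (by omega)⟩, if_neg e3]
  have hcol : ∀ s, s + 1 < p → ∀ k, N k (c (s + 1)) = N k (c s) := by
    intro s hs k
    have h1 : ∑ k, star (N k (c (s + 1)) - N k (c s)) * (N k (c (s + 1)) - N k (c s)) = 0 := by
      have : ∑ k, star (N k (c (s + 1)) - N k (c s)) * (N k (c (s + 1)) - N k (c s))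
          = Y (c (s + 1)) (c (s + 1)) - Y (c (s + 1)) (c s) - Y (c s) (c (s + 1))
            + Y (c s) (c s) := by
        rw [← hN, ← hN, ← hN, ← hN, ← Finset.sum_sub_distrib, ← Finset.sum_sub_distrib,
          ← Finset.sum_add_distrib]
        refine Finset.sum_congr rfl fun k _ => ?_
        rw [star_sub]
        noncomm_ring
      rw [this, hdiag _ hs, hdiag _ (by omega), (hstep s hs).1, (hstep s hs).2]
      abel
    exact sub_eq_zero.1 (sum_star_mul_self_eq_zero Finset.univ _ h1 k (Finset.mem_univ k))
  have hcol0 : ∀ s, s < p → ∀ k, N k (c s) = N k (c 0) := by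
    intro s
    induction s with
    | zero => intro _ k; rfl
    | succ s ih =>
      intro hs k
      rw [hcol s hs k, ih (by omega) k]
  have h1 : Y (c (p - 1)) (c 0) = 1 := by
    rw [← hN, ← hdiag 0 (by omega), ← hN (c 0) (c 0)]
    refine Finset.sum_congr rfl fun k _ => ?_
    rw [hcol0 (p - 1) (by omega) k]
  have h2 : Y (c (p - 1)) (c 0) = -1 := by
    rw [hYa _ _ (Or.inr hlast)]
    simp [a, hcyc 0 (by omega), hcyc (p - 1) (by omega)]
  have h3 : (1 : A) = -1 := h1.symm.trans h2
  have h4 : (2 : ℂ) • (1 : A) = 0 := by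
    rw [two_smul]
    nth_rewrite 1 [h3]
    simp
  have h5 : (1 : A) = 0 := by
    have := congrArg (fun t => (2 : ℂ)⁻¹ • t) h4
    simp at this
  exact one_ne_zero h5

end unital

section cluster

variable {A : Type*} [NonUnitalCStarAlgebra A] [PartialOrder A] [StarOrderedRing A]

/-- If some graph of `G(A)` is not a cluster graph then `K_3^{(0)} ∈ G(A)`. -/
theorem pathThree_of_not_cluster {V : Type} [Fintype V] (Γ : SimpleGraph V)
    (h : InG A Γ) (hc : ¬ IsCluster Γ) : InG A pathThree := by
  classical
  -- an induced path on three vertices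
  have hex : ∃ u v w, Γ.Adj u v ∧ Γ.Adj v w ∧ u ≠ w ∧ ¬ Γ.Adj u w := by
    by_contra hcon
    apply hc
    have key : ∀ u v w, Γ.Adj u v → Γ.Adj v w → u ≠ w → Γ.Adj u w := by
      intro u v w h1 h2 h3
      by_contra h4
      exact hcon ⟨u, v, w, h1, h2, h3, h4⟩
    intro u v huv
    obtain ⟨p⟩ := huv
    induction p with
    | nil => intro h; exact absurd rfl h
    | cons hadj p ih =>
      rename_i x y z
      intro hxz
      by_cases hyz : y = z
      · subst hyz; exact hadj
      · exact key _ _ _ hadj (ih hyz) hxz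
  obtain ⟨u, v, w, huv, hvw, huw, hn⟩ := hex
  refine h.induced (H := pathThree) ![u, v, w] ?_ ?_
  · intro i j hij
    fin_cases i <;> fin_cases j <;>
      simp_all [huv.ne, huv.ne.symm, hvw.ne, hvw.ne.symm, huw, huw.symm]
  · intro i j
    have hn' : ¬ Γ.Adj w u := fun h => hn h.symm
    fin_cases i <;> fin_cases j <;>
      simp [pathThree, huv, huv.symm, hvw, hvw.symm, hn, hn']

/-- Cluster graphs are in `G(A)` for every C*-algebra `A`. -/
theorem inG_of_cluster {V : Type} [Fintype V] (Γ : SimpleGraph V) (hc : IsCluster Γ) :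
    InG A Γ := by
  classical
  intro a ha
  have key : ∀ (n : ℕ) (W : Finset V), W.card ≤ n → ∃ (r : Type) (_ : Fintype r)
      (N : Matrix r V A), ∀ i ∈ W, ∀ j ∈ W, (i = j ∨ Γ.Adj i j) →
        ∑ k, star (N k i) * N k j = a i j := by
    intro n
    induction n with
    | zero =>
      intro W hW
      have : W = ∅ := Finset.card_eq_zero.1 (Nat.le_zero.1 hW)
      refine ⟨Unit, inferInstance, fun _ _ => 0, ?_⟩
      intro i hi
      rw [this] at hi
      simp at hi
    | succ n ih =>
      intro W hW
      rcases W.eq_empty_or_nonempty with hWe | ⟨x, hx⟩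
      · refine ⟨Unit, inferInstance, fun _ _ => 0, ?_⟩
        intro i hi
        rw [hWe] at hi
        simp at hi
      · let K : Finset V := W.filter fun v => x = v ∨ Γ.Adj x v
        have hKcl : Γ.IsClique (K : Set V) := by
          intro s hs t ht hst
          have hs' := (Finset.mem_filter.1 (Finset.mem_coe.1 hs)).2
          have ht' := (Finset.mem_filter.1 (Finset.mem_coe.1 ht)).2
          refine hc s t ?_ hst
          have h1 : Γ.Reachable x s := by
            rcases hs' with rfl | h
            · exact SimpleGraph.Reachable.refl _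
            · exact h.reachable
          have h2 : Γ.Reachable x t := by
            rcases ht' with rfl | h
            · exact SimpleGraph.Reachable.refl _
            · exact h.reachable
          exact h1.symm.trans h2
        obtain ⟨N1, hN1⟩ := gram_of_posM_sub a K (ha K hKcl)
        have hcard : (W \ K).card ≤ n := by
          have hxK : x ∈ K := Finset.mem_filter.2 ⟨hx, Or.inl rfl⟩
          have : (W \ K).card < W.card := Finset.card_lt_card
            (Finset.ssubset_iff_subset_ne.2 ⟨Finset.sdiff_subset, fun h => by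
              rw [← h] at hx
              exact (Finset.mem_sdiff.1 hx).2 hxK⟩)
          omega
        obtain ⟨r, hr, N2, hN2⟩ := ih _ hcard
        refine ⟨K ⊕ r, inferInstance, fun k j => match k with
          | Sum.inl k => if j ∈ K then N1 k j else 0
          | Sum.inr k => if j ∈ K then 0 else N2 k j, ?_⟩
        intro i hi j hj hij
        rw [Fintype.sum_sum_type]
        have hno : ∀ i ∈ W, ∀ j ∈ W, (i = j ∨ Γ.Adj i j) → i ∈ K → j ∈ K := by
          intro i _ j hj hij hiK
          rw [Finset.mem_filter] at hiK ⊢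
          refine ⟨hj, ?_⟩
          rcases hij with rfl | hij
          · exact hiK.2
          · by_cases hxj : x = j
            · exact Or.inl hxj
            · refine Or.inr (hc x j ?_ hxj)
              rcases hiK.2 with rfl | h
              · exact hij.reachable
              · exact h.reachable.trans hij.reachable
        by_cases hiK : i ∈ K
        · have hjK := hno i hi j hj hij hiK
          simpa [hiK, hjK] using hN1 i hiK j hjK
        · have hjK : j ∉ K := by
            intro hjK
            apply hiK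
            refine hno j hj i hi ?_ hjK
            rcases hij with h | h
            · exact Or.inl h.symm
            · exact Or.inr h.symm
          simpa [hiK, hjK] using hN2 i (Finset.mem_sdiff.2 ⟨hi, hiK⟩) j
            (Finset.mem_sdiff.2 ⟨hj, hjK⟩) hij
  obtain ⟨r, hr, N, hN⟩ := key (Finset.univ : Finset V).card Finset.univ le_rfl
  refine ⟨Nᴴ * N, posM_gram N, ?_⟩
  intro i j hij
  rw [Matrix.mul_apply]
  exact hN i (Finset.mem_univ i) j (Finset.mem_univ j) hij

end cluster

end Pool.Agent.V11131.PosComp
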