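import Pool.Agent.V11131.PosComp5

/-!
# Positive completions: matrix amplification and SAW*-algebras
-/

open scoped Matrix

namespace Pool.Agent.V11131.PosComp

section transfer

theorem csum_apply {A : Type*} [NonUnitalCStarAlgebra A] {n ι : Type} (s : Finset ι)
    (f : ι → CStarMatrix n n A) (p q : n) : (∑ k ∈ s, f k) p q = ∑ k ∈ s, f k p q := by
  classical
  induction s using Finset.induction_on with
  | empty => simp
  | insert a s ha ih =>
    rw [Finset.sum_insert ha, Finset.sum_insert ha, ← ih]
    rfl

variable {A : Type*} [NonUnitalCStarAlgebra A] [PartialOrder A] [StarOrderedRing A]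

/-- `G(M_n(A)) ⊆ G(A)`. -/
theorem inG_of_matrix {V n : Type} [Fintype V] [Fintype n] [Nonempty n]
    (Γ : SimpleGraph V) (h : InG (CStarMatrix n n A) Γ) : InG A Γ := by
  classical
  obtain ⟨i0⟩ := ‹Nonempty n›
  intro a ha
  let emb : A → CStarMatrix n n A := fun x => CStarMatrix.ofMatrix
    (fun p q => if p = i0 ∧ q = i0 then x else 0)
  have hemb : ∀ x y p q, (star (emb x) * emb y : CStarMatrix n n A) p q
      = emb (star x * y) p q := by
    intro x y p q
    rw [CStarMatrix.mul_apply]
    change ∑ l, star (if l = i0 ∧ p = i0 then x else 0) * (if l = i0 ∧ q = i0 then y else 0)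
      = if p = i0 ∧ q = i0 then star x * y else 0
    rw [Finset.sum_eq_single i0]
    · by_cases hp : p = i0 <;> by_cases hq : q = i0 <;> simp [hp, hq]
    · intro l _ hl; simp [hl]
    · intro h; exact absurd (Finset.mem_univ _) h
  have hb : PartialPos Γ (fun i j => emb (a i j) : Matrix V V (CStarMatrix n n A)) := by
    intro K hK
    obtain ⟨N, hN⟩ := gram_of_posM_sub a K (ha K hK)
    refine posM_sub_of_gram (r := K) (fun k j => emb (N k j)) _ K ?_
    intro i hi j hj
    apply CStarMatrix.ext
    intro p q
    rw [csum_apply]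
    simp only [hemb]
    rw [← hN i hi j hj]
    change ∑ k, (if p = i0 ∧ q = i0 then star (N k i) * N k j else 0)
      = if p = i0 ∧ q = i0 then ∑ k, star (N k i) * N k j else 0
    by_cases hpq : p = i0 ∧ q = i0
    · simp only [if_pos hpq]
    · simp only [if_neg hpq, Finset.sum_const_zero]
  obtain ⟨Y, hY, hYa⟩ := h _ hb
  refine ⟨fun i j => Y i j i0 i0, ?_, ?_⟩
  · obtain ⟨N, hN⟩ := gram_of_posM hY
    refine posM_of_gram (r := V × n) (fun k j => N k.1 j k.2 i0) _ ?_
    intro i j
    rw [← hN i j, csum_apply, Fintype.sum_prod_type]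
    refine Finset.sum_congr rfl fun k _ => ?_
    rw [CStarMatrix.mul_apply]
    rfl
  · intro i j hij
    have h1 := congrArg (fun M : CStarMatrix n n A => M i0 i0) (hYa i j hij)
    have h2 : (emb (a i j)) i0 i0 = a i j := by
      change (if i0 = i0 ∧ i0 = i0 then a i j else 0) = a i j
      simp
    exact h1.trans h2

end transfer

section unital

variable {A : Type*} [CStarAlgebra A] [PartialOrder A] [StarOrderedRing A]

/-- The Douglas property passes to matrix algebras. -/
theorem douglas_matrix (hD : Douglas A) (n : Type) [Fintype n] [DecidableEq n] :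
    Douglas (CStarMatrix n n A) := by
  intro X Y hXY
  obtain ⟨c, hc0, hcs, hcc⟩ := exists_root (sub_nonneg.2 hXY)
  have hsum : star X * X + star c * c = star Y * Y := by rw [hcs, hcc]; abel
  obtain ⟨r, hr, z, F, hz, hF⟩ := gram_factor' hD
    (fun (k : n ⊕ n) (j : n) => match k with | Sum.inl k => X k j | Sum.inr k => c k j)
    (fun (k : n) (j : n) => Y k j) (by
      intro i j
      rw [Fintype.sum_sum_type]
      have h1 := congrArg (fun M : CStarMatrix n n A => M i j) hsum
      have h2 : (star X * X + star c * c : CStarMatrix n n A) i j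
          = ∑ k, star (X k i) * X k j + ∑ k, star (c k i) * c k j := by
        change (star X * X : CStarMatrix n n A) i j + (star c * c : CStarMatrix n n A) i j = _
        rw [CStarMatrix.mul_apply, CStarMatrix.mul_apply]
        rfl
      have h3 : (star Y * Y : CStarMatrix n n A) i j = ∑ k, star (Y k i) * Y k j := by
        rw [CStarMatrix.mul_apply]
        rfl
      simp only [h2, h3] at h1
      exact h1)
  let z1 : CStarMatrix n n A := CStarMatrix.ofMatrix (fun i j => z (Sum.inl i) j)
  refine ⟨z1, ?_, ?_⟩
  · apply CStarMatrix.ext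
    intro i j
    have := congrFun (congrFun hz (Sum.inl i)) j
    rw [CStarMatrix.mul_apply]
    exact this
  · rw [← sub_nonneg]
    let G : Matrix (n ⊕ r) n A := fun k j => match k with
      | Sum.inl k => z (Sum.inr k) j
      | Sum.inr k => F k j
    have h1 : (1 - star z1 * z1 : CStarMatrix n n A) = CStarMatrix.ofMatrix (Gᴴ * G) := by
      apply CStarMatrix.ext
      intro i j
      have h2 := congrFun (congrFun hF i) j
      rw [Matrix.add_apply, Matrix.mul_apply, Matrix.mul_apply, Fintype.sum_sum_type] at h2
      simp only [Matrix.conjTranspose_apply] at h2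
      have h3 : (1 - star z1 * z1 : CStarMatrix n n A) i j
          = (1 : Matrix n n A) i j - ∑ k, star (z (Sum.inl k) i) * z (Sum.inl k) j := by
        change (1 : CStarMatrix n n A) i j - (star z1 * z1 : CStarMatrix n n A) i j = _
        rw [CStarMatrix.mul_apply]
        rfl
      have h4 : (CStarMatrix.ofMatrix (Gᴴ * G) : CStarMatrix n n A) i j
          = ∑ k, star (z (Sum.inr k) i) * z (Sum.inr k) j + ∑ k, star (F k i) * F k j := by
        change (Gᴴ * G) i j = _
        rw [Matrix.mul_apply, Fintype.sum_sum_type]
        rfl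
      rw [h3, ← h2, h4]
      abel
    rw [h1]
    exact posM_gram _

/-- **Main theorem**: for a nonzero unital C*-algebra `A`, if `K_3^{(0)} ∈ G(A)` then
`G(A)` is the class of chordal graphs. -/
theorem main [Nontrivial A] (h : InG A pathThree) {V : Type} [Fintype V] (Γ : SimpleGraph V) :
    InG A Γ ↔ Chordal Γ :=
  ⟨chordal_of_inG Γ, inG_of_chordal (douglas_of_pathThree h) Γ⟩

theorem main_not (h : ¬ InG A pathThree) {V : Type} [Fintype V] (Γ : SimpleGraph V) :
    InG A Γ ↔ IsCluster Γ :=
  ⟨fun hΓ => by
    by_contra hc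
    exact h (pathThree_of_not_cluster Γ hΓ hc), inG_of_cluster Γ⟩

theorem pathThree_chordal : Chordal pathThree := by
  intro p c hp hinj _ _
  exfalso
  have : Function.Injective (fun i : Fin p => c i) := by
    intro i j hij
    exact Fin.ext (hinj i j i.2 j.2 hij)
  have := Fintype.card_le_of_injective _ this
  simp at this
  omega

theorem pathThree_matrix_iff {n : Type} [Fintype n] [DecidableEq n] [Nonempty n] :
    InG (CStarMatrix n n A) pathThree ↔ InG A pathThree :=
  ⟨inG_of_matrix pathThree, fun h =>
    inG_of_chordal (douglas_matrix (douglas_of_pathThree h) n) pathThree pathThree_chordal⟩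

/-- `G(M_n(A)) = G(A)` for every nonzero unital C*-algebra. -/
theorem matrix_iff [Nontrivial A] {n : Type} [Fintype n] [DecidableEq n] [Nonempty n]
    {V : Type} [Fintype V] (Γ : SimpleGraph V) :
    InG (CStarMatrix n n A) Γ ↔ InG A Γ := by
  refine ⟨inG_of_matrix Γ, fun h => ?_⟩
  by_cases h3 : InG A pathThree
  · exact inG_of_chordal (douglas_matrix (douglas_of_pathThree h3) n) Γ (chordal_of_inG Γ h)
  · exact inG_of_cluster Γ ((main_not h3 Γ).1 h)

end unital

end Pool.Agent.V11131.PosComp
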