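import Pool.Agent.V11131.PosComp6

/-!
# The Douglas property and SAW*-algebras
-/

open scoped Matrix

namespace Pool.Agent.V11131.PosComp

/-- Pedersen's SAW*-algebras: orthogonal positive elements `a`, `b` are separated by an `e ≥ 0`
with `e a = a` and `e b = 0`. -/
def IsSAW (B : Type*) [NonUnitalCStarAlgebra B] [PartialOrder B] [StarOrderedRing B] : Prop :=
  ∀ a b : B, 0 ≤ a → 0 ≤ b → a * b = 0 → ∃ e : B, 0 ≤ e ∧ e * a = a ∧ e * b = 0

section unital

variable {A : Type*} [CStarAlgebra A] [PartialOrder A] [StarOrderedRing A]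

theorem isSAW_of_douglas (hD : Douglas A) : IsSAW A := by
  intro a b ha hb hab
  obtain ⟨e, h1, h2, h3, _, _⟩ := separate hD a b ha hb hab
  refine ⟨star e * e, star_mul_self_nonneg e, ?_, ?_⟩
  · rw [mul_assoc, h2, h1]
  · rw [mul_assoc, h3, mul_zero]

theorem truncate (E : A) (hE : 0 ≤ E) : ∃ e : A, 0 ≤ e ∧ e ≤ 1 ∧
    (∀ p, E * p = p → e * p = p) ∧ (∀ p, E * p = 0 → e * p = 0) := by
  have sE : star E = E := (IsSelfAdjoint.of_nonneg hE).star_eq
  have hs0 : 0 ≤ E * E := by
    have := star_mul_self_nonneg E
    rwa [sE] at this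
  have hu : IsUnit (1 + E * E) :=
    CStarAlgebra.isUnit_of_le (1 : A) (b := 1 + E * E) (le_add_of_nonneg_right hs0)
  obtain ⟨u, hu⟩ := hu
  set k : A := ↑u⁻¹ with hk
  have k1 : k * (1 + E * E) = 1 := by rw [← hu, hk]; simp
  have k2 : (1 + E * E) * k = 1 := by rw [← hu, hk]; simp
  have ks : star k = k := by
    have e1 : star k * (1 + E * E) = 1 := by
      have := congrArg star k2
      rwa [star_mul, star_add, star_one, star_mul, sE] at this
    calc star k = star k * ((1 + E * E) * k) := by rw [k2, mul_one]
      _ = (star k * (1 + E * E)) * k := by rw [mul_assoc]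
      _ = k := by rw [e1, one_mul]
  have kE : k * E = E * k := by
    have e1 : (1 + E * E) * E = E * (1 + E * E) := by noncomm_ring
    calc k * E = k * E * ((1 + E * E) * k) := by rw [k2, mul_one]
      _ = k * (E * (1 + E * E)) * k := by noncomm_ring
      _ = k * ((1 + E * E) * E) * k := by rw [e1]
      _ = (k * (1 + E * E)) * E * k := by noncomm_ring
      _ = E * k := by rw [k1, one_mul]
  let T : A := E * k + E * k
  have hTs : star T = T := by
    simp only [T, star_add, star_mul, ks, sE, kE]
  have hp1 : ∀ p, E * p = p → T * p = p := by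
    intro p hp
    have e1 : (1 + E * E) * p = p + p := by
      rw [add_mul, one_mul, mul_assoc, hp, hp]
    have e2 : k * p + k * p = p := by
      rw [← mul_add, ← e1, ← mul_assoc, k1, one_mul]
    calc T * p = E * (k * p + k * p) := by simp only [T]; noncomm_ring
      _ = p := by rw [e2, hp]
  have hp0 : ∀ p, E * p = 0 → T * p = 0 := by
    intro p hp
    have : T * p = k * (E * p) + k * (E * p) := by
      simp only [T]
      rw [← kE]; noncomm_ring
    rw [this, hp]; simp
  refine ⟨T * T, ?_, ?_, ?_, ?_⟩
  · have := star_mul_self_nonneg T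
    rwa [hTs] at this
  · have hk2 : k * (E * E) = (E * E) * k := by
      calc k * (E * E) = (k * E) * E := by rw [mul_assoc]
        _ = (E * k) * E := by rw [kE]
        _ = E * (k * E) := by rw [mul_assoc]
        _ = E * (E * k) := by rw [kE]
        _ = (E * E) * k := by rw [mul_assoc]
    have hR : star (k * (1 - E * E)) = k * (1 - E * E) := by
      rw [star_mul, star_sub, star_one, star_mul, sE, ks]
      calc (1 - E * E) * k = k - (E * E) * k := by rw [sub_mul, one_mul]
        _ = k * (1 - E * E) := by rw [← hk2, mul_sub, mul_one]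
    have h1 : 0 ≤ (k * (1 - E * E)) * (k * (1 - E * E)) := by
      have := star_mul_self_nonneg (k * (1 - E * E))
      rwa [hR] at this
    have h2 : (k * (1 - E * E)) * (k * (1 - E * E)) = 1 - T * T := by
      have e1 : (k * (1 + E * E)) * (k * (1 + E * E)) = 1 := by rw [k1, one_mul]
      have e2 : (k * (1 + E * E)) * (k * (1 + E * E))
          = k * k + k * (E * E) * k + k * (k * (E * E)) + k * (E * E) * k * (E * E) := by
        noncomm_ring
      have e3 : (k * (1 - E * E)) * (k * (1 - E * E))
          = k * k - k * (E * E) * k - k * (k * (E * E)) + k * (E * E) * k * (E * E) := by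
        noncomm_ring
      have e4 : k * (E * E) * k = k * (k * (E * E)) := by
        rw [mul_assoc, ← hk2]
      have e5 : T * T = k * (k * (E * E)) + k * (k * (E * E)) + k * (k * (E * E))
          + k * (k * (E * E)) := by
        have : T * T = (E * k) * (E * k) + (E * k) * (E * k) + (E * k) * (E * k)
            + (E * k) * (E * k) := by simp only [T]; noncomm_ring
        have e6 : (E * k) * (E * k) = k * (k * (E * E)) := by
          calc (E * k) * (E * k) = (k * E) * (E * k) := by rw [kE]
            _ = k * ((E * E) * k) := by noncomm_ring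
            _ = k * (k * (E * E)) := by rw [hk2]
        rw [this, e6]
      rw [e2] at e1
      rw [e3, e5, ← e1, e4]
      abel
    rw [h2] at h1
    exact sub_nonneg.1 h1
  · intro p hp
    rw [mul_assoc, hp1 p hp, hp1 p hp]
  · intro p hp
    rw [mul_assoc, hp0 p hp, mul_zero]

/-- If `M_3(A)` is an SAW*-algebra then `A` has the Douglas property. -/
theorem douglas_of_isSAW (h : IsSAW (CStarMatrix (Fin 3) (Fin 3) A)) : Douglas A := by
  intro x y hxy
  obtain ⟨c, hc0, hcs, hcc⟩ := exists_root (sub_nonneg.2 hxy)
  let u : Fin 3 → A := ![x, c, y]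
  let w : Fin 3 → A := ![x, c, -y]
  let rk : (Fin 3 → A) → CStarMatrix (Fin 3) (Fin 3) A := fun v =>
    CStarMatrix.ofMatrix (fun i j => v i * star (v j))
  have hrk : ∀ v, 0 ≤ rk v := by
    intro v
    let G : Matrix Unit (Fin 3) A := fun _ j => star (v j)
    have : (fun i j => v i * star (v j) : Matrix (Fin 3) (Fin 3) A) = Gᴴ * G := by
      ext i j
      rw [Matrix.mul_apply, Finset.univ_unique, Finset.sum_singleton, Matrix.conjTranspose_apply]
      change _ = star (star (v i)) * star (v j)
      rw [star_star]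
    have h1 := posM_gram G
    rw [← this] at h1
    exact h1
  have huw : ∑ l, star (u l) * w l = 0 := by
    rw [Fin.sum_univ_three]
    simp [u, w, hcs, hcc]
  have hPQ : rk u * rk w = 0 := by
    apply CStarMatrix.ext
    intro i j
    rw [CStarMatrix.mul_apply]
    change ∑ l, u i * star (u l) * (w l * star (w j)) = 0
    have : ∑ l, u i * star (u l) * (w l * star (w j))
        = u i * (∑ l, star (u l) * w l) * star (w j) := by
      rw [Finset.mul_sum, Finset.sum_mul]
      refine Finset.sum_congr rfl fun l _ => ?_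
      noncomm_ring
    rw [this, huw]; simp
  obtain ⟨E, hE0, hE1, hE2⟩ := h (rk u) (rk w) (hrk u) (hrk w) hPQ
  obtain ⟨e, he0, he1, hep, heq⟩ := truncate E hE0
  have hu' := hep _ hE1
  have hw' := heq _ hE2
  -- `e` fixes the column `u`
  have hcolu : ∀ i, ∑ l, e i l * u l = u i := by
    intro i
    have hz : ∀ j, (∑ l, e i l * u l - u i) * star (u j) = 0 := by
      intro j
      have := congrArg (fun M : CStarMatrix (Fin 3) (Fin 3) A => M i j) hu'
      have h1 : ∑ l, e i l * (u l * star (u j)) = u i * star (u j) := this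
      rw [sub_mul, Finset.sum_mul, ← h1, sub_eq_zero]
      exact Finset.sum_congr rfl fun l _ => by rw [mul_assoc]
    have h2 : (∑ l, e i l * u l - u i) * star (∑ l, e i l * u l - u i) = 0 := by
      rw [star_sub, star_sum, mul_sub, Finset.mul_sum, hz i, sub_zero]
      refine Finset.sum_eq_zero fun l _ => ?_
      rw [star_mul, ← mul_assoc, hz l, zero_mul]
    exact sub_eq_zero.1 (eq_zero_of_mul_star h2)
  have hcolw : ∀ i, ∑ l, e i l * w l = 0 := by
    intro i
    have hz : ∀ j, (∑ l, e i l * w l) * star (w j) = 0 := by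
      intro j
      have := congrArg (fun M : CStarMatrix (Fin 3) (Fin 3) A => M i j) hw'
      have h1 : ∑ l, e i l * (w l * star (w j)) = 0 := this
      rw [Finset.sum_mul, ← h1]
      exact Finset.sum_congr rfl fun l _ => by rw [mul_assoc]
    have h2 : (∑ l, e i l * w l) * star (∑ l, e i l * w l) = 0 := by
      rw [star_sum, Finset.mul_sum]
      refine Finset.sum_eq_zero fun l _ => ?_
      rw [star_mul, ← mul_assoc, hz l, zero_mul]
    exact eq_zero_of_mul_star h2
  let R : CStarMatrix (Fin 3) (Fin 3) A := e + e - 1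
  have hes : star e = e := (IsSelfAdjoint.of_nonneg he0).star_eq
  have hRR : star R * R ≤ 1 := by
    obtain ⟨g, hg0, hgs, hgg⟩ := exists_root he0
    have h1 : 0 ≤ g * (1 - e) * g := by
      have := star_left_conjugate_nonneg (sub_nonneg.2 he1) g
      rwa [hgs] at this
    have h2 : g * (1 - e) * g = e - e * e := by
      calc g * (1 - e) * g = g * g - g * e * g := by noncomm_ring
        _ = e - e * e := by
          rw [hgg]
          congr 1
          conv_lhs => rw [← hgg]
          calc g * (g * g) * g = (g * g) * (g * g) := by noncomm_ring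
            _ = e * e := by rw [hgg]
    rw [h2] at h1
    have h3 : (1 : CStarMatrix (Fin 3) (Fin 3) A) - star R * R
        = (e - e * e) + (e - e * e) + ((e - e * e) + (e - e * e)) := by
      have : star R = R := by simp only [R, star_sub, star_add, star_one, hes]
      rw [this]
      simp only [R]
      noncomm_ring
    rw [← sub_nonneg, h3]
    exact add_nonneg (add_nonneg h1 h1) (add_nonneg h1 h1)
  refine ⟨R 0 2, ?_, ?_⟩
  · have h1 : R 0 2 = e 0 2 + e 0 2 := by
      change e 0 2 + e 0 2 - (1 : CStarMatrix (Fin 3) (Fin 3) A) 0 2 = _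
      rw [CStarMatrix.one_apply]
      simp
    have h2 := hcolu 0
    have h3 := hcolw 0
    rw [Fin.sum_univ_three] at h2 h3
    simp only [u, w, Matrix.cons_val_zero, Matrix.cons_val_one, Matrix.cons_val] at h2 h3
    rw [h1]
    calc x = (e 0 0 * x + e 0 1 * c + e 0 2 * y) - (e 0 0 * x + e 0 1 * c + e 0 2 * -y) := by
          rw [h2, h3, sub_zero]
      _ = (e 0 2 + e 0 2) * y := by noncomm_ring
  · have h1 : PosM (CStarMatrix.ofMatrix.symm (1 - star R * R : CStarMatrix (Fin 3) (Fin 3) A)) :=
      sub_nonneg.2 hRR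
    obtain ⟨N, hN⟩ := gram_of_posM h1
    have h2 := hN 2 2
    have h3 : (CStarMatrix.ofMatrix.symm (1 - star R * R : CStarMatrix (Fin 3) (Fin 3) A)) 2 2
        = 1 - ∑ k, star (R k 2) * R k 2 := by
      change (1 : CStarMatrix (Fin 3) (Fin 3) A) 2 2 - (star R * R) 2 2 = _
      rw [CStarMatrix.mul_apply, CStarMatrix.one_apply_eq]
      rfl
    rw [h3, Fin.sum_univ_three (fun k => star (R k 2) * R k 2)] at h2
    have h4 : 0 ≤ ∑ k, star (N k 2) * N k 2 := Finset.sum_nonneg fun k _ => star_mul_self_nonneg _
    rw [h2] at h4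
    have h5 := sub_nonneg.1 h4
    refine le_trans ?_ h5
    rw [add_assoc]
    exact le_add_of_nonneg_right (add_nonneg (star_mul_self_nonneg _) (star_mul_self_nonneg _))

end unital

end Pool.Agent.V11131.PosComp
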