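import Pool.Agent.V11131.Rab1

/-!
Circle lemmas: an element of order three with a fixed point is trivial; a group of exponent
three with at least four elements does not act freely.
-/

namespace Pool.Agent.V11131.Rab

open Equiv

lemma fix_of_cube {f : Perm S} (hf : PresSep f) (h3 : ∀ s, f (f (f s)) = s) {s0 : S}
    (h0 : f s0 = s0) (x : S) : f x = x := by
  by_contra hx
  have hinj := f.injective
  set y := f x with hy
  set z := f y with hz
  have hzx : f z = x := by rw [hz, hy]; exact h3 x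
  have hsx : s0 ≠ x := by rintro rfl; exact hx h0
  have hsy : s0 ≠ y := by
    intro h; apply hsx; apply hinj; rw [h0, h]
  have hsz : s0 ≠ z := by
    intro h; apply hsy; apply hinj; rw [h0, h]
  have hxy : x ≠ y := fun h => hx h.symm
  have hyz : y ≠ z := by
    intro h; apply hxy; apply hinj; rw [← hy, ← hz]; exact h
  have hxz : x ≠ z := by
    intro h
    apply hyz
    rw [hy, h, hzx, ← h]
  have e1 : Sep s0 x y z ↔ Sep s0 y z x := by
    have := hf s0 x y z
    rwa [h0, ← hy, ← hz, hzx] at this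
  have e2 : Sep s0 y z x ↔ Sep s0 z x y := by
    have := hf s0 y z x
    rwa [h0, ← hz, hzx, ← hy] at this
  have := sep_exists hsx hsy hsz hxy hxz hyz
  have h' : Sep s0 x y z ∧ Sep s0 y z x := by
    rcases this with h | h | h
    · exact ⟨h, e1.1 h⟩
    · exact ⟨e1.2 h, h⟩
    · exact ⟨e1.2 (e2.2 h), e2.2 h⟩
  exact sep_excl h'


/-- `a, b` are adjacent in the set `O`: they separate no two elements of `O`. -/
def Nbr (O : Set S) (a b : S) : Prop := ∀ c ∈ O, ∀ d ∈ O, ¬ Sep a b c d

lemma sep_symm {a b c d : S} : Sep a b c d ↔ Sep b a c d := by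
  unfold Sep Btw Out
  grind

lemma not_free {P : Type} [Group P] [Finite P] (hP : 4 ≤ Nat.card P) (h3 : ∀ g : P, g ^ 3 = 1)
    (F : P → Perm S) (hmul : ∀ g h s, F (g * h) s = F g (F h s)) (hsep : ∀ g, PresSep (F g)) :
    ∃ k : P, k ≠ 1 ∧ ∀ s, F k s = s := by
  classical
  by_contra hcon
  push Not at hcon
  have h1 : ∀ s, F 1 s = s := by
    intro s
    apply (F 1).injective
    rw [← hmul, one_mul]
  have hcube : ∀ g s, F g (F g (F g s)) = s := by
    intro g s
    rw [← hmul, ← hmul]
    have : g * g * g = 1 := by rw [← h3 g, pow_three']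
    rw [this, h1]
  have hfree : ∀ g : P, g ≠ 1 → ∀ s, F g s ≠ s := by
    intro g hg s hs
    obtain ⟨x, hx⟩ := hcon g hg
    exact hx (fix_of_cube (hsep g) (hcube g) hs x)
  have hinj : Function.Injective fun g : P => F g ⊤ := by
    intro g h hgh
    by_contra hne
    have hne' : h⁻¹ * g ≠ 1 := fun h' => hne (inv_mul_eq_one.1 h').symm
    apply hfree _ hne' ⊤
    apply (F h).injective
    rw [← hmul]
    simpa using hgh
  have := Fintype.ofFinite P
  set O : Finset S := Finset.univ.image fun g : P => F g ⊤ with hO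
  have hOcard : 4 ≤ O.card := by
    rw [hO, Finset.card_image_of_injective _ hinj, Finset.card_univ, ← Nat.card_eq_fintype_card]
    exact hP
  have hOinv : ∀ g : P, ∀ s, s ∈ O → F g s ∈ O := by
    intro g s hs
    rw [hO, Finset.mem_image] at hs ⊢
    obtain ⟨h, -, rfl⟩ := hs
    exact ⟨g * h, Finset.mem_univ _, hmul g h ⊤⟩
  have hOne : O.Nonempty := Finset.card_pos.1 (by omega)
  set x := O.min' hOne with hx
  have hxO : x ∈ O := O.min'_mem hOne
  have hO'card : 3 ≤ (O.erase x).card := by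
    rw [Finset.card_erase_of_mem hxO]; omega
  have hO'ne : (O.erase x).Nonempty := Finset.card_pos.1 (by omega)
  set b := (O.erase x).min' hO'ne with hb
  have hbO' : b ∈ O.erase x := (O.erase x).min'_mem hO'ne
  have hbO : b ∈ O := Finset.mem_of_mem_erase hbO'
  have hbx : b ≠ x := Finset.ne_of_mem_erase hbO'
  obtain ⟨g, hg⟩ : ∃ g : P, F g x = b := by
    have hx' := hxO
    have hb' := hbO
    rw [hO, Finset.mem_image] at hx' hb'
    obtain ⟨u, -, hu⟩ := hx'
    obtain ⟨v, -, hv⟩ := hb'
    refine ⟨v * u⁻¹, ?_⟩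
    rw [← hu, ← hmul, inv_mul_cancel_right]
    exact hv
  have hnb : Nbr O x b := by
    intro c hc d hd hs
    have hc1 : x ≤ c := O.min'_le c hc
    have hd1 : x ≤ d := O.min'_le d hd
    have hc2 : c ≠ x → b ≤ c := fun h => (O.erase x).min'_le c (Finset.mem_erase.2 ⟨h, hc⟩)
    have hd2 : d ≠ x → b ≤ d := fun h => (O.erase x).min'_le d (Finset.mem_erase.2 ⟨h, hd⟩)
    have hxb : x ≤ b := O.min'_le b hbO
    unfold Sep Btw Out at hs
    grind
  have hinv : ∀ u v, Nbr O u v → Nbr O (F g u) (F g v) := by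
    intro u v huv c hc d hd hs
    have hc' : F (g⁻¹) c ∈ O := hOinv _ _ hc
    have hd' : F (g⁻¹) d ∈ O := hOinv _ _ hd
    apply huv _ hc' _ hd'
    rw [hsep g]
    rw [← hmul, ← hmul, mul_inv_cancel, h1, h1]
    exact hs
  have hnb2 := hinv _ _ hnb
  have hnb3 := hinv _ _ hnb2
  have hgc := hcube g x
  have hgne : g ≠ 1 := by
    rintro rfl
    exact hbx (by rw [← hg, h1])
  rw [hg] at hnb2 hnb3 hgc
  rw [hgc] at hnb3
  set z := F g b with hz
  have hbz : b ≠ z := fun h => hfree g hgne b h.symm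
  have hzx : z ≠ x := by
    intro h
    apply hbz
    rw [← hg, ← h, hgc]
    exact h.symm
  have hzO : z ∈ O := hOinv _ _ hbO
  obtain ⟨y, hyO, hy⟩ : ∃ y ∈ O, y ∉ ({x, b, z} : Finset S) := by
    by_contra hno
    push Not at hno
    have : O ⊆ {x, b, z} := fun y hy => hno y hy
    have := Finset.card_le_card this
    have h3' : ({x, b, z} : Finset S).card ≤ 3 := Finset.card_le_three
    omega
  simp only [Finset.mem_insert, Finset.mem_singleton, not_or] at hy
  obtain ⟨hyx, hyb, hyz⟩ := hy
  have hex := sep_exists (s := x) (x := b) (y := z) (z := y) hbx.symm hzx.symm (Ne.symm hyx) hbz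
    (Ne.symm hyb) (Ne.symm hyz)
  rcases hex with h | h | h
  · exact hnb z hzO y hyO h
  · exact hnb3 y hyO b hbO (sep_symm.1 h)
  · exact hnb2 x hxO y hyO (sep_swap.1 h)

end Pool.Agent.V11131.Rab
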