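import Pool.Agent.V11131.Rab1

/-!
The universal group `U(Sym([m+1]), Aut(S))` of the `(m+1, ∞)`-biregular tree, in an explicit
model of the tree of circles of the `(m+1)`-regular rabbit.
-/

namespace Pool.Agent.V11131.Rab

open Equiv

/-- The points (vertices of finite degree `m + 1`). The point `(s, [])` lies on the root circle;
`(s, (i, q) :: l)` is the point with coordinate `q` on the `i`-th child circle of `(s, l)`. -/
abbrev Point (m : ℕ) : Type := S × List (Fin m × ℚ)

/-- The circles (vertices of infinite degree): the root circle `none`, and for each point `p` the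
`m` child circles `some (p, i)`. -/
abbrev Circle (m : ℕ) : Type := Option (Point m × Fin m)

/-- The point of the circle `c` with coordinate `s`. A child circle `some (p, i)` of `p` passes
through `p` at the coordinate `⊤ = ∞`. -/
def pt {m : ℕ} : Circle m → S → Point m
  | none, s => (s, [])
  | some (p, _), none => p
  | some (p, i), some q => (p.1, (i, q) :: p.2)

/-- The pair of permutations (of points and of circles) is an automorphism of the tree of circles
whose local action at every circle preserves the separation relation. -/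
def Loc {m : ℕ} (g : Perm (Point m) × Perm (Circle m)) : Prop :=
  ∀ c, ∃ f : Perm S, PresSep f ∧ ∀ s, g.1 (pt c s) = pt (g.2 c) (f s)

lemma loc_one {m : ℕ} : Loc (1 : Perm (Point m) × Perm (Circle m)) :=
  fun _ => ⟨1, fun _ _ _ _ => Iff.rfl, fun _ => rfl⟩

lemma loc_mul {m : ℕ} {g h : Perm (Point m) × Perm (Circle m)} (hg : Loc g) (hh : Loc h) :
    Loc (g * h) := by
  intro c
  obtain ⟨f, hf, hf'⟩ := hh c
  obtain ⟨k, hk, hk'⟩ := hg (h.2 c)
  refine ⟨k * f, fun a b c d => (hf a b c d).trans (hk _ _ _ _), fun s => ?_⟩
  change g.1 (h.1 (pt c s)) = pt (g.2 (h.2 c)) (k (f s))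
  rw [hf', hk']

lemma loc_inv {m : ℕ} {g : Perm (Point m) × Perm (Circle m)} (hg : Loc g) : Loc g⁻¹ := by
  intro c
  obtain ⟨f, hf, hf'⟩ := hg (g.2⁻¹ c)
  refine ⟨f⁻¹, fun a b c d => ?_, fun s => ?_⟩
  · have := hf (f⁻¹ a) (f⁻¹ b) (f⁻¹ c) (f⁻¹ d)
    simpa using this.symm
  · change g.1⁻¹ (pt c s) = pt (g.2⁻¹ c) (f⁻¹ s)
    rw [Perm.inv_eq_iff_eq, hf']
    simp

/-- The universal group `U(Sym([m+1]), Aut(S))`: the automorphisms of the tree of circles of the
`(m+1)`-regular rabbit whose local actions at all circles lie in `Aut(S)`. -/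
def U (m : ℕ) : Subgroup (Perm (Point m) × Perm (Circle m)) where
  carrier := {g | Loc g}
  one_mem' := loc_one
  mul_mem' := loc_mul
  inv_mem' := loc_inv

lemma pt_inj {m : ℕ} (c : Circle m) : Function.Injective (pt c) := by
  intro s t h
  match c, s, t, h with
  | none, s, t, h => exact congrArg Prod.fst h
  | some (p, i), none, none, h => rfl
  | some (p, i), some q, none, h =>
    have := congrArg (fun x => x.2.length) h
    simp [pt] at this
  | some (p, i), none, some q, h =>
    have := congrArg (fun x => x.2.length) h
    simp [pt] at this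
  | some (p, i), some q, some r, h =>
    have := congrArg Prod.snd h
    simp [pt] at this
    rw [this]

end Pool.Agent.V11131.Rab
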