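import Pool.Agent.V11131.Rab5

/-!
An elementary abelian group of order nine in `U(Sym([4]), Aut(S))`, and the conclusion.
-/

namespace Pool.Agent.V11131.Rab

open Equiv

/-- Add `k` to the index of the last entry. -/
def rot (k : Fin 3) : List (Fin 3 × ℚ) → List (Fin 3 × ℚ)
  | [] => []
  | [a] => [(a.1 + k, a.2)]
  | a :: b :: l => a :: rot k (b :: l)

lemma rot_zero (l : List (Fin 3 × ℚ)) : rot 0 l = l := by
  match l with
  | [] => rfl
  | [a] => simp [rot]
  | a :: b :: l => simp [rot, rot_zero (b :: l)]

lemma rot_ne (k : Fin 3) (a : Fin 3 × ℚ) (l : List (Fin 3 × ℚ)) :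
    ∃ b l', rot k (a :: l) = b :: l' := by
  match l with
  | [] => exact ⟨_, _, rfl⟩
  | b :: l => exact ⟨_, _, rfl⟩

lemma rot_rot (j k : Fin 3) (l : List (Fin 3 × ℚ)) : rot j (rot k l) = rot (j + k) l := by
  match l with
  | [] => rfl
  | [a] => simp [rot, add_assoc, add_comm j k]
  | a :: b :: l =>
    have ih := rot_rot j k (b :: l)
    obtain ⟨c, l', hc⟩ := rot_ne k b l
    simp only [rot]
    rw [← ih, hc]
    simp only [rot]

/-- The action on points. -/
def rotP (κ : S → Fin 3) (p : Point 3) : Point 3 := (p.1, rot (κ p.1) p.2)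

/-- The action on circles. -/
def rotC (κ : S → Fin 3) : Circle 3 → Circle 3
  | none => none
  | some ((s, []), i) => some ((s, []), i + κ s)
  | some ((s, a :: l), i) => some ((s, rot (κ s) (a :: l)), i)

lemma rotP_add (κ κ' : S → Fin 3) (p : Point 3) : rotP κ (rotP κ' p) = rotP (κ + κ') p := by
  simp [rotP, rot_rot]

lemma rotP_zero (p : Point 3) : rotP 0 p = p := by
  simp [rotP, rot_zero]

lemma rotC_add (κ κ' : S → Fin 3) (c : Circle 3) : rotC κ (rotC κ' c) = rotC (κ + κ') c := by
  match c with
  | none => rfl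
  | some ((s, []), i) =>
    simp only [rotC, Pi.add_apply]
    rw [add_assoc, add_comm (κ' s)]
  | some ((s, a :: l), i) =>
    obtain ⟨b, l', hb⟩ := rot_ne (κ' s) a l
    simp only [rotC, Pi.add_apply]
    rw [← rot_rot, hb]

lemma rotC_zero (c : Circle 3) : rotC 0 c = c := by
  match c with
  | none => rfl
  | some ((s, []), i) => simp [rotC]
  | some ((s, a :: l), i) => simp [rotC, rot_zero]

lemma rot_pt (κ : S → Fin 3) (c : Circle 3) (t : S) : rotP κ (pt c t) = pt (rotC κ c) t := by
  match c, t with
  | none, t => rfl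
  | some ((s, []), i), none => rfl
  | some ((s, []), i), some q => rfl
  | some ((s, a :: l), i), none => rfl
  | some ((s, a :: l), i), some q => rfl

/-- The permutation of points. -/
def permP (κ : S → Fin 3) : Perm (Point 3) where
  toFun := rotP κ
  invFun := rotP (-κ)
  left_inv p := by rw [rotP_add, neg_add_cancel, rotP_zero]
  right_inv p := by rw [rotP_add, add_neg_cancel, rotP_zero]

/-- The permutation of circles. -/
def permC (κ : S → Fin 3) : Perm (Circle 3) where
  toFun := rotC κ
  invFun := rotC (-κ)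
  left_inv p := by rw [rotC_add, neg_add_cancel, rotC_zero]
  right_inv p := by rw [rotC_add, add_neg_cancel, rotC_zero]

lemma loc_rot (κ : S → Fin 3) : Loc (permP κ, permC κ) :=
  fun c => ⟨1, fun _ _ _ _ => Iff.rfl, fun t => rot_pt κ c t⟩

/-- The homomorphism. -/
def rotHom : Multiplicative (S → Fin 3) →* U 3 where
  toFun κ := ⟨(permP κ.toAdd, permC κ.toAdd), loc_rot _⟩
  map_one' := by
    apply Subtype.ext
    apply Prod.ext
    · ext1 p; exact rotP_zero p
    · ext1 c; exact rotC_zero c
  map_mul' κ κ' := by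
    apply Subtype.ext
    apply Prod.ext
    · ext1 p; exact (rotP_add _ _ p).symm
    · ext1 c; exact (rotC_add _ _ c).symm

lemma rotHom_inj : Function.Injective rotHom := by
  intro κ κ' h
  apply Multiplicative.toAdd.injective
  funext s
  have h1 : (rotHom κ).1.2 (some ((s, []), 0)) = (rotHom κ').1.2 (some ((s, []), 0)) := by rw [h]
  have h2 : (some ((s, []), 0 + κ.toAdd s) : Circle 3) = some ((s, []), 0 + κ'.toAdd s) := h1
  simpa using h2

/-- The pair `(a, b)` at the two coordinates `⊤` and `0`. -/
def two : Multiplicative (Fin 3 × Fin 3) →* Multiplicative (S → Fin 3) :=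
  AddMonoidHom.toMultiplicative
    { toFun := fun x s => if s = ⊤ then x.1 else if s = 0 then x.2 else 0
      map_zero' := by funext s; simp
      map_add' := by
        intro x y
        funext s
        simp only [Pi.add_apply, Prod.fst_add, Prod.snd_add]
        split_ifs <;> simp }

lemma two_inj : Function.Injective two := by
  intro x y h
  have h1 := congrArg (fun f : Multiplicative (S → Fin 3) => (Multiplicative.toAdd f : S → Fin 3) ⊤) h
  have h2 := congrArg (fun f : Multiplicative (S → Fin 3) => (Multiplicative.toAdd f : S → Fin 3) 0) h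
  apply Multiplicative.toAdd.injective
  apply Prod.ext
  · simpa [two] using h1
  · simpa [two] using h2

/-- The elementary abelian group of order nine does not embed in `U(Sym([3]), Aut(S))`. -/
theorem not_nine : ¬ ∃ ψ : Multiplicative (Fin 3 × Fin 3) →* U 2, Function.Injective ψ := by
  rintro ⟨ψ, hψ⟩
  have hcard : Nat.card (Multiplicative (Fin 3 × Fin 3)) = 9 := by
    rw [Nat.card_eq_fintype_card]; rfl
  refine no_embed (P := Multiplicative (Fin 3 × Fin 3)) (by omega) ?_ ?_ ψ hψ
  · exact IsPGroup.of_card (n := 2) (by rw [hcard]; norm_num)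
  · intro g
    have : ∀ x : Fin 3 × Fin 3, x + x + x = 0 := by decide
    rw [pow_three']
    exact this g.toAdd

/-- There is no injective homomorphism from `U(Sym([4]), Aut(S))` to `U(Sym([3]), Aut(S))`. -/
theorem no_emb : ¬ ∃ φ : U 3 →* U 2, Function.Injective φ := by
  rintro ⟨φ, hφ⟩
  exact not_nine ⟨φ.comp (rotHom.comp two), hφ.comp (rotHom_inj.comp two_inj)⟩

end Pool.Agent.V11131.Rab
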