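import Pool.Agent.V11131.Rab6

/-!
The incidence graph of the model is the `(m+1, ∞)`-biregular tree.
-/

namespace Pool.Agent.V11131.Rab

open Equiv

/-- Adjacency of the tree of circles: a point is joined to the circles through it. -/
def Inc {m : ℕ} : Point m ⊕ Circle m → Point m ⊕ Circle m → Prop
  | Sum.inl p, Sum.inr c => ∃ s, pt c s = p
  | Sum.inr c, Sum.inl p => ∃ s, pt c s = p
  | _, _ => False

/-- The tree of circles: the points and the circles, a point being joined to the circles
through it. -/
def circleTree (m : ℕ) : SimpleGraph (Point m ⊕ Circle m) where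
  Adj := Inc
  symm := ⟨by
    rintro (p | c) (q | d) h
    · exact h
    · exact h
    · exact h
    · exact h⟩
  loopless := ⟨by
    rintro (p | c) h
    · exact h
    · exact h⟩

lemma inc_iff {m : ℕ} (x y : Point m ⊕ Circle m) : Inc x y ↔ (tree m).Adj x y := by
  rw [adj_iff]
  rcases x with p | c <;> rcases y with q | d
  · simp [Inc]
  · constructor
    · rintro ⟨s, rfl⟩
      exact ⟨d, s, Or.inl ⟨rfl, rfl⟩⟩
    · rintro ⟨c, s, ⟨h1, h2⟩ | ⟨h1, h2⟩⟩
      · cases h2
        exact ⟨s, (Sum.inl_injective h1).symm⟩
      · cases h1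
  · constructor
    · rintro ⟨s, rfl⟩
      exact ⟨c, s, Or.inr ⟨rfl, rfl⟩⟩
    · rintro ⟨c', s, ⟨h1, h2⟩ | ⟨h1, h2⟩⟩
      · cases h1
      · cases h1
        exact ⟨s, (Sum.inl_injective h2).symm⟩
  · simp [Inc]

lemma reach_root {m : ℕ} (x : Point m ⊕ Circle m) :
    (circleTree m).Reachable x (Sum.inr none) := by
  obtain ⟨n, hn⟩ := (tree m).up x
  induction n generalizing x with
  | zero => rw [← show (tree m).root = Sum.inr none from rfl, ← hn]; rfl
  | succ n ih =>
    by_cases hx : x = (tree m).root
    · rw [hx]; rfl
    · have h1 : (circleTree m).Adj x ((tree m).par x) :=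
        (inc_iff _ _).2 ⟨((tree m).par_ne hx).symm, Or.inl rfl⟩
      exact h1.reachable.trans (ih _ hn)

lemma bridge {m : ℕ} {v : Point m ⊕ Circle m} (hv : v ≠ (tree m).root) :
    (circleTree m).IsBridge s(v, (tree m).par v) := by
  rw [SimpleGraph.isBridge_iff]
  rintro ⟨w⟩
  have key : ∀ {a b} (w : ((circleTree m).deleteEdges {s(v, (tree m).par v)}).Walk a b),
      (tree m).Anc v a → (tree m).Anc v b := by
    intro a b w
    induction w with
    | nil => exact id
    | @cons a b c hab w ih =>
      intro ha
      apply ih
      rw [SimpleGraph.deleteEdges_adj] at hab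
      obtain ⟨hab, hne⟩ := hab
      obtain ⟨hab', h | h⟩ := (inc_iff _ _).1 hab
      · obtain ⟨n, hn⟩ := ha
        cases n with
        | zero =>
          exfalso
          apply hne
          change a = v at hn
          rw [h, hn]
          rfl
        | succ n => exact ⟨n, by rw [h]; exact hn⟩
      · obtain ⟨n, hn⟩ := ha
        exact ⟨n + 1, by rw [h] at hn; exact hn⟩
  obtain ⟨n, hn⟩ := key w ⟨0, rfl⟩
  obtain ⟨k, hk⟩ := (tree m).up v
  have h2 : ((tree m).par^[n + 1]) v = v := hn
  have h3 : (((tree m).par^[n + 1])^[k]) v = v := Function.iterate_fixed h2 k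
  rw [← Function.iterate_mul, add_mul, one_mul, Function.iterate_add_apply, hk,
    Function.iterate_fixed (tree m).hroot] at h3
  exact hv h3.symm

theorem circleTree_isTree (m : ℕ) : (circleTree m).IsTree := by
  refine ⟨⟨fun x y => (reach_root x).trans (reach_root y).symm⟩, ?_⟩
  rw [SimpleGraph.isAcyclic_iff_forall_adj_isBridge]
  intro v w hvw
  obtain ⟨hne, h | h⟩ := (inc_iff _ _).1 hvw
  · rw [h]
    apply bridge
    rintro rfl
    exact hne (by rw [h]; rfl)
  · rw [Sym2.eq_swap, h]
    apply bridge
    rintro rfl
    exact hne (by rw [h]; rfl)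

theorem card_circles {m : ℕ} (p : Point m) :
    Nat.card {c : Circle m // ∃ s, pt c s = p} = m + 1 := by
  have e : Option (Fin m) ≃ {c : Circle m // ∃ s, pt c s = p} :=
    Equiv.ofBijective (fun o => match o with
      | none => ⟨parC p, parC_pt p⟩
      | some i => ⟨some (p, i), none, rfl⟩) (by
      constructor
      · have hne : ∀ i, parC p ≠ some (p, i) := by
          intro i h
          have := (tree m).par_par (v := Sum.inl p) (by intro h; cases h)
          apply this
          change parV (Sum.inr (parC p)) = _
          rw [h]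
          rfl
        rintro (_ | i) (_ | j) h
        · rfl
        · exact absurd (congrArg Subtype.val h) (hne j)
        · exact absurd (congrArg Subtype.val h).symm (hne i)
        · have := congrArg Subtype.val h
          simpa using this
      · rintro ⟨c, s, hs⟩
        rcases pt_cases c s with h | ⟨i, h⟩
        · refine ⟨none, Subtype.ext ?_⟩
          rw [hs] at h
          exact h.symm
        · refine ⟨some i, Subtype.ext ?_⟩
          rw [hs] at h
          exact h.symm)
  rw [← Nat.card_congr e, Nat.card_eq_fintype_card, Fintype.card_option, Fintype.card_fin]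

end Pool.Agent.V11131.Rab
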