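import Mathlib

open Complex Metric Filter Topology
open scoped ENNReal Real

namespace Pool.Agent.V11131.Toep

/-- The Hardy space `H²` of the disc, as the Hilbert space of square-summable sequences of Taylor
coefficients. -/
abbrev H2 : Type := lp (fun _ : ℕ => ℂ) 2

/-- The holomorphic function on the unit disc with sequence of Taylor coefficients `g`. -/
noncomputable def ev (g : H2) (z : ℂ) : ℂ := ∑' n : ℕ, g n * z ^ n

/-- `T = γ S* + T_φ` on `H²`, in Taylor coefficients: the `n`-th coefficient of `T g` is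
`γ g_{n+1} + ∑_{i+j=n} φ_i g_j`, where `φ_i` is the `i`-th Taylor coefficient of `φ` at `0`. -/
def IsToeplitz (γ : ℂ) (φ : ℂ → ℂ) (T : H2 →L[ℂ] H2) : Prop :=
  ∀ (g : H2) (n : ℕ), T g n = γ * g (n + 1) +
    ∑ p ∈ Finset.HasAntidiagonal.antidiagonal n, (iteratedDeriv p.1 φ 0 / (Nat.factorial p.1 : ℂ)) * g p.2

/-- A bounded operator is hypercyclic if it has a dense orbit. -/
def Hypercyclic (T : H2 →L[ℂ] H2) : Prop :=
  ∃ f : H2, Dense (Set.range fun n : ℕ => (T ^ n) f)

lemma norm_coord_le (g : H2) (n : ℕ) : ‖g n‖ ≤ ‖g‖ :=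
  lp.norm_apply_le_norm (by norm_num) g n

lemma summable_ev (g : H2) {z : ℂ} (hz : ‖z‖ < 1) : Summable fun n : ℕ => ‖g n * z ^ n‖ := by
  refine Summable.of_nonneg_of_le (fun n => norm_nonneg _) (fun n => ?_)
    ((summable_geometric_of_lt_one (norm_nonneg z) hz).mul_left ‖g‖)
  rw [norm_mul, norm_pow]
  have := norm_coord_le g n
  gcongr

lemma norm_ev_le (g : H2) {z : ℂ} {ρ : ℝ} (hz : ‖z‖ ≤ ρ) (hρ : ρ < 1) :
    ‖ev g z‖ ≤ ‖g‖ / (1 - ρ) := by
  have hρ0 : 0 ≤ ρ := (norm_nonneg z).trans hz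
  have h1 : ‖ev g z‖ ≤ ∑' n : ℕ, ‖g n * z ^ n‖ :=
    norm_tsum_le_tsum_norm (summable_ev g (hz.trans_lt hρ))
  refine h1.trans ?_
  have h2 : HasSum (fun n : ℕ => ‖g‖ * ρ ^ n) (‖g‖ * (1 - ρ)⁻¹) :=
    (hasSum_geometric_of_lt_one hρ0 hρ).mul_left _
  rw [div_eq_mul_inv, ← h2.tsum_eq]
  refine Summable.tsum_le_tsum (fun n => ?_) (summable_ev g (hz.trans_lt hρ)) h2.summable
  rw [norm_mul, norm_pow]
  have := norm_coord_le g n
  gcongr

lemma ev_add (g h : H2) {z : ℂ} (hz : ‖z‖ < 1) : ev (g + h) z = ev g z + ev h z := by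
  unfold ev
  rw [← Summable.tsum_add (summable_ev g hz).of_norm (summable_ev h hz).of_norm]
  congr 1
  ext n
  simp [add_mul]

lemma ev_smul (c : ℂ) (g : H2) (z : ℂ) : ev (c • g) z = c * ev g z := by
  unfold ev
  rw [← tsum_mul_left]
  congr 1
  ext n
  simp [mul_assoc]

lemma ev_single (j : ℕ) (c z : ℂ) : ev (lp.single 2 j c) z = c * z ^ j := by
  unfold ev
  rw [tsum_eq_single j]
  · simp
  · intro n hn
    simp [lp.single_apply, hn]

lemma differentiableOn_ev (g : H2) : DifferentiableOn ℂ (ev g) (ball 0 1) := by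
  intro z hz
  have hz1 : ‖z‖ < 1 := by simpa using hz
  obtain ⟨s, hs1, hs2⟩ := exists_between hz1
  have hs0 : 0 ≤ s := (norm_nonneg z).trans hs1.le
  have hd : DifferentiableOn ℂ (fun w => ∑' n : ℕ, g n * w ^ n) (ball 0 s) := by
    refine differentiableOn_tsum_of_summable_norm (u := fun n : ℕ => ‖g‖ * s ^ n)
      ((summable_geometric_of_lt_one hs0 hs2).mul_left _) ?_ isOpen_ball ?_
    · intro n
      fun_prop
    · intro n w hw
      have hw1 : ‖w‖ ≤ s := by
        have := mem_ball_zero_iff.1 hw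
        exact this.le
      rw [norm_mul, norm_pow]
      have := norm_coord_le g n
      gcongr
  exact ((hd z (mem_ball_zero_iff.2 hs1)).differentiableAt
    (isOpen_ball.mem_nhds (mem_ball_zero_iff.2 hs1))).differentiableWithinAt

lemma ev_zero (g : H2) : ev g 0 = g 0 := by
  unfold ev
  rw [tsum_eq_single 0]
  · simp
  · intro n hn
    simp [hn]

/-- Taylor series of `φ`. -/
lemma hasSum_phi {φ : ℂ → ℂ} (hφ : DifferentiableOn ℂ φ (ball 0 1)) {z : ℂ} (hz : ‖z‖ < 1) :
    HasSum (fun n : ℕ => (iteratedDeriv n φ 0 / (Nat.factorial n : ℂ)) * z ^ n) (φ z) := by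
  have h := Complex.hasSum_taylorSeries_on_ball (r := 1) (c := 0) (f := φ) hφ
    (z := z) (by simpa using hz)
  have e : (fun n : ℕ => (iteratedDeriv n φ 0 / (Nat.factorial n : ℂ)) * z ^ n) =
      fun n : ℕ => (Nat.factorial n : ℂ)⁻¹ • (z - 0) ^ n • iteratedDeriv n φ 0 := by
    ext n
    rw [sub_zero, smul_eq_mul, smul_eq_mul]
    ring
  rw [e]
  exact h

/-- The intertwining relation `z (T g)(z) = (γ + z φ(z)) g(z) - γ g(0)`. -/
lemma toeplitz_ev {γ : ℂ} {φ : ℂ → ℂ} (hφ : DifferentiableOn ℂ φ (ball 0 1))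
    {T : H2 →L[ℂ] H2} (hT : IsToeplitz γ φ T) (g : H2) {z : ℂ} (hz : ‖z‖ < 1) :
    z * ev (T g) z = (γ + z * φ z) * ev g z - γ * g 0 := by
  have hs := summable_ev g hz
  have hφs := hasSum_phi hφ hz
  -- the shifted series
  have h1 : ev g z = g 0 + z * ∑' n : ℕ, g (n + 1) * z ^ n := by
    unfold ev
    rw [hs.of_norm.tsum_eq_zero_add, ← tsum_mul_left]
    simp only [pow_zero, mul_one]
    congr 1
    congr 1
    ext n
    ring
  have h1s : Summable fun n : ℕ => ‖g (n + 1) * z ^ n‖ := by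
    refine Summable.of_nonneg_of_le (fun n => norm_nonneg _) (fun n => ?_)
      ((summable_geometric_of_lt_one (norm_nonneg z) hz).mul_left ‖g‖)
    rw [norm_mul, norm_pow]
    have := norm_coord_le g (n + 1)
    gcongr
  -- the product series
  have h2 := tsum_mul_tsum_eq_tsum_sum_antidiagonal_of_summable_norm hφs.summable.norm hs
  have h2s := summable_norm_sum_mul_antidiagonal_of_summable_norm hφs.summable.norm hs
  rw [hφs.tsum_eq] at h2
  have h3 : ev (T g) z = γ * (∑' n : ℕ, g (n + 1) * z ^ n) + φ z * ev g z := by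
    have e1 : ev (T g) z = ∑' n : ℕ, (γ * (g (n + 1) * z ^ n) +
        ∑ p ∈ Finset.HasAntidiagonal.antidiagonal n,
          ((iteratedDeriv p.1 φ 0 / (Nat.factorial p.1 : ℂ)) * z ^ p.1) * (g p.2 * z ^ p.2)) := by
      unfold ev
      congr 1
      ext n
      rw [hT g n, add_mul, Finset.sum_mul]
      congr 1
      · ring
      · refine Finset.sum_congr rfl fun p hp => ?_
        rw [← Finset.HasAntidiagonal.mem_antidiagonal.1 hp, pow_add]
        ring
    rw [e1, Summable.tsum_add (h1s.of_norm.mul_left γ) h2s.of_norm, tsum_mul_left, ← h2]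
    rfl
  rw [h3, h1]
  ring

end Pool.Agent.V11131.Toep
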