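import Pool.Agent.V11131.Toep1

open Complex Metric Filter Topology
open scoped ENNReal Real

namespace Pool.Agent.V11131.Toep

/-- A hypercyclic operator has no nonzero continuous eigenfunctional. -/
lemma no_eigen {T : H2 →L[ℂ] H2} (h : Hypercyclic T) (l : H2 →L[ℂ] ℂ) (lam : ℂ)
    (hl : ∀ g, l (T g) = lam * l g) : l = 0 := by
  by_contra hne
  obtain ⟨f, hf⟩ := h
  have hpow : ∀ n : ℕ, l ((T ^ n) f) = lam ^ n * l f := by
    intro n
    induction n with
    | zero => simp
    | succ n ih =>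
      rw [pow_succ', mul_apply_eq_comp, hl, ih]
      ring
  obtain ⟨v, hv⟩ : ∃ v, l v ≠ 0 := by
    by_contra hcon
    push Not at hcon
    exact hne (ContinuousLinearMap.ext (by simpa using hcon))
  have hsurj : Function.Surjective l := fun c => ⟨(c / l v) • v, by simp [hv]⟩
  have hd : Dense (Set.range fun n : ℕ => lam ^ n * l f) := by
    have h1 := hsurj.denseRange.dense_image l.continuous hf
    rw [← Set.range_comp] at h1
    convert h1 using 2
    funext n
    exact (hpow n).symm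
  by_cases hlam : ‖lam‖ ≤ 1
  · have hsub : (Set.range fun n : ℕ => lam ^ n * l f) ⊆ closedBall 0 ‖l f‖ := by
      rintro _ ⟨n, rfl⟩
      simp only [mem_closedBall, dist_zero_right, norm_mul, norm_pow]
      have : ‖lam‖ ^ n ≤ 1 := pow_le_one₀ (norm_nonneg _) hlam
      nlinarith [norm_nonneg (l f)]
    have h2 := (isClosed_closedBall.closure_subset_iff).2 hsub
    rw [hd.closure_eq] at h2
    have h3 := h2 (Set.mem_univ ((‖l f‖ + 1 : ℝ) : ℂ))
    simp only [mem_closedBall, dist_zero_right, Complex.norm_real, Real.norm_eq_abs] at h3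
    rw [abs_of_nonneg (by positivity)] at h3
    linarith
  · by_cases h0 : l f = 0
    · have hsub : (Set.range fun n : ℕ => lam ^ n * l f) ⊆ {0} := by
        rintro _ ⟨n, rfl⟩
        simp [h0]
      have h2 := (isClosed_singleton.closure_subset_iff).2 hsub
      rw [hd.closure_eq] at h2
      have h3 := h2 (Set.mem_univ (1 : ℂ))
      simp at h3
    · have hsub : (Set.range fun n : ℕ => lam ^ n * l f) ⊆ {z : ℂ | ‖l f‖ ≤ ‖z‖} := by
        rintro _ ⟨n, rfl⟩
        simp only [Set.mem_ofPred_eq, norm_mul, norm_pow]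
        have : 1 ≤ ‖lam‖ ^ n := one_le_pow₀ (le_of_not_ge hlam)
        nlinarith [norm_nonneg (l f)]
      have hcl : IsClosed {z : ℂ | ‖l f‖ ≤ ‖z‖} := isClosed_le continuous_const continuous_norm
      have h2 := (hcl.closure_subset_iff).2 hsub
      rw [hd.closure_eq] at h2
      have h3 := h2 (Set.mem_univ (0 : ℂ))
      simp only [Set.mem_ofPred_eq, norm_zero, norm_le_zero_iff] at h3
      exact h0 h3

/-- Evaluation at a point of the disc, as a continuous functional. -/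
noncomputable def evL (z : ℂ) (hz : ‖z‖ < 1) : H2 →L[ℂ] ℂ :=
  LinearMap.mkContinuous
    { toFun := fun g => ev g z
      map_add' := fun g h => ev_add g h hz
      map_smul' := fun c g => by simp [ev_smul] }
    (1 - ‖z‖)⁻¹ (fun g => by
      have := norm_ev_le g le_rfl hz
      rw [div_eq_mul_inv, mul_comm] at this
      exact this)

@[simp] lemma evL_apply (z : ℂ) (hz : ‖z‖ < 1) (g : H2) : evL z hz g = ev g z := rfl

lemma ev_one (z : ℂ) : ev (lp.single 2 0 1) z = 1 := by simp [ev_single]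

/-- The symbol. -/
noncomputable def Phi (γ : ℂ) (φ : ℂ → ℂ) (z : ℂ) : ℂ := γ / z + φ z

/-- The punctured disc. -/
def D0 : Set ℂ := ball 0 1 \ {0}

lemma isOpen_D0 : IsOpen D0 := isOpen_ball.sdiff isClosed_singleton

lemma mem_D0 {z : ℂ} : z ∈ D0 ↔ ‖z‖ < 1 ∧ z ≠ 0 := by simp [D0]

lemma toeplitz_ev' {γ : ℂ} {φ : ℂ → ℂ} (hφ : DifferentiableOn ℂ φ (ball 0 1))
    {T : H2 →L[ℂ] H2} (hT : IsToeplitz γ φ T) (g : H2) {z : ℂ} (hz : z ∈ D0) :
    z * ev (T g) z = Phi γ φ z * (z * ev g z) - γ * g 0 := by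
  have h0 := (mem_D0.1 hz).2
  rw [toeplitz_ev hφ hT g (mem_D0.1 hz).1, Phi]
  field_simp

lemma injOn_Phi {γ : ℂ} {φ : ℂ → ℂ} (hφ : DifferentiableOn ℂ φ (ball 0 1))
    {T : H2 →L[ℂ] H2} (hT : IsToeplitz γ φ T) (h : Hypercyclic T) :
    Set.InjOn (Phi γ φ) D0 := by
  intro a ha b hb hab
  have hl := no_eigen h (a • evL a (mem_D0.1 ha).1 - b • evL b (mem_D0.1 hb).1) (Phi γ φ a) (by
    intro g
    have h1 := toeplitz_ev' hφ hT g ha
    have h2 := toeplitz_ev' hφ hT g hb
    simp only [sub_apply, smul_apply, evL_apply,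
      smul_eq_mul]
    rw [h1, h2, ← hab]
    ring)
  have h1 := congrArg (fun l : H2 →L[ℂ] ℂ => l (lp.single 2 0 1)) hl
  simp only [sub_apply, smul_apply, evL_apply,
    smul_eq_mul, ev_one, mul_one, zero_apply] at h1
  exact sub_eq_zero.1 h1

lemma differentiableAt_ev (g : H2) {z : ℂ} (hz : ‖z‖ < 1) : DifferentiableAt ℂ (ev g) z :=
  (differentiableOn_ev g z (mem_ball_zero_iff.2 hz)).differentiableAt
    (isOpen_ball.mem_nhds (mem_ball_zero_iff.2 hz))

lemma differentiableOn_Phi (γ : ℂ) {φ : ℂ → ℂ} (hφ : DifferentiableOn ℂ φ (ball 0 1)) :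
    DifferentiableOn ℂ (Phi γ φ) D0 := by
  intro z hz
  have h1 : DifferentiableAt ℂ φ z := (hφ z (mem_ball_zero_iff.2 (mem_D0.1 hz).1)).differentiableAt
    (isOpen_ball.mem_nhds (mem_ball_zero_iff.2 (mem_D0.1 hz).1))
  have h2 : DifferentiableAt ℂ (fun w : ℂ => γ / w) z :=
    (differentiableAt_const γ).div differentiableAt_id (mem_D0.1 hz).2
  exact (h2.add h1).differentiableWithinAt

lemma differentiableAt_Phi (γ : ℂ) {φ : ℂ → ℂ} (hφ : DifferentiableOn ℂ φ (ball 0 1)) {z : ℂ}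
    (hz : z ∈ D0) : DifferentiableAt ℂ (Phi γ φ) z :=
  (differentiableOn_Phi γ hφ z hz).differentiableAt (isOpen_D0.mem_nhds hz)

/-- Derivative of `z g(z)` at a point of the disc, as a continuous functional. -/
lemma exists_derivL (a : ℂ) (ha : ‖a‖ < 1) :
    ∃ l : H2 →L[ℂ] ℂ, ∀ g, l g = deriv (fun z => z * ev g z) a := by
  obtain ⟨s, hs1, hs2⟩ := exists_between ha
  have hs0 : 0 ≤ s := (norm_nonneg a).trans hs1.le
  have hd : ∀ g : H2, ∀ z : ℂ, ‖z‖ < 1 → DifferentiableAt ℂ (fun z => z * ev g z) z :=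
    fun g z hz => differentiableAt_id.mul (differentiableAt_ev g hz)
  refine ⟨LinearMap.mkContinuous
    { toFun := fun g => deriv (fun z => z * ev g z) a
      map_add' := fun g h => ?_
      map_smul' := fun c g => ?_ } (((1 - s)⁻¹) / (s - ‖a‖)) (fun g => ?_), fun g => rfl⟩
  · rw [← deriv_fun_add (hd g a ha) (hd h a ha)]
    refine Filter.EventuallyEq.deriv_eq ?_
    filter_upwards [isOpen_ball.mem_nhds (mem_ball_zero_iff.2 ha)] with z hz
    rw [ev_add g h (mem_ball_zero_iff.1 hz)]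
    ring
  · rw [RingHom.id_apply, smul_eq_mul, ← deriv_const_mul c (hd g a ha)]
    congr 1
    ext z
    rw [ev_smul]
    ring
  · have hpos : 0 < s - ‖a‖ := by linarith
    have hmem : ∀ z ∈ closedBall a (s - ‖a‖), ‖z‖ ≤ s := by
      intro z hz
      have h1 : ‖z - a‖ ≤ s - ‖a‖ := mem_closedBall_iff_norm.1 hz
      have h2 : ‖z‖ ≤ ‖z - a‖ + ‖a‖ := by
        have := norm_add_le (z - a) a
        simpa using this
      linarith
    have hdc : DiffContOnCl ℂ (fun z => z * ev g z) (ball a (s - ‖a‖)) := by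
      apply DifferentiableOn.diffContOnCl
      rw [closure_ball a hpos.ne']
      intro z hz
      exact (hd g z ((hmem z hz).trans_lt hs2)).differentiableWithinAt
    have := Complex.norm_deriv_le_of_forall_mem_sphere_norm_le hpos hdc
      (C := (1 - s)⁻¹ * ‖g‖) (by
        intro z hz
        have h1 := hmem z (sphere_subset_closedBall hz)
        have h2 := norm_ev_le g h1 hs2
        rw [norm_mul]
        have h3 : ‖z‖ ≤ 1 := h1.trans hs2.le
        calc ‖z‖ * ‖ev g z‖ ≤ 1 * (‖g‖ / (1 - s)) := by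
              gcongr
          _ = (1 - s)⁻¹ * ‖g‖ := by rw [one_mul, div_eq_mul_inv, mul_comm])
    refine this.trans (le_of_eq ?_)
    ring

lemma deriv_Phi_ne {γ : ℂ} {φ : ℂ → ℂ} (hφ : DifferentiableOn ℂ φ (ball 0 1))
    {T : H2 →L[ℂ] H2} (hT : IsToeplitz γ φ T) (h : Hypercyclic T) {a : ℂ} (ha : a ∈ D0) :
    deriv (Phi γ φ) a ≠ 0 := by
  intro h0
  obtain ⟨l, hl⟩ := exists_derivL a (mem_D0.1 ha).1
  have hd : ∀ g : H2, DifferentiableAt ℂ (fun z => z * ev g z) a :=
    fun g => differentiableAt_id.mul (differentiableAt_ev g (mem_D0.1 ha).1)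
  have h1 := no_eigen h l (Phi γ φ a) (by
    intro g
    rw [hl, hl]
    have e : deriv (fun z => z * ev (T g) z) a =
        deriv (fun z => Phi γ φ z * (z * ev g z) - γ * g 0) a := by
      refine Filter.EventuallyEq.deriv_eq ?_
      filter_upwards [isOpen_D0.mem_nhds ha] with z hz
      exact toeplitz_ev' hφ hT g hz
    rw [e, deriv_sub_const, deriv_fun_mul (differentiableAt_Phi γ hφ ha) (hd g), h0]
    ring)
  have h2 : l (lp.single 2 0 1) = 1 := by
    rw [hl]
    simp [ev_one]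
  rw [h1] at h2
  simp at h2

lemma exists_inverse {γ : ℂ} {φ : ℂ → ℂ} (hφ : DifferentiableOn ℂ φ (ball 0 1))
    {T : H2 →L[ℂ] H2} (hT : IsToeplitz γ φ T) (h : Hypercyclic T)
    (hs : ball 0 1 ⊆ Phi γ φ '' D0) :
    ∃ τ : ℂ → ℂ, DifferentiableOn ℂ τ (ball 0 1) ∧ ∀ w ∈ ball (0 : ℂ) 1, τ w ∈ D0 ∧
      Phi γ φ (τ w) = w := by
  classical
  have hch : ∀ w : ℂ, ∃ z : ℂ, w ∈ ball (0 : ℂ) 1 → z ∈ D0 ∧ Phi γ φ z = w := by
    intro w
    by_cases hw : w ∈ ball (0 : ℂ) 1
    · obtain ⟨z, hz, hzw⟩ := hs hw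
      exact ⟨z, fun _ => ⟨hz, hzw⟩⟩
    · exact ⟨0, fun h => absurd h hw⟩
  choose τ hτ using hch
  refine ⟨τ, ?_, fun w hw => hτ w hw⟩
  intro w hw
  obtain ⟨hz, hzw⟩ := hτ w hw
  have hder : HasStrictDerivAt (Phi γ φ) (deriv (Phi γ φ) (τ w)) (τ w) := by
    have hA : AnalyticAt ℂ (Phi γ φ) (τ w) :=
      (differentiableOn_Phi γ hφ).analyticAt (isOpen_D0.mem_nhds hz)
    exact hA.hasStrictDerivAt
  have hne := deriv_Phi_ne hφ hT h hz
  have hinv := hder.to_localInverse hne
  rw [hzw] at hinv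
  have hcont := hinv.hasDerivAt.continuousAt
  have himg : (hder.localInverse (Phi γ φ) _ (τ w) hne) w = τ w := by
    have := (hder.hasStrictFDerivAt_equiv hne).localInverse_apply_image
    rw [hzw] at this
    exact this
  have hright : ∀ᶠ y in 𝓝 w, Phi γ φ ((hder.localInverse (Phi γ φ) _ (τ w) hne) y) = y := by
    have := (hder.hasStrictFDerivAt_equiv hne).eventually_right_inverse
    rw [hzw] at this
    exact this
  have hD : ∀ᶠ y in 𝓝 w, (hder.localInverse (Phi γ φ) _ (τ w) hne) y ∈ D0 := by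
    apply hcont.eventually_mem
    rw [himg]
    exact isOpen_D0.mem_nhds hz
  have hev : τ =ᶠ[𝓝 w] (hder.localInverse (Phi γ φ) _ (τ w) hne) := by
    filter_upwards [hright, hD, isOpen_ball.mem_nhds hw] with y h1 h2 h3
    obtain ⟨h4, h5⟩ := hτ y h3
    exact injOn_Phi hφ hT h h4 h2 (h5.trans h1.symm)
  exact (hinv.hasDerivAt.congr_of_eventuallyEq hev).differentiableAt.differentiableWithinAt

end Pool.Agent.V11131.Toep
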