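import Mathlib

open Complex Metric Filter Topology Real
open scoped ENNReal ComplexConjugate

namespace Pool.Agent.V11131.Toep

lemma norm_circleAverage_le_const {F : ℂ → ℂ} {r M : ℝ}
    (h : ∀ z ∈ sphere (0 : ℂ) |r|, ‖F z‖ ≤ M) : ‖circleAverage F 0 r‖ ≤ M := by
  rw [circleAverage_def, norm_smul]
  have h1 : ‖∫ θ in (0 : ℝ)..2 * π, F (circleMap 0 r θ)‖ ≤ M * |2 * π - 0| := by
    apply intervalIntegral.norm_integral_le_of_norm_le_const
    intro θ _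
    exact h _ (circleMap_mem_sphere' 0 r θ)
  rw [sub_zero, abs_of_pos two_pi_pos] at h1
  rw [Real.norm_eq_abs, abs_of_pos (inv_pos.2 two_pi_pos)]
  calc (2 * π)⁻¹ * ‖∫ θ in (0 : ℝ)..2 * π, F (circleMap 0 r θ)‖
      ≤ (2 * π)⁻¹ * (M * (2 * π)) := by
        gcongr
    _ = M := by
        have := two_pi_pos.ne'
        field_simp

lemma norm_circleAverage_le {F : ℂ → ℂ} {r : ℝ} :
    ‖circleAverage F 0 r‖ ≤ circleAverage (fun z => ‖F z‖) 0 r := by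
  rw [circleAverage_def, circleAverage_def, norm_smul, smul_eq_mul, Real.norm_eq_abs,
    abs_of_pos (inv_pos.2 two_pi_pos)]
  gcongr
  exact intervalIntegral.norm_integral_le_integral_norm two_pi_pos.le

section

variable {r : ℝ} (hr0 : 0 < r) (hr1 : r < 1)

include hr0 hr1

lemma sphere_sub : sphere (0 : ℂ) r ⊆ ball 0 1 := by
  intro z hz
  rw [mem_sphere_zero_iff_norm] at hz
  rw [mem_ball_zero_iff, hz]
  exact hr1

lemma ci_of_diff {h : ℂ → ℂ} (hh : DifferentiableOn ℂ h (ball 0 1)) :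
    CircleIntegrable h 0 r :=
  (hh.continuousOn.mono (sphere_sub hr0 hr1)).circleIntegrable hr0.le

lemma ne_zero_of_sphere {z : ℂ} (hz : z ∈ sphere (0 : ℂ) r) : z ≠ 0 := by
  rintro rfl
  simp only [mem_sphere_iff_norm, sub_self, norm_zero] at hz
  exact hr0.ne hz

lemma cont_e (n : ℕ) : ContinuousOn (fun w : ℂ => (r : ℂ) ^ n * (w ^ n)⁻¹) (sphere 0 r) := by
  refine continuousOn_const.mul ((continuousOn_id.pow n).inv₀ ?_)
  intro z hz
  exact pow_ne_zero _ (ne_zero_of_sphere hr0 hr1 hz)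

lemma norm_e (n : ℕ) {w : ℂ} (hw : w ∈ sphere (0 : ℂ) r) :
    ‖(r : ℂ) ^ n * (w ^ n)⁻¹‖ = 1 := by
  rw [mem_sphere_zero_iff_norm] at hw
  rw [norm_mul, norm_inv, norm_pow, norm_pow, hw, Complex.norm_real, Real.norm_eq_abs,
    abs_of_pos hr0]
  exact mul_inv_cancel₀ (pow_ne_zero _ hr0.ne')

lemma ci_e_mul (n : ℕ) {h : ℂ → ℂ} (hh : ContinuousOn h (sphere 0 r)) :
    CircleIntegrable (fun w : ℂ => (r : ℂ) ^ n * (w ^ n)⁻¹ * h w) 0 r :=
  ((cont_e hr0 hr1 n).mul hh).circleIntegrable hr0.le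

lemma avg_diff {h : ℂ → ℂ} (hh : DifferentiableOn ℂ h (ball 0 1)) :
    circleAverage h 0 r = h 0 := by
  apply DiffContOnCl.circleAverage
  rw [abs_of_pos hr0]
  apply DifferentiableOn.diffContOnCl
  rw [closure_ball _ hr0.ne']
  exact hh.mono (closedBall_subset_ball hr1)

/-- `A[w^{-n} conj h] = 0` for `n ≥ 1`. -/
lemma avg_e_conj {n : ℕ} (hn : n ≠ 0) {h : ℂ → ℂ} (hh : DifferentiableOn ℂ h (ball 0 1)) :
    circleAverage (fun w : ℂ => (r : ℂ) ^ n * (w ^ n)⁻¹ * conj (h w)) 0 r = 0 := by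
  have hd : DifferentiableOn ℂ (fun w : ℂ => ((r : ℂ) ^ n)⁻¹ * w ^ n * h w) (ball 0 1) := by
    fun_prop
  have h1 : circleAverage (fun w : ℂ => (r : ℂ) ^ n * (w ^ n)⁻¹ * conj (h w)) 0 r =
      circleAverage (fun w : ℂ => conj (((r : ℂ) ^ n)⁻¹ * w ^ n * h w)) 0 r := by
    apply circleAverage_congr_sphere
    intro w hw
    rw [abs_of_pos hr0] at hw
    have hw0 := ne_zero_of_sphere hr0 hr1 hw
    rw [mem_sphere_zero_iff_norm] at hw
    simp only [map_mul, map_inv₀, map_pow, Complex.conj_ofReal]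
    congr 1
    have hr' : (r : ℂ) ≠ 0 := by exact_mod_cast hr0.ne'
    have h2 : conj w = (r : ℂ) ^ 2 * w⁻¹ := by
      have : w * conj w = (r : ℂ) ^ 2 := by
        rw [Complex.mul_conj, Complex.normSq_eq_norm_sq, hw]
        push_cast
        rfl
      rw [← this]
      field_simp
    rw [h2, mul_pow, inv_pow]
    have hwn : w ^ n ≠ 0 := pow_ne_zero _ hw0
    have hrn : (r : ℂ) ^ n ≠ 0 := pow_ne_zero _ hr'
    have e : ((r : ℂ) ^ 2) ^ n = (r : ℂ) ^ n * (r : ℂ) ^ n := by ring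
    rw [e]
    field_simp
  rw [h1]
  have h3 := ContinuousLinearMap.circleAverage_comp_comm
    ((Complex.conjCLE : ℂ ≃L[ℝ] ℂ) : ℂ →L[ℝ] ℂ) (ci_of_diff hr0 hr1 hd)
  have h4 : ((Complex.conjCLE : ℂ ≃L[ℝ] ℂ) : ℂ →L[ℝ] ℂ) ∘
      (fun w : ℂ => ((r : ℂ) ^ n)⁻¹ * w ^ n * h w) =
      fun w : ℂ => conj (((r : ℂ) ^ n)⁻¹ * w ^ n * h w) := by
    ext w
    simp
  rw [h4] at h3
  rw [h3, avg_diff hr0 hr1 hd]
  simp [hn]

lemma avg_e {n : ℕ} (hn : n ≠ 0) (c : ℂ) :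
    circleAverage (fun w : ℂ => (r : ℂ) ^ n * (w ^ n)⁻¹ * c) 0 r = 0 := by
  have := avg_e_conj hr0 hr1 hn (h := fun _ => conj c) (differentiableOn_const _)
  simpa using this

/-- Carathéodory's coefficient inequality. -/
lemma carath {n : ℕ} (hn : n ≠ 0) {h : ℂ → ℂ} (hh : DifferentiableOn ℂ h (ball 0 1))
    (hre : ∀ z ∈ ball (0 : ℂ) 1, 0 ≤ (h z).re) :
    ‖circleAverage (fun w : ℂ => (r : ℂ) ^ n * (w ^ n)⁻¹ * h w) 0 r‖ ≤ 2 * (h 0).re := by
  have hcont : ContinuousOn h (sphere 0 r) := hh.continuousOn.mono (sphere_sub hr0 hr1)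
  have hcont' : ContinuousOn (fun w => conj (h w)) (sphere 0 r) :=
    Complex.continuous_conj.comp_continuousOn hcont
  have h1 : circleAverage (fun w : ℂ => (r : ℂ) ^ n * (w ^ n)⁻¹ * h w) 0 r =
      circleAverage (fun w : ℂ => (r : ℂ) ^ n * (w ^ n)⁻¹ * ((2 * (h w).re : ℝ) : ℂ)) 0 r := by
    have h2 := circleAverage_fun_add (ci_e_mul hr0 hr1 n hcont) (ci_e_mul hr0 hr1 n hcont')
    rw [avg_e_conj hr0 hr1 hn hh, add_zero] at h2
    rw [← h2]
    congr 1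
    ext w
    rw [← mul_add, Complex.add_conj]
  rw [h1]
  refine norm_circleAverage_le.trans ?_
  have h3 : circleAverage (fun w : ℂ =>
      ‖(r : ℂ) ^ n * (w ^ n)⁻¹ * ((2 * (h w).re : ℝ) : ℂ)‖) 0 r =
      circleAverage (fun w : ℂ => (2 : ℝ) • (h w).re) 0 r := by
    apply circleAverage_congr_sphere
    intro w hw
    rw [abs_of_pos hr0] at hw
    simp only
    rw [norm_mul, norm_e hr0 hr1 n hw, one_mul, Complex.norm_real, Real.norm_eq_abs, smul_eq_mul,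
      abs_of_nonneg]
    have := hre w (sphere_sub hr0 hr1 hw)
    positivity
  rw [h3, circleAverage_fun_smul]
  have h4 := ContinuousLinearMap.circleAverage_comp_comm Complex.reCLM (ci_of_diff hr0 hr1 hh)
  have h5 : (Complex.reCLM ∘ h) = fun w => (h w).re := by
    ext w
    simp
  rw [h5] at h4
  rw [h4, avg_diff hr0 hr1 hh]
  simp

end

lemma re_cayley {u : ℂ} (hu : ‖u‖ < 1) : 0 ≤ ((1 + u) / (1 - u)).re := by
  rw [Complex.div_re, ← add_div]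
  apply div_nonneg _ (Complex.normSq_nonneg _)
  have h1 : u.re ^ 2 + u.im ^ 2 < 1 := by
    have := Complex.sq_norm u
    rw [Complex.normSq_apply] at this
    nlinarith [norm_nonneg u]
  simp
  nlinarith

section

variable {τ : ℂ → ℂ} (hτ : DifferentiableOn ℂ τ (ball 0 1))
  (hτ1 : ∀ w ∈ ball (0 : ℂ) 1, ‖τ w‖ < 1) {r : ℝ} (hr0 : 0 < r) (hr1 : r < 1)

include hτ hτ1

lemma one_sub_ne {ζ : ℂ} (hζ : ‖ζ‖ ≤ 1) {w : ℂ} (hw : w ∈ ball (0 : ℂ) 1) :
    1 - ζ * τ w ≠ 0 := by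
  intro h0
  have h1 : ζ * τ w = 1 := (sub_eq_zero.1 h0).symm
  have h2 := congrArg norm h1
  rw [norm_mul, norm_one] at h2
  nlinarith [hτ1 w hw, norm_nonneg ζ, norm_nonneg (τ w)]

include hr0 hr1

lemma G_bound {n : ℕ} (hn : n ≠ 0) {ζ : ℂ} (hζ : ‖ζ‖ ≤ 1) :
    ‖circleAverage (fun w : ℂ => (r : ℂ) ^ n * (w ^ n)⁻¹ * (1 - ζ * τ w)⁻¹) 0 r‖ ≤
      (1 + ‖τ 0‖) / (1 - ‖τ 0‖) := by
  set h : ℂ → ℂ := fun w => (1 + ζ * τ w) / (1 - ζ * τ w) with hh
  have hd : DifferentiableOn ℂ h (ball 0 1) := by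
    refine DifferentiableOn.div (by fun_prop) (by fun_prop) ?_
    intro w hw
    exact one_sub_ne hτ hτ1 hζ hw
  have hlt : ∀ w ∈ ball (0 : ℂ) 1, ‖ζ * τ w‖ < 1 := by
    intro w hw
    rw [norm_mul]
    nlinarith [hτ1 w hw, norm_nonneg ζ, norm_nonneg (τ w)]
  have hc := carath hr0 hr1 hn hd (fun z hz => re_cayley (hlt z hz))
  have hcont : ContinuousOn h (sphere 0 r) := hd.continuousOn.mono (sphere_sub hr0 hr1)
  have h1 : circleAverage (fun w : ℂ => (r : ℂ) ^ n * (w ^ n)⁻¹ * (1 - ζ * τ w)⁻¹) 0 r =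
      (1 / 2 : ℂ) • circleAverage (fun w : ℂ => (r : ℂ) ^ n * (w ^ n)⁻¹ * h w) 0 r := by
    have h2 := circleAverage_fun_add (ci_e_mul hr0 hr1 n hcont)
      (ci_e_mul hr0 hr1 n (h := fun _ => (1 : ℂ)) continuousOn_const)
    rw [avg_e hr0 hr1 hn 1, add_zero] at h2
    rw [← h2, ← circleAverage_fun_smul]
    apply circleAverage_congr_sphere
    intro w hw
    rw [abs_of_pos hr0] at hw
    have h3 := one_sub_ne hτ hτ1 hζ (sphere_sub hr0 hr1 hw)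
    simp only [hh, smul_eq_mul]
    field_simp
    ring
  rw [h1, norm_smul]
  have h4 : (h 0).re ≤ (1 + ‖τ 0‖) / (1 - ‖τ 0‖) := by
    refine (Complex.re_le_norm _).trans ?_
    have h0 : ‖τ 0‖ < 1 := hτ1 0 (mem_ball_self one_pos)
    simp only [hh]
    rw [norm_div]
    have e1 : ‖ζ * τ 0‖ ≤ ‖τ 0‖ := by
      rw [norm_mul]
      nlinarith [norm_nonneg ζ, norm_nonneg (τ 0)]
    have e2 : ‖1 + ζ * τ 0‖ ≤ 1 + ‖τ 0‖ := by
      refine (norm_add_le _ _).trans ?_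
      rw [norm_one]
      linarith
    have e3 : 1 - ‖τ 0‖ ≤ ‖1 - ζ * τ 0‖ := by
      have := norm_sub_norm_le (1 : ℂ) (ζ * τ 0)
      rw [norm_one] at this
      linarith
    have e4 : 0 < 1 - ‖τ 0‖ := by linarith
    gcongr
  have h5 : ‖(1 / 2 : ℂ)‖ = 1 / 2 := by norm_num
  rw [h5]
  linarith

end

end Pool.Agent.V11131.Toep
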