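import Pool.Agent.V11131.Toep2
import Pool.Agent.V11131.Toep3

open Complex Metric Filter Topology Real
open scoped ENNReal ComplexConjugate

namespace Pool.Agent.V11131.Toep

section

variable {τ : ℂ → ℂ} (hτ : DifferentiableOn ℂ τ (ball 0 1))
  (hτ1 : ∀ w ∈ ball (0 : ℂ) 1, ‖τ w‖ < 1) {r : ℝ} (hr0 : 0 < r) (hr1 : r < 1)

/-- The `n`-th Taylor coefficient (times `r^n`) of `τ^j`. -/
noncomputable def dd (τ : ℂ → ℂ) (r : ℝ) (n j : ℕ) : ℂ :=
  circleAverage (fun w : ℂ => (r : ℂ) ^ n * (w ^ n)⁻¹ * (τ w) ^ j) 0 r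

include hτ hτ1 hr0 hr1

lemma exists_rho : ∃ ρ : ℝ, 0 ≤ ρ ∧ ρ < 1 ∧ ∀ w ∈ sphere (0 : ℂ) r, ‖τ w‖ ≤ ρ := by
  have hcomp : IsCompact (sphere (0 : ℂ) r) := isCompact_sphere _ _
  have hne : (sphere (0 : ℂ) r).Nonempty := by
    refine ⟨(r : ℂ), ?_⟩
    rw [mem_sphere_zero_iff_norm, Complex.norm_real, Real.norm_eq_abs, abs_of_pos hr0]
  have hc : ContinuousOn (fun w => ‖τ w‖) (sphere 0 r) :=
    (hτ.continuousOn.mono (sphere_sub hr0 hr1)).norm
  obtain ⟨w0, hw0, hmax⟩ := hcomp.exists_isMaxOn hne hc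
  exact ⟨‖τ w0‖, norm_nonneg _, hτ1 w0 (sphere_sub hr0 hr1 hw0), fun w hw => hmax hw⟩

lemma partial_bound {n : ℕ} (hn : n ≠ 0) {ρ : ℝ} (hρ0 : 0 ≤ ρ) (hρ1 : ρ < 1)
    (hρ : ∀ w ∈ sphere (0 : ℂ) r, ‖τ w‖ ≤ ρ) (K : ℕ) {ζ : ℂ} (hζ : ‖ζ‖ ≤ 1) :
    ‖∑ j ∈ Finset.range K, dd τ r n j * ζ ^ j‖ ≤
      (1 + ‖τ 0‖) / (1 - ‖τ 0‖) + ρ ^ K / (1 - ρ) := by
  have hcτ : ContinuousOn τ (sphere 0 r) := hτ.continuousOn.mono (sphere_sub hr0 hr1)
  have hne : ∀ w ∈ sphere (0 : ℂ) r, 1 - ζ * τ w ≠ 0 :=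
    fun w hw => one_sub_ne hτ hτ1 hζ (sphere_sub hr0 hr1 hw)
  have hcinv : ContinuousOn (fun w => (1 - ζ * τ w)⁻¹) (sphere 0 r) :=
    (continuousOn_const.sub (continuousOn_const.mul hcτ)).inv₀ hne
  have e1 : ∑ j ∈ Finset.range K, dd τ r n j * ζ ^ j =
      circleAverage (fun w : ℂ => ∑ j ∈ Finset.range K,
        (ζ ^ j) • ((r : ℂ) ^ n * (w ^ n)⁻¹ * (τ w) ^ j)) 0 r := by
    rw [circleAverage_fun_sum]
    · refine Finset.sum_congr rfl fun j _ => ?_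
      rw [circleAverage_fun_smul, dd, smul_eq_mul, mul_comm]
    · intro j _
      have h1 := ci_e_mul hr0 hr1 n (h := fun w => ζ ^ j * (τ w) ^ j)
        (continuousOn_const.mul (hcτ.pow j))
      refine h1.congr ?_
      intro w _
      simp only [smul_eq_mul]
      ring
  have e2 : circleAverage (fun w : ℂ => ∑ j ∈ Finset.range K,
        (ζ ^ j) • ((r : ℂ) ^ n * (w ^ n)⁻¹ * (τ w) ^ j)) 0 r =
      circleAverage (fun w : ℂ => (r : ℂ) ^ n * (w ^ n)⁻¹ * (1 - ζ * τ w)⁻¹) 0 r -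
      circleAverage (fun w : ℂ => (r : ℂ) ^ n * (w ^ n)⁻¹ *
        ((ζ * τ w) ^ K * (1 - ζ * τ w)⁻¹)) 0 r := by
    rw [← circleAverage_fun_sub (ci_e_mul hr0 hr1 n hcinv)
      (ci_e_mul hr0 hr1 n (h := fun w => (ζ * τ w) ^ K * (1 - ζ * τ w)⁻¹)
        (((continuousOn_const.mul hcτ).pow K).mul hcinv))]
    apply circleAverage_congr_sphere
    intro w hw
    rw [abs_of_pos hr0] at hw
    have h3 := hne w hw
    have hg := geom_sum_mul (ζ * τ w) K
    simp only [smul_eq_mul]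
    have h4 : ∑ j ∈ Finset.range K, ζ ^ j * ((r : ℂ) ^ n * (w ^ n)⁻¹ * (τ w) ^ j) =
        (r : ℂ) ^ n * (w ^ n)⁻¹ * ∑ j ∈ Finset.range K, (ζ * τ w) ^ j := by
      rw [Finset.mul_sum]
      refine Finset.sum_congr rfl fun j _ => ?_
      ring
    rw [h4, ← mul_sub]
    congr 1
    rw [eq_comm, ← mul_left_inj' h3]
    field_simp
    linear_combination hg
  rw [e1, e2]
  refine (norm_sub_le _ _).trans (add_le_add (G_bound hτ hτ1 hr0 hr1 hn hζ) ?_)
  apply norm_circleAverage_le_const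
  intro w hw
  rw [abs_of_pos hr0] at hw
  rw [norm_mul, norm_e hr0 hr1 n hw, one_mul, norm_mul, norm_pow, norm_inv, div_eq_mul_inv]
  have h5 : ‖ζ * τ w‖ ≤ ρ := by
    rw [norm_mul]
    nlinarith [hρ w hw, norm_nonneg ζ, norm_nonneg (τ w)]
  have h6 : 1 - ρ ≤ ‖1 - ζ * τ w‖ := by
    have := norm_sub_norm_le (1 : ℂ) (ζ * τ w)
    rw [norm_one] at this
    linarith
  have h7 : 0 < 1 - ρ := by linarith
  gcongr

lemma sum_sq_dd {n : ℕ} (hn : n ≠ 0) (K : ℕ) :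
    ∑ j ∈ Finset.range K, ‖dd τ r n j‖ ^ 2 ≤ ((1 + ‖τ 0‖) / (1 - ‖τ 0‖)) ^ 2 := by
  obtain ⟨ρ, hρ0, hρ1, hρ⟩ := exists_rho hτ hτ1 hr0 hr1
  set C : ℝ := (1 + ‖τ 0‖) / (1 - ‖τ 0‖) with hC
  have h0 : ‖τ 0‖ < 1 := hτ1 0 (mem_ball_self one_pos)
  have hCpos : 0 ≤ C := by
    have : 0 < 1 - ‖τ 0‖ := by linarith
    positivity
  have hstep : ∀ M : ℕ, ∑ j ∈ Finset.range M, ‖dd τ r n j‖ ^ 2 ≤ (C + ρ ^ M / (1 - ρ)) ^ 2 := by
    intro M
    have hpos : 0 ≤ ρ ^ M / (1 - ρ) := by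
      have : 0 < 1 - ρ := by linarith
      positivity
    let P : Polynomial ℂ := ∑ j ∈ Finset.range M, Polynomial.monomial j (dd τ r n j)
    have hcoeff : ∀ i, P.coeff i = if i ∈ Finset.range M then dd τ r n i else 0 := by
      intro i
      simp only [P, Polynomial.finsetSum_coeff, Polynomial.coeff_monomial]
      rw [Finset.sum_ite_eq' (Finset.range M) i]
    have heval : ∀ ζ, P.eval ζ = ∑ j ∈ Finset.range M, dd τ r n j * ζ ^ j := by
      intro ζ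
      simp [P, Polynomial.eval_finsetSum]
    have hsum : ∑ i ∈ P.support, ‖P.coeff i‖ ^ 2 = ∑ j ∈ Finset.range M, ‖dd τ r n j‖ ^ 2 := by
      have h1 : P.support ⊆ Finset.range M := by
        intro i hi
        by_contra hcon
        have := Polynomial.mem_support_iff.1 hi
        rw [hcoeff, if_neg hcon] at this
        exact this rfl
      rw [Finset.sum_subset h1]
      · refine Finset.sum_congr rfl fun i hi => ?_
        rw [hcoeff, if_pos hi]
      · intro i _ hi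
        rw [Polynomial.notMem_support_iff.1 hi]
        simp
    rw [← hsum, Polynomial.sum_sq_norm_coeff_eq_circleAverage]
    apply circleAverage_mono_on_of_le_circle
    · apply ContinuousOn.circleIntegrable zero_le_one
      fun_prop
    · intro ζ hζ
      rw [abs_one, mem_sphere_zero_iff_norm] at hζ
      rw [heval]
      have := partial_bound hτ hτ1 hr0 hr1 hn hρ0 hρ1 hρ M hζ.le
      gcongr
  have htend : Tendsto (fun M : ℕ => (C + ρ ^ M / (1 - ρ)) ^ 2) atTop (𝓝 (C ^ 2)) := by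
    have h1 : Tendsto (fun M : ℕ => ρ ^ M) atTop (𝓝 0) := tendsto_pow_atTop_nhds_zero_of_lt_one hρ0 hρ1
    have h2 := ((h1.div_const (1 - ρ)).const_add C).pow 2
    simpa using h2
  refine ge_of_tendsto htend ?_
  filter_upwards [eventually_ge_atTop K] with M hM
  refine le_trans ?_ (hstep M)
  exact Finset.sum_le_sum_of_subset_of_nonneg (Finset.range_mono hM)
    (fun _ _ _ => by positivity)

/-- The key estimate. -/
lemma L_bound {n : ℕ} (hn : n ≠ 0) (g : H2) :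
    ‖circleAverage (fun w : ℂ => (r : ℂ) ^ n * (w ^ n)⁻¹ * (τ w * ev g (τ w))) 0 r‖ ≤
      (1 + ‖τ 0‖) / (1 - ‖τ 0‖) * ‖g‖ := by
  obtain ⟨ρ, hρ0, hρ1, hρ⟩ := exists_rho hτ hτ1 hr0 hr1
  set C : ℝ := (1 + ‖τ 0‖) / (1 - ‖τ 0‖) with hC
  have h0 : ‖τ 0‖ < 1 := hτ1 0 (mem_ball_self one_pos)
  have hCpos : 0 ≤ C := by
    have : 0 < 1 - ‖τ 0‖ := by linarith
    positivity
  have hcτ : ContinuousOn τ (sphere 0 r) := hτ.continuousOn.mono (sphere_sub hr0 hr1)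
  have hcev : ∀ g : H2, ContinuousOn (fun w => τ w * ev g (τ w)) (sphere 0 r) := by
    intro g
    refine hcτ.mul ((differentiableOn_ev g).continuousOn.comp hcτ ?_)
    intro w hw
    exact mem_ball_zero_iff.2 (hτ1 w (sphere_sub hr0 hr1 hw))
  have h1ρ : 0 < 1 - ρ := by linarith
  let L : H2 →L[ℂ] ℂ := LinearMap.mkContinuous
    { toFun := fun g =>
        circleAverage (fun w : ℂ => (r : ℂ) ^ n * (w ^ n)⁻¹ * (τ w * ev g (τ w))) 0 r
      map_add' := fun g h => by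
        rw [← circleAverage_fun_add (ci_e_mul hr0 hr1 n (hcev g)) (ci_e_mul hr0 hr1 n (hcev h))]
        apply circleAverage_congr_sphere
        intro w hw
        rw [abs_of_pos hr0] at hw
        simp only
        rw [ev_add g h (hτ1 w (sphere_sub hr0 hr1 hw))]
        ring
      map_smul' := fun c g => by
        rw [RingHom.id_apply, ← circleAverage_fun_smul]
        apply circleAverage_congr_sphere
        intro w hw
        simp only [smul_eq_mul]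
        rw [ev_smul]
        ring } (1 - ρ)⁻¹ (fun g => by
      apply norm_circleAverage_le_const
      intro w hw
      rw [abs_of_pos hr0] at hw
      rw [norm_mul, norm_e hr0 hr1 n hw, one_mul, norm_mul]
      have h2 := norm_ev_le g (hρ w hw) hρ1
      have h3 : ‖τ w‖ ≤ 1 := (hρ w hw).trans hρ1.le
      calc ‖τ w‖ * ‖ev g (τ w)‖ ≤ 1 * (‖g‖ / (1 - ρ)) := by gcongr
        _ = (1 - ρ)⁻¹ * ‖g‖ := by rw [one_mul, div_eq_mul_inv, mul_comm])
  have hL : ∀ g : H2, L g =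
    circleAverage (fun w : ℂ => (r : ℂ) ^ n * (w ^ n)⁻¹ * (τ w * ev g (τ w))) 0 r := fun g => rfl
  have hLs : ∀ (j : ℕ) (c : ℂ), L (lp.single 2 j c) = c * dd τ r n (j + 1) := by
    intro j c
    rw [hL, dd, ← smul_eq_mul, ← circleAverage_fun_smul]
    congr 1
    ext w
    rw [ev_single, smul_eq_mul]
    ring
  rw [← hL]
  have hsum : HasSum (fun j => L (lp.single 2 j (g j))) (L g) :=
    (lp.hasSum_single (by norm_num) g).mapL L
  have htend := hsum.tendsto_sum_nat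
  refine le_of_tendsto htend.norm (Eventually.of_forall fun K => ?_)
  have hd := sum_sq_dd hτ hτ1 hr0 hr1 hn (K + 1)
  have hd' : ∑ j ∈ Finset.range K, ‖dd τ r n (j + 1)‖ ^ 2 ≤ C ^ 2 := by
    rw [Finset.sum_range_succ'] at hd
    have : 0 ≤ ‖dd τ r n 0‖ ^ 2 := by positivity
    linarith
  have hg : ∑ j ∈ Finset.range K, ‖g j‖ ^ 2 ≤ ‖g‖ ^ 2 := by
    have := lp.sum_rpow_le_norm_rpow (p := 2) (by norm_num) g (Finset.range K)
    simpa using this
  calc ‖∑ j ∈ Finset.range K, L (lp.single 2 j (g j))‖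
      ≤ ∑ j ∈ Finset.range K, ‖g j‖ * ‖dd τ r n (j + 1)‖ := by
        refine (norm_sum_le _ _).trans (le_of_eq ?_)
        refine Finset.sum_congr rfl fun j _ => ?_
        rw [hLs, norm_mul]
    _ ≤ Real.sqrt (∑ j ∈ Finset.range K, ‖g j‖ ^ 2) *
          Real.sqrt (∑ j ∈ Finset.range K, ‖dd τ r n (j + 1)‖ ^ 2) :=
        Real.sum_mul_le_sqrt_mul_sqrt _ _ _
    _ ≤ ‖g‖ * C := by
        gcongr
        · exact (Real.sqrt_le_sqrt hg).trans (by rw [Real.sqrt_sq (norm_nonneg _)])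
        · exact (Real.sqrt_le_sqrt hd').trans (by rw [Real.sqrt_sq hCpos])
    _ = C * ‖g‖ := mul_comm _ _

end

end Pool.Agent.V11131.Toep
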