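import Pool.Agent.V11131.Toep4

open Complex Metric Filter Topology Real
open scoped ENNReal ComplexConjugate

namespace Pool.Agent.V11131.Toep

section

variable {γ : ℂ} {φ : ℂ → ℂ} (hφ : DifferentiableOn ℂ φ (ball 0 1))
    {T : H2 →L[ℂ] H2} (hT : IsToeplitz γ φ T)
    {τ : ℂ → ℂ} (hτ : DifferentiableOn ℂ τ (ball 0 1))
    (hτ2 : ∀ w ∈ ball (0 : ℂ) 1, τ w ∈ D0 ∧ Phi γ φ (τ w) = w)

include hφ hT hτ hτ2

lemma avg_iter {r : ℝ} (hr0 : 0 < r) (hr1 : r < 1) (n : ℕ) (g : H2) :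
    circleAverage (fun w : ℂ => (r : ℂ) ^ n * (w ^ n)⁻¹ * (τ w * ev ((T ^ n) g) (τ w))) 0 r =
      (r : ℂ) ^ n * (τ 0 * ev g (τ 0)) := by
  have hτ1 : ∀ w ∈ ball (0 : ℂ) 1, ‖τ w‖ < 1 := fun w hw => (mem_D0.1 (hτ2 w hw).1).1
  have hcτ : ContinuousOn τ (sphere 0 r) := hτ.continuousOn.mono (sphere_sub hr0 hr1)
  have hdev : ∀ g : H2, DifferentiableOn ℂ (fun w => τ w * ev g (τ w)) (ball 0 1) := by
    intro g
    refine hτ.mul ((differentiableOn_ev g).comp hτ ?_)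
    intro w hw
    exact mem_ball_zero_iff.2 (hτ1 w hw)
  induction n with
  | zero =>
    simp only [pow_zero, inv_one, one_mul]
    exact avg_diff hr0 hr1 (hdev g)
  | succ n ih =>
    have h1 : circleAverage (fun w : ℂ => (r : ℂ) ^ (n + 1) * (w ^ (n + 1))⁻¹ *
        (τ w * ev ((T ^ (n + 1)) g) (τ w))) 0 r =
        (r : ℂ) • circleAverage (fun w : ℂ => (r : ℂ) ^ n * (w ^ n)⁻¹ *
          (τ w * ev ((T ^ n) g) (τ w))) 0 r -
        circleAverage (fun w : ℂ => (r : ℂ) ^ (n + 1) * (w ^ (n + 1))⁻¹ *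
          (γ * ((T ^ n) g) 0)) 0 r := by
      have hc1 : CircleIntegrable (fun w : ℂ => (r : ℂ) • ((r : ℂ) ^ n * (w ^ n)⁻¹ *
          (τ w * ev ((T ^ n) g) (τ w)))) 0 r := by
        have := ci_e_mul hr0 hr1 n (h := fun w => (r : ℂ) * (τ w * ev ((T ^ n) g) (τ w)))
          (continuousOn_const.mul ((hdev _).continuousOn.mono (sphere_sub hr0 hr1)))
        refine this.congr ?_
        intro w _
        simp only [smul_eq_mul]
        ring
      rw [← circleAverage_fun_smul, ← circleAverage_fun_sub hc1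
        (ci_e_mul hr0 hr1 (n + 1) (h := fun _ => γ * ((T ^ n) g) 0) continuousOn_const)]
      apply circleAverage_congr_sphere
      intro w hw
      rw [abs_of_pos hr0] at hw
      have hw0 : w ≠ 0 := ne_zero_of_sphere hr0 hr1 hw
      obtain ⟨h2, h3⟩ := hτ2 w (sphere_sub hr0 hr1 hw)
      have h4 := toeplitz_ev' hφ hT ((T ^ n) g) h2
      rw [h3] at h4
      simp only [smul_eq_mul]
      rw [pow_succ' T n, mul_apply_eq_comp, h4]
      field_simp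
      ring
    rw [h1, ih, avg_e hr0 hr1 (Nat.succ_ne_zero n), sub_zero, smul_eq_mul]
    ring

lemma orbit_bound (n : ℕ) (hn : n ≠ 0) (g : H2) :
    ‖τ 0 * ev g (τ 0)‖ ≤ (1 + ‖τ 0‖) / (1 - ‖τ 0‖) * ‖(T ^ n) g‖ := by
  have hτ1 : ∀ w ∈ ball (0 : ℂ) 1, ‖τ w‖ < 1 := fun w hw => (mem_D0.1 (hτ2 w hw).1).1
  have hstep : ∀ r : ℝ, 0 < r → r < 1 → r ^ n * ‖τ 0 * ev g (τ 0)‖ ≤
      (1 + ‖τ 0‖) / (1 - ‖τ 0‖) * ‖(T ^ n) g‖ := by
    intro r hr0 hr1
    have h1 := L_bound hτ hτ1 hr0 hr1 hn ((T ^ n) g)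
    rw [avg_iter hφ hT hτ hτ2 hr0 hr1 n g, norm_mul, norm_pow, Complex.norm_real,
      Real.norm_eq_abs, abs_of_pos hr0] at h1
    exact h1
  have htend : Tendsto (fun r : ℝ => r ^ n * ‖τ 0 * ev g (τ 0)‖) (𝓝[<] 1)
      (𝓝 (1 ^ n * ‖τ 0 * ev g (τ 0)‖)) := by
    have : ContinuousAt (fun r : ℝ => r ^ n * ‖τ 0 * ev g (τ 0)‖) 1 := by fun_prop
    exact this.tendsto.mono_left nhdsWithin_le_nhds
  rw [one_pow, one_mul] at htend
  refine le_of_tendsto htend ?_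
  have h0 : Set.Ioo (0 : ℝ) 1 ∈ 𝓝[<] (1 : ℝ) := Ioo_mem_nhdsLT one_pos
  filter_upwards [h0] with r hr
  exact hstep r hr.1 hr.2

end

/-- The main theorem: for a hypercyclic `T_Φ` the disc is not contained in `Φ(𝔻 ∖ {0})`. -/
theorem not_subset {γ : ℂ} {φ : ℂ → ℂ} (hφ : DifferentiableOn ℂ φ (ball 0 1))
    {T : H2 →L[ℂ] H2} (hT : IsToeplitz γ φ T) (h : Hypercyclic T) :
    ¬ (ball 0 1 ⊆ Phi γ φ '' D0) := by
  classical
  intro hs
  have hnt : Nontrivial H2 := by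
    refine ⟨⟨lp.single 2 0 1, 0, fun h0 => ?_⟩⟩
    have h1 := ev_one 0
    rw [h0] at h1
    simp [ev] at h1
  have hnb : ∀ x : H2, NeBot (𝓝[≠] x) := fun x => Module.punctured_nhds_neBot ℂ H2 x
  obtain ⟨τ, hτ, hτ2⟩ := exists_inverse hφ hT h hs
  obtain ⟨f, hf⟩ := h
  obtain ⟨hm, -⟩ := hτ2 0 (mem_ball_self one_pos)
  obtain ⟨ha1, ha0⟩ := mem_D0.1 hm
  set C : ℝ := (1 + ‖τ 0‖) / (1 - ‖τ 0‖) with hC
  have hCpos : 0 < C := by
    have : 0 < 1 - ‖τ 0‖ := by linarith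
    positivity
  -- the orbit lies in the kernel of evaluation at `a`
  have hker : ∀ k : ℕ, ev ((T ^ k) f) (τ 0) = 0 := by
    intro k
    by_contra hne
    set δ : ℝ := ‖τ 0 * ev ((T ^ k) f) (τ 0)‖ / C with hδ
    have hδpos : 0 < δ := by
      have : 0 < ‖τ 0 * ev ((T ^ k) f) (τ 0)‖ := norm_pos_iff.2 (mul_ne_zero ha0 hne)
      positivity
    have hfar : ∀ m : ℕ, k < m → δ ≤ ‖(T ^ m) f‖ := by
      intro m hm
      have h1 := orbit_bound hφ hT hτ hτ2 (m - k) (by omega) ((T ^ k) f)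
      rw [← mul_apply_eq_comp, ← pow_add, Nat.sub_add_cancel hm.le] at h1
      rw [hδ, div_le_iff₀ hCpos]
      linarith
    -- remove finitely many points from the orbit
    have hd := hf.sdiff_finset (Finset.image (fun n : ℕ => (T ^ n) f) (Finset.range (k + 1)))
    obtain ⟨x, hx, hx2⟩ := hd.exists_mem_open (isOpen_ball (x := (0 : H2)) (ε := δ))
      ⟨0, mem_ball_self hδpos⟩
    obtain ⟨⟨m, rfl⟩, hx3⟩ := hx
    have hmk : k < m := by
      by_contra hcon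
      apply hx3
      simp only [Finset.coe_image, Finset.coe_range, Set.mem_image, Set.mem_Iio]
      exact ⟨m, by omega, rfl⟩
    have := hfar m hmk
    rw [mem_ball_zero_iff] at hx2
    linarith
  have hsub : (Set.range fun n : ℕ => (T ^ n) f) ⊆ {g : H2 | evL (τ 0) ha1 g = 0} := by
    rintro _ ⟨k, rfl⟩
    exact hker k
  have hcl : IsClosed {g : H2 | evL (τ 0) ha1 g = 0} :=
    isClosed_eq (evL (τ 0) ha1).continuous continuous_const
  have h2 := (hcl.closure_subset_iff).2 hsub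
  rw [hf.closure_eq] at h2
  have h3 := h2 (Set.mem_univ (lp.single 2 0 1))
  have h4 : evL (τ 0) ha1 (lp.single 2 0 1) = 0 := h3
  rw [evL_apply, ev_one] at h4
  exact one_ne_zero h4

end Pool.Agent.V11131.Toep
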