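import Pool.Agent.V11131.Toep2

open Complex Metric Filter Topology
open scoped ENNReal NNReal

namespace Pool.Agent.V11131.Toep

lemma hasFPS_ev (g : H2) :
    HasFPowerSeriesOnBall (ev g) (FormalMultilinearSeries.ofScalars ℂ (fun n => g n)) 0 1 where
  r_le := by
    have := (FormalMultilinearSeries.ofScalars ℂ (fun n => g n)).le_radius_of_bound (r := 1) ‖g‖
      (fun n => by
        rw [FormalMultilinearSeries.ofScalars_norm]
        simpa using norm_coord_le g n)
    simpa using this
  r_pos := one_pos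
  hasSum := by
    intro y hy
    have hy' : ‖y‖ < 1 := by
      have h1 : edist y 0 < 1 := hy
      rw [edist_zero_right, ← ofReal_norm, ENNReal.ofReal_lt_one] at h1
      exact h1
    rw [zero_add]
    have h2 := (summable_ev g hy').of_norm.hasSum
    simp only [FormalMultilinearSeries.ofScalars_apply_eq, smul_eq_mul]
    exact h2

lemma ev_ext {g h : H2} (hgh : ∀ z : ℂ, ‖z‖ < 1 → ev g z = ev h z) : g = h := by
  have h1 := (hasFPS_ev g).hasFPowerSeriesAt
  have h2 := (hasFPS_ev h).hasFPowerSeriesAt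
  have h3 : ev g =ᶠ[𝓝 0] ev h := by
    filter_upwards [isOpen_ball.mem_nhds (mem_ball_self (x := (0 : ℂ)) (ε := 1) one_pos)] with z hz
    exact hgh z (mem_ball_zero_iff.1 hz)
  have h4 := h1.eq_formalMultilinearSeries_of_eventually h2 h3
  have h5 := FormalMultilinearSeries.ofScalars_series_injective ℂ ℂ h4
  ext n
  exact congrFun h5 n

/-- The backward shift. -/
lemma exists_backward : ∃ B : H2 →L[ℂ] H2, ‖B‖ ≤ 1 ∧ ∀ (g : H2) (n : ℕ), B g n = g (n + 1) := by
  have key : ∀ (g : H2) (s : Finset ℕ),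
      ∑ i ∈ s, ‖g (i + 1)‖ ^ (2 : ℝ≥0∞).toReal ≤ ‖g‖ ^ (2 : ℝ≥0∞).toReal := by
    intro g s
    have h1 := lp.sum_rpow_le_norm_rpow (p := 2) (by norm_num) g
      (s.map ⟨fun i => i + 1, add_left_injective 1⟩)
    rw [Finset.sum_map] at h1
    exact h1
  have hmem : ∀ g : H2, Memℓp (fun n : ℕ => (g (n + 1) : ℂ)) 2 := fun g => memℓp_gen' (key g)
  refine ⟨LinearMap.mkContinuous
    { toFun := fun g => ⟨fun n : ℕ => g (n + 1), hmem g⟩
      map_add' := fun g h => by
        ext n
        rfl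
      map_smul' := fun c g => by
        ext n
        rfl } 1 (fun g => ?_), ?_, fun g n => rfl⟩
  · rw [one_mul]
    exact lp.norm_le_of_forall_sum_le (by norm_num) (norm_nonneg _) (key g)
  · exact LinearMap.mkContinuous_norm_le _ zero_le_one _

lemma ev_backward {B : H2 →L[ℂ] H2} (hB : ∀ (g : H2) (n : ℕ), B g n = g (n + 1)) (g : H2) {z : ℂ}
    (hz : ‖z‖ < 1) : z * ev (B g) z = ev g z - g 0 := by
  unfold ev
  rw [(summable_ev g hz).of_norm.tsum_eq_zero_add, ← tsum_mul_left]
  simp only [pow_zero, mul_one, add_sub_cancel_left]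
  congr 1
  ext n
  rw [hB]
  ring

end Pool.Agent.V11131.Toep
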