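import Pool.Agent.V11131.Toep6

open Complex Metric Filter Topology Real
open scoped ENNReal NNReal

namespace Pool.Agent.V11131.Toep

lemma parseval_poly (v : ℕ → ℂ) (M : ℕ) :
    ∑ n ∈ Finset.range M, ‖v n‖ ^ 2 =
      circleAverage (fun ζ : ℂ => ‖∑ n ∈ Finset.range M, v n * ζ ^ n‖ ^ 2) 0 1 := by
  let P : Polynomial ℂ := ∑ j ∈ Finset.range M, Polynomial.monomial j (v j)
  have hcoeff : ∀ i, P.coeff i = if i ∈ Finset.range M then v i else 0 := by
    intro i
    simp only [P, Polynomial.finsetSum_coeff, Polynomial.coeff_monomial]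
    rw [Finset.sum_ite_eq' (Finset.range M) i]
  have heval : ∀ ζ, P.eval ζ = ∑ j ∈ Finset.range M, v j * ζ ^ j := by
    intro ζ
    simp [P, Polynomial.eval_finsetSum]
  have hsum : ∑ i ∈ P.support, ‖P.coeff i‖ ^ 2 = ∑ j ∈ Finset.range M, ‖v j‖ ^ 2 := by
    have h1 : P.support ⊆ Finset.range M := by
      intro i hi
      by_contra hcon
      have := Polynomial.mem_support_iff.1 hi
      rw [hcoeff, if_neg hcon] at this
      exact this rfl
    rw [Finset.sum_subset h1]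
    · refine Finset.sum_congr rfl fun i hi => ?_
      rw [hcoeff, if_pos hi]
    · intro i _ hi
      rw [Polynomial.notMem_support_iff.1 hi]
      simp
  rw [← hsum, Polynomial.sum_sq_norm_coeff_eq_circleAverage]
  congr 1
  ext ζ
  rw [heval]

/-- Tail of a power series on the circle of radius `r`. -/
lemma tail_bound (u : ℕ → ℂ) {r : ℝ} (hr0 : 0 < r) (hu : Summable fun n => ‖u n‖ * r ^ n) (M : ℕ)
    {ζ : ℂ} (hζ : ‖ζ‖ = 1) :
    ‖(∑' n : ℕ, u n * ((r : ℂ) * ζ) ^ n) - ∑ n ∈ Finset.range M, u n * (r : ℂ) ^ n * ζ ^ n‖ ≤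
      ∑' n : ℕ, ‖u (n + M)‖ * r ^ (n + M) := by
  have hnorm : ∀ n, ‖u n * ((r : ℂ) * ζ) ^ n‖ = ‖u n‖ * r ^ n := by
    intro n
    rw [norm_mul, norm_pow, norm_mul, hζ, mul_one, Complex.norm_real, Real.norm_eq_abs,
      abs_of_pos hr0]
  have hs : Summable fun n => ‖u n * ((r : ℂ) * ζ) ^ n‖ := by
    simpa only [hnorm] using hu
  have h1 : ∑ n ∈ Finset.range M, u n * (r : ℂ) ^ n * ζ ^ n =
      ∑ n ∈ Finset.range M, u n * ((r : ℂ) * ζ) ^ n := by
    refine Finset.sum_congr rfl fun n _ => ?_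
    rw [mul_pow]
    ring
  rw [h1, ← hs.of_norm.sum_add_tsum_nat_add M, add_sub_cancel_left]
  have h2 : Summable fun n => ‖u (n + M) * ((r : ℂ) * ζ) ^ (n + M)‖ :=
    (summable_nat_add_iff M).2 hs
  refine (norm_tsum_le_tsum_norm h2).trans (le_of_eq ?_)
  congr 1
  ext n
  exact hnorm (n + M)

section

variable {ψ : ℂ → ℂ} (hψ : DifferentiableOn ℂ ψ (ball 0 1)) {C : ℝ}
  (hC : ∀ z ∈ ball (0 : ℂ) 1, ‖ψ z‖ ≤ C)

/-- Coefficients of the product `ψ g`. -/
noncomputable def mulc (ψ : ℂ → ℂ) (g : H2) (n : ℕ) : ℂ :=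
  ∑ p ∈ Finset.HasAntidiagonal.antidiagonal n,
    (iteratedDeriv p.1 ψ 0 / (Nat.factorial p.1 : ℂ)) * g p.2

include hψ

lemma mulc_summable (g : H2) {z : ℂ} (hz : ‖z‖ < 1) :
    Summable fun n => ‖mulc ψ g n * z ^ n‖ := by
  have hφs := hasSum_phi hψ hz
  have h2s := summable_norm_sum_mul_antidiagonal_of_summable_norm hφs.summable.norm
    (summable_ev g hz)
  refine h2s.congr fun n => ?_
  congr 1
  rw [mulc, Finset.sum_mul]
  refine Finset.sum_congr rfl fun p hp => ?_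
  rw [← Finset.HasAntidiagonal.mem_antidiagonal.1 hp, pow_add]
  ring

lemma mulc_tsum (g : H2) {z : ℂ} (hz : ‖z‖ < 1) :
    ∑' n, mulc ψ g n * z ^ n = ψ z * ev g z := by
  have hφs := hasSum_phi hψ hz
  have h2 := tsum_mul_tsum_eq_tsum_sum_antidiagonal_of_summable_norm hφs.summable.norm
    (summable_ev g hz)
  rw [hφs.tsum_eq] at h2
  unfold ev
  rw [h2]
  congr 1
  ext n
  rw [mulc, Finset.sum_mul]
  refine Finset.sum_congr rfl fun p hp => ?_
  rw [← Finset.HasAntidiagonal.mem_antidiagonal.1 hp, pow_add]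
  ring

include hC

lemma mulc_bound_r (g : H2) {r : ℝ} (hr0 : 0 < r) (hr1 : r < 1) (K : ℕ) :
    ∑ n ∈ Finset.range K, (‖mulc ψ g n‖ * r ^ n) ^ 2 ≤ C ^ 2 * ‖g‖ ^ 2 := by
  have hC0 : 0 ≤ C := (norm_nonneg _).trans (hC 0 (mem_ball_self one_pos))
  have hrn : ‖(r : ℂ)‖ < 1 := by
    rw [Complex.norm_real, Real.norm_eq_abs, abs_of_pos hr0]
    exact hr1
  have hnr : ∀ (x : ℂ) (n : ℕ), ‖x * (r : ℂ) ^ n‖ = ‖x‖ * r ^ n := by
    intro x n
    rw [norm_mul, norm_pow, Complex.norm_real, Real.norm_eq_abs, abs_of_pos hr0]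
  have hu : Summable fun n => ‖mulc ψ g n‖ * r ^ n := by
    simpa only [hnr] using mulc_summable hψ g hrn
  have hg : Summable fun n => ‖g n‖ * r ^ n := by
    simpa only [hnr] using summable_ev g hrn
  set Γ : ℝ := ∑' n, ‖g n‖ * r ^ n with hΓ
  have hΓ0 : 0 ≤ Γ := tsum_nonneg fun n => by positivity
  set η : ℕ → ℝ := fun M => C * (∑' n : ℕ, ‖g (n + M)‖ * r ^ (n + M)) +
    ∑' n : ℕ, ‖mulc ψ g (n + M)‖ * r ^ (n + M) with hη
  have hη0 : ∀ M, 0 ≤ η M := by
    intro M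
    have h1 : 0 ≤ ∑' n : ℕ, ‖g (n + M)‖ * r ^ (n + M) := tsum_nonneg fun n => by positivity
    have h2 : 0 ≤ ∑' n : ℕ, ‖mulc ψ g (n + M)‖ * r ^ (n + M) :=
      tsum_nonneg fun n => by positivity
    simp only [hη]
    positivity
  have hηt : Tendsto η atTop (𝓝 0) := by
    have h1 := (tendsto_sum_nat_add (fun n => ‖g n‖ * r ^ n)).const_mul C
    have h2 := tendsto_sum_nat_add (fun n => ‖mulc ψ g n‖ * r ^ n)
    simpa using h1.add h2
  have hstep : ∀ M, ∑ n ∈ Finset.range M, (‖mulc ψ g n‖ * r ^ n) ^ 2 ≤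
      C ^ 2 * ‖g‖ ^ 2 + (2 * C * Γ * η M + η M ^ 2) := by
    intro M
    have e1 : ∑ n ∈ Finset.range M, (‖mulc ψ g n‖ * r ^ n) ^ 2 =
        ∑ n ∈ Finset.range M, ‖mulc ψ g n * (r : ℂ) ^ n‖ ^ 2 := by
      simp only [hnr]
    have e2 : ∑ n ∈ Finset.range M, ‖g n * (r : ℂ) ^ n‖ ^ 2 ≤ ‖g‖ ^ 2 := by
      have h1 := lp.sum_rpow_le_norm_rpow (p := 2) (by norm_num) g (Finset.range M)
      have h2 : ∑ n ∈ Finset.range M, ‖g n‖ ^ 2 ≤ ‖g‖ ^ 2 := by simpa using h1
      refine le_trans (Finset.sum_le_sum fun n _ => ?_) h2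
      rw [hnr]
      have h3 : r ^ n ≤ 1 := pow_le_one₀ hr0.le hr1.le
      have h4 : ‖g n‖ * r ^ n ≤ ‖g n‖ := by
        nlinarith [norm_nonneg (g n)]
      gcongr
    rw [e1, parseval_poly]
    have hci : ∀ v : ℕ → ℂ, CircleIntegrable
        (fun ζ : ℂ => ‖∑ n ∈ Finset.range M, v n * ζ ^ n‖ ^ 2) 0 1 := by
      intro v
      apply ContinuousOn.circleIntegrable zero_le_one
      fun_prop
    calc circleAverage (fun ζ : ℂ =>
          ‖∑ n ∈ Finset.range M, mulc ψ g n * (r : ℂ) ^ n * ζ ^ n‖ ^ 2) 0 1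
        ≤ circleAverage (fun ζ : ℂ =>
          (C ^ 2) • ‖∑ n ∈ Finset.range M, g n * (r : ℂ) ^ n * ζ ^ n‖ ^ 2 +
            (2 * C * Γ * η M + η M ^ 2)) 0 1 := by
          apply circleAverage_mono (hci _)
          · exact (((hci (fun n => g n * (r : ℂ) ^ n)).const_fun_smul).add
              (circleIntegrable_const _ _ _))
          · intro ζ hζ
            rw [abs_one, mem_sphere_zero_iff_norm] at hζ
            have hrζ : ‖(r : ℂ) * ζ‖ < 1 := by
              rw [norm_mul, hζ, mul_one]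
              exact hrn
            have t1 := tail_bound (mulc ψ g) hr0 hu M hζ
            have t2 := tail_bound (fun n => g n) hr0 hg M hζ
            rw [mulc_tsum hψ g hrζ] at t1
            have t3 : (∑' n : ℕ, g n * ((r : ℂ) * ζ) ^ n) = ev g ((r : ℂ) * ζ) := rfl
            rw [t3] at t2
            set FM := ∑ n ∈ Finset.range M, mulc ψ g n * (r : ℂ) ^ n * ζ ^ n
            set GM := ∑ n ∈ Finset.range M, g n * (r : ℂ) ^ n * ζ ^ n
            have t4 : ‖FM‖ ≤ ‖ψ (r * ζ) * ev g (r * ζ)‖ +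
                ∑' n : ℕ, ‖mulc ψ g (n + M)‖ * r ^ (n + M) := by
              have := norm_sub_norm_le FM (ψ (r * ζ) * ev g (r * ζ))
              rw [norm_sub_rev] at this
              linarith
            have t5 : ‖ev g (r * ζ)‖ ≤ ‖GM‖ + ∑' n : ℕ, ‖g (n + M)‖ * r ^ (n + M) := by
              have := norm_sub_norm_le (ev g (r * ζ)) GM
              linarith
            have t6 : ‖ψ (r * ζ)‖ ≤ C := hC _ (mem_ball_zero_iff.2 hrζ)
            have t7 : ‖FM‖ ≤ C * ‖GM‖ + η M := by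
              rw [norm_mul] at t4
              have t8 : ‖ψ (r * ζ)‖ * ‖ev g (r * ζ)‖ ≤
                  C * (‖GM‖ + ∑' n : ℕ, ‖g (n + M)‖ * r ^ (n + M)) := by
                gcongr
              simp only [hη]
              linarith
            have t9 : ‖GM‖ ≤ Γ := by
              refine (norm_sum_le _ _).trans ?_
              refine le_trans (le_of_eq ?_) (hg.sum_le_tsum (Finset.range M)
                (fun n _ => by positivity))
              refine Finset.sum_congr rfl fun n _ => ?_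
              rw [norm_mul, norm_pow, hζ, one_pow, mul_one, hnr]
            have t10 : ‖FM‖ ^ 2 ≤ (C * ‖GM‖ + η M) ^ 2 := by gcongr
            refine t10.trans ?_
            rw [smul_eq_mul]
            have t11 : C * ‖GM‖ * η M ≤ C * Γ * η M := by
              have := hη0 M
              gcongr
            nlinarith
      _ = C ^ 2 * (∑ n ∈ Finset.range M, ‖g n * (r : ℂ) ^ n‖ ^ 2) +
          (2 * C * Γ * η M + η M ^ 2) := by
          rw [circleAverage_fun_add ((hci (fun n => g n * (r : ℂ) ^ n)).const_fun_smul)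
            (circleIntegrable_const _ _ _), circleAverage_fun_smul, circleAverage_const,
            parseval_poly, smul_eq_mul]
      _ ≤ C ^ 2 * ‖g‖ ^ 2 + (2 * C * Γ * η M + η M ^ 2) := by gcongr
  have htend : Tendsto (fun M => C ^ 2 * ‖g‖ ^ 2 + (2 * C * Γ * η M + η M ^ 2)) atTop
      (𝓝 (C ^ 2 * ‖g‖ ^ 2)) := by
    have h1 := (hηt.const_mul (2 * C * Γ)).add (hηt.pow 2)
    have h2 := h1.const_add (C ^ 2 * ‖g‖ ^ 2)
    simpa using h2
  refine ge_of_tendsto htend ?_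
  filter_upwards [eventually_ge_atTop K] with M hM
  refine le_trans ?_ (hstep M)
  exact Finset.sum_le_sum_of_subset_of_nonneg (Finset.range_mono hM)
    (fun _ _ _ => by positivity)

lemma mulc_bound (g : H2) (K : ℕ) :
    ∑ n ∈ Finset.range K, ‖mulc ψ g n‖ ^ 2 ≤ C ^ 2 * ‖g‖ ^ 2 := by
  have htend : Tendsto (fun r : ℝ => ∑ n ∈ Finset.range K, (‖mulc ψ g n‖ * r ^ n) ^ 2) (𝓝[<] 1)
      (𝓝 (∑ n ∈ Finset.range K, (‖mulc ψ g n‖ * 1 ^ n) ^ 2)) := by
    have : ContinuousAt (fun r : ℝ => ∑ n ∈ Finset.range K, (‖mulc ψ g n‖ * r ^ n) ^ 2) 1 := by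
      fun_prop
    exact this.tendsto.mono_left nhdsWithin_le_nhds
  simp only [one_pow, mul_one] at htend
  refine le_of_tendsto htend ?_
  have h0 : Set.Ioo (0 : ℝ) 1 ∈ 𝓝[<] (1 : ℝ) := Ioo_mem_nhdsLT one_pos
  filter_upwards [h0] with r hr
  exact mulc_bound_r hψ hC g hr.1 hr.2 K

/-- The multiplication operator. -/
lemma exists_mul : ∃ M : H2 →L[ℂ] H2, ∀ (g : H2) (n : ℕ), M g n = mulc ψ g n := by
  have hC0 : 0 ≤ C := (norm_nonneg _).trans (hC 0 (mem_ball_self one_pos))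
  have key : ∀ (g : H2) (s : Finset ℕ),
      ∑ i ∈ s, ‖mulc ψ g i‖ ^ (2 : ℝ≥0∞).toReal ≤ (C * ‖g‖) ^ (2 : ℝ≥0∞).toReal := by
    intro g s
    have h1 : ∑ n ∈ Finset.range (s.sup id + 1), ‖mulc ψ g n‖ ^ 2 ≤ C ^ 2 * ‖g‖ ^ 2 :=
      mulc_bound hψ hC g _
    have h2 : s ⊆ Finset.range (s.sup id + 1) := by
      intro i hi
      have : i ≤ s.sup id := Finset.le_sup (f := id) hi
      simp only [Finset.mem_range]
      omega
    have h3 : ∑ i ∈ s, ‖mulc ψ g i‖ ^ 2 ≤ (C * ‖g‖) ^ 2 := by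
      rw [mul_pow]
      exact (Finset.sum_le_sum_of_subset_of_nonneg h2 (fun _ _ _ => by positivity)).trans h1
    simpa using h3
  have hmem : ∀ g : H2, Memℓp (mulc ψ g) 2 := fun g => memℓp_gen' (key g)
  refine ⟨LinearMap.mkContinuous
    { toFun := fun g => ⟨mulc ψ g, hmem g⟩
      map_add' := fun g h => by
        ext n
        change mulc ψ (g + h) n = mulc ψ g n + mulc ψ h n
        simp only [mulc]
        rw [← Finset.sum_add_distrib]
        refine Finset.sum_congr rfl fun p _ => ?_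
        rw [lp.coeFn_add, Pi.add_apply]
        ring
      map_smul' := fun c g => by
        ext n
        change mulc ψ (c • g) n = c * mulc ψ g n
        simp only [mulc]
        rw [Finset.mul_sum]
        refine Finset.sum_congr rfl fun p _ => ?_
        rw [lp.coeFn_smul, Pi.smul_apply, smul_eq_mul]
        ring } C (fun g => ?_), fun g n => rfl⟩
  exact lp.norm_le_of_forall_sum_le (by norm_num) (by positivity) (key g)

lemma exists_mul' : ∃ M : H2 →L[ℂ] H2, ∀ (g : H2) (z : ℂ), ‖z‖ < 1 →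
    ev (M g) z = ψ z * ev g z := by
  obtain ⟨M, hM⟩ := exists_mul hψ hC
  refine ⟨M, fun g z hz => ?_⟩
  rw [← mulc_tsum hψ g hz]
  unfold ev
  simp only [hM]

end

/-- Existence and uniqueness of `T_Φ = γ S* + T_φ` for `φ ∈ H^∞`. -/
theorem existsUnique_toeplitz (γ : ℂ) {φ : ℂ → ℂ} (hφ : DifferentiableOn ℂ φ (ball 0 1))
    (hb : ∃ C : ℝ, ∀ z ∈ ball (0 : ℂ) 1, ‖φ z‖ ≤ C) :
    ∃! T : H2 →L[ℂ] H2, IsToeplitz γ φ T := by
  obtain ⟨C, hC⟩ := hb
  obtain ⟨M, hM⟩ := exists_mul hφ hC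
  obtain ⟨B, -, hB⟩ := exists_backward
  refine ⟨γ • B + M, ?_, ?_⟩
  · intro g n
    rw [add_apply, smul_apply, lp.coeFn_add, Pi.add_apply, lp.coeFn_smul, Pi.smul_apply, hB, hM,
      smul_eq_mul, mulc]
  · intro T hT
    ext g n
    rw [hT g n, add_apply, smul_apply, lp.coeFn_add, Pi.add_apply, lp.coeFn_smul, Pi.smul_apply,
      hB, hM, smul_eq_mul, mulc]

end Pool.Agent.V11131.Toep
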