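import Pool.Agent.V11131.Toep5
import Pool.Agent.V11131.Toep7

open Complex Metric Filter Topology
open scoped ENNReal NNReal ComplexConjugate

namespace Pool.Agent.V11131.Toep

lemma ev_ext' {g h : H2} (hgh : ∀ z ∈ D0, ev g z = ev h z) : g = h := by
  apply ev_ext
  have hD : DifferentiableOn ℂ (fun z => ev g z - ev h z) (ball 0 1) :=
    (differentiableOn_ev g).sub (differentiableOn_ev h)
  intro z hz
  by_cases hz0 : z = 0
  · subst hz0
    have h1 : Tendsto (fun z => ev g z - ev h z) (𝓝[≠] 0) (𝓝 (ev g 0 - ev h 0)) := by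
      have : ContinuousAt (fun z => ev g z - ev h z) 0 :=
        (hD.differentiableAt (isOpen_ball.mem_nhds (mem_ball_self one_pos))).continuousAt
      exact this.tendsto.mono_left nhdsWithin_le_nhds
    have h2 : Tendsto (fun z => ev g z - ev h z) (𝓝[≠] 0) (𝓝 0) := by
      refine tendsto_const_nhds.congr' ?_
      have h3 : ∀ᶠ z : ℂ in 𝓝[≠] 0, z ∈ ball (0 : ℂ) 1 :=
        nhdsWithin_le_nhds (isOpen_ball.mem_nhds (mem_ball_self one_pos))
      filter_upwards [h3, self_mem_nhdsWithin] with z hz1 hz2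
      rw [hgh z ⟨hz1, hz2⟩, sub_self]
    exact sub_eq_zero.1 (tendsto_nhds_unique h1 h2)
  · exact hgh z (mem_D0.2 ⟨hz, hz0⟩)

/-- The forward shift. -/
lemma exists_forward : ∃ S : H2 →L[ℂ] H2, ∀ (g : H2) (z : ℂ), ‖z‖ < 1 →
    ev (S g) z = z * ev g z :=
  exists_mul' (ψ := fun z => z) differentiableOn_id (C := 1)
    (fun _ hz => (mem_ball_zero_iff.1 hz).le)

lemma gamma_ne {γ : ℂ} {φ : ℂ → ℂ}
    {T : H2 →L[ℂ] H2} (hT : IsToeplitz γ φ T) (h : Hypercyclic T) : γ ≠ 0 := by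
  intro hγ
  have h0 : ‖(0 : ℂ)‖ < 1 := by simp
  have h1 := no_eigen h (evL 0 h0) (φ 0) (by
    intro g
    rw [evL_apply, evL_apply, ev_zero, ev_zero, hT g 0, hγ]
    simp)
  have h2 := congrArg (fun l : H2 →L[ℂ] ℂ => l (lp.single 2 0 1)) h1
  simp [ev_one] at h2

/-- Claim A. -/
lemma mem_image_of_notMem_spectrum {γ : ℂ} {φ : ℂ → ℂ} (hφ : DifferentiableOn ℂ φ (ball 0 1))
    {T : H2 →L[ℂ] H2} (hT : IsToeplitz γ φ T) (hγ : γ ≠ 0) {μ : ℂ}
    (hμ : μ ∉ spectrum ℂ T) : μ ∈ Phi γ φ '' D0 := by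
  classical
  obtain ⟨u, hu⟩ := spectrum.notMem_iff.1 hμ
  obtain ⟨S, hS⟩ := exists_forward
  have h0 : ‖(0 : ℂ)‖ < 1 := by simp
  set R : H2 →L[ℂ] H2 := ((u⁻¹ : (H2 →L[ℂ] H2)ˣ) : H2 →L[ℂ] H2) with hR
  have hu' : ∀ g, (u : H2 →L[ℂ] H2) g = μ • g - T g := by
    intro g
    rw [hu, sub_apply]
    rfl
  have hRu : ∀ g, R (μ • g - T g) = g := by
    intro g
    rw [← hu', hR, ← mul_apply_eq_comp, Units.inv_mul]
    rfl
  have huR : ∀ g, μ • (R g) - T (R g) = g := by
    intro g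
    rw [← hu', hR, ← mul_apply_eq_comp, Units.mul_inv]
    rfl
  set κ : H2 →L[ℂ] ℂ := γ • ((evL 0 h0).comp R) with hκdef
  have hκ : ∀ g : H2, μ * κ g - κ (T g) = γ * g 0 := by
    intro g
    have h1 : κ (μ • g - T g) = γ * g 0 := by
      simp only [hκdef, smul_apply, ContinuousLinearMap.comp_apply, evL_apply, smul_eq_mul]
      rw [hRu, ev_zero]
    rw [map_sub, map_smul, smul_eq_mul] at h1
    exact h1
  have hS0 : ∀ g : H2, (S g) 0 = 0 := by
    intro g
    rw [← ev_zero, hS g 0 h0, zero_mul]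
  have hTS : ∀ g : H2, T (S g) = S (T g) + (γ * g 0) • (lp.single 2 0 1 : H2) := by
    intro g
    apply ev_ext'
    intro z hz
    obtain ⟨hz1, hz0⟩ := mem_D0.1 hz
    rw [ev_add _ _ hz1, ev_smul, ev_one, hS _ _ hz1, mul_one]
    have h1 := toeplitz_ev hφ hT (S g) hz1
    have h2 := toeplitz_ev hφ hT g hz1
    rw [hS0, hS g z hz1] at h1
    apply mul_left_cancel₀ hz0
    linear_combination h1 - z * h2
  set c : ℂ := κ (lp.single 2 0 1) with hc
  have hκS : ∀ h : H2, κ (S h) = c * κ h := by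
    intro h
    have e1 : h = μ • (R h) - T (R h) := (huR h).symm
    set g := R h with hg
    have h2 := hκ (S g)
    rw [hS0, mul_zero, hTS, map_add, map_smul, smul_eq_mul, ← hc] at h2
    have h3 := hκ g
    rw [e1, map_sub, map_sub, map_smul, map_smul, map_sub, map_smul, smul_eq_mul, smul_eq_mul]
    linear_combination h2 - c * h3
  have hSe : ∀ j : ℕ, S (lp.single 2 j 1) = lp.single 2 (j + 1) 1 := by
    intro j
    apply ev_ext
    intro z hz
    rw [hS _ _ hz, ev_single, ev_single]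
    ring
  have hκe : ∀ j : ℕ, κ (lp.single 2 j 1) = c ^ (j + 1) := by
    intro j
    induction j with
    | zero => rw [← hc]; ring
    | succ j ih => rw [← hSe, hκS, ih]; ring
  have hκe' : ∀ (j : ℕ) (x : ℂ), κ (lp.single 2 j x) = x * c ^ (j + 1) := by
    intro j x
    have : (lp.single 2 j x : H2) = x • lp.single 2 j 1 := by
      rw [← lp.single_smul]
      simp
    rw [this, map_smul, hκe, smul_eq_mul]
  have hκsum : ∀ g : H2, HasSum (fun j => g j * c ^ (j + 1)) (κ g) := by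
    intro g
    have h1 : HasSum (fun j => κ (lp.single 2 j (g j))) (κ g) :=
      (lp.hasSum_single (by norm_num) g).mapL κ
    simpa only [hκe'] using h1
  have hc0 : c ≠ 0 := by
    intro h1
    have hκ0 : ∀ g, κ g = 0 := by
      intro g
      have h2 := hκsum g
      simp only [h1, ne_eq, Nat.add_eq_zero_iff, one_ne_zero, and_false, not_false_eq_true,
        zero_pow, mul_zero] at h2
      exact h2.unique hasSum_zero
    have h3 := hκ (lp.single 2 0 1)
    rw [hκ0, hκ0, mul_zero, sub_zero] at h3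
    simp at h3
    exact hγ h3.symm
  have hc1 : ‖c‖ < 1 := by
    by_contra hcon
    push Not at hcon
    obtain ⟨K, hK⟩ := exists_nat_gt (max 1 (‖κ‖ ^ 2))
    have hK1 : (1 : ℝ) < K := (le_max_left _ _).trans_lt hK
    have hK2 : ‖κ‖ ^ 2 < K := (le_max_right _ _).trans_lt hK
    let v : ℕ → ℂ := fun j => conj (c ^ (j + 1)) / (‖c ^ (j + 1)‖ : ℂ)
    have hnz : ∀ j : ℕ, (‖c ^ (j + 1)‖ : ℂ) ≠ 0 := by
      intro j
      exact_mod_cast (norm_ne_zero_iff.2 (pow_ne_zero _ hc0))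
    have hv : ∀ j, ‖v j‖ = 1 := by
      intro j
      simp only [v]
      rw [norm_div, RCLike.norm_conj, Complex.norm_real, norm_norm]
      exact div_self (norm_ne_zero_iff.2 (pow_ne_zero _ hc0))
    have hvc : ∀ j, v j * c ^ (j + 1) = (‖c ^ (j + 1)‖ : ℂ) := by
      intro j
      simp only [v]
      rw [div_mul_eq_mul_div, mul_comm (conj _), Complex.mul_conj, Complex.normSq_eq_norm_sq]
      have := hnz j
      push_cast
      rw [sq, mul_div_assoc, div_self this, mul_one]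
    set x : H2 := ∑ j ∈ Finset.range K, lp.single 2 j (v j) with hx
    have hxn : ‖x‖ ^ 2 = K := by
      have h1 := lp.norm_sum_single (p := 2) (E := fun _ : ℕ => ℂ) (by norm_num) v
        (Finset.range K)
      have h2 : ‖x‖ ^ 2 = ∑ i ∈ Finset.range K, ‖v i‖ ^ 2 := by simpa using h1
      rw [h2]
      simp [hv]
    have hκx : κ x = ((∑ j ∈ Finset.range K, ‖c ^ (j + 1)‖ : ℝ) : ℂ) := by
      rw [hx, map_sum]
      push_cast
      refine Finset.sum_congr rfl fun j _ => ?_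
      rw [hκe', hvc]
    have hκx' : (K : ℝ) ≤ ‖κ x‖ := by
      rw [hκx, Complex.norm_real, Real.norm_eq_abs]
      refine le_trans ?_ (le_abs_self _)
      have : ∑ j ∈ Finset.range K, (1 : ℝ) ≤ ∑ j ∈ Finset.range K, ‖c ^ (j + 1)‖ := by
        refine Finset.sum_le_sum fun j _ => ?_
        rw [norm_pow]
        exact one_le_pow₀ hcon
      simpa using this
    have hle := κ.le_opNorm x
    have h4 : (K : ℝ) ^ 2 ≤ ‖κ‖ ^ 2 * K := by
      rw [← hxn]
      have h5 : (K : ℝ) ≤ ‖κ‖ * ‖x‖ := hκx'.trans hle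
      have h6 : (K : ℝ) ^ 2 ≤ (‖κ‖ * ‖x‖) ^ 2 := by
        have : (0 : ℝ) ≤ K := by positivity
        gcongr
      rw [hxn]
      rw [mul_pow, hxn] at h6
      exact h6
    nlinarith
  have hmem : c ∈ D0 := mem_D0.2 ⟨hc1, hc0⟩
  have hκev : ∀ g : H2, κ g = c * ev g c := by
    intro g
    refine (hκsum g).unique ?_
    have h1 := ((summable_ev g hc1).of_norm.hasSum).mul_left c
    have e : (fun j => (g j : ℂ) * c ^ (j + 1)) = fun i => c * (g i * c ^ i) := by
      funext j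
      ring
    rw [e]
    exact h1
  refine ⟨c, hmem, ?_⟩
  have h3 := hκ (lp.single 2 0 1)
  have h4 := toeplitz_ev' hφ hT (lp.single 2 0 1) hmem
  rw [hκev (T _), h4, ← hc, ev_one] at h3
  have h5 : (Phi γ φ c - μ) * c = 0 := by linear_combination -h3
  rcases mul_eq_zero.1 h5 with h6 | h6
  · exact sub_eq_zero.1 h6
  · exact absurd h6 hc0

end Pool.Agent.V11131.Toep
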