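import Pool.Agent.V11131.Toep8

open Complex Metric Filter Topology
open scoped ENNReal NNReal ComplexConjugate

namespace Pool.Agent.V11131.Toep

/-- Claim B. -/
lemma notMem_spectrum_of_image {γ : ℂ} {φ : ℂ → ℂ} (hφ : DifferentiableOn ℂ φ (ball 0 1))
    (hb : ∃ C : ℝ, ∀ z ∈ ball (0 : ℂ) 1, ‖φ z‖ ≤ C)
    {T : H2 →L[ℂ] H2} (hT : IsToeplitz γ φ T) (hγ : γ ≠ 0)
    (hinj : Set.InjOn (Phi γ φ) D0) (hder : ∀ a ∈ D0, deriv (Phi γ φ) a ≠ 0)
    {a : ℂ} (ha : a ∈ D0) : Phi γ φ a ∉ spectrum ℂ T := by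
  obtain ⟨C, hC⟩ := hb
  obtain ⟨ha1, ha0⟩ := mem_D0.1 ha
  set μ : ℂ := Phi γ φ a with hμ
  set p : ℂ → ℂ := fun z => γ + z * (φ z - μ) with hp
  have hpD : DifferentiableOn ℂ p (ball 0 1) := by
    simp only [hp]
    fun_prop
  have hpΦ : ∀ z ∈ D0, p z = z * (Phi γ φ z - μ) := by
    intro z hz
    have := (mem_D0.1 hz).2
    simp only [hp, Phi]
    field_simp
    ring
  have hpa : p a = 0 := by rw [hpΦ a ha, hμ, sub_self, mul_zero]
  have hp0 : p 0 = γ := by simp [hp]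
  set q : ℂ → ℂ := dslope p a with hq
  have hmemB : a ∈ ball (0 : ℂ) 1 := mem_ball_zero_iff.2 ha1
  have hqD : DifferentiableOn ℂ q (ball 0 1) :=
    (Complex.differentiableOn_dslope (isOpen_ball.mem_nhds hmemB)).2 hpD
  have hqmul : ∀ z, (z - a) * q z = p z := by
    intro z
    have := sub_smul_dslope p a z
    rw [hpa, sub_zero, smul_eq_mul] at this
    exact this
  have hqa : q a = a * deriv (Phi γ φ) a := by
    rw [hq, dslope_same]
    have e : p =ᶠ[𝓝 a] fun z => z * (Phi γ φ z - μ) := by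
      filter_upwards [isOpen_D0.mem_nhds ha] with z hz
      exact hpΦ z hz
    rw [e.deriv_eq, deriv_fun_mul differentiableAt_fun_id
      ((differentiableAt_Phi γ hφ ha).sub_const μ), deriv_sub_const]
    simp [hμ]
  have hqne : ∀ z ∈ ball (0 : ℂ) 1, q z ≠ 0 := by
    intro z hz h0
    have h1 := hqmul z
    rw [h0, mul_zero] at h1
    by_cases hz0 : z = 0
    · rw [hz0, hp0] at h1
      exact hγ h1.symm
    · have hzD : z ∈ D0 := ⟨hz, hz0⟩
      rw [hpΦ z hzD] at h1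
      rcases mul_eq_zero.1 h1.symm with h2 | h2
      · exact hz0 h2
      · have h3 : z = a := hinj hzD ha (sub_eq_zero.1 h2)
        rw [h3, hqa] at h0
        exact (mul_ne_zero ha0 (hder a ha)) h0
  -- a small closed disc around a
  obtain ⟨s, hs0, hs⟩ : ∃ s > 0, closedBall a s ⊆ D0 :=
    Metric.nhds_basis_closedBall.mem_iff.1 (isOpen_D0.mem_nhds ha)
  -- openness of Φ at a
  obtain ⟨ε, hε0, hε⟩ : ∃ ε > 0, ball μ ε ⊆ Phi γ φ '' ball a s := by
    have hst : HasStrictDerivAt (Phi γ φ) (deriv (Phi γ φ) a) a :=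
      ((differentiableOn_Phi γ hφ).analyticAt (isOpen_D0.mem_nhds ha)).hasStrictDerivAt
    have h1 := hst.map_nhds_eq (hder a ha)
    have h2 : Phi γ φ '' ball a s ∈ 𝓝 (Phi γ φ a) := by
      rw [← h1]
      exact image_mem_map (ball_mem_nhds a hs0)
    exact Metric.mem_nhds_iff.1 h2
  have hfar : ∀ z ∈ D0, z ∉ closedBall a s → ε ≤ ‖Phi γ φ z - μ‖ := by
    intro z hz hzs
    by_contra hcon
    push Not at hcon
    obtain ⟨w, hw, hwz⟩ := hε (mem_ball_iff_norm.2 hcon)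
    have h1 : w = z := hinj (hs (ball_subset_closedBall hw)) hz hwz
    rw [h1] at hw
    exact hzs (ball_subset_closedBall hw)
  -- compact part
  set K : Set ℂ := closedBall 0 (1 / 2) ∪ closedBall a s with hK
  have hKc : IsCompact K := (isCompact_closedBall _ _).union (isCompact_closedBall _ _)
  have hKsub : K ⊆ ball 0 1 := by
    intro z hz
    rcases hz with hz | hz
    · exact closedBall_subset_ball (by norm_num) hz
    · exact (hs hz).1
  have hKne : K.Nonempty := ⟨0, Or.inl (mem_closedBall_self (by norm_num))⟩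
  have hqc : ContinuousOn (fun z => ‖q z‖) K := (hqD.continuousOn.mono hKsub).norm
  obtain ⟨z1, hz1, hmin⟩ := hKc.exists_isMinOn hKne hqc
  obtain ⟨z2, hz2, hmax⟩ := hKc.exists_isMaxOn hKne hqc
  have hm0 : 0 < ‖q z1‖ := norm_pos_iff.2 (hqne z1 (hKsub hz1))
  have hsub2 : ∀ z ∈ ball (0 : ℂ) 1, ‖z - a‖ ≤ 2 := by
    intro z hz
    have h1 := norm_sub_le z a
    have h2 := mem_ball_zero_iff.1 hz
    linarith
  have hout : ∀ z ∈ ball (0 : ℂ) 1, z ∉ K → z ∈ D0 ∧ 1 / 2 < ‖z‖ ∧ s < ‖z - a‖ ∧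
      z ∉ closedBall a s := by
    intro z hz hzK
    have h1 : z ∉ closedBall (0 : ℂ) (1 / 2) := fun h => hzK (Or.inl h)
    have h2 : z ∉ closedBall a s := fun h => hzK (Or.inr h)
    rw [mem_closedBall_zero_iff, not_le] at h1
    have h3 := h2
    rw [mem_closedBall_iff_norm, not_le] at h3
    refine ⟨mem_D0.2 ⟨mem_ball_zero_iff.1 hz, ?_⟩, h1, h3, h2⟩
    rintro rfl
    rw [norm_zero] at h1
    norm_num at h1
  have hlow : ∀ z ∈ ball (0 : ℂ) 1, min ‖q z1‖ (ε / 4) ≤ ‖q z‖ := by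
    intro z hz
    by_cases hzK : z ∈ K
    · exact (min_le_left _ _).trans (hmin hzK)
    · obtain ⟨h1, h2, h3, h4⟩ := hout z hz hzK
      refine (min_le_right _ _).trans ?_
      have h5 := congrArg norm (hqmul z)
      rw [hpΦ z h1, norm_mul, norm_mul] at h5
      have h6 := hfar z h1 h4
      have h7 := hsub2 z hz
      have h8 : 1 / 2 * ε ≤ ‖z‖ * ‖Phi γ φ z - μ‖ := by gcongr
      have h9 : ‖z - a‖ * ‖q z‖ ≤ 2 * ‖q z‖ := by gcongr
      linarith
  have hC0 : 0 ≤ C := (norm_nonneg _).trans (hC 0 (mem_ball_self one_pos))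
  have hup : ∀ z ∈ ball (0 : ℂ) 1, ‖q z‖ ≤ max ‖q z2‖ ((‖γ‖ + (C + ‖μ‖)) / s) := by
    intro z hz
    by_cases hzK : z ∈ K
    · exact (hmax hzK).trans (le_max_left _ _)
    · obtain ⟨h1, h2, h3, h4⟩ := hout z hz hzK
      refine le_trans ?_ (le_max_right _ _)
      rw [le_div_iff₀ hs0]
      have h5 := congrArg norm (hqmul z)
      rw [norm_mul] at h5
      have h6 : ‖p z‖ ≤ ‖γ‖ + (C + ‖μ‖) := by
        simp only [hp]
        refine (norm_add_le _ _).trans ?_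
        have h7 : ‖φ z - μ‖ ≤ C + ‖μ‖ := (norm_sub_le _ _).trans (by linarith [hC z hz])
        have h8 : ‖z‖ ≤ 1 := (mem_ball_zero_iff.1 hz).le
        rw [norm_mul]
        have h9 : ‖z‖ * ‖φ z - μ‖ ≤ 1 * (C + ‖μ‖) := by gcongr
        linarith
      calc ‖q z‖ * s ≤ ‖q z‖ * ‖z - a‖ := by gcongr
        _ = ‖p z‖ := by rw [mul_comm]; exact h5
        _ ≤ _ := h6
  -- the multiplication operators
  obtain ⟨Q, hQ⟩ := exists_mul' hqD hup
  have hqiD : DifferentiableOn ℂ (fun z => (q z)⁻¹) (ball 0 1) := hqD.inv hqne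
  have hlowpos : 0 < min ‖q z1‖ (ε / 4) := lt_min hm0 (by positivity)
  obtain ⟨Q', hQ'⟩ := exists_mul' (ψ := fun z => (q z)⁻¹) hqiD
    (C := (min ‖q z1‖ (ε / 4))⁻¹) (fun z hz => by
      rw [norm_inv]
      exact inv_anti₀ hlowpos (hlow z hz))
  have hQQ' : Q * Q' = 1 := by
    ext1 g
    apply ev_ext
    intro z hz
    rw [mul_apply_eq_comp, hQ _ _ hz, hQ' _ _ hz, ← mul_assoc,
      mul_inv_cancel₀ (hqne z (mem_ball_zero_iff.2 hz)), one_mul]
    rfl
  have hQ'Q : Q' * Q = 1 := by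
    ext1 g
    apply ev_ext
    intro z hz
    rw [mul_apply_eq_comp, hQ' _ _ hz, hQ _ _ hz, ← mul_assoc,
      inv_mul_cancel₀ (hqne z (mem_ball_zero_iff.2 hz)), one_mul]
    rfl
  have hQu : IsUnit Q := ⟨⟨Q, Q', hQQ', hQ'Q⟩, rfl⟩
  obtain ⟨B, hB1, hB⟩ := exists_backward
  have hBu : IsUnit (1 - a • B) := by
    have : ‖a • B‖ < 1 := by
      rw [norm_smul]
      nlinarith [norm_nonneg a, norm_nonneg B]
    exact (Units.oneSub (a • B) this).isUnit
  have hfac : T - algebraMap ℂ (H2 →L[ℂ] H2) μ = (1 - a • B) * Q := by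
    ext1 g
    apply ev_ext'
    intro z hz
    obtain ⟨hz1, hz0⟩ := mem_D0.1 hz
    have e1 : (T - algebraMap ℂ (H2 →L[ℂ] H2) μ) g = T g + (-μ) • g := by
      rw [sub_apply, neg_smul, ← sub_eq_add_neg]
      rfl
    have e2 : ((1 - a • B) * Q) g = Q g + (-a) • B (Q g) := by
      rw [mul_apply_eq_comp, sub_apply, neg_smul, ← sub_eq_add_neg, smul_apply]
      rfl
    rw [e1, e2, ev_add _ _ hz1, ev_add _ _ hz1, ev_smul, ev_smul]
    apply mul_left_cancel₀ hz0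
    have h1 := toeplitz_ev hφ hT g hz1
    have h2 := ev_backward hB (Q g) hz1
    have h3 := hQ g z hz1
    have h4 : (Q g) 0 = q 0 * g 0 := by
      rw [← ev_zero, hQ g 0 (by simp), ev_zero]
    have h5 := hqmul z
    have h6 := hqmul 0
    rw [hp0, zero_sub] at h6
    rw [h4] at h2
    rw [h3] at h2
    rw [h3]
    have h7 : p z = γ + z * (φ z - μ) := rfl
    rw [h7] at h5
    linear_combination h1 + a * h2 - (ev g z) * h5 + (g 0) * h6
  rw [spectrum.notMem_iff]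
  have h1 : IsUnit (T - algebraMap ℂ (H2 →L[ℂ] H2) μ) := by
    rw [hfac]
    exact hBu.mul hQu
  have h2 := h1.neg
  rwa [neg_sub] at h2

/-- The spectrum of a hypercyclic `T_Φ` is the complement of `Φ(𝔻 ∖ {0})`, and the open unit disc
meets it. -/
theorem spectrum_hypercyclic {γ : ℂ} {φ : ℂ → ℂ} (hφ : DifferentiableOn ℂ φ (ball 0 1))
    (hb : ∃ C : ℝ, ∀ z ∈ ball (0 : ℂ) 1, ‖φ z‖ ≤ C)
    {T : H2 →L[ℂ] H2} (hT : IsToeplitz γ φ T) (h : Hypercyclic T) :
    spectrum ℂ T = (Phi γ φ '' D0)ᶜ ∧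
      ball (0 : ℂ) 1 ∩ spectrum ℂ T = ball (0 : ℂ) 1 ∩ (Phi γ φ '' D0)ᶜ ∧
      (ball (0 : ℂ) 1 ∩ spectrum ℂ T).Nonempty := by
  have hγ := gamma_ne hT h
  have hinj := injOn_Phi hφ hT h
  have hder : ∀ a ∈ D0, deriv (Phi γ φ) a ≠ 0 := fun a ha => deriv_Phi_ne hφ hT h ha
  have heq : spectrum ℂ T = (Phi γ φ '' D0)ᶜ := by
    ext μ
    constructor
    · rintro hμ ⟨a, ha, rfl⟩
      exact notMem_spectrum_of_image hφ hb hT hγ hinj hder ha hμ
    · intro hμ
      by_contra hcon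
      exact hμ (mem_image_of_notMem_spectrum hφ hT hγ hcon)
  refine ⟨heq, by rw [heq], ?_⟩
  rw [heq]
  obtain ⟨w, hw, hw2⟩ := Set.not_subset.1 (not_subset hφ hT h)
  exact ⟨w, hw, hw2⟩

end Pool.Agent.V11131.Toep
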